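import Mathlib

open Complex Metric Set MeasureTheory Real Filter Topology

namespace Pool.Agent.helper70

/-- Mellin transforms are bounded on vertical strips. -/
lemma mellin_bounded {f : ℝ → ℂ} {a b : ℝ} (ha : MellinConvergent f a)
    (hb : MellinConvergent f b) :
    ∃ C : ℝ, 0 ≤ C ∧ ∀ s : ℂ, a ≤ s.re → s.re ≤ b → ‖mellin f s‖ ≤ C := by
  have nrm : ∀ (s : ℂ) (t : ℝ), t ∈ Ioi (0:ℝ) →
      ‖(t : ℂ) ^ (s - 1) • f t‖ = t ^ (s.re - 1) * ‖f t‖ := by
    intro s t ht
    rw [norm_smul, Complex.norm_cpow_eq_rpow_re_of_pos ht]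
    simp
  have ia := ha.norm
  have ib := hb.norm
  refine ⟨∫ t in Ioi (0:ℝ), (‖(t : ℂ) ^ ((a : ℂ) - 1) • f t‖ + ‖(t : ℂ) ^ ((b : ℂ) - 1) • f t‖),
    integral_nonneg fun t => by positivity, fun s has hsb => ?_⟩
  rw [mellin]
  refine (norm_integral_le_integral_norm _).trans ?_
  refine integral_mono_of_nonneg (Eventually.of_forall fun t => norm_nonneg _) (ia.add ib) ?_
  refine (ae_restrict_iff' measurableSet_Ioi).2 (Eventually.of_forall fun t ht => ?_)
  simp only
  rw [nrm s t ht, nrm a t ht, nrm b t ht, ← add_mul]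
  refine mul_le_mul_of_nonneg_right ?_ (norm_nonneg _)
  have ht0 : (0:ℝ) < t := ht
  simp only [ofReal_re]
  rcases le_total t 1 with h1 | h1
  · have : t ^ (s.re - 1) ≤ t ^ (a - 1) :=
      Real.rpow_le_rpow_of_exponent_ge ht0 h1 (by linarith)
    have := Real.rpow_nonneg ht0.le (b - 1)
    linarith
  · have : t ^ (s.re - 1) ≤ t ^ (b - 1) :=
      Real.rpow_le_rpow_of_exponent_le h1 (by linarith)
    have := Real.rpow_nonneg ht0.le (a - 1)
    linarith

lemma completedZeta0_bounded (A : ℝ) :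
    ∃ C : ℝ, 0 ≤ C ∧ ∀ s : ℂ, |s.re| ≤ A → ‖completedRiemannZeta₀ s‖ ≤ C := by
  set P := HurwitzZeta.hurwitzEvenFEPair 0 with hP
  have hc : ∀ s : ℂ, MellinConvergent P.f_modif s := fun s =>
    (P.isStrongFEPair_toStrongFEPair.hasMellin s).1
  obtain ⟨C, hC0, hC⟩ := mellin_bounded (a := -A / 2) (b := A / 2) (hc _) (hc _)
  refine ⟨C, hC0, fun s hs => ?_⟩
  have h1 : completedRiemannZeta₀ s = mellin P.f_modif (s / 2) / 2 := rfl
  rw [h1, norm_div]
  have h2 := abs_le.1 hs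
  have h3 : (s / 2).re = s.re / 2 := by simp
  have := hC (s / 2) (by rw [h3]; linarith) (by rw [h3]; linarith)
  have h4 : ‖(2:ℂ)‖ = 2 := by simp
  rw [h4]
  linarith [norm_nonneg (mellin P.f_modif (s / 2))]

lemma norm_Gamma_le_re {w : ℂ} (hw : 0 < w.re) : ‖Complex.Gamma w‖ ≤ Real.Gamma w.re := by
  rw [Complex.Gamma_eq_integral hw, Complex.GammaIntegral, Real.Gamma_eq_integral hw]
  refine (norm_integral_le_integral_norm _).trans (le_of_eq ?_)
  refine setIntegral_congr_fun measurableSet_Ioi fun t ht => ?_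
  rw [norm_mul, Complex.norm_cpow_eq_rpow_re_of_pos ht, Complex.norm_real,
    Real.norm_of_nonneg (Real.exp_pos _).le]
  simp

lemma norm_sin_le (z : ℂ) : ‖Complex.sin z‖ ≤ Real.exp |z.im| := by
  rw [Complex.sin, norm_div, norm_mul, norm_I, mul_one]
  have h1 := norm_sub_le (Complex.exp (-z * I)) (Complex.exp (z * I))
  rw [Complex.norm_exp, Complex.norm_exp] at h1
  have e1 : (-z * I).re = z.im := by simp
  have e2 : (z * I).re = -z.im := by simp
  rw [e1, e2] at h1
  have h2 := Real.exp_le_exp.2 (le_abs_self z.im)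
  have h3 := Real.exp_le_exp.2 (neg_le_abs z.im)
  have h4 : ‖(2:ℂ)‖ = 2 := by simp
  rw [h4]
  linarith

lemma norm_cos_le (z : ℂ) : ‖Complex.cos z‖ ≤ Real.exp |z.im| := by
  rw [Complex.cos, norm_div]
  have h1 := norm_add_le (Complex.exp (z * I)) (Complex.exp (-z * I))
  rw [Complex.norm_exp, Complex.norm_exp] at h1
  have e1 : (-z * I).re = z.im := by simp
  have e2 : (z * I).re = -z.im := by simp
  rw [e1, e2] at h1
  have h2 := Real.exp_le_exp.2 (le_abs_self z.im)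
  have h3 := Real.exp_le_exp.2 (neg_le_abs z.im)
  have h4 : ‖(2:ℂ)‖ = 2 := by simp
  rw [h4]
  linarith

/-- product formula `Γ(w + k) = Γ(w) ∏ (w + j)` for non-real `w` -/
lemma Gamma_add_nat {w : ℂ} (hw : w.im ≠ 0) (k : ℕ) :
    Complex.Gamma (w + k) = Complex.Gamma w * ∏ j ∈ Finset.range k, (w + j) := by
  induction k with
  | zero => simp
  | succ k ih =>
    have h0 : w + k ≠ 0 := by
      intro h; apply hw
      have := congrArg Complex.im h
      simpa using this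
    push_cast
    rw [← add_assoc, Complex.Gamma_add_one _ h0, ih, Finset.prod_range_succ]
    ring

lemma one_le_prod_norm {w : ℂ} (hw : 1 ≤ |w.im|) (k : ℕ) :
    1 ≤ ‖∏ j ∈ Finset.range k, (w + j)‖ := by
  rw [norm_prod]
  have : ∀ j ∈ Finset.range k, (1:ℝ) ≤ ‖w + j‖ := by
    intro j _
    refine hw.trans ?_
    have := Complex.abs_im_le_norm (w + j)
    simpa using this
  calc (1:ℝ) = ∏ j ∈ Finset.range k, 1 := by simp
    _ ≤ _ := Finset.prod_le_prod (fun _ _ => zero_le_one) this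

/-- `Γ` is bounded on vertical strips away from the real axis -/
lemma Gamma_bounded (A : ℝ) : ∃ C : ℝ, 0 ≤ C ∧ ∀ w : ℂ, |w.re| ≤ A → 1 ≤ |w.im| →
    ‖Complex.Gamma w‖ ≤ C := by
  obtain ⟨k, hk⟩ := exists_nat_gt A
  have hA : ∀ w : ℂ, |w.re| ≤ A → 0 ≤ A := fun w hw => (abs_nonneg _).trans hw
  -- bound of the real Gamma on a compact interval
  have hc : ContinuousOn Real.Gamma (Icc (k - A) (k + A)) := by
    intro x hx
    refine (Real.differentiableAt_Gamma fun m => ?_).continuousAt.continuousWithinAt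
    have h1 : 0 < x := by linarith [hx.1]
    have : (0:ℝ) ≤ m := Nat.cast_nonneg m
    intro h; linarith
  obtain ⟨C, hC⟩ := (isCompact_Icc.image_of_continuousOn hc).bddAbove
  refine ⟨max C 0, le_max_right _ _, fun w hw hi => ?_⟩
  have h0 : w.im ≠ 0 := by
    intro h; rw [h] at hi; norm_num at hi
  have h1 := Gamma_add_nat h0 k
  have h2 := abs_le.1 hw
  have hre : (w + k).re = w.re + k := by simp
  have h3 : ‖Complex.Gamma (w + k)‖ ≤ C := by
    refine (norm_Gamma_le_re (by rw [hre]; linarith)).trans (hC ⟨_, ⟨?_, ?_⟩, rfl⟩)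
    · rw [hre]; linarith
    · rw [hre]; linarith
  have h4 := one_le_prod_norm hi k
  rw [h1, norm_mul] at h3
  have : ‖Complex.Gamma w‖ ≤ ‖Complex.Gamma w‖ * ‖∏ j ∈ Finset.range k, (w + j)‖ :=
    le_mul_of_one_le_right (norm_nonneg _) h4
  exact (this.trans h3).trans (le_max_left _ _)

/-- crude bound for `1 / Γ` on vertical strips away from the real axis -/
lemma inv_Gamma_bounded (A : ℝ) : ∃ C : ℝ, 0 ≤ C ∧ ∀ w : ℂ, |w.re| ≤ A → 1 ≤ |w.im| →
    ‖(Complex.Gamma w)⁻¹‖ ≤ C * Real.exp (π * |w.im|) := by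
  obtain ⟨C, hC0, hC⟩ := Gamma_bounded (1 + A)
  refine ⟨C, hC0, fun w hw hi => ?_⟩
  have h0 : w.im ≠ 0 := by
    intro h; rw [h] at hi; norm_num at hi
  have hsin : Complex.sin (π * w) ≠ 0 := by
    rw [Ne, Complex.sin_eq_zero_iff]
    rintro ⟨k, hk⟩
    have := congrArg Complex.im hk
    simp [Real.pi_ne_zero] at this
    exact h0 this
  have h1 := Complex.Gamma_mul_Gamma_one_sub w
  have hG : Complex.Gamma w ≠ 0 := by
    intro h
    rw [h, zero_mul] at h1
    have : (π : ℂ) / Complex.sin (π * w) ≠ 0 := div_ne_zero (by exact_mod_cast Real.pi_ne_zero) hsin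
    exact this h1.symm
  have h2 : (Complex.Gamma w)⁻¹ = Complex.Gamma (1 - w) * Complex.sin (π * w) / π := by
    have hpi : (π : ℂ) ≠ 0 := by exact_mod_cast Real.pi_ne_zero
    have h1' : Complex.Gamma w * Complex.Gamma (1 - w) * Complex.sin (π * w) = π := by
      rw [h1, div_mul_cancel₀ _ hsin]
    rw [eq_div_iff hpi, inv_mul_eq_iff_eq_mul₀ hG]
    linear_combination -h1'
  rw [h2, norm_div, norm_mul]
  have h3 : ‖Complex.Gamma (1 - w)‖ ≤ C := by
    refine hC _ ?_ (by simpa using hi)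
    have := abs_sub 1 w.re
    simp only [sub_re, one_re]
    simp only [abs_one] at this
    linarith
  have h4 := norm_sin_le (π * w)
  have h5 : ((π : ℂ) * w).im = π * w.im := by simp
  rw [h5, abs_mul, abs_of_pos Real.pi_pos] at h4
  have h6 : ‖(π : ℂ)‖ = π := by simp [abs_of_pos Real.pi_pos]
  rw [h6, div_le_iff₀ Real.pi_pos]
  have h7 : ‖Complex.Gamma (1 - w)‖ * ‖Complex.sin (π * w)‖ ≤ C * Real.exp (π * |w.im|) :=
    mul_le_mul h3 h4 (norm_nonneg _) hC0
  have h8 : 1 ≤ π := by linarith [Real.pi_gt_three]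
  have h9 : 0 ≤ C * Real.exp (π * |w.im|) := by positivity
  nlinarith

/-- crude growth bound for the zeta function on vertical strips -/
theorem zeta_growth (A : ℝ) : ∃ C : ℝ, 0 < C ∧ ∀ s : ℂ, |s.re| ≤ A → 2 ≤ |s.im| →
    ‖riemannZeta s‖ ≤ C * Real.exp (2 * |s.im|) := by
  obtain ⟨C1, hC10, hC1⟩ := completedZeta0_bounded A
  obtain ⟨C2, hC20, hC2⟩ := inv_Gamma_bounded A
  set K : ℝ := (C1 + 2) * (π ^ (A / 2) * C2) + 1 with hK
  refine ⟨K, by positivity, fun s hs hi => ?_⟩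
  have hs0 : s ≠ 0 := by
    intro h; rw [h] at hi; norm_num at hi
  have hpi : 1 ≤ π := by linarith [Real.pi_gt_three]
  have him1 : 1 ≤ |s.im| := by linarith
  have hn1 : 1 ≤ ‖s‖ := him1.trans (Complex.abs_im_le_norm s)
  have hn2 : 1 ≤ ‖1 - s‖ := by
    refine him1.trans ?_
    have := Complex.abs_im_le_norm (1 - s)
    simpa using this
  have hnum : ‖completedRiemannZeta₀ s - 1 / s - 1 / (1 - s)‖ ≤ C1 + 2 := by
    have h1 := norm_sub_le (completedRiemannZeta₀ s - 1 / s) (1 / (1 - s))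
    have h2 := norm_sub_le (completedRiemannZeta₀ s) (1 / s)
    have h3 : ‖1 / s‖ ≤ 1 := by
      rw [norm_div, norm_one]; exact div_le_one_of_le₀ hn1 (norm_nonneg _)
    have h4 : ‖1 / (1 - s)‖ ≤ 1 := by
      rw [norm_div, norm_one]; exact div_le_one_of_le₀ hn2 (norm_nonneg _)
    have h5 := hC1 s hs
    linarith
  have hA0 : 0 ≤ A := (abs_nonneg _).trans hs
  have h2 : (s / 2).re = s.re / 2 := by simp
  have h3 : (s / 2).im = s.im / 2 := by simp
  have hden : ‖(Complex.Gamma (s / 2))⁻¹‖ ≤ C2 * Real.exp (π * (|s.im| / 2)) := by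
    have := hC2 (s / 2) (by rw [h2, abs_div, abs_two]; linarith)
      (by rw [h3, abs_div, abs_two]; linarith)
    rwa [h3, abs_div, abs_two] at this
  have hpow : ‖((π : ℂ) ^ (-s / 2))⁻¹‖ ≤ π ^ (A / 2) := by
    rw [← Complex.cpow_neg, Complex.norm_cpow_eq_rpow_re_of_pos Real.pi_pos]
    refine Real.rpow_le_rpow_of_exponent_le hpi ?_
    have h4 : (-(-s / 2)).re = s.re / 2 := by simp [neg_div]
    rw [h4]
    linarith [le_abs_self s.re]
  rw [riemannZeta_eq_completedRiemannZeta₀ hs0, div_eq_mul_inv, mul_inv, norm_mul, norm_mul]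
  have h5 : π * (|s.im| / 2) ≤ 2 * |s.im| := by
    have := Real.pi_lt_four
    nlinarith [abs_nonneg s.im]
  have h6 := Real.exp_le_exp.2 h5
  calc ‖completedRiemannZeta₀ s - 1 / s - 1 / (1 - s)‖ *
        (‖((π : ℂ) ^ (-s / 2))⁻¹‖ * ‖(Complex.Gamma (s / 2))⁻¹‖)
      ≤ (C1 + 2) * (π ^ (A / 2) * (C2 * Real.exp (2 * |s.im|))) := by
        gcongr
        exact hden.trans (by gcongr)
    _ = ((C1 + 2) * (π ^ (A / 2) * C2)) * Real.exp (2 * |s.im|) := by ring
    _ ≤ K * Real.exp (2 * |s.im|) := by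
        gcongr
        rw [hK]; linarith

end Pool.Agent.helper70
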