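import Mathlib
import Pool.Agent.helper70.ZetaGrowth

open Complex Metric Set MeasureTheory Real Filter Topology

namespace Pool.Agent.helper70

lemma norm_Gamma_half (t : ℝ) : ‖Complex.Gamma (1 / 2 + t * I)‖ ^ 2 = π / Real.cosh (π * t) := by
  have h1 := Complex.Gamma_mul_Gamma_one_sub (1 / 2 + t * I)
  have h2 : (1 : ℂ) - (1 / 2 + t * I) = (starRingEnd ℂ) (1 / 2 + t * I) := by
    simp only [map_add, map_mul, conj_I, conj_ofReal, map_div₀, map_one, map_ofNat]
    ring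
  rw [h2, Complex.Gamma_conj, Complex.mul_conj, Complex.normSq_eq_norm_sq] at h1
  have h3 : Complex.sin (π * (1 / 2 + t * I)) = (Real.cosh (π * t) : ℝ) := by
    have : (π : ℂ) * (1 / 2 + t * I) = (π * t * I) + π / 2 := by ring
    rw [this, Complex.sin_add_pi_div_two]
    have h5 : (π : ℂ) * t * I = ((π * t : ℝ) : ℂ) * I := by push_cast; ring
    rw [h5, Complex.cos_mul_I, Complex.ofReal_cosh]
  rw [h3] at h1
  exact_mod_cast h1

lemma norm_cos_sq (x y : ℝ) :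
    ‖Complex.cos (x + y * I)‖ ^ 2 = Real.cos x ^ 2 + Real.sinh y ^ 2 := by
  rw [← Complex.normSq_eq_norm_sq, Complex.cos_add_mul_I, Complex.normSq_apply]
  have e1 : (Complex.cos x * Complex.cosh y - Complex.sin x * Complex.sinh y * I) =
      ((Real.cos x * Real.cosh y : ℝ) : ℂ) + ((-(Real.sin x * Real.sinh y) : ℝ) : ℂ) * I := by
    push_cast; ring
  rw [e1]
  simp only [add_re, ofReal_re, mul_re, I_re, mul_zero, ofReal_im, I_im, mul_one, sub_self,
    add_zero, add_im, mul_im, zero_add]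
  have h1 := Real.cosh_sq y
  have h2 := Real.sin_sq_add_cos_sq x
  have h3 : Real.sin x ^ 2 = 1 - Real.cos x ^ 2 := by linarith
  ring_nf
  rw [h1, h3]
  ring

lemma norm_cos_line (N : ℕ) (t : ℝ) :
    ‖Complex.cos (π * ((N : ℂ) + 1 / 2 + t * I) / 2)‖ ^ 2 = Real.cosh (π * t) / 2 := by
  have e : (π : ℂ) * ((N : ℂ) + 1 / 2 + t * I) / 2 =
      ((N * (π / 2) + π / 4 : ℝ) : ℂ) + ((π * t / 2 : ℝ) : ℂ) * I := by
    push_cast; ring
  rw [e, norm_cos_sq]
  have h1 : Real.cos (N * (π / 2) + π / 4) ^ 2 = 1 / 2 := by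
    rw [Real.cos_sq]
    have : 2 * ((N : ℝ) * (π / 2) + π / 4) = N * π + π / 2 := by ring
    rw [this, Real.cos_add_pi_div_two, Real.sin_nat_mul_pi]
    ring
  have h2 : Real.cosh (π * t) = 1 + 2 * Real.sinh (π * t / 2) ^ 2 := by
    have h3 : π * t = 2 * (π * t / 2) := by ring
    rw [h3, Real.cosh_two_mul, Real.cosh_sq]
    have h4 : 2 * (π * t / 2) / 2 = π * t / 2 := by ring
    rw [h4]
    ring
  rw [h1, h2]
  ring

/-- the product `∏_{j<N} |j + 1/2 + it|` -/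
noncomputable def PP (N : ℕ) (t : ℝ) : ℝ := ∏ j ∈ Finset.range N, ‖((j : ℂ) + 1 / 2 + t * I)‖

lemma PP_nonneg (N : ℕ) (t : ℝ) : 0 ≤ PP N t := Finset.prod_nonneg fun _ _ => norm_nonneg _

lemma PP_lower (N : ℕ) (t : ℝ) : |t| ^ N ≤ PP N t := by
  have h0 : |t| ^ N = ∏ j ∈ Finset.range N, |t| := by
    rw [Finset.prod_const, Finset.card_range]
  rw [PP, h0]
  refine Finset.prod_le_prod (fun _ _ => abs_nonneg _) fun j _ => ?_
  have := Complex.abs_im_le_norm ((j : ℂ) + 1 / 2 + t * I)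
  simpa using this

lemma PP_upper (N : ℕ) (t : ℝ) : PP N t ≤ (|t| + N) ^ N := by
  rw [PP]
  have : (|t| + N) ^ N = ∏ j ∈ Finset.range N, (|t| + N) := by
    rw [Finset.prod_const, Finset.card_range]
  rw [this]
  refine Finset.prod_le_prod (fun _ _ => norm_nonneg _) fun j hj => ?_
  have hj' : (j : ℝ) + 1 ≤ N := by exact_mod_cast Finset.mem_range.1 hj
  have h1 := norm_add_le ((j : ℂ) + 1 / 2) (t * I)
  have h2 : ‖(j : ℂ) + 1 / 2‖ = j + 1 / 2 := by
    have : ((j : ℂ) + 1 / 2) = (((j : ℝ) + 1 / 2 : ℝ) : ℂ) := by push_cast; ring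
    rw [this, Complex.norm_real, Real.norm_eq_abs, abs_of_nonneg (by positivity)]
  have h3 : ‖(t : ℂ) * I‖ = |t| := by simp
  rw [h2, h3] at h1
  linarith

/-- modulus of zeta on the lines `Re s = 1/2 - N` -/
lemma norm_zeta_line (N : ℕ) {t : ℝ} (ht : t ≠ 0) :
    ‖riemannZeta (1 / 2 - N + t * I)‖ =
      (2 * π) ^ (-(N : ℝ)) * PP N t * ‖riemannZeta (N + 1 / 2 - t * I)‖ := by
  set s : ℂ := N + 1 / 2 + (-t : ℝ) * I with hs
  have him : s.im = -t := by simp [hs]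
  have hs1 : ∀ n : ℕ, s ≠ -n := by
    intro n h
    have := congrArg Complex.im h
    rw [him] at this
    simp at this
    exact ht this
  have hs2 : s ≠ 1 := by
    intro h
    have := congrArg Complex.im h
    rw [him] at this
    simp at this
    exact ht this
  have h0 := riemannZeta_one_sub hs1 hs2
  have e1 : (1 : ℂ) - s = 1 / 2 - N + t * I := by rw [hs]; push_cast; ring
  have e2 : (N : ℂ) + 1 / 2 - t * I = s := by rw [hs]; push_cast; ring
  rw [← e1, e2, h0, norm_mul, norm_mul, norm_mul, norm_mul]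
  have n1 : ‖(2:ℂ)‖ = 2 := by simp
  have n2 : ‖(2 * (π : ℂ)) ^ (-s)‖ = (2 * π) ^ (-((N : ℝ) + 1 / 2)) := by
    have : (2 * (π : ℂ)) = ((2 * π : ℝ) : ℂ) := by push_cast; ring
    rw [this, Complex.norm_cpow_eq_rpow_re_of_pos (by positivity)]
    congr 1
    simp [hs]
  have hne : ((1 / 2 + (-t : ℝ) * I) : ℂ).im ≠ 0 := by simpa using ht
  have n3 : Complex.Gamma s = Complex.Gamma (1 / 2 + (-t : ℝ) * I) *
      ∏ j ∈ Finset.range N, ((1 / 2 + (-t : ℝ) * I) + j) := by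
    rw [← Gamma_add_nat hne]
    congr 1
    rw [hs]; ring
  have n4 : ‖∏ j ∈ Finset.range N, (((1 : ℂ) / 2 + (-t : ℝ) * I) + j)‖ = PP N t := by
    rw [norm_prod, PP]
    refine Finset.prod_congr rfl fun j _ => ?_
    have : ((1 : ℂ) / 2 + (-t : ℝ) * I) + j = (starRingEnd ℂ) ((j : ℂ) + 1 / 2 + t * I) := by
      simp only [map_add, map_mul, conj_I, conj_ofReal, map_div₀, map_one, map_ofNat,
        Complex.conj_natCast]
      push_cast
      ring
    rw [this, Complex.norm_conj]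
  have n5 : ‖Complex.cos (π * s / 2)‖ ^ 2 = Real.cosh (π * t) / 2 := by
    rw [hs, norm_cos_line]
    have : π * -t = -(π * t) := by ring
    rw [this, Real.cosh_neg]
  have n6 : ‖Complex.Gamma (1 / 2 + (-t : ℝ) * I)‖ ^ 2 = π / Real.cosh (π * t) := by
    rw [norm_Gamma_half]
    have : π * -t = -(π * t) := by ring
    rw [this, Real.cosh_neg]
  have hcosh := Real.cosh_pos (π * t)
  have n7 : ‖Complex.Gamma (1 / 2 + (-t : ℝ) * I)‖ * ‖Complex.cos (π * s / 2)‖ = √(π / 2) := by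
    rw [eq_comm, Real.sqrt_eq_iff_mul_self_eq (by positivity) (by positivity)]
    have : ‖Complex.Gamma (1 / 2 + (-t : ℝ) * I)‖ * ‖Complex.cos (π * s / 2)‖ *
        (‖Complex.Gamma (1 / 2 + (-t : ℝ) * I)‖ * ‖Complex.cos (π * s / 2)‖) =
        ‖Complex.Gamma (1 / 2 + (-t : ℝ) * I)‖ ^ 2 * ‖Complex.cos (π * s / 2)‖ ^ 2 := by ring
    rw [this, n5, n6]
    field_simp
  have n8 : 2 * (2 * π) ^ (-((N : ℝ) + 1 / 2)) * √(π / 2) = (2 * π) ^ (-(N : ℝ)) := by
    have hp : 0 < 2 * π := by positivity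
    rw [neg_add, Real.rpow_add hp]
    have h1 : (2 * π) ^ (-(1 / 2) : ℝ) = (√(2 * π))⁻¹ := by
      rw [Real.rpow_neg hp.le, Real.sqrt_eq_rpow]
    have h2 : √(π / 2) = √(2 * π) / 2 := by
      rw [Real.sqrt_eq_iff_mul_self_eq (by positivity) (by positivity)]
      have := Real.mul_self_sqrt hp.le
      have h9 : √(2 * π) / 2 * (√(2 * π) / 2) = (√(2 * π) * √(2 * π)) / 4 := by ring
      rw [h9, this]; ring
    rw [h1, h2]
    have h3 : √(2 * π) ≠ 0 := (Real.sqrt_pos.2 hp).ne'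
    field_simp
  rw [n1, n2, n3, norm_mul, n4, ← n8, ← n7]
  ring

/-- the constant `ζ(3/2)` -/
noncomputable def ZZ : ℝ := ∑' n : ℕ, 1 / ((n : ℝ) + 1) ^ (3 / 2 : ℝ)

lemma summable_ZZ : Summable fun n : ℕ => 1 / ((n : ℝ) + 1) ^ (3 / 2 : ℝ) := by
  have := (Real.summable_one_div_nat_rpow (p := 3 / 2)).2 (by norm_num)
  have h2 := (summable_nat_add_iff 1).2 this
  simpa using h2

lemma ZZ_pos : 0 < ZZ := by
  refine summable_ZZ.tsum_pos (fun n => by positivity) 0 (by norm_num)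

lemma norm_zeta_le {s : ℂ} (hs : 3 / 2 ≤ s.re) : ‖riemannZeta s‖ ≤ ZZ := by
  rw [zeta_eq_tsum_one_div_nat_add_one_cpow (by linarith)]
  refine tsum_of_norm_bounded summable_ZZ.hasSum fun n => ?_
  have h1 : ((n : ℂ) + 1) = (((n : ℝ) + 1 : ℝ) : ℂ) := by push_cast; ring
  rw [norm_div, norm_one, h1, Complex.norm_cpow_eq_rpow_re_of_pos (by positivity)]
  have h2 : (1:ℝ) ≤ (n : ℝ) + 1 := by
    have : (0:ℝ) ≤ n := Nat.cast_nonneg n
    linarith
  exact one_div_le_one_div_of_le (by positivity) (Real.rpow_le_rpow_of_exponent_le h2 hs)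

lemma norm_moebius_le {s : ℂ} (hs : 3 / 2 ≤ s.re) :
    ‖LSeries (fun n => (ArithmeticFunction.moebius n : ℂ)) s‖ ≤ ZZ := by
  have h1 : ∀ n : ℕ, ‖LSeries.term (fun n => (ArithmeticFunction.moebius n : ℂ)) s n‖ ≤
      1 / (n : ℝ) ^ (3 / 2 : ℝ) := by
    intro n
    rcases Nat.eq_zero_or_pos n with h | h
    · subst h; simp
    · rw [LSeries.term_of_ne_zero h.ne', norm_div, Complex.norm_natCast_cpow_of_pos h]
      have h3 : ‖(ArithmeticFunction.moebius n : ℂ)‖ ≤ 1 := by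
        have := ArithmeticFunction.abs_moebius_le_one (n := n)
        rw [Complex.norm_intCast]
        exact_mod_cast this
      have h4 : (1:ℝ) ≤ n := by exact_mod_cast h
      exact div_le_div₀ zero_le_one h3 (by positivity) (Real.rpow_le_rpow_of_exponent_le h4 hs)
  have hs0 := (Real.summable_one_div_nat_rpow (p := 3 / 2)).2 (by norm_num)
  have h2 : ‖∑' n, LSeries.term (fun n => (ArithmeticFunction.moebius n : ℂ)) s n‖ ≤
      ∑' n : ℕ, 1 / (n : ℝ) ^ (3 / 2 : ℝ) := tsum_of_norm_bounded hs0.hasSum h1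
  rw [LSeries]
  refine h2.trans (le_of_eq ?_)
  rw [hs0.tsum_eq_zero_add, ZZ]
  simp

lemma zeta_mul_moebius {s : ℂ} (hs : 1 < s.re) :
    riemannZeta s * LSeries (fun n => (ArithmeticFunction.moebius n : ℂ)) s = 1 := by
  have := ArithmeticFunction.LSeries_zeta_mul_Lseries_moebius hs
  rwa [ArithmeticFunction.LSeries_zeta_eq_riemannZeta hs] at this

lemma norm_zeta_ge {s : ℂ} (hs : 3 / 2 ≤ s.re) : 1 / ZZ ≤ ‖riemannZeta s‖ := by
  have h1 := congrArg norm (zeta_mul_moebius (s := s) (by linarith))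
  rw [norm_mul, norm_one] at h1
  have h2 := norm_moebius_le hs
  rw [div_le_iff₀ ZZ_pos, ← h1]
  exact mul_le_mul_of_nonneg_left h2 (norm_nonneg _)

end Pool.Agent.helper70
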