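import Pool.Agent.helper80.RSV.Base

/-!
# RSV-B1: the algebraic lemma on `P = (X - 1) Q`, `Q(1) = 1`
-/

namespace Pool.Agent.helper80.RSV

open Polynomial

namespace B1

/-- `Q = 1 + (X - 1) R` -/
theorem exists_R (Q : Polynomial ℤ) (hQ : Q.eval 1 = 1) : ∃ R : Polynomial ℤ,
    Q = 1 + (X - 1) * R := by
  have h := Polynomial.X_sub_C_dvd_sub_C_eval (a := (1 : ℤ)) (p := Q)
  obtain ⟨R, hR⟩ := h
  refine ⟨R, ?_⟩
  rw [hQ] at hR
  simp only [map_one] at hR
  linear_combination hR

/-- the commutative case -/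
theorem pow_one_comm (Q : Polynomial ℤ) (hQ : Q.eval 1 = 1) (A : Type) [CommRing A] (φ : Aˣ)
    (h : ∀ j : ℕ, 0 < j → Polynomial.aeval ((φ : A) ^ j) ((X - 1) * Q) = 0) :
    (φ : A) ^ (((X - 1) * Q).natDegree).factorial = 1 := by
  classical
  set P : Polynomial ℤ := (X - 1) * Q with hP
  set d := P.natDegree with hd
  have hnil : IsNilpotent ((φ : A) ^ d.factorial - 1) := by
    rw [nilpotent_iff_mem_prime]
    intro p hp
    have hunit : IsUnit (Ideal.Quotient.mk p (φ : A)) := (φ.isUnit).map _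
    set f : A →+* A ⧸ p := Ideal.Quotient.mk p with hf
    set z : A ⧸ p := f (φ : A) with hz
    set Pb : Polynomial (A ⧸ p) := P.map (Int.castRingHom (A ⧸ p)) with hPb
    have hroot : ∀ j : ℕ, 0 < j → Pb.eval (z ^ j) = 0 := by
      intro j hj
      have h1 := congrArg f (h j hj)
      rw [map_zero, aeval_def, hom_eval₂, map_pow, ← hz] at h1
      have h2 : f.comp (algebraMap ℤ A) = Int.castRingHom (A ⧸ p) := RingHom.ext_int _ _
      rw [h2] at h1
      rw [hPb, eval_map]
      exact h1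
    have hne : Pb ≠ 0 := by
      rw [hPb, hP, Polynomial.map_mul]
      apply mul_ne_zero
      · rw [Polynomial.map_sub, Polynomial.map_X, Polynomial.map_one]
        simpa using Polynomial.X_sub_C_ne_zero (1 : A ⧸ p)
      · intro h0
        have h1 : (Q.map (Int.castRingHom (A ⧸ p))).eval 1 = 1 := by
          have := Polynomial.eval_map_apply (f := Int.castRingHom (A ⧸ p)) (p := Q) 1
          simp only [map_one] at this
          rw [this, hQ, map_one]
        rw [h0, eval_zero] at h1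
        exact zero_ne_one h1
    have hcard : Pb.roots.toFinset.card < (Finset.Icc 1 (d + 1)).card := by
      rw [Nat.card_Icc]
      have h1 : Pb.roots.toFinset.card ≤ Pb.natDegree :=
        (Multiset.toFinset_card_le _).trans (Polynomial.card_roots' _)
      have h2 : Pb.natDegree ≤ d := Polynomial.natDegree_map_le
      omega
    have hmaps : ∀ i ∈ Finset.Icc 1 (d + 1), (fun i : ℕ => z ^ i) i ∈ Pb.roots.toFinset := by
      intro i hi
      rw [Finset.mem_Icc] at hi
      simp only [Multiset.mem_toFinset]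
      rw [Polynomial.mem_roots hne]
      exact hroot i (by omega)
    obtain ⟨i, hi, j, hj, hij, hEq⟩ :=
      Finset.exists_ne_map_eq_of_card_lt_of_maps_to hcard hmaps
    have key : ∀ i j : ℕ, 1 ≤ i → j ≤ d + 1 → i < j → z ^ i = z ^ j →
        z ^ d.factorial = 1 := by
      intro i j h1 h2 hlt h3
      have h4 : z ^ (j - i) = 1 := by
        have h5 : z ^ i * z ^ (j - i) = z ^ i * 1 := by
          rw [← pow_add, mul_one, Nat.add_sub_cancel' hlt.le, h3]
        exact (hunit.pow i).mul_left_cancel h5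
      have h6 : (j - i) ∣ d.factorial := Nat.dvd_factorial (by omega) (by omega)
      obtain ⟨c, hc⟩ := h6
      rw [hc, pow_mul, h4, one_pow]
    rw [Finset.mem_Icc] at hi hj
    have hfin : z ^ d.factorial = 1 := by
      rcases Nat.lt_or_gt_of_ne hij with hlt | hlt
      · exact key i j hi.1 hj.2 hlt hEq
      · exact key j i hj.1 hi.2 hlt hEq.symm
    rw [← Ideal.Quotient.eq_zero_iff_mem, map_sub, map_one, map_pow]
    exact sub_eq_zero.mpr hfin
  obtain ⟨R, hR⟩ := exists_R Q hQ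
  have h1 := h d.factorial (Nat.factorial_pos d)
  set s : A := (φ : A) ^ d.factorial with hs
  have h2 : (s - 1) * (1 + (s - 1) * aeval s R) = 0 := by
    rw [hP, hR] at h1
    simpa using h1
  have h3 : IsUnit (1 + (s - 1) * aeval s R) := by
    apply IsNilpotent.isUnit_one_add
    exact Commute.isNilpotent_mul_right (Commute.all _ _) hnil
  have h4 : s - 1 = 0 := (h3.mul_left_eq_zero).mp h2
  exact sub_eq_zero.mp h4

/-- the general case of the first assertion, through the commutative subring generated by the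
unit and its inverse -/
theorem pow_one (Q : Polynomial ℤ) (hQ : Q.eval 1 = 1) (A : Type) [Ring A] (φ : Aˣ)
    (h : ∀ j : ℕ, 0 < j → Polynomial.aeval ((φ : A) ^ j) ((X - 1) * Q) = 0) :
    (φ : A) ^ (((X - 1) * Q).natDegree).factorial = 1 := by
  have hcomm : ∀ a ∈ ({(φ : A), ((φ⁻¹ : Aˣ) : A)} : Set A),
      ∀ b ∈ ({(φ : A), ((φ⁻¹ : Aˣ) : A)} : Set A), a * b = b * a := by
    intro a ha b hb
    rcases ha with rfl | ha <;> rcases hb with rfl | hb
    · rfl
    · rw [Set.mem_singleton_iff] at hb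
      subst hb
      simp
    · rw [Set.mem_singleton_iff] at ha
      subst ha
      simp
    · rw [Set.mem_singleton_iff] at ha hb
      rw [ha, hb]
  let S := Subring.closure ({(φ : A), ((φ⁻¹ : Aˣ) : A)} : Set A)
  have hc : IsMulCommutative S := Subring.isMulCommutative_closure hcomm
  let _ : CommRing S := { Subring.toRing S with mul_comm := fun a b => hc.is_comm.comm a b }
  have h1 : (φ : A) ∈ S := Subring.subset_closure (by simp)
  have h2 : ((φ⁻¹ : Aˣ) : A) ∈ S := Subring.subset_closure (by simp)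
  let ψ : Sˣ := ⟨⟨(φ : A), h1⟩, ⟨((φ⁻¹ : Aˣ) : A), h2⟩, by ext; simp, by ext; simp⟩
  let k : S →+* A := S.subtype
  have hk : Function.Injective k := Subtype.val_injective
  have h3 := pow_one_comm Q hQ S ψ (by
    intro j hj
    apply hk
    rw [map_zero]
    have h4 := Polynomial.aeval_algHom_apply k.toIntAlgHom ((ψ : S) ^ j) ((X - 1) * Q)
    have h5 : (k.toIntAlgHom) ((ψ : S) ^ j) = (φ : A) ^ j := by
      change k ((ψ : S) ^ j) = (φ : A) ^ j
      rw [map_pow]
      rfl
    rw [h5, h j hj] at h4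
    exact h4.symm)
  have h6 := congrArg k h3
  rw [map_pow, map_one] at h6
  exact h6

/-- coprimality of `Q` with the cyclotomic polynomials of prime order -/
theorem exists_comb (Q : Polynomial ℤ) (hQ : Q.eval 1 = 1) (q : ℕ) (hq : q.Prime) :
    ∃ (c : ℕ) (a b : Polynomial ℤ), 0 < c ∧ a * cyclotomic q ℤ + b * Q = C (c : ℤ) := by
  have := Fact.mk hq
  have hirr : Irreducible (cyclotomic q ℚ) := cyclotomic.irreducible_rat hq.pos
  rcases hirr.isCoprime_or_dvd (Q.map (Int.castRingHom ℚ)) with hcop | hdvd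
  · obtain ⟨a', b', hab⟩ := hcop
    obtain ⟨b1, hm1, hb1⟩ := IsLocalization.integerNormalization_spec (nonZeroDivisors ℤ)
      (S := ℚ) a'
    obtain ⟨b2, hm2, hb2⟩ := IsLocalization.integerNormalization_spec (nonZeroDivisors ℤ)
      (S := ℚ) b'
    set a1 := IsLocalization.integerNormalization (nonZeroDivisors ℤ) a' with ha1
    set a2 := IsLocalization.integerNormalization (nonZeroDivisors ℤ) b' with ha2
    have hz1 : b1 ≠ 0 := nonZeroDivisors.ne_zero hm1
    have hz2 : b2 ≠ 0 := nonZeroDivisors.ne_zero hm2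
    have hmain : C (b2 : ℤ) * a1 * cyclotomic q ℤ + C (b1 : ℤ) * a2 * Q =
        C ((b1 : ℤ) * (b2 : ℤ)) := by
      apply Polynomial.map_injective (Int.castRingHom ℚ) Int.cast_injective
      simp only [Polynomial.map_add, Polynomial.map_mul, Polynomial.map_C, map_cyclotomic]
      have e1 : a1.map (Int.castRingHom ℚ) = C ((b1 : ℤ) : ℚ) * a' := by
        have : a1.map (Int.castRingHom ℚ) = a1.map (algebraMap ℤ ℚ) := rfl
        rw [this, hb1, Polynomial.C_mul']
        rfl
      have e2 : a2.map (Int.castRingHom ℚ) = C ((b2 : ℤ) : ℚ) * b' := by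
        have : a2.map (Int.castRingHom ℚ) = a2.map (algebraMap ℤ ℚ) := rfl
        rw [this, hb2, Polynomial.C_mul']
        rfl
      rw [e1, e2]
      simp only [eq_intCast, map_mul]
      linear_combination (C ((b1 : ℤ) : ℚ) * C ((b2 : ℤ) : ℚ)) * hab
    refine ⟨((b1 : ℤ) * (b2 : ℤ)).natAbs, C (((b1 : ℤ) * (b2 : ℤ)).sign) * (C (b2 : ℤ) * a1),
      C (((b1 : ℤ) * (b2 : ℤ)).sign) * (C (b1 : ℤ) * a2),
      Int.natAbs_pos.mpr (mul_ne_zero hz1 hz2), ?_⟩
    have h5 : ((((b1 : ℤ) * (b2 : ℤ)).natAbs : ℕ) : ℤ) =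
        ((b1 : ℤ) * (b2 : ℤ)).sign * ((b1 : ℤ) * (b2 : ℤ)) :=
      (Int.sign_mul_self_eq_natAbs _).symm
    rw [h5, C_mul, ← hmain]
    ring
  · exfalso
    have hdvd2 : cyclotomic q ℤ ∣ Q := by
      rw [← map_cyclotomic q (Int.castRingHom ℚ)] at hdvd
      exact (Polynomial.map_dvd_map (Int.castRingHom ℚ) Int.cast_injective
        (cyclotomic.monic q ℤ)).mp hdvd
    obtain ⟨R, hR⟩ := hdvd2
    rw [hR, eval_mul, eval_one_cyclotomic_prime] at hQ
    have h1 : ((q : ℤ)) ∣ 1 := ⟨_, hQ.symm⟩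
    have h2 : q ∣ 1 := by exact_mod_cast h1
    exact hq.one_lt.ne' (Nat.dvd_one.mp h2)

theorem exists_tor (Q : Polynomial ℤ) (hQ : Q.eval 1 = 1) (D : ℕ) (hD : 0 < D) :
    ∃ E : ℕ, 0 < E ∧ ∀ (A : Type) [Ring A] (φ : A) (m : ℕ),
      (m : A) * (φ ^ D - 1) = 0 →
      (∀ j : ℕ, 0 < j → (m : A) * Polynomial.aeval (φ ^ j) ((X - 1) * Q) = 0) →
      ((E * m : ℕ) : A) * (φ - 1) = 0 := by
  induction D using Nat.strong_induction_on with
  | _ D ih =>
  rcases Nat.eq_or_lt_of_le (Nat.succ_le_of_lt hD) with h1 | h1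
  · refine ⟨1, Nat.one_pos, fun A _ φ m h2 _ => ?_⟩
    rw [← h1] at h2
    simpa using h2
  · have hq : (Nat.minFac D).Prime := Nat.minFac_prime (by omega)
    set q := Nat.minFac D with hqdef
    obtain ⟨D', hD'⟩ := Nat.minFac_dvd D
    rw [← hqdef] at hD'
    have hD'0 : 0 < D' := by
      rcases Nat.eq_zero_or_pos D' with h | h
      · rw [h, mul_zero] at hD'; omega
      · exact h
    have hlt : D' < D := by
      rw [hD']
      have := hq.one_lt
      nlinarith
    obtain ⟨E, hE0, hE⟩ := ih D' hlt hD'0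
    obtain ⟨c, a, b, hc0, hab⟩ := exists_comb Q hQ q hq
    refine ⟨E * c, Nat.mul_pos hE0 hc0, fun A _ φ m h2 h3 => ?_⟩
    have := Fact.mk hq
    have hcyc : (X - 1) * cyclotomic q ℤ = X ^ q - 1 := by
      rw [mul_comm]
      exact cyclotomic_prime_mul_X_sub_one ℤ q
    have hpoly : C (c : ℤ) * (X - 1) = a * (X ^ q - 1) + b * ((X - 1) * Q) := by
      rw [← hcyc, ← hab]; ring
    have hev := congrArg (aeval (φ ^ D')) hpoly
    simp only [map_mul, map_add, map_sub, aeval_C, aeval_X, map_one, map_pow] at hev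
    rw [← pow_mul, mul_comm D' q, ← hD'] at hev
    have h4 : ((m * c : ℕ) : A) * (φ ^ D' - 1) = 0 := by
      have h5 : (algebraMap ℤ A) (c : ℤ) = ((c : ℕ) : A) := by simp
      rw [h5] at hev
      rw [Nat.cast_mul, mul_assoc, hev, mul_add]
      have c1 : (m : A) * (aeval (φ ^ D') a * (φ ^ D - 1)) =
          aeval (φ ^ D') a * ((m : A) * (φ ^ D - 1)) := by
        rw [← mul_assoc, (Nat.cast_commute m (aeval (φ ^ D') a)).eq, mul_assoc]
      have h6 := h3 D' hD'0
      rw [map_mul, map_sub, aeval_X, map_one] at h6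
      have c2 : (m : A) * (aeval (φ ^ D') b * ((φ ^ D' - 1) * aeval (φ ^ D') Q)) =
          aeval (φ ^ D') b * ((m : A) * ((φ ^ D' - 1) * aeval (φ ^ D') Q)) := by
        rw [← mul_assoc, (Nat.cast_commute m (aeval (φ ^ D') b)).eq, mul_assoc]
      rw [c1, c2, h2, h6]
      simp
    have h7 := hE A φ (m * c) h4 (fun j hj => by
      rw [Nat.cast_mul, (Nat.cast_commute m (c : A)).eq, mul_assoc, h3 j hj, mul_zero])
    have e : E * c * m = E * (m * c) := by ring
    rw [e]
    exact h7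

end B1

theorem exists_pow_one (Q : Polynomial ℤ) (hQ : Q.eval 1 = 1) : ∃ E : ℕ, 0 < E ∧
    ∀ (A : Type) [Ring A] (φ : Aˣ),
      (∀ j : ℕ, 0 < j → Polynomial.aeval ((φ : A) ^ j) ((Polynomial.X - 1) * Q) = 0) →
      (φ : A) ^ E = 1 ∧ (E : A) * ((φ : A) - 1) = 0 := by
  set D := (((X - 1) * Q).natDegree).factorial with hD
  obtain ⟨E, hE0, hE⟩ := B1.exists_tor Q hQ D (Nat.factorial_pos _)
  refine ⟨D * E, Nat.mul_pos (Nat.factorial_pos _) hE0, fun A _ φ h => ?_⟩
  have h1 := B1.pow_one Q hQ A φ h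
  have h2 := hE A φ 1 (by rw [h1]; simp) (fun j hj => by rw [h j hj]; simp)
  rw [mul_one] at h2
  refine ⟨by rw [pow_mul, h1, _root_.one_pow], ?_⟩
  rw [Nat.cast_mul, mul_assoc, h2, mul_zero]

end Pool.Agent.helper80.RSV
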