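import Mathlib

open Complex Metric Set MeasureTheory Real Filter Topology

namespace Pool.Agent.helper70

/-- `∫_0^∞ t^{a-1} e^{-rt} dt` -/
noncomputable def GInt (a r : ℂ) : ℂ := ∫ t in Ioi (0:ℝ), (t : ℂ) ^ (a - 1) * Complex.exp (-(r * t))

lemma norm_gint (a r : ℂ) {t : ℝ} (ht : 0 < t) :
    ‖(t : ℂ) ^ (a - 1) * Complex.exp (-(r * t))‖ = t ^ (a.re - 1) * Real.exp (-(r.re * t)) := by
  rw [norm_mul, Complex.norm_cpow_eq_rpow_re_of_pos ht, Complex.norm_exp]
  simp

lemma gint_int {a : ℝ} (ha : 0 < a) {r : ℝ} (hr : 0 < r) :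
    IntegrableOn (fun t : ℝ => t ^ (a - 1) * Real.exp (-(r * t))) (Ioi 0) := by
  have := integrableOn_rpow_mul_exp_neg_mul_rpow (p := 1) (s := a - 1) (b := r) (by linarith) one_pos hr
  refine this.congr_fun (fun t _ => ?_) measurableSet_Ioi
  simp only [Real.rpow_one, neg_mul]

lemma gint_meas (a r : ℂ) : AEStronglyMeasurable
    (fun t : ℝ => (t : ℂ) ^ (a - 1) * Complex.exp (-(r * t))) (volume.restrict (Ioi 0)) := by
  refine ContinuousOn.aestronglyMeasurable ?_ measurableSet_Ioi
  refine ContinuousOn.mul ?_ (by fun_prop)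
  intro t ht
  have ht0 : (0:ℝ) < t := ht
  exact (continuousAt_ofReal_cpow_const t (a - 1) (Or.inr ht0.ne')).continuousWithinAt

lemma gint_integrable {a r : ℂ} (ha : 0 < a.re) (hr : 0 < r.re) :
    IntegrableOn (fun t : ℝ => (t : ℂ) ^ (a - 1) * Complex.exp (-(r * t))) (Ioi 0) := by
  refine Integrable.mono' (gint_int ha hr) (gint_meas a r) ?_
  refine (ae_restrict_iff' measurableSet_Ioi).2 (Eventually.of_forall fun t ht => ?_)
  rw [norm_gint a r ht]

lemma differentiableOn_GInt {a : ℂ} (ha : 0 < a.re) :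
    DifferentiableOn ℂ (GInt a) {r : ℂ | 0 < r.re} := by
  intro r0 hr0
  have hr0' : 0 < r0.re := hr0
  refine DifferentiableAt.differentiableWithinAt ?_
  set S : Set ℂ := {r | r0.re / 2 < r.re} with hS
  have hSn : S ∈ 𝓝 r0 :=
    Complex.continuous_re.continuousAt.eventually_const_lt (by linarith)
  have main := hasDerivAt_integral_of_dominated_loc_of_deriv_le (𝕜 := ℂ)
    (μ := volume.restrict (Ioi (0:ℝ)))
    (F := fun (r : ℂ) (t : ℝ) => (t : ℂ) ^ (a - 1) * Complex.exp (-(r * t)))
    (F' := fun (r : ℂ) (t : ℝ) => (t : ℂ) ^ (a - 1) * (Complex.exp (-(r * t)) * (-t)))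
    (bound := fun t : ℝ => t ^ ((a.re + 1) - 1) * Real.exp (-((r0.re / 2) * t)))
    (x₀ := r0) (s := S) hSn ?_ (gint_integrable ha hr0') ?_ ?_ ?_ ?_
  · exact main.2.differentiableAt
  · exact Eventually.of_forall fun r => gint_meas a r
  · have h1 := gint_meas a r0
    have h2 : AEStronglyMeasurable (fun t : ℝ => (-(t : ℂ))) (volume.restrict (Ioi (0:ℝ))) := by
      exact Continuous.aestronglyMeasurable (by fun_prop)
    refine (h1.mul h2).congr (Eventually.of_forall fun t => ?_)
    simp only [Pi.mul_apply]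
    ring
  · refine (ae_restrict_iff' measurableSet_Ioi).2 (Eventually.of_forall fun t ht r hr => ?_)
    have ht0 : (0:ℝ) < t := ht
    have hr' : r0.re / 2 < r.re := hr
    have e1 : (t : ℂ) ^ (a - 1) * (Complex.exp (-(r * t)) * (-t)) =
        ((t : ℂ) ^ (a - 1) * Complex.exp (-(r * t))) * (-t) := by ring
    rw [e1, norm_mul, norm_gint a r ht, norm_neg, Complex.norm_real, Real.norm_of_nonneg ht0.le]
    have e2 : t ^ ((a.re + 1) - 1) = t ^ (a.re - 1) * t := by
      rw [← Real.rpow_add_one ht0.ne']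
      congr 1
      ring
    rw [e2]
    have h3 : Real.exp (-(r.re * t)) ≤ Real.exp (-((r0.re / 2) * t)) := by
      refine Real.exp_le_exp.2 ?_
      nlinarith
    have h4 : 0 ≤ t ^ (a.re - 1) := Real.rpow_nonneg ht0.le _
    calc t ^ (a.re - 1) * Real.exp (-(r.re * t)) * t = t ^ (a.re - 1) * t * Real.exp (-(r.re * t)) := by
          ring
      _ ≤ _ := by gcongr
  · exact gint_int (by linarith) (by linarith)
  · refine Eventually.of_forall fun t r _ => ?_
    have h1 : HasDerivAt (fun r : ℂ => -(r * t)) (-(t : ℂ)) r := by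
      have h2 := ((hasDerivAt_id r).mul_const (t : ℂ)).fun_neg
      simp only [one_mul] at h2
      exact h2
    exact (h1.cexp).const_mul _

/-- the Gamma integral with complex parameter -/
theorem GInt_eq {a r : ℂ} (ha : 0 < a.re) (hr : 0 < r.re) :
    GInt a r = Complex.exp (-a * Complex.log r) * Complex.Gamma a := by
  have ho : IsOpen {x : ℂ | 0 < x.re} := isOpen_lt continuous_const Complex.continuous_re
  have hA : AnalyticOnNhd ℂ (GInt a) {x : ℂ | 0 < x.re} :=
    (differentiableOn_GInt ha).analyticOnNhd ho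
  have hB : AnalyticOnNhd ℂ (fun r => Complex.exp (-a * Complex.log r) * Complex.Gamma a)
      {x : ℂ | 0 < x.re} := by
    refine DifferentiableOn.analyticOnNhd (fun x hx => ?_) ho
    have hx' : x ∈ slitPlane := Or.inl hx
    have h1 : DifferentiableAt ℂ (fun r => Complex.exp (-a * Complex.log r) * Complex.Gamma a) x :=
      (((Complex.hasDerivAt_log hx').const_mul (-a)).cexp.mul_const _).differentiableAt
    exact h1.differentiableWithinAt
  have hconn : IsPreconnected {x : ℂ | 0 < x.re} := (convex_halfSpace_re_gt 0).isPreconnected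
  have hreal : ∀ x : ℝ, 0 < x → GInt a x = Complex.exp (-a * Complex.log x) * Complex.Gamma a := by
    intro x hx
    have h1 := Complex.integral_cpow_mul_exp_neg_mul_Ioi ha hx
    rw [GInt, h1]
    congr 1
    have hx0 : (x : ℂ) ≠ 0 := by exact_mod_cast hx.ne'
    rw [Complex.cpow_def_of_ne_zero (one_div_ne_zero hx0), one_div, Complex.log_inv]
    · congr 1; ring
    · rw [Complex.arg_ofReal_of_nonneg hx.le]; exact Real.pi_pos.ne
  have hfr : ∃ᶠ z in 𝓝[≠] (1:ℂ), GInt a z = Complex.exp (-a * Complex.log z) * Complex.Gamma a := by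
    have h1 : Tendsto (fun n : ℕ => (((1 + 1 / ((n : ℝ) + 1) : ℝ)) : ℂ)) atTop (𝓝[≠] (1:ℂ)) := by
      refine tendsto_nhdsWithin_iff.2 ⟨?_, Eventually.of_forall fun n => ?_⟩
      · have h2 : Tendsto (fun n : ℕ => (1 + 1 / ((n : ℝ) + 1) : ℝ)) atTop (𝓝 (1 + 0)) :=
          tendsto_const_nhds.add tendsto_one_div_add_atTop_nhds_zero_nat
        rw [add_zero] at h2
        have := (Complex.continuous_ofReal.tendsto 1).comp h2
        rw [Complex.ofReal_one] at this
        exact this
      · have h3 : (0:ℝ) < 1 / ((n : ℝ) + 1) := by positivity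
        intro h4
        have h5 : (1 + 1 / ((n : ℝ) + 1) : ℝ) = 1 := by
          have h4' : (((1 + 1 / ((n : ℝ) + 1) : ℝ)) : ℂ) = ((1:ℝ) : ℂ) := by
            rw [h4]; simp
          exact Complex.ofReal_injective h4'
        linarith
    refine h1.frequently (Frequently.of_forall fun n => ?_)
    exact hreal _ (by positivity)
  exact hA.eqOn_of_preconnected_of_frequently_eq hB hconn (by simp) hfr hr

end Pool.Agent.helper70
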