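import Mathlib
import Pool.Agent.helper70.GI

open Complex Metric Set MeasureTheory Real Filter Topology

namespace Pool.Agent.helper70

/-- the twisted Laplace integral -/
noncomputable def JJ (G : ℝ → ℂ) (T ω : ℝ) (z : ℂ) : ℂ :=
  ∫ t in Ioi T, G t * Complex.exp (I * (t * ω)) * Complex.exp (-(z * t))

lemma laplace_int (C D : ℝ) {ρ : ℝ} (hρ : 0 < ρ) :
    IntegrableOn (fun t : ℝ => (C * t + D) * Real.exp (-(ρ * t))) (Ioi 0) := by
  have h1 := (gint_int (a := 2) (by norm_num) hρ).const_mul C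
  have h2 := (gint_int (a := 1) (by norm_num) hρ).const_mul D
  have h3 : IntegrableOn (fun t : ℝ => C * (t ^ ((2:ℝ) - 1) * Real.exp (-(ρ * t))) +
      D * (t ^ ((1:ℝ) - 1) * Real.exp (-(ρ * t)))) (Ioi 0) := h1.add h2
  refine h3.congr_fun (fun t _ => ?_) measurableSet_Ioi
  norm_num
  ring

lemma laplace_val (C D : ℝ) {ρ : ℝ} (hρ : 0 < ρ) :
    ∫ t in Ioi (0:ℝ), (C * t + D) * Real.exp (-(ρ * t)) = C / ρ ^ 2 + D / ρ := by
  have h1 := (gint_int (a := 2) (by norm_num) hρ).const_mul C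
  have h2 := (gint_int (a := 1) (by norm_num) hρ).const_mul D
  have h3 : ∫ t in Ioi (0:ℝ), (C * t + D) * Real.exp (-(ρ * t)) =
      ∫ t in Ioi (0:ℝ), (C * (t ^ ((2:ℝ) - 1) * Real.exp (-(ρ * t))) +
        D * (t ^ ((1:ℝ) - 1) * Real.exp (-(ρ * t)))) := by
    refine setIntegral_congr_fun measurableSet_Ioi fun t _ => ?_
    norm_num
    ring
  rw [h3, integral_add h1 h2, integral_const_mul, integral_const_mul,
    Real.integral_rpow_mul_exp_neg_mul_Ioi (by norm_num) hρ,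
    Real.integral_rpow_mul_exp_neg_mul_Ioi (by norm_num) hρ, Real.Gamma_two, Real.Gamma_one]
  norm_num
  ring

lemma norm_JJ_integrand (G : ℝ → ℂ) (ω : ℝ) (z : ℂ) (t : ℝ) :
    ‖G t * Complex.exp (I * (t * ω)) * Complex.exp (-(z * t))‖ =
      ‖G t‖ * Real.exp (-(z.re * t)) := by
  rw [norm_mul, norm_mul, Complex.norm_exp, Complex.norm_exp]
  have h1 : (I * (t * ω)).re = 0 := by simp
  have h2 : (-(z * t)).re = -(z.re * t) := by simp
  rw [h1, h2, Real.exp_zero, mul_one]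

lemma JJ_bound {G : ℝ → ℂ} {T C D : ℝ} (hT : 0 ≤ T) (hC : 0 ≤ C) (hD : 0 ≤ D)
    (hG : ∀ t, T < t → ‖G t‖ ≤ C * t + D) (ω : ℝ) {z : ℂ} (hz : 0 < z.re) :
    ‖JJ G T ω z‖ ≤ C / z.re ^ 2 + D / z.re := by
  have hi := laplace_int C D hz
  have h1 : ‖JJ G T ω z‖ ≤ ∫ t in Ioi T, (C * t + D) * Real.exp (-(z.re * t)) := by
    refine norm_integral_le_of_norm_le (hi.mono_set (Ioi_subset_Ioi hT)) ?_
    refine (ae_restrict_iff' measurableSet_Ioi).2 (Eventually.of_forall fun t ht => ?_)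
    rw [norm_JJ_integrand]
    exact mul_le_mul_of_nonneg_right (hG t ht) (Real.exp_pos _).le
  refine h1.trans ?_
  rw [← laplace_val C D hz]
  refine setIntegral_mono_set hi ?_ (Ioi_subset_Ioi hT).eventuallyLE
  refine (ae_restrict_iff' measurableSet_Ioi).2 (Eventually.of_forall fun t ht => ?_)
  have ht0 : (0:ℝ) < t := ht
  simp only [Pi.zero_apply]
  positivity

lemma JJ_integrable {G : ℝ → ℂ} {T C : ℝ} (hT : 0 ≤ T)
    (hGm : AEStronglyMeasurable G (volume.restrict (Ioi T)))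
    (hG : ∀ t, T < t → ‖G t‖ ≤ C * t) (ω : ℝ) {z : ℂ} (hz : 0 < z.re) :
    IntegrableOn (fun t : ℝ => G t * Complex.exp (I * (t * ω)) * Complex.exp (-(z * t))) (Ioi T) := by
  have hi := laplace_int C 0 hz
  refine Integrable.mono' (hi.mono_set (Ioi_subset_Ioi hT)) ?_ ?_
  · refine (hGm.mul ?_).mul ?_
    · exact Continuous.aestronglyMeasurable (by fun_prop)
    · exact Continuous.aestronglyMeasurable (by fun_prop)
  · refine (ae_restrict_iff' measurableSet_Ioi).2 (Eventually.of_forall fun t ht => ?_)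
    rw [norm_JJ_integrand, add_zero]
    exact mul_le_mul_of_nonneg_right (hG t ht) (Real.exp_pos _).le

lemma JJ_small {g : ℝ → ℂ} {T C : ℝ} (hT : 0 ≤ T) (hC : 0 ≤ C)
    (hg : ∀ t, T < t → ‖g t‖ ≤ C * t)
    (hg0 : Tendsto (fun t => g t / (t : ℂ)) atTop (𝓝 0)) (ω : ℝ)
    {z : ℝ → ℂ} {l : Filter ℝ} (hz : Tendsto z l (𝓝 0)) (hz1 : ∀ᶠ δ in l, 0 < (z δ).re) :
    Tendsto (fun δ => (z δ).re ^ 2 * ‖JJ g T ω (z δ)‖) l (𝓝 0) := by
  rw [Metric.tendsto_nhds]
  intro e he
  have h1 := (Metric.tendsto_nhds.1 hg0) (e / 2) (by positivity)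
  obtain ⟨T1, hT1⟩ := h1.exists_forall_of_atTop
  set T2 := max T1 (max T 1) with hT2
  have hT2' : 1 ≤ T2 := (le_max_right _ _).trans (le_max_right _ _)
  have hb : ∀ t, T < t → ‖g t‖ ≤ (e / 2) * t + C * T2 := by
    intro t ht
    have ht0 : 0 < t := by linarith
    rcases le_total t T2 with h | h
    · have := hg t ht
      have h2 : C * t ≤ C * T2 := by gcongr
      have h3 : 0 ≤ e / 2 * t := by positivity
      linarith
    · have h3 := hT1 t ((le_max_left _ _).trans h)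
      rw [dist_zero_right, norm_div, Complex.norm_real, Real.norm_of_nonneg ht0.le,
        div_lt_iff₀ ht0] at h3
      have h4 : 0 ≤ C * T2 := by positivity
      linarith
  have hre : Tendsto (fun δ => (z δ).re) l (𝓝 0) := by
    have := (Complex.continuous_re.tendsto (0:ℂ)).comp hz
    simpa [Function.comp_def] using this
  have h5 : ∀ᶠ δ in l, C * T2 * (z δ).re < e / 2 := by
    have h6 : Tendsto (fun δ => C * T2 * (z δ).re) l (𝓝 0) := by
      simpa using hre.const_mul (C * T2)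
    exact h6.eventually_lt_const (by positivity)
  filter_upwards [hz1, h5] with δ h6 h7
  rw [dist_zero_right, Real.norm_of_nonneg (by positivity)]
  have h8 := JJ_bound hT (by positivity) (by positivity) hb ω h6
  calc (z δ).re ^ 2 * ‖JJ g T ω (z δ)‖ ≤
      (z δ).re ^ 2 * ((e / 2) / (z δ).re ^ 2 + C * T2 / (z δ).re) := by gcongr
    _ = e / 2 + C * T2 * (z δ).re := by field_simp
    _ < e := by linarith

/-- the norm of `exp (a log z)` for `Re a = 2` -/
lemma norm_exp_a (η : ℝ) {z : ℂ} (hz : z ≠ 0) :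
    ‖Complex.exp ((2 - η * I) * Complex.log z)‖ = ‖z‖ ^ 2 * Real.exp (η * z.arg) := by
  rw [Complex.norm_exp]
  have h1 : ((2 - (η : ℂ) * I) * Complex.log z).re = 2 * Real.log ‖z‖ + η * z.arg := by
    simp [Complex.log_re, Complex.log_im]
  rw [h1, Real.exp_add]
  congr 1
  have h2 : 0 < ‖z‖ := norm_pos_iff.2 hz
  have h3 : 2 * Real.log ‖z‖ = Real.log (‖z‖ ^ 2) := by rw [Real.log_pow]; norm_num
  rw [h3, Real.exp_log (by positivity)]

lemma norm_exp_a_le (η : ℝ) {z : ℂ} (hz : 0 < z.re) (hz2 : ‖z‖ ≤ 2 * z.re) :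
    ‖Complex.exp ((2 - η * I) * Complex.log z)‖ ≤ (4 * Real.exp (|η| * π)) * z.re ^ 2 := by
  have hz0 : z ≠ 0 := by intro h; rw [h] at hz; simp at hz
  rw [norm_exp_a η hz0]
  have h1 : η * z.arg ≤ |η| * π := by
    have h2 := Complex.abs_arg_le_pi z
    calc η * z.arg ≤ |η * z.arg| := le_abs_self _
      _ = |η| * |z.arg| := abs_mul _ _
      _ ≤ _ := by gcongr
  calc ‖z‖ ^ 2 * Real.exp (η * z.arg) ≤ (2 * z.re) ^ 2 * Real.exp (|η| * π) := by
        gcongr
    _ = _ := by ring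

lemma tendsto_exp_a (η : ℝ) {z : ℝ → ℂ} {l : Filter ℝ} (hz : Tendsto z l (𝓝 0))
    (hz1 : ∀ᶠ δ in l, 0 < (z δ).re) (hz2 : ∀ᶠ δ in l, ‖z δ‖ ≤ 2 * (z δ).re) :
    Tendsto (fun δ => Complex.exp ((2 - η * I) * Complex.log (z δ))) l (𝓝 0) := by
  have hre : Tendsto (fun δ => (z δ).re) l (𝓝 0) := by
    have := (Complex.continuous_re.tendsto (0:ℂ)).comp hz
    simpa [Function.comp_def] using this
  have h1 : Tendsto (fun δ => (4 * Real.exp (|η| * π)) * (z δ).re ^ 2) l (𝓝 0) := by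
    simpa using (hre.pow 2).const_mul (4 * Real.exp (|η| * π))
  refine squeeze_zero_norm' ?_ h1
  filter_upwards [hz1, hz2] with δ h2 h3
  exact norm_exp_a_le η h2 h3

lemma cpow_norm (η : ℝ) {t : ℝ} (ht : 0 < t) : ‖(t : ℂ) ^ ((2 - η * I : ℂ) - 1)‖ = t := by
  rw [Complex.norm_cpow_eq_rpow_re_of_pos ht]
  have : ((2 - (η : ℂ) * I) - 1).re = 1 := by simp; norm_num
  rw [this, Real.rpow_one]

/-- the pure power -/
lemma JJ_pure (η : ℝ) {T : ℝ} (hT : 0 ≤ T) (ω : ℝ) {z : ℝ → ℂ} {l : Filter ℝ}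
    (hz : Tendsto z l (𝓝 0))
    (hz1 : ∀ᶠ δ in l, 0 < (z δ).re) (hz2 : ∀ᶠ δ in l, ‖z δ‖ ≤ 2 * (z δ).re) :
    Tendsto (fun δ => Complex.exp ((2 - η * I) * Complex.log (z δ)) *
      JJ (fun t => (t : ℂ) ^ ((2 - η * I : ℂ) - 1)) T ω (z δ)) l
      (𝓝 (if ω = 0 then Complex.Gamma (2 - η * I) else 0)) := by
  have ha : 0 < (2 - (η : ℂ) * I).re := by simp
  have hE := tendsto_exp_a η hz hz1 hz2
  -- decomposition
  have hdec : ∀ z : ℂ, 0 < z.re → JJ (fun t => (t : ℂ) ^ ((2 - η * I : ℂ) - 1)) T ω z =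
      GInt (2 - η * I) (z - ω * I) - ∫ t in Ioc (0:ℝ) T, (t : ℂ) ^ ((2 - η * I : ℂ) - 1) *
        Complex.exp (I * (t * ω)) * Complex.exp (-(z * t)) := by
    intro z hz
    have hr : 0 < (z - ω * I).re := by simpa using hz
    have hi := gint_integrable ha hr
    have h1 : ∀ t : ℝ, (t : ℂ) ^ ((2 - (η : ℂ) * I) - 1) * Complex.exp (I * (t * ω)) *
        Complex.exp (-(z * t)) = (t : ℂ) ^ ((2 - (η : ℂ) * I) - 1) *
        Complex.exp (-((z - ω * I) * t)) := by
      intro t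
      rw [mul_assoc, ← Complex.exp_add]
      congr 2
      ring
    simp only [JJ, GInt, h1]
    have hu : Ioi (0:ℝ) = Ioc 0 T ∪ Ioi T := (Ioc_union_Ioi_eq_Ioi hT).symm
    rw [hu, setIntegral_union (Ioc_disjoint_Ioi le_rfl) measurableSet_Ioi]
    · ring
    · exact hi.mono_set Ioc_subset_Ioi_self
    · exact hi.mono_set (Ioi_subset_Ioi hT)
  have hbd : ∀ z : ℂ, 0 < z.re → ‖∫ t in Ioc (0:ℝ) T, (t : ℂ) ^ ((2 - η * I : ℂ) - 1) *
        Complex.exp (I * (t * ω)) * Complex.exp (-(z * t))‖ ≤ T * T := by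
    intro z hz
    have h1 := norm_setIntegral_le_of_norm_le_const (μ := volume) (s := Ioc (0:ℝ) T) (C := T)
      (f := fun t : ℝ => (t : ℂ) ^ ((2 - η * I : ℂ) - 1) *
        Complex.exp (I * (t * ω)) * Complex.exp (-(z * t))) (by simp) (fun t ht => by
        have := norm_JJ_integrand (fun t => (t : ℂ) ^ ((2 - η * I : ℂ) - 1)) ω z t
        rw [this, cpow_norm η ht.1]
        have h2 : Real.exp (-(z.re * t)) ≤ 1 := by
          rw [Real.exp_le_one_iff]
          have := mul_pos hz ht.1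
          linarith
        calc t * Real.exp (-(z.re * t)) ≤ t * 1 := by
              have := ht.1
              gcongr
          _ ≤ T := by linarith [ht.2])
    refine h1.trans (le_of_eq ?_)
    simp [hT]
  -- the second part tends to zero
  have h2 : Tendsto (fun δ => Complex.exp ((2 - η * I) * Complex.log (z δ)) *
      ∫ t in Ioc (0:ℝ) T, (t : ℂ) ^ ((2 - η * I : ℂ) - 1) *
        Complex.exp (I * (t * ω)) * Complex.exp (-(z δ * t))) l (𝓝 0) := by
    have h3 : Tendsto (fun δ => ‖Complex.exp ((2 - η * I) * Complex.log (z δ))‖ * (T * T)) l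
        (𝓝 0) := by
      simpa using hE.norm.mul_const (T * T)
    refine squeeze_zero_norm' ?_ h3
    filter_upwards [hz1] with δ h4
    rw [norm_mul]
    exact mul_le_mul_of_nonneg_left (hbd _ h4) (norm_nonneg _)
  -- the main part
  have h3 : Tendsto (fun δ => Complex.exp ((2 - η * I) * Complex.log (z δ)) *
      GInt (2 - η * I) (z δ - ω * I)) l
      (𝓝 (if ω = 0 then Complex.Gamma (2 - η * I) else 0)) := by
    split_ifs with hω
    · refine tendsto_const_nhds.congr' ?_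
      filter_upwards [hz1] with δ h4
      rw [hω, GInt_eq ha (by simpa using h4)]
      simp only [Complex.ofReal_zero, zero_mul, sub_zero]
      rw [← mul_assoc, ← Complex.exp_add]
      have : (2 - (η : ℂ) * I) * Complex.log (z δ) + -(2 - (η : ℂ) * I) * Complex.log (z δ) = 0 := by
        ring
      rw [this, Complex.exp_zero, one_mul]
    · have hsl : (0 - (ω : ℂ) * I) ∈ slitPlane := by
        rw [Complex.mem_slitPlane_iff]
        right
        simp [hω]
      have h4 : Tendsto (fun δ => z δ - ω * I) l (𝓝 (0 - ω * I)) := hz.sub_const _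
      have h5 : Tendsto (fun δ => Complex.exp (-(2 - (η : ℂ) * I) * Complex.log (z δ - ω * I)) *
          Complex.Gamma (2 - η * I)) l (𝓝 (Complex.exp (-(2 - (η : ℂ) * I) *
            Complex.log (0 - ω * I)) * Complex.Gamma (2 - η * I))) := by
        refine Tendsto.mul_const _ ?_
        refine (Complex.continuous_exp.tendsto _).comp ?_
        exact (h4.clog hsl).const_mul _
      have h6 := hE.mul h5
      rw [zero_mul] at h6
      refine h6.congr' ?_
      filter_upwards [hz1] with δ h7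
      rw [GInt_eq ha (by simpa using h7)]
  have h4 := h3.sub h2
  rw [sub_zero] at h4
  refine h4.congr' ?_
  filter_upwards [hz1] with δ h5
  rw [hdec _ h5]
  ring

/-- Abelian asymptotics -/
theorem abel {G : ℝ → ℂ} {T C η : ℝ} {Cinf : ℂ} (hT : 0 ≤ T) (hC : 0 ≤ C)
    (hGm : AEStronglyMeasurable G (volume.restrict (Ioi T)))
    (hG : ∀ t, T < t → ‖G t‖ ≤ C * t)
    (hGi : Tendsto (fun t : ℝ => G t / (t : ℂ) ^ ((2 - η * I : ℂ) - 1)) atTop (𝓝 Cinf))
    {z : ℝ → ℂ} {l : Filter ℝ} (hz : Tendsto z l (𝓝 0))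
    (hz1 : ∀ᶠ δ in l, 0 < (z δ).re) (hz2 : ∀ᶠ δ in l, ‖z δ‖ ≤ 2 * (z δ).re) (ω : ℝ) :
    Tendsto (fun δ => Complex.exp ((2 - η * I) * Complex.log (z δ)) * JJ G T ω (z δ)) l
      (𝓝 (if ω = 0 then Cinf * Complex.Gamma (2 - η * I) else 0)) := by
  set p : ℝ → ℂ := fun t => (t : ℂ) ^ ((2 - η * I : ℂ) - 1) with hp
  have hpn : ∀ t : ℝ, 0 < t → ‖p t‖ = t := fun t ht => cpow_norm η ht
  have hpm : AEStronglyMeasurable p (volume.restrict (Ioi T)) := by
    refine ContinuousOn.aestronglyMeasurable ?_ measurableSet_Ioi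
    intro t ht
    have ht0 : (0:ℝ) < t := lt_of_le_of_lt hT ht
    exact (continuousAt_ofReal_cpow_const t _ (Or.inr ht0.ne')).continuousWithinAt
  set g : ℝ → ℂ := fun t => G t - Cinf * p t with hg
  have hgb : ∀ t, T < t → ‖g t‖ ≤ (C + ‖Cinf‖) * t := by
    intro t ht
    have ht0 : 0 < t := lt_of_le_of_lt hT ht
    calc ‖g t‖ ≤ ‖G t‖ + ‖Cinf * p t‖ := norm_sub_le _ _
      _ ≤ C * t + ‖Cinf‖ * t := by rw [norm_mul, hpn t ht0]; gcongr; exact hG t ht
      _ = _ := by ring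
  have hg0 : Tendsto (fun t : ℝ => g t / (t : ℂ)) atTop (𝓝 0) := by
    have h1 : Tendsto (fun t : ℝ => G t / p t - Cinf) atTop (𝓝 0) := by
      have := hGi.sub_const Cinf
      rwa [sub_self] at this
    have h2 := h1.norm
    rw [norm_zero] at h2
    refine squeeze_zero_norm' ?_ h2
    filter_upwards [eventually_gt_atTop (max T 0)] with t ht
    have ht0 : 0 < t := lt_of_le_of_lt (le_max_right _ _) ht
    have hpne : p t ≠ 0 := by
      rw [← norm_pos_iff, hpn t ht0]; exact ht0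
    have h3 : g t / (t : ℂ) = (G t / p t - Cinf) * (p t / t) := by
      simp only [hg]
      have : (t : ℂ) ≠ 0 := by exact_mod_cast ht0.ne'
      field_simp
    rw [h3, norm_mul, norm_div, hpn t ht0, Complex.norm_real, Real.norm_of_nonneg ht0.le,
      div_self ht0.ne', mul_one]
  have h1 := JJ_small hT (by positivity) hgb hg0 ω hz hz1
  have h2 : Tendsto (fun δ => Complex.exp ((2 - η * I) * Complex.log (z δ)) * JJ g T ω (z δ)) l
      (𝓝 0) := by
    have h3 : Tendsto (fun δ => (4 * Real.exp (|η| * π)) * ((z δ).re ^ 2 * ‖JJ g T ω (z δ)‖)) l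
        (𝓝 0) := by
      simpa using h1.const_mul (4 * Real.exp (|η| * π))
    refine squeeze_zero_norm' ?_ h3
    filter_upwards [hz1, hz2] with δ h4 h5
    rw [norm_mul, ← mul_assoc]
    exact mul_le_mul_of_nonneg_right (norm_exp_a_le η h4 h5) (norm_nonneg _)
  have h3 := (JJ_pure η hT ω hz hz1 hz2).const_mul Cinf
  have h4 := h3.add h2
  have h5 : Cinf * (if ω = 0 then Complex.Gamma (2 - η * I) else 0) + 0 =
      (if ω = 0 then Cinf * Complex.Gamma (2 - η * I) else 0) := by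
    split_ifs <;> simp
  rw [h5] at h4
  refine h4.congr' ?_
  filter_upwards [hz1] with δ h6
  have h7 : JJ G T ω (z δ) = Cinf * JJ p T ω (z δ) + JJ g T ω (z δ) := by
    have i1 := JJ_integrable (C := 1) hT hpm (fun t ht => by
      rw [hpn t (lt_of_le_of_lt hT ht), one_mul]) ω h6
    have hgm : AEStronglyMeasurable g (volume.restrict (Ioi T)) := hGm.sub (hpm.const_mul Cinf)
    have i2 := JJ_integrable (C := C + ‖Cinf‖) hT hgm hgb ω h6
    rw [JJ, JJ, JJ, ← integral_const_mul, ← integral_add (i1.const_mul Cinf) i2]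
    refine setIntegral_congr_fun measurableSet_Ioi fun t _ => ?_
    simp only [hg]
    ring
  rw [h7]
  ring

end Pool.Agent.helper70
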