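import Mathlib
import Pool.Agent.helper70.ZetaLines

open Complex Metric Set MeasureTheory Real Filter Topology

namespace Pool.Agent.helper70

lemma poly_exp_bound (n : ℕ) {ε u : ℝ} (hε : 0 < ε) (hu : 0 ≤ u) :
    (1 + u) ^ n ≤ (n.factorial / ε ^ n * Real.exp ε) * Real.exp (ε * u) := by
  have h1 := Real.pow_div_factorial_le_exp (ε * (1 + u)) (by positivity) n
  have h2 : Real.exp (ε * (1 + u)) = Real.exp ε * Real.exp (ε * u) := by
    rw [← Real.exp_add]; congr 1; ring
  rw [h2, mul_pow, div_le_iff₀ (by positivity)] at h1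
  have h3 : 0 < ε ^ n := by positivity
  rw [div_mul_eq_mul_div, div_mul_eq_mul_div, le_div_iff₀ h3]
  linarith

lemma integrable_poly_exp (n : ℕ) {ε : ℝ} (hε : 0 < ε) :
    Integrable (fun t : ℝ => (1 + |t|) ^ n * Real.exp (-ε * |t|)) := by
  set C : ℝ := ((n + 2).factorial / ε ^ (n + 2) * Real.exp ε) with hC
  have hC0 : 0 ≤ C := by positivity
  refine Integrable.mono' (integrable_inv_one_add_sq.const_mul C) (by fun_prop) ?_
  refine Eventually.of_forall fun t => ?_
  rw [Real.norm_of_nonneg (by positivity)]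
  have h1 := poly_exp_bound (n + 2) hε (abs_nonneg t)
  rw [← hC] at h1
  have h2 : 1 + t ^ 2 ≤ (1 + |t|) ^ 2 := by
    have := sq_abs t
    nlinarith [abs_nonneg t]
  have h3 : (1 + |t|) ^ n * (1 + t ^ 2) ≤ C * Real.exp (ε * |t|) := by
    refine le_trans ?_ h1
    rw [pow_add]
    exact mul_le_mul_of_nonneg_left h2 (by positivity)
  rw [← div_eq_mul_inv, le_div_iff₀ (by positivity), neg_mul, Real.exp_neg]
  have h4 := Real.exp_pos (ε * |t|)
  calc (1 + |t|) ^ n * (Real.exp (ε * |t|))⁻¹ * (1 + t ^ 2)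
      = ((1 + |t|) ^ n * (1 + t ^ 2)) / Real.exp (ε * |t|) := by
        field_simp
    _ ≤ C := by
        rw [div_le_iff₀ h4]; exact h3

/-- decay of Gamma on the critical line -/
lemma norm_Gamma_half_le (t : ℝ) :
    ‖Complex.Gamma (1 / 2 + t * I)‖ ≤ √(2 * π) * Real.exp (-(π * |t| / 2)) := by
  have h1 := norm_Gamma_half t
  have h2 : Real.exp (π * |t|) / 2 ≤ Real.cosh (π * t) := by
    rw [Real.cosh_eq]
    have h3 : Real.exp (π * |t|) ≤ Real.exp (π * t) + Real.exp (-(π * t)) := by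
      rcases le_total 0 t with h | h
      · rw [abs_of_nonneg h]; linarith [Real.exp_pos (-(π * t))]
      · rw [abs_of_nonpos h]
        have : π * -t = -(π * t) := by ring
        rw [this]; linarith [Real.exp_pos (π * t)]
    linarith
  have h4 : ‖Complex.Gamma (1 / 2 + t * I)‖ ^ 2 ≤
      (√(2 * π) * Real.exp (-(π * |t| / 2))) ^ 2 := by
    rw [h1, mul_pow, Real.sq_sqrt (by positivity), ← Real.exp_nat_mul]
    have e1 : ((2 : ℕ) : ℝ) * -(π * |t| / 2) = -(π * |t|) := by push_cast; ring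
    rw [e1, Real.exp_neg, ← div_eq_mul_inv]
    have h5 := Real.exp_pos (π * |t|)
    have h6 := Real.cosh_pos (π * t)
    rw [div_le_div_iff₀ h6 h5]
    nlinarith [Real.pi_pos]
  exact (pow_le_pow_iff_left₀ (norm_nonneg _) (by positivity) two_ne_zero).1 h4

lemma norm_Gamma_line_le (k : ℕ) (t : ℝ) (ht : t ≠ 0) :
    ‖Complex.Gamma (k + 1 / 2 + t * I)‖ ≤
      √(2 * π) * (|t| + k) ^ k * Real.exp (-(π * |t| / 2)) := by
  have hne : ((1 / 2 + (t : ℝ) * I) : ℂ).im ≠ 0 := by simpa using ht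
  have h1 : Complex.Gamma (k + 1 / 2 + t * I) = Complex.Gamma (1 / 2 + t * I) *
      ∏ j ∈ Finset.range k, ((1 / 2 + (t : ℝ) * I) + j) := by
    rw [← Gamma_add_nat hne]
    congr 1
    ring
  have h2 : ‖∏ j ∈ Finset.range k, (((1 : ℂ) / 2 + (t : ℝ) * I) + j)‖ = PP k t := by
    rw [norm_prod, PP]
    refine Finset.prod_congr rfl fun j _ => ?_
    congr 1
    ring
  rw [h1, norm_mul, h2]
  have h3 := norm_Gamma_half_le t
  have h4 := PP_upper k t
  have h5 := PP_nonneg k t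
  calc _ ≤ (√(2 * π) * Real.exp (-(π * |t| / 2))) * (|t| + k) ^ k := by gcongr
    _ = _ := by ring

lemma norm_Gamma_line_le' (k : ℕ) (t : ℝ) (ht : t ≠ 0) :
    ‖Complex.Gamma (k + 1 / 2 + t * I)‖ ≤
      (√(2 * π) * (k + 1) ^ k) * ((1 + |t|) ^ k * Real.exp (-(π * |t| / 2))) := by
  refine (norm_Gamma_line_le k t ht).trans ?_
  have h1 : (|t| + k) ^ k ≤ (k + 1) ^ k * (1 + |t|) ^ k := by
    rw [← mul_pow]
    refine pow_le_pow_left₀ (by positivity) ?_ k
    have h2 : (0:ℝ) ≤ k := Nat.cast_nonneg k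
    nlinarith [abs_nonneg t]
  calc _ ≤ √(2 * π) * ((k + 1) ^ k * (1 + |t|) ^ k) * Real.exp (-(π * |t| / 2)) := by gcongr
    _ = _ := by ring

/-- decay of Gamma on the lines `Re s = 1/2 - k` -/
lemma norm_Gamma_left_le (k : ℕ) (t : ℝ) (ht : t ≠ 0) :
    ‖Complex.Gamma (1 / 2 - k + t * I)‖ ≤
      √(2 * π) * Real.exp (-(π * |t| / 2)) / |t| ^ k := by
  have hne : ((1 / 2 - k + (t : ℝ) * I) : ℂ).im ≠ 0 := by simpa using ht
  have h1 : Complex.Gamma (1 / 2 + t * I) = Complex.Gamma (1 / 2 - k + t * I) *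
      ∏ j ∈ Finset.range k, ((1 / 2 - k + (t : ℝ) * I) + j) := by
    rw [← Gamma_add_nat hne]
    congr 1
    ring
  have h2 : |t| ^ k ≤ ‖∏ j ∈ Finset.range k, (((1 : ℂ) / 2 - k + (t : ℝ) * I) + j)‖ := by
    have h0 : |t| ^ k = ∏ j ∈ Finset.range k, |t| := by
      rw [Finset.prod_const, Finset.card_range]
    rw [norm_prod, h0]
    refine Finset.prod_le_prod (fun _ _ => abs_nonneg _) fun j _ => ?_
    have := Complex.abs_im_le_norm ((1 : ℂ) / 2 - k + (t : ℝ) * I + j)
    simpa using this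
  have h3 := norm_Gamma_half_le t
  rw [h1, norm_mul] at h3
  have h4 : 0 < |t| ^ k := by positivity
  rw [le_div_iff₀ h4]
  exact (mul_le_mul_of_nonneg_left h2 (norm_nonneg _)).trans h3


/-- `x ^ (-w)` through the principal logarithm -/
noncomputable def pw (x w : ℂ) : ℂ := Complex.exp (-w * Complex.log x)

lemma norm_pw (x : ℂ) (σ t : ℝ) :
    ‖pw x (σ + t * I)‖ = Real.exp (-σ * Real.log ‖x‖) * Real.exp (t * x.arg) := by
  rw [pw, Complex.norm_exp, ← Real.exp_add]
  congr 1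
  simp [Complex.log_re, Complex.log_im]

lemma pw_ne_zero (x w : ℂ) : pw x w ≠ 0 := Complex.exp_ne_zero _

lemma continuous_pw (x : ℂ) : Continuous (pw x) := by unfold pw; fun_prop

lemma abs_arg_lt {x : ℂ} (hx : 0 < x.re) : |x.arg| < π / 2 :=
  Complex.abs_arg_lt_pi_div_two_iff.2 (Or.inl hx)

lemma Gamma_line_cont (k : ℕ) : Continuous fun t : ℝ => Complex.Gamma (k + 1 / 2 + t * I) := by
  rw [continuous_iff_continuousAt]
  intro t
  have h : ContinuousAt Complex.Gamma ((k : ℂ) + 1 / 2 + t * I) := by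
    refine (Complex.differentiableAt_Gamma _ fun m h => ?_).continuousAt
    have := congrArg Complex.re h
    simp at this
    have h1 : (0:ℝ) ≤ k := Nat.cast_nonneg k
    have h2 : (0:ℝ) ≤ m := Nat.cast_nonneg m
    linarith
  exact ContinuousAt.comp (f := fun t : ℝ => (k : ℂ) + 1 / 2 + t * I) (g := Complex.Gamma) h
    (by fun_prop)

/-- the constant in the bound for Gamma on the line `Re = k + 1/2` -/
noncomputable def CG (k : ℕ) : ℝ := √(2 * π) * (k + 1) ^ k

lemma CG_nonneg (k : ℕ) : 0 ≤ CG k := by unfold CG; positivity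

lemma norm_Gamma_line (k : ℕ) (t : ℝ) :
    ‖Complex.Gamma (k + 1 / 2 + t * I)‖ ≤
      CG k * ((1 + |t|) ^ k * Real.exp (-(π * |t| / 2))) := by
  by_cases ht : t = 0
  · -- by continuity
    have hc1 := (Gamma_line_cont k).norm
    have hc2 : Continuous fun t : ℝ => CG k * ((1 + |t|) ^ k * Real.exp (-(π * |t| / 2))) := by
      fun_prop
    have hd : Dense {t : ℝ | t ≠ 0} := dense_compl_singleton 0
    have : ∀ t : ℝ, t ∈ closure {t : ℝ | t ≠ 0} → ‖Complex.Gamma (k + 1 / 2 + t * I)‖ ≤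
        CG k * ((1 + |t|) ^ k * Real.exp (-(π * |t| / 2))) := by
      refine closure_minimal (s := {t : ℝ | t ≠ 0})
        (t := {t : ℝ | ‖Complex.Gamma (k + 1 / 2 + t * I)‖ ≤
        CG k * ((1 + |t|) ^ k * Real.exp (-(π * |t| / 2)))}) ?_ (isClosed_le hc1 hc2)
      intro t ht
      exact norm_Gamma_line_le' k t ht
    exact this t (hd t)
  · exact norm_Gamma_line_le' k t ht

lemma bound_Gamma_pw (k : ℕ) (x : ℂ) {θ : ℝ} (hθ : |x.arg| ≤ θ) (t : ℝ) :
    ‖Complex.Gamma (k + 1 / 2 + t * I) * pw x (k + 1 / 2 + t * I)‖ ≤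
      (CG k * Real.exp (-(k + 1 / 2) * Real.log ‖x‖)) *
        ((1 + |t|) ^ k * Real.exp (-(π / 2 - θ) * |t|)) := by
  have h1 := norm_Gamma_line k t
  have h2 : ‖pw x (k + 1 / 2 + t * I)‖ =
      Real.exp (-(k + 1 / 2) * Real.log ‖x‖) * Real.exp (t * x.arg) := by
    have := norm_pw x (k + 1 / 2) t
    push_cast at this
    exact this
  rw [norm_mul, h2]
  have h3 : Real.exp (t * x.arg) ≤ Real.exp (θ * |t|) := by
    refine Real.exp_le_exp.2 ?_
    have := abs_mul t x.arg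
    have h4 := le_abs_self (t * x.arg)
    nlinarith [abs_nonneg t]
  have h5 := CG_nonneg k
  calc _ ≤ (CG k * ((1 + |t|) ^ k * Real.exp (-(π * |t| / 2)))) *
        (Real.exp (-(k + 1 / 2) * Real.log ‖x‖) * Real.exp (θ * |t|)) := by gcongr
    _ = (CG k * Real.exp (-(k + 1 / 2) * Real.log ‖x‖)) *
        ((1 + |t|) ^ k * (Real.exp (-(π * |t| / 2)) * Real.exp (θ * |t|))) := by ring
    _ = _ := by
      rw [← Real.exp_add]
      congr 4
      ring

lemma integrable_Gamma_pw (k : ℕ) {x : ℂ} (hx : 0 < x.re) :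
    Integrable fun t : ℝ => Complex.Gamma (k + 1 / 2 + t * I) * pw x (k + 1 / 2 + t * I) := by
  have harg := abs_arg_lt hx
  refine Integrable.mono' ((integrable_poly_exp k (ε := π / 2 - |x.arg|)
    (by linarith)).const_mul (CG k * Real.exp (-(k + 1 / 2) * Real.log ‖x‖))) ?_ ?_
  · refine Continuous.aestronglyMeasurable ?_
    exact (Gamma_line_cont k).mul ((continuous_pw x).comp (by fun_prop))
  · exact Eventually.of_forall fun t => bound_Gamma_pw k x le_rfl t

/-- the Cahen–Mellin integral -/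
noncomputable def CM (k : ℕ) (x : ℂ) : ℂ :=
  ∫ t : ℝ, Complex.Gamma (k + 1 / 2 + t * I) * pw x (k + 1 / 2 + t * I)

lemma differentiableOn_CM (k : ℕ) : DifferentiableOn ℂ (CM k) {x : ℂ | 0 < x.re} := by
  intro x0 hx0
  have hx0' : 0 < x0.re := hx0
  refine DifferentiableAt.differentiableWithinAt ?_
  have harg := abs_arg_lt hx0'
  obtain ⟨θ, hθ1, hθ2⟩ := exists_between harg
  set M : ℝ := Real.exp (-(k + 1 / 2) * Real.log ‖x0‖) * ‖x0‖⁻¹ + 1 with hM
  have hx00 : x0 ≠ 0 := by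
    intro h; rw [h] at hx0'; simp at hx0'
  set S : Set ℂ := {x | 0 < x.re ∧ |x.arg| < θ ∧
    Real.exp (-(k + 1 / 2) * Real.log ‖x‖) * ‖x‖⁻¹ < M} with hS
  have hSn : S ∈ 𝓝 x0 := by
    have h1 : ∀ᶠ x : ℂ in 𝓝 x0, 0 < x.re :=
      Complex.continuous_re.continuousAt.eventually_const_lt hx0'
    have h2 : ∀ᶠ x : ℂ in 𝓝 x0, |x.arg| < θ := by
      have : ContinuousAt (fun x : ℂ => |x.arg|) x0 :=
        (Complex.continuousAt_arg (Or.inl hx0')).abs
      exact this.eventually_lt_const hθ1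
    have h3 : ∀ᶠ x : ℂ in 𝓝 x0, Real.exp (-(k + 1 / 2) * Real.log ‖x‖) * ‖x‖⁻¹ < M := by
      have hn : ‖x0‖ ≠ 0 := norm_ne_zero_iff.2 hx00
      have : ContinuousAt (fun x : ℂ => Real.exp (-(k + 1 / 2) * Real.log ‖x‖) * ‖x‖⁻¹) x0 := by
        refine ContinuousAt.mul ?_ (continuous_norm.continuousAt.inv₀ hn)
        refine Real.continuous_exp.continuousAt.comp ?_
        exact continuousAt_const.mul ((Real.continuousAt_log hn).comp
          continuous_norm.continuousAt)
      exact this.eventually_lt_const (by rw [hM]; linarith)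
    filter_upwards [h1, h2, h3] with x a b c using ⟨a, b, c⟩
  have hpos : 0 ≤ M := by positivity
  have main := hasDerivAt_integral_of_dominated_loc_of_deriv_le (𝕜 := ℂ) (μ := volume)
    (F := fun (x : ℂ) (t : ℝ) => Complex.Gamma (k + 1 / 2 + t * I) * pw x (k + 1 / 2 + t * I))
    (F' := fun (x : ℂ) (t : ℝ) => Complex.Gamma (k + 1 / 2 + t * I) *
      (pw x (k + 1 / 2 + t * I) * (-(k + 1 / 2 + t * I) * x⁻¹)))
    (bound := fun t : ℝ => (CG k * (M * (k + 1))) *
      ((1 + |t|) ^ (k + 1) * Real.exp (-(π / 2 - θ) * |t|)))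
    (x₀ := x0) (s := S) hSn ?_ (integrable_Gamma_pw k hx0') ?_ ?_ ?_ ?_
  · exact main.2.differentiableAt
  · refine Eventually.of_forall fun x => Continuous.aestronglyMeasurable ?_
    exact (Gamma_line_cont k).mul ((continuous_pw x).comp (by fun_prop))
  · refine Continuous.aestronglyMeasurable ?_
    exact (Gamma_line_cont k).mul (((continuous_pw x0).comp (by fun_prop)).mul (by fun_prop))
  · refine Eventually.of_forall fun t x hx => ?_
    have e1 : Complex.Gamma (k + 1 / 2 + t * I) *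
        (pw x (k + 1 / 2 + t * I) * (-(k + 1 / 2 + t * I) * x⁻¹)) =
        (Complex.Gamma (k + 1 / 2 + t * I) * pw x (k + 1 / 2 + t * I)) *
          (-(k + 1 / 2 + t * I)) * x⁻¹ := by ring
    rw [e1, norm_mul, norm_mul, norm_inv, norm_neg]
    have h1 := bound_Gamma_pw k x hx.2.1.le t
    have h2 : ‖(k : ℂ) + 1 / 2 + t * I‖ ≤ (k + 1) * (1 + |t|) := by
      have h3 := norm_add_le ((k : ℂ) + 1 / 2) (t * I)
      have h4 : ‖(k : ℂ) + 1 / 2‖ = k + 1 / 2 := by
        have : ((k : ℂ) + 1 / 2) = (((k : ℝ) + 1 / 2 : ℝ) : ℂ) := by push_cast; ring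
        rw [this, Complex.norm_real, Real.norm_eq_abs, abs_of_nonneg (by positivity)]
      have h5 : ‖(t : ℂ) * I‖ = |t| := by simp
      rw [h4, h5] at h3
      have h6 : (0:ℝ) ≤ k := Nat.cast_nonneg k
      nlinarith [abs_nonneg t]
    have h7 := hx.2.2.le
    have hC := CG_nonneg k
    have h8 : 0 ≤ ‖x‖⁻¹ := by positivity
    calc ‖Complex.Gamma (k + 1 / 2 + t * I) * pw x (k + 1 / 2 + t * I)‖ *
          ‖(k : ℂ) + 1 / 2 + t * I‖ * ‖x‖⁻¹
        ≤ ((CG k * Real.exp (-(k + 1 / 2) * Real.log ‖x‖)) *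
        ((1 + |t|) ^ k * Real.exp (-(π / 2 - θ) * |t|))) * ((k + 1) * (1 + |t|)) * ‖x‖⁻¹ := by
          gcongr
      _ = (CG k * ((Real.exp (-(k + 1 / 2) * Real.log ‖x‖) * ‖x‖⁻¹) * (k + 1))) *
          ((1 + |t|) ^ (k + 1) * Real.exp (-(π / 2 - θ) * |t|)) := by ring
      _ ≤ _ := by gcongr
  · exact (integrable_poly_exp (k + 1) (ε := π / 2 - θ) (by linarith)).const_mul _
  · refine Eventually.of_forall fun t x hx => ?_
    have hxs : x ∈ slitPlane := Or.inl hx.1
    have h1 := (Complex.hasDerivAt_log hxs).const_mul (-(k + 1 / 2 + t * I : ℂ))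
    have h2 := h1.cexp.const_mul (Complex.Gamma (k + 1 / 2 + t * I))
    exact h2

lemma CM_real (k : ℕ) {x : ℝ} (hx : 0 < x) : CM k x = 2 * π * Complex.exp (-x) := by
  set f : ℝ → ℂ := fun t => ((Real.exp (-t) : ℝ) : ℂ) with hf
  have hσ : (0:ℝ) < k + 1 / 2 := by positivity
  have hG : ∀ s : ℂ, 0 < s.re → mellin f s = Complex.Gamma s := by
    intro s hs
    rw [Complex.Gamma_eq_integral hs, Complex.GammaIntegral_eq_mellin]
  have hconv : MellinConvergent f ((k + 1 / 2 : ℝ) : ℂ) := by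
    have := Complex.GammaIntegral_convergent (s := ((k + 1 / 2 : ℝ) : ℂ)) (by simpa using hσ)
    refine IntegrableOn.congr_fun this (fun t _ => ?_) measurableSet_Ioi
    simp only [hf, smul_eq_mul]
    ring
  have hre : ∀ t : ℝ, (0:ℝ) < ((k + 1 / 2 : ℝ) + t * I : ℂ).re := by
    intro t; simpa using hσ
  have hv : VerticalIntegrable (mellin f) (k + 1 / 2 : ℝ) := by
    have h1 : (fun t : ℝ => mellin f ((k + 1 / 2 : ℝ) + t * I)) =
        fun t : ℝ => Complex.Gamma (k + 1 / 2 + t * I) := by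
      ext t
      rw [hG _ (hre t)]
      push_cast
      rfl
    unfold VerticalIntegrable
    rw [h1]
    refine Integrable.mono' ((integrable_poly_exp k (ε := π / 2) (by positivity)).const_mul (CG k))
      (Gamma_line_cont k).aestronglyMeasurable (Eventually.of_forall fun t => ?_)
    refine (norm_Gamma_line k t).trans (le_of_eq ?_)
    congr 3
    ring
  have h2 := mellinInv_mellin_eq (k + 1 / 2 : ℝ) f hx hconv hv (by
    rw [hf]
    exact Continuous.continuousAt (by fun_prop))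
  rw [mellinInv] at h2
  have h3 : ∫ y : ℝ, (x : ℂ) ^ (-(((k + 1 / 2 : ℝ) : ℂ) + y * I)) •
      mellin f (((k + 1 / 2 : ℝ) : ℂ) + y * I) = CM k x := by
    rw [CM]
    refine integral_congr_ae (Eventually.of_forall fun t => ?_)
    simp only
    rw [hG _ (hre t), Complex.cpow_def_of_ne_zero (by exact_mod_cast hx.ne'), pw, smul_eq_mul,
      mul_comm]
    push_cast
    congr 2
    ring
  rw [h3] at h2
  have h4 : (2 * π : ℝ) ≠ 0 := by positivity
  have h5 : CM k x = ((2 * π : ℝ) : ℂ) * f x := by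
    rw [← h2, Complex.real_smul]
    push_cast
    have : (2 * (π : ℂ)) ≠ 0 := by exact_mod_cast h4
    field_simp
  rw [h5, hf]
  push_cast
  ring

/-- The Cahen–Mellin formula in the right half plane. -/
theorem CM_eq (k : ℕ) {x : ℂ} (hx : 0 < x.re) : CM k x = 2 * π * Complex.exp (-x) := by
  have ho : IsOpen {x : ℂ | 0 < x.re} := isOpen_lt continuous_const Complex.continuous_re
  have hA : AnalyticOnNhd ℂ (CM k) {x : ℂ | 0 < x.re} := (differentiableOn_CM k).analyticOnNhd ho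
  have hB : AnalyticOnNhd ℂ (fun x => 2 * π * Complex.exp (-x)) {x : ℂ | 0 < x.re} :=
    DifferentiableOn.analyticOnNhd (by fun_prop) ho
  have hconn : IsPreconnected {x : ℂ | 0 < x.re} := (convex_halfSpace_re_gt 0).isPreconnected
  have hfr : ∃ᶠ z in 𝓝[≠] (1:ℂ), CM k z = 2 * π * Complex.exp (-z) := by
    have h1 : Tendsto (fun n : ℕ => (((1 + 1 / ((n : ℝ) + 1) : ℝ)) : ℂ)) atTop (𝓝[≠] (1:ℂ)) := by
      refine tendsto_nhdsWithin_iff.2 ⟨?_, Eventually.of_forall fun n => ?_⟩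
      · have h2 : Tendsto (fun n : ℕ => (1 + 1 / ((n : ℝ) + 1) : ℝ)) atTop (𝓝 (1 + 0)) :=
          tendsto_const_nhds.add tendsto_one_div_add_atTop_nhds_zero_nat
        rw [add_zero] at h2
        have := (Complex.continuous_ofReal.tendsto 1).comp h2
        rw [Complex.ofReal_one] at this
        exact this
      · have h3 : (0:ℝ) < 1 / ((n : ℝ) + 1) := by positivity
        intro h4
        have h5 : (1 + 1 / ((n : ℝ) + 1) : ℝ) = 1 := by
          have h4' : (((1 + 1 / ((n : ℝ) + 1) : ℝ)) : ℂ) = ((1:ℝ) : ℂ) := by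
            rw [h4]; simp
          exact Complex.ofReal_injective h4'
        linarith
    refine h1.frequently (Frequently.of_forall fun n => ?_)
    exact CM_real k (by positivity)
  exact hA.eqOn_of_preconnected_of_frequently_eq hB hconn (by simp) hfr hx

end Pool.Agent.helper70
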