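import Mathlib

open Finset Real

namespace Pool.Agent.helper70

open scoped Classical in
/-- multiples of an irrational number are rarely very close to natural numbers -/
lemma spaced {a : ℝ} (ha : Irrational a) {J : ℕ} (hJ : 1 ≤ J) :
    ∃ g : ℝ, 0 < g ∧ g ≤ 1 / 2 ∧ ∀ X : ℕ,
      ((Icc 1 X).filter (fun k : ℕ => ∃ n : ℕ, |(n : ℝ) - a * k| < g)).card ≤ X / J + 1 := by
  have h1 : ∀ J : ℕ, ∃ g : ℝ, 0 < g ∧ g ≤ 1 / 2 ∧ ∀ j : ℕ, 1 ≤ j → j ≤ J → ∀ n : ℤ,
      2 * g ≤ |(n : ℝ) - a * j| := by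
    intro J
    induction J with
    | zero => exact ⟨1 / 2, by norm_num, le_rfl, fun j h1 h2 => by omega⟩
    | succ J ih =>
      obtain ⟨g, hg0, hg1, hg⟩ := ih
      set x : ℝ := a * ((J + 1 : ℕ) : ℝ) with hx
      have hirr : Irrational x := ha.mul_natCast (Nat.succ_ne_zero J)
      have hpos : 0 < |x - round x| := by
        rw [abs_pos, sub_ne_zero]
        exact hirr.ne_int _
      refine ⟨min g (|x - round x| / 2), lt_min hg0 (by positivity), (min_le_left _ _).trans hg1,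
        fun j hj1 hj2 n => ?_⟩
      rcases Nat.lt_or_ge J j with h | h
      · have hj : j = J + 1 := by omega
        rw [hj, ← hx]
        have h5 : |(n : ℝ) - x| = |x - n| := abs_sub_comm _ _
        rw [h5]
        have := round_le x n
        have h3 := min_le_right g (|x - round x| / 2)
        linarith
      · have h3 := min_le_left g (|x - round x| / 2)
        linarith [hg j hj1 h n]
  obtain ⟨g, hg0, hg1, hg⟩ := h1 J
  refine ⟨g, hg0, hg1, fun X => ?_⟩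
  have hcard : (range (X / J + 1)).card = X / J + 1 := card_range _
  rw [← hcard]
  refine card_le_card_of_injOn (fun k => k / J) ?_ ?_
  · intro k hk
    simp only [coe_filter, Set.mem_ofPred_eq, mem_Icc] at hk
    simp only [coe_range, Set.mem_Iio]
    have := Nat.div_le_div_right (c := J) hk.1.2
    omega
  · -- injectivity
    have key : ∀ k k' : ℕ, k < k' → k / J = k' / J → (∃ n : ℕ, |(n : ℝ) - a * k| < g) →
        (∃ n : ℕ, |(n : ℝ) - a * k'| < g) → False := by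
      intro k k' hlt hdiv ⟨n, hn⟩ ⟨n', hn'⟩
      have h3 : k' - k ≤ J := by
        have e1 := Nat.div_add_mod k J
        have e2 := Nat.div_add_mod k' J
        have e3 := Nat.mod_lt k (by omega : J > 0)
        have e4 := Nat.mod_lt k' (by omega : J > 0)
        rw [hdiv] at e1
        omega
      have h4 := hg (k' - k) (by omega) h3 ((n' : ℤ) - n)
      have e5 : ((((n' : ℤ) - n : ℤ)) : ℝ) - a * ((k' - k : ℕ) : ℝ) =
          ((n' : ℝ) - a * k') - ((n : ℝ) - a * k) := by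
        rw [Nat.cast_sub hlt.le]; push_cast; ring
      rw [e5] at h4
      have h6 := abs_sub ((n' : ℝ) - a * k') ((n : ℝ) - a * k)
      linarith
    intro k hk k' hk' hkk
    simp only [coe_filter, Set.mem_ofPred_eq, mem_Icc] at hk hk'
    simp only at hkk
    rcases lt_trichotomy k k' with h | h | h
    · exact (key k k' h hkk hk.2 hk'.2).elim
    · exact h
    · exact (key k' k h hkk.symm hk'.2 hk.2).elim

open scoped Classical in
/-- the same for `m^(p/q)`, counting only squarefree numbers nearby -/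
lemma spaced_pow {p q : ℕ} (hq : 0 < q) (hqp : q < p) {m : ℕ} (hm : 2 ≤ m) {J : ℕ} (hJ : 1 ≤ J) :
    ∃ g : ℝ, 0 < g ∧ g ≤ 1 / 2 ∧ ∀ X : ℕ,
      ((Icc 1 X).filter (fun k : ℕ => ∃ n : ℕ, Squarefree n ∧
        |(n : ℝ) - (m : ℝ) ^ ((p : ℝ) / q) * k| < g)).card ≤ X / J + 1 := by
  classical
  set x : ℝ := (m : ℝ) ^ ((p : ℝ) / q) with hx
  have hm0 : (0:ℝ) ≤ m := Nat.cast_nonneg m
  have hq0 : (q : ℝ) ≠ 0 := by exact_mod_cast hq.ne'
  have hxq : x ^ q = ((m ^ p : ℕ) : ℝ) := by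
    rw [hx, ← Real.rpow_natCast, ← Real.rpow_mul hm0, div_mul_cancel₀ _ hq0, Real.rpow_natCast]
    push_cast
    rfl
  have hx0 : 0 ≤ x := Real.rpow_nonneg hm0 _
  by_cases hint : ∃ y : ℤ, x = y
  · obtain ⟨y, hy⟩ := hint
    have hy0 : 0 ≤ y := by
      have : (0:ℝ) ≤ (y : ℝ) := by rw [← hy]; exact hx0
      exact_mod_cast this
    obtain ⟨z, rfl⟩ := Int.eq_ofNat_of_zero_le hy0
    have hz : z ^ q = m ^ p := by
      have : ((z : ℝ)) ^ q = ((m ^ p : ℕ) : ℝ) := by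
        rw [← hxq, hy]; push_cast; rfl
      exact_mod_cast this
    -- z is not squarefree-divisor
    have hz2 : 2 ≤ z := by
      by_contra hz2
      have h1 : z ≤ 1 := by omega
      have h2 : z ^ q ≤ 1 := Nat.pow_le_one_iff (by omega) |>.2 h1
      have h3 : 2 ^ p ≤ m ^ p := Nat.pow_le_pow_left hm p
      have h4 : 2 ≤ 2 ^ p := by
        calc 2 = 2 ^ 1 := rfl
          _ ≤ 2 ^ p := Nat.pow_le_pow_right (by norm_num) (by omega)
      omega
    have hno : ∀ n k : ℕ, Squarefree n → n ≠ z * k := by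
      intro n k hn h
      have hzs : Squarefree z := hn.squarefree_of_dvd ⟨k, h⟩
      obtain ⟨l, hl, hlz⟩ := Nat.exists_prime_and_dvd (by omega : z ≠ 1)
      have h5 : z.factorization l = 1 := by
        have h51 := hzs.natFactorization_le_one l
        have h52 := hl.factorization_pos_of_dvd (by omega : z ≠ 0) hlz
        omega
      have h6 := congrArg (fun n => n.factorization l) hz
      simp only [Nat.factorization_pow, Finsupp.smul_apply, smul_eq_mul, h5, mul_one] at h6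
      rcases Nat.eq_zero_or_pos (m.factorization l) with h7 | h7
      · rw [h7] at h6; omega
      · nlinarith
    refine ⟨1 / 2, by norm_num, le_rfl, fun X => ?_⟩
    have : ((Icc 1 X).filter (fun k : ℕ => ∃ n : ℕ, Squarefree n ∧
        |(n : ℝ) - x * k| < 1 / 2)) = ∅ := by
      rw [filter_eq_empty_iff]
      rintro k _ ⟨n, hn, hnk⟩
      rw [hy] at hnk
      have h8 : |((n : ℤ) - (z * k : ℕ) : ℤ)| < 1 := by
        have : |(((n : ℤ) - (z * k : ℕ) : ℤ) : ℝ)| < 1 := by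
          push_cast at hnk ⊢
          linarith
        exact_mod_cast this
      have h9 : (n : ℤ) - (z * k : ℕ) = 0 := Int.abs_lt_one_iff.1 h8
      exact hno n k hn (by exact_mod_cast (sub_eq_zero.1 h9))
    rw [this]
    simp
  · have hirr : Irrational x := irrational_nrt_of_notint_nrt q (m ^ p : ℤ) (by
      rw [hxq]; push_cast; rfl) hint hq
    obtain ⟨g, hg0, hg1, hg⟩ := spaced hirr hJ
    refine ⟨g, hg0, hg1, fun X => le_trans (card_le_card ?_) (hg X)⟩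
    intro k hk
    rw [mem_filter] at hk ⊢
    obtain ⟨h1, n, _, h2⟩ := hk
    exact ⟨h1, n, h2⟩

open scoped Classical in
/-- uniform version for `2 ≤ m ≤ m0` -/
lemma spaced_unif {p q : ℕ} (hq : 0 < q) (hqp : q < p) {J : ℕ} (hJ : 1 ≤ J) (m0 : ℕ) :
    ∃ g : ℝ, 0 < g ∧ g ≤ 1 / 2 ∧ ∀ m : ℕ, 2 ≤ m → m ≤ m0 → ∀ X : ℕ,
      ((Icc 1 X).filter (fun k : ℕ => ∃ n : ℕ, Squarefree n ∧
        |(n : ℝ) - (m : ℝ) ^ ((p : ℝ) / q) * k| < g)).card ≤ X / J + 1 := by
  induction m0 with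
  | zero => exact ⟨1 / 2, by norm_num, le_rfl, fun m h1 h2 => by omega⟩
  | succ m0 ih =>
    obtain ⟨g, hg0, hg1, hg⟩ := ih
    by_cases hm : 2 ≤ m0 + 1
    · obtain ⟨g', hg0', hg1', hg'⟩ := spaced_pow hq hqp hm hJ
      refine ⟨min g g', lt_min hg0 hg0', (min_le_left _ _).trans hg1, fun m h1 h2 X => ?_⟩
      rcases Nat.lt_or_ge m0 m with h | h
      · have hmm : m = m0 + 1 := by omega
        subst hmm
        refine le_trans (card_le_card ?_) (hg' X)
        intro k hk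
        rw [mem_filter] at hk ⊢
        obtain ⟨h1, n, h3, h2⟩ := hk
        exact ⟨h1, n, h3, h2.trans_le (min_le_right _ _)⟩
      · refine le_trans (card_le_card ?_) (hg m h1 h X)
        intro k hk
        rw [mem_filter] at hk ⊢
        obtain ⟨h1, n, h3, h2⟩ := hk
        exact ⟨h1, n, h3, h2.trans_le (min_le_left _ _)⟩
    · exact ⟨g, hg0, hg1, fun m h1 h2 => hg m h1 (by omega)⟩

lemma card_mult (K d : ℕ) (hd : 0 < d) :
    ((Ioc K (2 * K)).filter (fun n => d ∣ n)).card ≤ K / d + 1 := by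
  have h1 : (Ioc 0 (2 * K)).filter (fun n => d ∣ n) =
      (Ioc 0 K).filter (fun n => d ∣ n) ∪ (Ioc K (2 * K)).filter (fun n => d ∣ n) := by
    rw [← filter_union]
    congr 1
    ext n
    simp only [mem_Ioc, mem_union]
    omega
  have h2 : Disjoint ((Ioc 0 K).filter (fun n => d ∣ n)) ((Ioc K (2 * K)).filter (fun n => d ∣ n)) := by
    rw [disjoint_left]
    intro n hn hn'
    simp only [mem_filter, mem_Ioc] at hn hn'
    omega
  have h3 := congrArg card h1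
  rw [card_union_of_disjoint h2, Nat.Ioc_filter_dvd_card_eq_div, Nat.Ioc_filter_dvd_card_eq_div] at h3
  have h4 : 2 * K / d ≤ 2 * (K / d) + 1 := by
    have e1 := Nat.div_add_mod K d
    have e2 := Nat.mod_lt K hd
    have : 2 * K < d * (2 * (K / d) + 2) := by nlinarith
    have := (Nat.div_lt_iff_lt_mul hd).2 (this.trans_eq (mul_comm _ _))
    omega
  omega

lemma sum_inv_sq (D : ℕ) (hD : 2 ≤ D) :
    ∑ d ∈ Icc 2 D, (1:ℝ) / (d : ℝ) ^ 2 ≤ 3 / 4 - 1 / D := by
  induction D, hD using Nat.le_induction with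
  | base => norm_num
  | succ D hD ih =>
    rw [sum_Icc_succ_top (by omega)]
    have hD0 : (0:ℝ) < D := by
      have : 0 < D := by omega
      exact_mod_cast this
    have h1 : (1:ℝ) / ((D + 1 : ℕ) : ℝ) ^ 2 ≤ 1 / D - 1 / ((D + 1 : ℕ) : ℝ) := by
      push_cast
      have e : (1:ℝ) / D - 1 / ((D : ℝ) + 1) = 1 / (D * (D + 1)) := by field_simp; ring
      rw [e]
      refine one_div_le_one_div_of_le (by positivity) ?_
      nlinarith
    linarith

/-- lower bound for the number of squarefree numbers in `(K, 2K]` -/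
lemma card_squarefree (K : ℕ) (hK : 800 ≤ K) :
    (K : ℝ) / 5 ≤ (((Ioc K (2 * K)).filter Squarefree).card : ℝ) := by
  set D : ℕ := Nat.sqrt (2 * K) with hD
  have hDsq : D * D ≤ 2 * K := Nat.sqrt_le _
  have hD2 : 2 ≤ D := by
    rw [hD, Nat.le_sqrt]; omega
  -- complement
  have h1 : (Ioc K (2 * K)).filter (fun n => ¬ Squarefree n) ⊆
      (Icc 2 D).biUnion (fun d => (Ioc K (2 * K)).filter (fun n => d * d ∣ n)) := by
    intro n hn
    simp only [mem_filter, mem_Ioc] at hn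
    obtain ⟨⟨hn1, hn2⟩, hn3⟩ := hn
    rw [Squarefree] at hn3
    push Not at hn3
    obtain ⟨x, hx, hxu⟩ := hn3
    rw [Nat.isUnit_iff] at hxu
    have hx0 : x ≠ 0 := by
      rintro rfl
      rw [zero_mul, zero_dvd_iff] at hx
      omega
    simp only [mem_biUnion, mem_Icc, mem_filter, mem_Ioc]
    refine ⟨x, ⟨by omega, ?_⟩, ⟨hn1, hn2⟩, hx⟩
    rw [hD, Nat.le_sqrt]
    exact (Nat.le_of_dvd (by omega) hx).trans hn2
  have h2 : ((((Ioc K (2 * K)).filter (fun n => ¬ Squarefree n)).card : ℕ) : ℝ) ≤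
      3 / 4 * K + D := by
    have h3 := (card_le_card h1).trans card_biUnion_le
    have h4 : ∑ d ∈ Icc 2 D, ((Ioc K (2 * K)).filter (fun n => d * d ∣ n)).card ≤
        ∑ d ∈ Icc 2 D, (K / (d * d) + 1) := by
      refine sum_le_sum fun d hd => card_mult K (d * d) ?_
      have := (mem_Icc.1 hd).1
      nlinarith
    have h5 : ((∑ d ∈ Icc 2 D, (K / (d * d) + 1) : ℕ) : ℝ) ≤ 3 / 4 * K + D := by
      push_cast
      have h6 : ∑ d ∈ Icc 2 D, (((K / (d * d) : ℕ) : ℝ) + 1) ≤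
          ∑ d ∈ Icc 2 D, ((K : ℝ) * (1 / (d : ℝ) ^ 2) + 1) := by
        refine sum_le_sum fun d hd => ?_
        have := Nat.cast_div_le (α := ℝ) (m := K) (n := d * d)
        have e : (K : ℝ) / ((d * d : ℕ) : ℝ) = (K : ℝ) * (1 / (d : ℝ) ^ 2) := by
          push_cast; rw [pow_two]; ring
        rw [e] at this
        linarith
      refine h6.trans ?_
      rw [sum_add_distrib, ← mul_sum]
      have h7 := sum_inv_sq D hD2
      have h8 : (0:ℝ) ≤ 1 / D := by positivity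
      have h9 : ∑ d ∈ Icc 2 D, (1:ℝ) ≤ D := by
        rw [sum_const, Nat.card_Icc]
        simp only [nsmul_eq_mul, mul_one]
        have : D + 1 - 2 ≤ D := by omega
        exact_mod_cast this
      have h10 : (0:ℝ) ≤ K := Nat.cast_nonneg K
      nlinarith
    calc _ ≤ ((∑ d ∈ Icc 2 D, (K / (d * d) + 1) : ℕ) : ℝ) := by exact_mod_cast h3.trans h4
      _ ≤ _ := h5
  have h11 := card_filter_add_card_filter_not (s := Ioc K (2 * K)) Squarefree
  have h12 : (Ioc K (2 * K)).card = K := by rw [Nat.card_Ioc]; omega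
  rw [h12] at h11
  have h13 : (((Ioc K (2 * K)).filter Squarefree).card : ℝ) +
      (((Ioc K (2 * K)).filter (fun n => ¬ Squarefree n)).card : ℝ) = K := by
    exact_mod_cast h11
  have h14 : (D : ℝ) ≤ K / 20 := by
    have hDr : (D : ℝ) * D ≤ 2 * K := by exact_mod_cast hDsq
    have hKr : (800:ℝ) ≤ K := by exact_mod_cast hK
    by_contra hlt
    push Not at hlt
    have : (K : ℝ) / 20 * (K / 20) < D * D := by
      have : 0 ≤ (K : ℝ) / 20 := by positivity
      nlinarith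
    nlinarith
  linarith

open scoped Classical in
/-- Isolated squarefree numbers: for a rational `r = p/q > 1` there are squarefree
numbers in all intervals `(K, 2K]`, `K` large, at distance at least `g` from all numbers `m^r k`,
`m ≥ 2`. -/
theorem gap_strong {p q : ℕ} (hq : 0 < q) (hqp : q < p) : ∃ g : ℝ, 0 < g ∧ g ≤ 1 / 2 ∧
    ∃ K1 : ℕ, ∀ K : ℕ, K1 ≤ K → ∃ n : ℕ, K < n ∧ n ≤ 2 * K ∧ Squarefree n ∧
      ∀ m k : ℕ, 2 ≤ m → 1 ≤ k → g ≤ |(n : ℝ) - (m : ℝ) ^ ((p : ℝ) / q) * k| := by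
  set r : ℝ := (p : ℝ) / q with hr
  have hq0 : (0:ℝ) < q := by exact_mod_cast hq
  have hr1 : 1 < r := by rw [hr, one_lt_div hq0]; exact_mod_cast hqp
  have hsum : Summable fun m : ℕ => (m : ℝ) ^ (-r) := Real.summable_nat_rpow.2 (by linarith)
  set Z : ℝ := ∑' m : ℕ, (m : ℝ) ^ (-r) with hZ
  have hZ0 : 0 ≤ Z := tsum_nonneg fun m => by positivity
  -- the tail
  obtain ⟨s0, hs0⟩ := (summable_iff_vanishing_norm.1 hsum) (1 / 40) (by norm_num)
  set m0 : ℕ := s0.sup id with hm0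
  have htail : ∀ M : ℕ, ∑ m ∈ Icc (m0 + 1) M, (m : ℝ) ^ (-r) ≤ 1 / 40 := by
    intro M
    have hdis : Disjoint (Icc (m0 + 1) M) s0 := by
      rw [disjoint_left]
      intro m hm hm'
      have h1 : m ≤ m0 := by rw [hm0]; exact le_sup (f := id) hm'
      have := (mem_Icc.1 hm).1
      omega
    have := hs0 _ hdis
    rw [Real.norm_of_nonneg (sum_nonneg fun m _ => by positivity)] at this
    exact this.le
  obtain ⟨J, hJ⟩ := exists_nat_gt (40 * Z + 1)
  have hJ1 : 1 ≤ J := by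
    have : (0:ℝ) < J := by linarith
    exact_mod_cast this
  obtain ⟨g, hg0, hg1, hg⟩ := spaced_unif hq hqp hJ1 m0
  rw [← hr] at hg
  refine ⟨g, hg0, hg1, max 800 (40 * m0 + 40), fun K hK => ?_⟩
  have hK2 : 800 ≤ K := (le_max_left _ _).trans hK
  have hK3 : 40 * m0 + 40 ≤ K := (le_max_right _ _).trans hK
  by_contra hcon
  push Not at hcon
  set S : Finset ℕ := (Ioc K (2 * K)).filter Squarefree with hS
  have hcard := card_squarefree K hK2
  rw [← hS] at hcard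
  set X : ℕ → ℕ := fun m => ⌊(2 * K + 1 : ℝ) * (m : ℝ) ^ (-r)⌋₊ with hX
  set W : ℕ → Finset ℕ := fun m => (Icc 1 (X m)).filter (fun k : ℕ => ∃ n : ℕ, Squarefree n ∧
        |(n : ℝ) - (m : ℝ) ^ r * k| < g) with hW
  -- each element of S is close to some m^r k
  have hbad : ∀ n ∈ S, ∃ m k : ℕ, 2 ≤ m ∧ m ≤ 2 * K + 1 ∧ k ∈ W m ∧ |(n : ℝ) - (m : ℝ) ^ r * k| < g := by
    intro n hn
    rw [hS, mem_filter, mem_Ioc] at hn
    obtain ⟨⟨hn1, hn2⟩, hn3⟩ := hn
    obtain ⟨m, k, hm, hk, hmk⟩ := hcon n hn1 hn2 hn3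
    have hmr : (0:ℝ) < m := by
      have : 0 < m := by omega
      exact_mod_cast this
    have hk1 : (1:ℝ) ≤ k := by exact_mod_cast hk
    have hpow : 0 < (m : ℝ) ^ r := Real.rpow_pos_of_pos hmr r
    have h1 : (m : ℝ) ^ r * k < 2 * K + 1 := by
      have h2 := (abs_lt.1 hmk).1
      have h3 : (n : ℝ) ≤ 2 * K := by exact_mod_cast hn2
      linarith
    have h4 : (m : ℝ) ≤ (m : ℝ) ^ r := by
      conv_lhs => rw [← Real.rpow_one (m : ℝ)]
      have hm1 : (1:ℝ) ≤ m := by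
        have : 1 ≤ m := by omega
        exact_mod_cast this
      exact Real.rpow_le_rpow_of_exponent_le hm1 hr1.le
    have h5 : (m : ℝ) < 2 * K + 1 := by nlinarith
    have h6 : (k : ℝ) ≤ (2 * K + 1 : ℝ) * (m : ℝ) ^ (-r) := by
      rw [Real.rpow_neg hmr.le, ← div_eq_mul_inv, le_div_iff₀ hpow]
      linarith
    refine ⟨m, k, hm, ?_, ?_, hmk⟩
    · have : m < 2 * K + 1 := by exact_mod_cast h5
      omega
    · simp only [hW, mem_filter, mem_Icc, hX]
      exact ⟨⟨hk, Nat.le_floor h6⟩, n, hn3, hmk⟩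
  -- S is covered by the images
  have hcover : S ⊆ (Icc 2 (2 * K + 1)).biUnion
      (fun m => S.filter (fun n => ∃ k ∈ W m, |(n : ℝ) - (m : ℝ) ^ r * k| < g)) := by
    intro n hn
    obtain ⟨m, k, h1, h2, h3, h4⟩ := hbad n hn
    rw [mem_biUnion]
    exact ⟨m, mem_Icc.2 ⟨h1, h2⟩, mem_filter.2 ⟨hn, k, h3, h4⟩⟩
  have hle : ∀ m : ℕ, (S.filter (fun n : ℕ => ∃ k ∈ W m, |(n : ℝ) - (m : ℝ) ^ r * k| < g)).card ≤
      (W m).card := by
    intro m
    have hch : ∀ n ∈ S.filter (fun n : ℕ => ∃ k ∈ W m, |(n : ℝ) - (m : ℝ) ^ r * k| < g),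
        ∃ k ∈ W m, |(n : ℝ) - (m : ℝ) ^ r * k| < g := fun n hn => (mem_filter.1 hn).2
    choose! φ hφ1 hφ2 using hch
    refine card_le_card_of_injOn φ (fun n hn => hφ1 n hn) ?_
    intro n hn n' hn' hnn
    have h1 := hφ2 n hn
    have h2 := hφ2 n' hn'
    rw [hnn] at h1
    have h3 : |((n : ℤ) - n' : ℤ)| < 1 := by
      have h4 : |(((n : ℤ) - n' : ℤ) : ℝ)| < 1 := by
        have e : (((n : ℤ) - n' : ℤ) : ℝ) = ((n : ℝ) - (m : ℝ) ^ r * φ n') -
            ((n' : ℝ) - (m : ℝ) ^ r * φ n') := by push_cast; ring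
        rw [e]
        have := abs_sub ((n : ℝ) - (m : ℝ) ^ r * φ n') ((n' : ℝ) - (m : ℝ) ^ r * φ n')
        linarith
      exact_mod_cast h4
    have h9 : (n : ℤ) - n' = 0 := Int.abs_lt_one_iff.1 h3
    exact_mod_cast (sub_eq_zero.1 h9)
  have hcount : S.card ≤ ∑ m ∈ Icc 2 (2 * K + 1), (W m).card :=
    (card_le_card hcover).trans (card_biUnion_le.trans (sum_le_sum fun m _ => hle m))
  -- bound of W m
  have hWle : ∀ m, ((W m).card : ℝ) ≤ (2 * K + 1 : ℝ) * (m : ℝ) ^ (-r) := by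
    intro m
    have h1 : (W m).card ≤ X m := by
      refine (card_filter_le _ _).trans ?_
      rw [Nat.card_Icc]; omega
    have h2 : ((X m : ℕ) : ℝ) ≤ (2 * K + 1 : ℝ) * (m : ℝ) ^ (-r) := Nat.floor_le (by positivity)
    exact (Nat.cast_le.2 h1).trans h2
  have hWle2 : ∀ m, 2 ≤ m → m ≤ m0 →
      ((W m).card : ℝ) ≤ (2 * K + 1 : ℝ) * (m : ℝ) ^ (-r) / J + 1 := by
    intro m h1 h2
    have h3 := hg m h1 h2 (X m)
    have h4 : (((W m).card : ℕ) : ℝ) ≤ ((X m / J : ℕ) : ℝ) + 1 := by exact_mod_cast h3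
    have h5 : ((X m / J : ℕ) : ℝ) ≤ (X m : ℝ) / J := Nat.cast_div_le
    have h6 : ((X m : ℕ) : ℝ) ≤ (2 * K + 1 : ℝ) * (m : ℝ) ^ (-r) := Nat.floor_le (by positivity)
    have hJ0 : (0:ℝ) < J := by exact_mod_cast hJ1
    have h7 : (X m : ℝ) / J ≤ (2 * K + 1 : ℝ) * (m : ℝ) ^ (-r) / J := by gcongr
    linarith
  have hJ0 : (0:ℝ) < J := by exact_mod_cast hJ1
  have hsplit : ∑ m ∈ Icc 2 (2 * K + 1), ((W m).card : ℝ) ≤
      ∑ m ∈ Icc 2 m0, ((2 * K + 1 : ℝ) * (m : ℝ) ^ (-r) / J + 1) +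
      ∑ m ∈ Icc (m0 + 1) (2 * K + 1), (2 * K + 1 : ℝ) * (m : ℝ) ^ (-r) := by
    have h1 : Icc 2 (2 * K + 1) ⊆ Icc 2 m0 ∪ Icc (m0 + 1) (2 * K + 1) := by
      intro m hm
      rw [mem_union, mem_Icc, mem_Icc]
      rw [mem_Icc] at hm
      omega
    have hdis : Disjoint (Icc 2 m0) (Icc (m0 + 1) (2 * K + 1)) := by
      rw [disjoint_left]
      intro m hm hm'
      rw [mem_Icc] at hm hm'
      omega
    refine (sum_le_sum_of_subset_of_nonneg h1 fun _ _ _ => Nat.cast_nonneg _).trans ?_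
    rw [sum_union hdis]
    refine add_le_add (sum_le_sum fun m hm => ?_) (sum_le_sum fun m _ => hWle m)
    rw [mem_Icc] at hm
    exact hWle2 m hm.1 hm.2
  have hfirst : ∑ m ∈ Icc 2 m0, ((2 * K + 1 : ℝ) * (m : ℝ) ^ (-r) / J + 1) ≤
      (2 * K + 1 : ℝ) * (1 / 40) + m0 := by
    rw [sum_add_distrib]
    have h1 : ∑ m ∈ Icc 2 m0, (2 * K + 1 : ℝ) * (m : ℝ) ^ (-r) / J =
        (2 * K + 1 : ℝ) / J * ∑ m ∈ Icc 2 m0, (m : ℝ) ^ (-r) := by
      rw [mul_sum]
      refine sum_congr rfl fun m _ => ?_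
      ring
    have h2 : ∑ m ∈ Icc 2 m0, (m : ℝ) ^ (-r) ≤ Z :=
      hsum.sum_le_tsum _ fun m _ => by positivity
    have h3 : Z / J ≤ 1 / 40 := by
      rw [div_le_div_iff₀ hJ0 (by norm_num)]
      linarith
    have h4 : ∑ m ∈ Icc 2 m0, (1:ℝ) ≤ m0 := by
      rw [sum_const, Nat.card_Icc]
      simp only [nsmul_eq_mul, mul_one]
      have : m0 + 1 - 2 ≤ m0 := by omega
      exact_mod_cast this
    rw [h1]
    have h5 : (2 * K + 1 : ℝ) / J * ∑ m ∈ Icc 2 m0, (m : ℝ) ^ (-r) ≤ (2 * K + 1 : ℝ) * (1 / 40) := by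
      calc _ ≤ (2 * K + 1 : ℝ) / J * Z := by gcongr
        _ = (2 * K + 1 : ℝ) * (Z / J) := by ring
        _ ≤ _ := by gcongr
    linarith
  have hsecond : ∑ m ∈ Icc (m0 + 1) (2 * K + 1), (2 * K + 1 : ℝ) * (m : ℝ) ^ (-r) ≤
      (2 * K + 1 : ℝ) * (1 / 40) := by
    rw [← mul_sum]
    exact mul_le_mul_of_nonneg_left (htail _) (by positivity)
  have hfin : (S.card : ℝ) ≤ ∑ m ∈ Icc 2 (2 * K + 1), ((W m).card : ℝ) := by exact_mod_cast hcount
  have hKr : (40:ℝ) * m0 + 40 ≤ K := by exact_mod_cast hK3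
  linarith

/-- arbitrarily large isolated squarefree numbers -/
theorem gap {p q : ℕ} (hq : 0 < q) (hqp : q < p) : ∃ g : ℝ, 0 < g ∧ g ≤ 1 / 2 ∧ ∀ K0 : ℕ,
    ∃ n : ℕ, K0 ≤ n ∧ Squarefree n ∧ ∀ m k : ℕ, 2 ≤ m → 1 ≤ k →
      g ≤ |(n : ℝ) - (m : ℝ) ^ ((p : ℝ) / q) * k| := by
  obtain ⟨g, h1, h2, K1, h3⟩ := gap_strong hq hqp
  refine ⟨g, h1, h2, fun K0 => ?_⟩
  obtain ⟨n, h4, -, h5, h6⟩ := h3 (max K0 K1) (le_max_right _ _)
  exact ⟨n, (le_max_left _ _).trans h4.le, h5, h6⟩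

end Pool.Agent.helper70
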