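import Mathlib

open Complex Metric Set MeasureTheory Real Filter Topology
open scoped FourierTransform SchwartzMap ContDiff

namespace Pool.Agent.helper70

/-- the Fourier type transform used for isolating a frequency -/
noncomputable def hat (φ : ℝ → ℝ) (ξ : ℝ) : ℂ := ∫ u : ℝ, (φ u : ℂ) * Complex.exp (I * ξ * u)

/-- a smooth bump supported in `[1,2]`, with its Fourier decay -/
lemma exists_kernel : ∃ φ : ℝ → ℝ, Continuous φ ∧ (∀ u, 0 ≤ φ u) ∧ (∀ u, φ u ≠ 0 → 1 ≤ u ∧ u ≤ 2) ∧
    Integrable φ ∧ 0 < ∫ u, φ u ∧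
    ∀ J : ℕ, ∃ C : ℝ, 0 ≤ C ∧ ∀ ξ : ℝ, |ξ| ^ J * ‖hat φ ξ‖ ≤ C := by
  let φ0 : ContDiffBump (3 / 2 : ℝ) := ⟨1 / 4, 1 / 2, by norm_num, by norm_num⟩
  have hcs : HasCompactSupport (φ0 : ℝ → ℝ) := φ0.hasCompactSupport
  have hcd : ContDiff ℝ ∞ (φ0 : ℝ → ℝ) := φ0.contDiff
  have hi : Integrable (φ0 : ℝ → ℝ) := φ0.continuous.integrable_of_hasCompactSupport hcs
  have hsupp : ∀ u, φ0 u ≠ 0 → 1 ≤ u ∧ u ≤ 2 := by
    intro u hu
    have h1 : u ∈ Function.support (φ0 : ℝ → ℝ) := hu
    rw [φ0.support_eq, Metric.mem_ball, Real.dist_eq, abs_lt] at h1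
    have h2 : φ0.rOut = 1 / 2 := rfl
    rw [h2] at h1
    constructor <;> linarith
  refine ⟨φ0, φ0.continuous, fun u => φ0.nonneg, hsupp, hi, ?_, fun J => ?_⟩
  · exact φ0.integral_pos
  · -- Schwartz function
    have hcs' : HasCompactSupport (fun u : ℝ => (φ0 u : ℂ)) :=
      hcs.comp_left (g := fun r : ℝ => (r : ℂ)) (by simp)
    have hcd' : ContDiff ℝ ∞ (fun u : ℝ => (φ0 u : ℂ)) :=
      Complex.ofRealCLM.contDiff.comp hcd
    let Φ : 𝓢(ℝ, ℂ) := hcs'.toSchwartzMap hcd'
    obtain ⟨C, hC0, hC⟩ := (𝓕 Φ).decay J 0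
    refine ⟨(2 * π) ^ J * C, by positivity, fun ξ => ?_⟩
    have h1 := hC (-ξ / (2 * π))
    rw [norm_iteratedFDeriv_zero] at h1
    have h2 : (𝓕 Φ) (-ξ / (2 * π)) = hat φ0 ξ := by
      have h3 : (𝓕 Φ) (-ξ / (2 * π)) = 𝓕 (Φ : ℝ → ℂ) (-ξ / (2 * π)) := by
        rw [← SchwartzMap.fourier_coe]
      rw [h3, Real.fourier_eq', hat]
      refine integral_congr_ae (Eventually.of_forall fun u => ?_)
      simp only
      have h4 : (Φ u : ℂ) = φ0 u := rfl
      rw [h4, smul_eq_mul, mul_comm]
      congr 2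
      have h5 : inner ℝ u (-ξ / (2 * π)) = (-ξ / (2 * π)) * u := by
        simp [mul_comm]
      rw [h5]
      push_cast
      have : (π : ℂ) ≠ 0 := by exact_mod_cast Real.pi_ne_zero
      field_simp
    rw [h2, Real.norm_eq_abs, abs_div, abs_neg, abs_of_pos (by positivity : (0:ℝ) < 2 * π),
      div_pow] at h1
    have h6 : (0:ℝ) < (2 * π) ^ J := by positivity
    rw [div_mul_eq_mul_div, div_le_iff₀ h6] at h1
    linarith

section
variable {ι : Type*} {b : ι → ℂ} {lam : ι → ℝ}

lemma exp_decay_bound {δ l : ℝ} (hδ : 0 < δ) (hl : 1 ≤ l) :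
    l * Real.exp (-l * δ) ≤ (6 / δ ^ 3) * l ^ (-(3 / 2) : ℝ) := by
  have h1 := Real.pow_div_factorial_le_exp (l * δ) (by positivity) 3
  have h2 : ((3 : ℕ).factorial : ℝ) = 6 := by norm_num [Nat.factorial]
  rw [h2, mul_pow] at h1
  have hl0 : 0 < l := by linarith
  have h3 : Real.exp (-l * δ) ≤ 6 / (l ^ 3 * δ ^ 3) := by
    rw [neg_mul, Real.exp_neg, inv_le_comm₀ (Real.exp_pos _) (by positivity), inv_div]
    exact h1
  have h4 : l ^ (-2 : ℝ) ≤ l ^ (-(3 / 2) : ℝ) := Real.rpow_le_rpow_of_exponent_le hl (by norm_num)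
  have h5 : l ^ (-2 : ℝ) = 1 / l ^ 2 := by
    rw [Real.rpow_neg hl0.le, one_div]
    congr 1
    rw [← Real.rpow_natCast]; norm_num
  calc l * Real.exp (-l * δ) ≤ l * (6 / (l ^ 3 * δ ^ 3)) := by gcongr
    _ = (6 / δ ^ 3) * (1 / l ^ 2) := by field_simp
    _ ≤ _ := by rw [← h5]; gcongr

/-- isolation identity -/
lemma isolate [Countable ι] (hlam : ∀ j, 1 ≤ lam j)
    (hsum : Summable fun j => ‖b j‖ * lam j ^ (-(3 / 2) : ℝ)) {φ : ℝ → ℝ} (hφc : Continuous φ)
    (hφi : Integrable φ) (n Y δ : ℝ) (hδ : 0 < δ) :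
    HasSum (fun j => b j * (lam j * Real.exp (-lam j * δ)) * hat φ ((n - lam j) * Y))
      (∫ u : ℝ, (φ u : ℂ) * Complex.exp (I * (n * Y) * u) *
        ∑' j, b j * (lam j * Complex.exp (-(lam j : ℂ) * (δ + Y * u * I)))) := by
  set F : ι → ℝ → ℂ := fun j u => (φ u : ℂ) * Complex.exp (I * (n * Y) * u) *
    (b j * (lam j * Complex.exp (-(lam j : ℂ) * (δ + Y * u * I)))) with hF
  have hFn : ∀ j u, ‖F j u‖ = ‖φ u‖ * (‖b j‖ * (lam j * Real.exp (-lam j * δ))) := by
    intro j u
    have hl : 0 < lam j := by linarith [hlam j]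
    simp only [hF]
    rw [norm_mul, norm_mul, norm_mul, norm_mul, Complex.norm_real, Complex.norm_real,
      Complex.norm_exp, Complex.norm_exp, Real.norm_of_nonneg hl.le]
    have e1 : (I * (n * Y) * u).re = 0 := by simp
    have e2 : (-(lam j : ℂ) * (δ + Y * u * I)).re = -lam j * δ := by simp
    rw [e1, e2, Real.exp_zero, mul_one]
  have hFc : ∀ j, Continuous (F j) := by
    intro j
    simp only [hF]
    fun_prop
  have hFi : ∀ j, Integrable (F j) := by
    intro j
    refine Integrable.mono' (hφi.norm.mul_const (‖b j‖ * (lam j * Real.exp (-lam j * δ))))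
      (hFc j).aestronglyMeasurable (Eventually.of_forall fun u => (hFn j u).le)
  have hS : Summable fun j => ∫ u, ‖F j u‖ := by
    have h1 : ∀ j, ∫ u, ‖F j u‖ = (∫ u, ‖φ u‖) * (‖b j‖ * (lam j * Real.exp (-lam j * δ))) := by
      intro j
      rw [← integral_mul_const]
      exact integral_congr_ae (Eventually.of_forall fun u => hFn j u)
    simp_rw [h1]
    refine Summable.mul_left _ ?_
    refine Summable.of_nonneg_of_le (fun j => ?_) (fun j => ?_) (hsum.mul_left (6 / δ ^ 3))
    · have : 0 < lam j := by linarith [hlam j]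
      positivity
    · have := exp_decay_bound hδ (hlam j)
      calc ‖b j‖ * (lam j * Real.exp (-lam j * δ)) ≤
          ‖b j‖ * ((6 / δ ^ 3) * lam j ^ (-(3 / 2) : ℝ)) := by gcongr
        _ = _ := by ring
  have h1 := hasSum_integral_of_summable_integral_norm hFi hS
  have h2 : ∀ u, ∑' j, F j u = (φ u : ℂ) * Complex.exp (I * (n * Y) * u) *
        ∑' j, b j * (lam j * Complex.exp (-(lam j : ℂ) * (δ + Y * u * I))) := by
    intro u
    simp only [hF]
    rw [tsum_mul_left]
  simp_rw [h2] at h1
  refine h1.congr_fun ?_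
  intro j
  rw [hat, ← integral_const_mul]
  refine integral_congr_ae (Eventually.of_forall fun u => ?_)
  simp only [hF]
  have e3 : (Real.exp (-lam j * δ) : ℂ) * Complex.exp (I * ((n - lam j) * Y : ℝ) * u) =
      Complex.exp (I * (n * Y) * u) * Complex.exp (-(lam j : ℂ) * (δ + Y * u * I)) := by
    rw [Complex.ofReal_exp, ← Complex.exp_add, ← Complex.exp_add]
    congr 1
    push_cast
    ring
  linear_combination (b j * lam j * φ u) * e3

/-- Isolation of a frequency: if `∑ b_j λ_j e^{-λ_j x}` is polynomially bounded near the positive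
imaginary axis, then the coefficient of a well isolated large frequency is small. -/
theorem T2 [Countable ι] (hlam : ∀ j, 1 ≤ lam j)
    (hsum : Summable fun j => ‖b j‖ * lam j ^ (-(3 / 2) : ℝ)) {N : ℕ} (hN : 1 ≤ N) {C0 : ℝ}
    (hC0 : 0 ≤ C0)
    (hbound : ∀ x : ℂ, 0 < x.re → 0 ≤ x.im → 1 ≤ ‖x‖ →
      ‖∑' j, b j * (lam j * Complex.exp (-(lam j : ℂ) * x))‖ ≤ C0 * ‖x‖ ^ N)
    {g c : ℝ} (hg : 0 < g) (hg1 : g ≤ 1) (hc : 0 < c) :
    ∃ K : ℝ, ∀ n : ℝ, K ≤ n → (∀ j, lam j = n ∨ g ≤ |n - lam j|) →
      ‖∑' j, (if lam j = n then b j else 0)‖ < c := by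
  classical
  obtain ⟨φ, hφc, hφ0, hφs, hφi, hφp, hφd⟩ := exists_kernel
  set A : ℝ := ∫ u, φ u with hA
  set J : ℕ := 6 * N with hJ
  obtain ⟨CJ, hCJ0, hCJ⟩ := hφd J
  set D : ℝ := ∑' j, ‖b j‖ * lam j ^ (-(3 / 2) : ℝ) with hD
  have hD0 : 0 ≤ D := tsum_nonneg fun j => by
    have : 0 < lam j := by linarith [hlam j]
    positivity
  have hN0 : (0:ℝ) < N := by exact_mod_cast hN
  -- main inequality
  have main : ∀ n : ℝ, 1 ≤ n → (∀ j, lam j = n ∨ g ≤ |n - lam j|) →
      n * A * ‖∑' j, (if lam j = n then b j else 0)‖ ≤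
        C0 * 3 ^ N * A * n ^ (1 / 2 : ℝ) + 8 * D * CJ / g ^ J := by
    intro n hn hgap
    have hn0 : 0 < n := by linarith
    set Y : ℝ := n ^ (1 / (2 * N) : ℝ) with hY
    have hY1 : 1 ≤ Y := Real.one_le_rpow hn (by positivity)
    have hYN : Y ^ N = n ^ (1 / 2 : ℝ) := by
      rw [hY, ← Real.rpow_natCast, ← Real.rpow_mul hn0.le]
      congr 1
      field_simp
    have hYJ : Y ^ J = n ^ 3 := by
      rw [hJ, mul_comm, pow_mul, hYN, ← Real.rpow_natCast, ← Real.rpow_mul hn0.le,
        ← Real.rpow_natCast]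
      norm_num
    have step : ∀ δ : ℝ, 0 < δ → δ ≤ 1 →
        n * A * Real.exp (-n * δ) * ‖∑' j, (if lam j = n then b j else 0)‖ ≤
        C0 * 3 ^ N * A * n ^ (1 / 2 : ℝ) + 8 * D * CJ / g ^ J := by
      intro δ hδ hδ1
      have hs := isolate hlam hsum hφc hφi n Y δ hδ
      set a : ι → ℂ := fun j => b j * (lam j * Real.exp (-lam j * δ)) * hat φ ((n - lam j) * Y)
        with ha
      -- the integral bound
      have hint : ‖∑' j, a j‖ ≤ C0 * 3 ^ N * A * n ^ (1 / 2 : ℝ) := by
        rw [hs.tsum_eq]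
        have h1 : ∀ u : ℝ, ‖(φ u : ℂ) * Complex.exp (I * (n * Y) * u) *
            ∑' j, b j * (lam j * Complex.exp (-(lam j : ℂ) * (δ + Y * u * I)))‖ ≤
            φ u * (C0 * 3 ^ N * n ^ (1 / 2 : ℝ)) := by
          intro u
          by_cases hu : φ u = 0
          · rw [hu]; simp
          obtain ⟨hu1, hu2⟩ := hφs u hu
          have hYu : 1 ≤ Y * u := by nlinarith
          have hre : ((δ : ℂ) + Y * u * I).re = δ := by simp
          have him : ((δ : ℂ) + Y * u * I).im = Y * u := by simp
          have hn1 : 1 ≤ ‖(δ : ℂ) + Y * u * I‖ := by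
            refine le_trans ?_ (Complex.abs_im_le_norm _)
            rw [him, abs_of_nonneg (by linarith)]
            exact hYu
          have hn2 : ‖(δ : ℂ) + Y * u * I‖ ≤ 3 * Y := by
            refine (Complex.norm_le_abs_re_add_abs_im _).trans ?_
            rw [hre, him, abs_of_pos hδ, abs_of_nonneg (by linarith)]
            nlinarith
          have h2 := hbound ((δ : ℂ) + Y * u * I) (by rw [hre]; exact hδ)
            (by rw [him]; linarith) hn1
          rw [norm_mul, norm_mul, Complex.norm_real, Real.norm_of_nonneg (hφ0 u),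
            Complex.norm_exp]
          have e1 : (I * (n * Y) * u).re = 0 := by simp
          rw [e1, Real.exp_zero, mul_one]
          refine mul_le_mul_of_nonneg_left (h2.trans ?_) (hφ0 u)
          calc C0 * ‖(δ : ℂ) + Y * u * I‖ ^ N ≤ C0 * (3 * Y) ^ N := by gcongr
            _ = _ := by rw [mul_pow, hYN]; ring
        refine (norm_integral_le_of_norm_le (hφi.mul_const _)
          (Eventually.of_forall h1)).trans (le_of_eq ?_)
        rw [integral_mul_const]
        ring
      -- split the sum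
      set B : ℂ := ∑' j, (if lam j = n then b j else 0) with hB
      have hsa : Summable a := hs.summable
      have hfar : ∀ j, ‖(if lam j = n then 0 else a j)‖ ≤
          (8 * CJ / g ^ J) * (‖b j‖ * lam j ^ (-(3 / 2) : ℝ)) := by
        intro j
        have hl : 1 ≤ lam j := hlam j
        have hl0 : 0 < lam j := by linarith
        split_ifs with h
        · rw [norm_zero]; positivity
        · have hgj : g ≤ |n - lam j| := (hgap j).resolve_left h
          have h1 := hCJ ((n - lam j) * Y)
          rw [abs_mul, abs_of_pos (by linarith : 0 < Y), mul_pow, hYJ] at h1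
          have h2 : g * lam j / (2 * n) ≤ |n - lam j| := by
            rcases le_total (lam j) (2 * n) with h3 | h3
            · refine le_trans ?_ hgj
              rw [div_le_iff₀ (by positivity)]
              nlinarith
            · have h4 : lam j / 2 ≤ |n - lam j| := by
                rw [abs_sub_comm]
                refine le_trans ?_ (le_abs_self _)
                linarith
              refine le_trans ?_ h4
              rw [div_le_div_iff₀ (by positivity) (by norm_num)]
              nlinarith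
          have h5 : g ^ J * lam j ^ 3 / (8 * n ^ 3) ≤ |n - lam j| ^ J := by
            have hJ3 : J = (J - 3) + 3 := by rw [hJ]; omega
            rw [hJ3, pow_add |n - lam j|]
            have h6 : g ^ (J - 3) ≤ |n - lam j| ^ (J - 3) := pow_le_pow_left₀ hg.le hgj _
            have h7 : (g * lam j / (2 * n)) ^ 3 ≤ |n - lam j| ^ 3 :=
              pow_le_pow_left₀ (by positivity) h2 _
            calc g ^ (J - 3 + 3) * lam j ^ 3 / (8 * n ^ 3) =
                g ^ (J - 3) * (g * lam j / (2 * n)) ^ 3 := by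
                  rw [pow_add, div_pow, mul_pow, mul_pow]
                  norm_num
                  ring
              _ ≤ _ := mul_le_mul h6 h7 (by positivity) (by positivity)
          have h8 : ‖hat φ ((n - lam j) * Y)‖ ≤ (8 * CJ / g ^ J) * (1 / lam j ^ 3) := by
            have h9 : (g ^ J * lam j ^ 3 / (8 * n ^ 3)) * n ^ 3 *
                ‖hat φ ((n - lam j) * Y)‖ ≤ CJ := by
              refine le_trans ?_ h1
              gcongr
            have h10 : (g ^ J * lam j ^ 3 / (8 * n ^ 3)) * n ^ 3 = g ^ J * lam j ^ 3 / 8 := by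
              field_simp
            rw [h10] at h9
            rw [div_mul_div_comm, mul_one, le_div_iff₀ (by positivity)]
            linarith
          simp only [ha]
          rw [norm_mul, norm_mul, norm_mul, Complex.norm_real, Complex.norm_real,
            Real.norm_of_nonneg hl0.le, Real.norm_of_nonneg (Real.exp_pos _).le]
          have h11 : Real.exp (-lam j * δ) ≤ 1 := by
            rw [Real.exp_le_one_iff]
            nlinarith
          have h12 : 1 / lam j ^ 2 ≤ lam j ^ (-(3 / 2) : ℝ) := by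
            have h13 : lam j ^ (-2 : ℝ) ≤ lam j ^ (-(3 / 2) : ℝ) :=
              Real.rpow_le_rpow_of_exponent_le hl (by norm_num)
            have h14 : lam j ^ (-2 : ℝ) = 1 / lam j ^ 2 := by
              rw [Real.rpow_neg hl0.le, one_div]
              congr 1
              rw [← Real.rpow_natCast]; norm_num
            rwa [h14] at h13
          calc ‖b j‖ * (lam j * Real.exp (-lam j * δ)) * ‖hat φ ((n - lam j) * Y)‖
              ≤ ‖b j‖ * (lam j * 1) * ((8 * CJ / g ^ J) * (1 / lam j ^ 3)) := by gcongr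
            _ = (8 * CJ / g ^ J) * (‖b j‖ * (1 / lam j ^ 2)) := by field_simp
            _ ≤ _ := by gcongr
      have hsfar : Summable fun j => (if lam j = n then 0 else a j) :=
        Summable.of_norm_bounded (hsum.mul_left (8 * CJ / g ^ J)) hfar
      have hsnear : Summable fun j => (if lam j = n then a j else 0) := by
        have : (fun j => (if lam j = n then a j else 0)) =
            fun j => a j - (if lam j = n then 0 else a j) := by
          ext j; split_ifs <;> simp
        rw [this]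
        exact hsa.sub hsfar
      have hsplit : ∑' j, a j = (∑' j, (if lam j = n then a j else 0)) +
          ∑' j, (if lam j = n then 0 else a j) := by
        rw [← hsnear.tsum_add hsfar]
        congr 1
        ext j
        split_ifs <;> simp
      have hnear : ∑' j, (if lam j = n then a j else 0) = (n * Real.exp (-n * δ) * A : ℝ) * B := by
        rw [hB, ← tsum_mul_left]
        congr 1
        ext j
        split_ifs with h
        · simp only [ha]
          have h0 : hat φ ((n - lam j) * Y) = A := by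
            rw [h, sub_self, zero_mul, hat, hA, ← integral_complex_ofReal]
            refine integral_congr_ae (Eventually.of_forall fun u => ?_)
            simp
          rw [h0, h]
          push_cast
          ring
        · simp
      have hfarb : ‖∑' j, (if lam j = n then 0 else a j)‖ ≤ 8 * D * CJ / g ^ J := by
        have h1 := tsum_of_norm_bounded (hsum.mul_left (8 * CJ / g ^ J)).hasSum hfar
        refine h1.trans (le_of_eq ?_)
        rw [tsum_mul_left, ← hD]
        ring
      have h20 : (n * Real.exp (-n * δ) * A : ℝ) * B = (∑' j, a j) -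
          ∑' j, (if lam j = n then 0 else a j) := by
        rw [hsplit, hnear]; ring
      have h21 := congrArg norm h20
      rw [norm_mul, Complex.norm_real, Real.norm_of_nonneg (by positivity)] at h21
      have h22 := norm_sub_le (∑' j, a j) (∑' j, (if lam j = n then 0 else a j))
      calc n * A * Real.exp (-n * δ) * ‖B‖ = n * Real.exp (-n * δ) * A * ‖B‖ := by ring
        _ ≤ ‖∑' j, a j‖ + ‖∑' j, (if lam j = n then 0 else a j)‖ := by rw [h21]; exact h22
        _ ≤ _ := add_le_add hint hfarb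
    -- δ → 0
    have hlim : Tendsto (fun δ : ℝ => n * A * Real.exp (-n * δ) *
        ‖∑' j, (if lam j = n then b j else 0)‖) (𝓝[>] 0)
        (𝓝 (n * A * Real.exp (-n * 0) * ‖∑' j, (if lam j = n then b j else 0)‖)) := by
      refine Tendsto.mono_left ?_ nhdsWithin_le_nhds
      exact Continuous.tendsto (by fun_prop) 0
    have h1 := le_of_tendsto hlim (by
      have : Ioc (0:ℝ) 1 ∈ 𝓝[>] (0:ℝ) := Ioc_mem_nhdsGT one_pos
      filter_upwards [this] with δ hδ using step δ hδ.1 hδ.2)
    simpa using h1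
  -- conclusion
  have hlim2 : Tendsto (fun n : ℝ => (C0 * 3 ^ N * A * n ^ (1 / 2 : ℝ) + 8 * D * CJ / g ^ J) /
      (n * A)) atTop (𝓝 0) := by
    have h1 : Tendsto (fun n : ℝ => C0 * 3 ^ N * n ^ (-(1 / 2) : ℝ) +
        (8 * D * CJ / g ^ J / A) * n⁻¹) atTop (𝓝 (C0 * 3 ^ N * 0 + (8 * D * CJ / g ^ J / A) * 0)) :=
      ((tendsto_rpow_neg_atTop (by norm_num)).const_mul _).add
        (tendsto_inv_atTop_zero.const_mul _)
    simp only [mul_zero, add_zero] at h1
    refine h1.congr' ?_
    filter_upwards [eventually_gt_atTop 0] with n hn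
    have h2 : n ^ (-(1 / 2) : ℝ) = n ^ (1 / 2 : ℝ) / n := by
      rw [Real.rpow_neg hn.le, eq_div_iff hn.ne', inv_mul_eq_iff_eq_mul₀ (by positivity),
        ← Real.rpow_add hn]
      norm_num
    rw [h2]
    field_simp
  obtain ⟨K, hK⟩ := (hlim2.eventually_lt_const hc).exists_forall_of_atTop
  refine ⟨max K 1, fun n hn hgap => ?_⟩
  have hn1 : 1 ≤ n := (le_max_right _ _).trans hn
  have h1 := main n hn1 hgap
  have h2 := hK n ((le_max_left _ _).trans hn)
  have hnA : 0 < n * A := by positivity
  have h3 : ‖∑' j, (if lam j = n then b j else 0)‖ ≤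
      (C0 * 3 ^ N * A * n ^ (1 / 2 : ℝ) + 8 * D * CJ / g ^ J) / (n * A) := by
    rw [le_div_iff₀ hnA]
    linarith
  exact h3.trans_lt h2

end

end Pool.Agent.helper70
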