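import Mathlib

open Complex Metric Set MeasureTheory Real Filter Topology
open scoped ENNReal

namespace Pool.Agent.helper70

/-- sub-mean value property of `log ‖h‖` on circles -/
lemma log_norm_le_circleAverage {h : ℂ → ℂ} {c : ℂ} {R : ℝ} (hR : 0 < R)
    (hh : AnalyticOnNhd ℂ h (closedBall c R)) (hc : h c ≠ 0) :
    Real.log ‖h c‖ ≤ circleAverage (Real.log ‖h ·‖) c R := by
  have hR' : |R| = R := abs_of_pos hR
  have h1 : AnalyticOnNhd ℂ h (closedBall c |R|) := by rwa [hR']
  rw [h1.circleAverage_log_norm hR.ne' hc]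
  have : 0 ≤ ∑ᶠ u, (MeromorphicOn.divisor h (closedBall c |R|) u : ℝ) *
      Real.log (R * ‖c - u‖⁻¹) := by
    refine finsum_nonneg fun u => ?_
    by_cases hu : u ∈ closedBall c |R|
    · refine mul_nonneg (by exact_mod_cast (MeromorphicOn.AnalyticOnNhd.divisor_nonneg h1) u) ?_
      by_cases huc : ‖c - u‖ = 0
      · simp [huc]
      · refine Real.log_nonneg ?_
        rw [hR', mem_closedBall, dist_comm, dist_eq_norm] at hu
        have : 0 < ‖c - u‖ := lt_of_le_of_ne (norm_nonneg _) (Ne.symm huc)
        rw [← div_eq_mul_inv, le_div_iff₀ this]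
        linarith
    · simp [hu]
  linarith

lemma posLog_nn (x : ℝ) : 0 ≤ Real.posLog x := Real.posLog_nonneg

/-- the area integral of a continuous function over a disc in terms of circle averages -/
lemma lint_ball (F : ℂ → ℝ) (c : ℂ) (R : ℝ)
    (hF : ContinuousOn F (closedBall c R)) (h0 : ∀ z, 0 ≤ F z) :
    ∫⁻ z in ball c R, ENNReal.ofReal (F z) =
      ∫⁻ r in Ioo 0 R, ENNReal.ofReal (r * (2 * π * circleAverage F c r)) := by
  classical
  set G : ℂ → ℝ≥0∞ := (ball c R).indicator (fun z => ENNReal.ofReal (F z)) with hG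
  have hGm : Measurable G := by
    have h1 : ContinuousOn (fun z => ENNReal.ofReal (F z)) (ball c R) :=
      ENNReal.continuous_ofReal.comp_continuousOn (hF.mono ball_subset_closedBall)
    have h2 := ContinuousOn.measurable_piecewise h1
      (continuousOn_const (c := (0:ℝ≥0∞)) (s := (ball c R)ᶜ)) measurableSet_ball
    have h3 : G = (ball c R).piecewise (fun z => ENNReal.ofReal (F z)) (fun _ => 0) := by
      ext z
      by_cases hz : z ∈ ball c R
      · rw [hG, indicator_of_mem hz, piecewise_eq_of_mem _ _ _ hz]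
      · rw [hG, indicator_of_notMem hz, piecewise_eq_of_notMem _ _ _ hz]
    rw [h3]
    exact h2
  have e1 : ∫⁻ z in ball c R, ENNReal.ofReal (F z) = ∫⁻ z, G (z + c) := by
    rw [lintegral_add_right_eq_self (μ := volume) G c, hG, lintegral_indicator measurableSet_ball]
  rw [e1, ← Complex.lintegral_comp_polarCoord_symm (fun z => G (z + c))]
  have e2 : polarCoord.target = Ioi (0:ℝ) ×ˢ Ioo (-π) π := rfl
  rw [e2, Measure.volume_eq_prod, ← Measure.prod_restrict, lintegral_prod]
  swap
  · refine Measurable.aemeasurable ?_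
    refine Measurable.mul (by fun_prop) (hGm.comp ?_)
    have : Measurable (fun p : ℝ × ℝ => Complex.polarCoord.symm p) := by
      have : (fun p : ℝ × ℝ => Complex.polarCoord.symm p) =
          fun p : ℝ × ℝ => (p.1 : ℂ) * (Real.cos p.2 + Real.sin p.2 * I) := by
        ext p; simp [Complex.polarCoord_symm_apply]
      rw [this]; fun_prop
    exact this.add_const c
  have e3 : ∀ r ∈ Ioi (0:ℝ), (∫⁻ θ in Ioo (-π) π, ENNReal.ofReal (r, θ).1 •
      G (Complex.polarCoord.symm (r, θ) + c)) =
      (Ioo 0 R).indicator (fun r => ENNReal.ofReal (r * (2 * π * circleAverage F c r))) r := by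
    intro r hr
    have hr0 : (0:ℝ) < r := hr
    have hsymm : ∀ θ : ℝ, Complex.polarCoord.symm (r, θ) + c = circleMap c r θ := by
      intro θ
      rw [Complex.polarCoord_symm_apply, circleMap, add_comm]
      congr 2
      simp [Complex.exp_mul_I]
    by_cases hrR : r < R
    · rw [indicator_of_mem (show r ∈ Ioo 0 R from ⟨hr0, hrR⟩)]
      have hin : ∀ θ : ℝ, circleMap c r θ ∈ ball c R := by
        intro θ
        simp [circleMap, abs_of_pos hr0, hrR]
      have hcont : Continuous (fun θ : ℝ => F (circleMap c r θ)) := by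
        rw [← continuousOn_univ]
        exact hF.comp (by fun_prop) (fun θ _ => ball_subset_closedBall (hin θ))
      simp_rw [hsymm, hG, indicator_of_mem (hin _), smul_eq_mul]
      rw [lintegral_const_mul (ENNReal.ofReal r)
        (show Measurable (fun θ : ℝ => ENNReal.ofReal (F (circleMap c r θ))) from
          (ENNReal.continuous_ofReal.comp hcont).measurable)]
      rw [ENNReal.ofReal_mul hr0.le]
      congr 1
      rw [← ofReal_integral_eq_lintegral_ofReal]
      · congr 1
        rw [← integral_Ioc_eq_integral_Ioo,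
          ← intervalIntegral.integral_of_le (by linarith [Real.pi_pos])]
        have h5 := circleAverage_eq_integral_add (f := F) (c := c) (R := r) (-π)
        rw [circleAverage_def] at h5 ⊢
        have h6 : ∫ θ in (0:ℝ)..2 * π, F (circleMap c r (θ + -π)) =
            ∫ θ in -π..π, F (circleMap c r θ) := by
          rw [intervalIntegral.integral_comp_add_right (fun θ => F (circleMap c r θ))]
          congr 1 <;> ring
        rw [h5, h6, smul_eq_mul]
        field_simp
      · exact (hcont.integrableOn_Icc (a := -π) (b := π)).mono_set Ioo_subset_Icc_self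
      · exact Eventually.of_forall fun θ => h0 _
    · rw [indicator_of_notMem (fun h => hrR h.2)]
      have hnin : ∀ θ : ℝ, circleMap c r θ ∉ ball c R := by
        intro θ
        simp [circleMap, abs_of_pos hr0, not_lt.mp hrR]
      simp_rw [hsymm, hG, indicator_of_notMem (hnin _)]
      simp
  rw [setLIntegral_congr_fun measurableSet_Ioi e3, lintegral_indicator measurableSet_Ioo,
    Measure.restrict_restrict measurableSet_Ioo]
  congr 2
  ext x
  simp only [mem_inter_iff, mem_Ioo, mem_Ioi]
  tauto


lemma lint_lin (K R : ℝ) (hK : 0 ≤ K) (hR : 0 ≤ R) :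
    ∫⁻ r in Ioo 0 R, ENNReal.ofReal (r * K) = ENNReal.ofReal (K * R ^ 2 / 2) := by
  rw [← ofReal_integral_eq_lintegral_ofReal]
  · congr 1
    rw [← integral_Ioc_eq_integral_Ioo, ← intervalIntegral.integral_of_le hR]
    rw [intervalIntegral.integral_mul_const, integral_id]
    ring
  · exact ((by fun_prop : Continuous (fun r : ℝ => r * K)).integrableOn_Icc
      (a := 0) (b := R)).mono_set Ioo_subset_Icc_self
  · refine (ae_restrict_iff' measurableSet_Ioo).2 (Eventually.of_forall fun r hr => ?_)
    exact mul_nonneg hr.1.le hK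

/-- circle average of `log⁺ ‖h‖` for a quotient `h = f / g` -/
lemma circleAverage_quot {f g h : ℂ → ℂ} {c : ℂ} {R M m : ℝ} (hR : 0 < R)
    (hf : AnalyticOnNhd ℂ f (closedBall c R)) (hg : AnalyticOnNhd ℂ g (closedBall c R))
    (hh : AnalyticOnNhd ℂ h (closedBall c R)) (hfgh : ∀ z ∈ closedBall c R, f z = h z * g z)
    (hM : 1 ≤ M) (hfM : ∀ z ∈ closedBall c R, ‖f z‖ ≤ M) (hgM : ∀ z ∈ closedBall c R, ‖g z‖ ≤ M)
    (hm : 0 < m) (hgm : m ≤ ‖g c‖) :
    circleAverage (fun z => Real.posLog ‖h z‖) c R ≤ 2 * Real.log M - Real.log m := by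
  have hR' : |R| = R := abs_of_pos hR
  have hgc : g c ≠ 0 := by
    intro h0; rw [h0, norm_zero] at hgm; linarith
  have hss : sphere c |R| ⊆ closedBall c R := by rw [hR']; exact sphere_subset_closedBall
  have if' : CircleIntegrable (fun z => Real.posLog ‖f z‖) c R :=
    (hf.mono hss).meromorphicOn.circleIntegrable_posLog_norm
  have ig' : CircleIntegrable (fun z => Real.posLog ‖g z‖) c R :=
    (hg.mono hss).meromorphicOn.circleIntegrable_posLog_norm
  have ih' : CircleIntegrable (fun z => Real.posLog ‖h z‖) c R :=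
    (hh.mono hss).meromorphicOn.circleIntegrable_posLog_norm
  have ig : CircleIntegrable (fun z => Real.log ‖g z‖) c R :=
    (hg.mono hss).meromorphicOn.circleIntegrable_log_norm
  have key : circleAverage (fun z => Real.posLog ‖h z‖) c R ≤
      circleAverage (fun z => Real.posLog ‖f z‖ + (Real.posLog ‖g z‖ - Real.log ‖g z‖)) c R := by
    classical
    -- replace the right-hand side at the zeros of g
    set RHS : ℂ → ℝ := fun z => Real.posLog ‖f z‖ + (Real.posLog ‖g z‖ - Real.log ‖g z‖) with hRHS
    set R2 : ℂ → ℝ := fun z => if g z = 0 then Real.posLog ‖h z‖ else RHS z with hR2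
    have hcod : RHS =ᶠ[codiscreteWithin (sphere c |R|)] R2 := by
      have hcb : {z | g z ≠ 0} ∈ codiscreteWithin (closedBall c R) := by
        have := AnalyticOnNhd.preimage_zero_mem_codiscreteWithin (x := c) hg hgc
          (mem_closedBall_self hR.le) ((convex_closedBall c R).isConnected
            ⟨c, mem_closedBall_self hR.le⟩)
        exact this
      have := codiscreteWithin_mono hss hcb
      filter_upwards [this] with z hz
      simp only [hR2]
      rw [if_neg hz]
    rw [circleAverage_congr_codiscreteWithin hcod hR.ne']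
    have iRHS : CircleIntegrable RHS c R := if'.add (ig'.sub ig)
    have iR2 : CircleIntegrable R2 c R := by
      exact CircleIntegrable.congr_codiscreteWithin hcod iRHS
    refine circleAverage_mono ih' iR2 fun z hz => ?_
    simp only [hR2]
    split_ifs with h0
    · exact le_rfl
    · have hz' : z ∈ closedBall c R := hss hz
      have e1 : ‖h z‖ = ‖f z‖ * ‖g z‖⁻¹ := by
        rw [hfgh z hz', norm_mul, mul_assoc, mul_inv_cancel₀ (norm_ne_zero_iff.2 h0), mul_one]
      rw [e1]
      have e2 := Real.posLog_mul (x := ‖f z‖) (y := ‖g z‖⁻¹)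
      have e3 := Real.posLog_sub_posLog_inv (x := ‖g z‖)
      simp only [hRHS]
      linarith
  have e4 : circleAverage (fun z => Real.posLog ‖f z‖ + (Real.posLog ‖g z‖ - Real.log ‖g z‖)) c R
      = circleAverage (fun z => Real.posLog ‖f z‖) c R +
        (circleAverage (fun z => Real.posLog ‖g z‖) c R -
        circleAverage (fun z => Real.log ‖g z‖) c R) := by
    have h8 := circleAverage_fun_add (f₁ := fun z => Real.posLog ‖f z‖)
      (f₂ := fun z => Real.posLog ‖g z‖ - Real.log ‖g z‖) if' (ig'.sub ig)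
    have h9 := circleAverage_fun_sub (f₁ := fun z => Real.posLog ‖g z‖)
      (f₂ := fun z => Real.log ‖g z‖) ig' ig
    rw [h8, h9]
  have pl : ∀ x : ℝ, 0 ≤ x → x ≤ M → Real.posLog x ≤ Real.log M := by
    intro x hx hxM
    rw [Real.posLog_eq_log_max_one hx]
    exact Real.log_le_log (by positivity) (max_le hM hxM)
  have e5 : circleAverage (fun z => Real.posLog ‖f z‖) c R ≤ Real.log M :=
    circleAverage_mono_on_of_le_circle if' fun z hz => pl _ (norm_nonneg _) (hfM z (hss hz))
  have e6 : circleAverage (fun z => Real.posLog ‖g z‖) c R ≤ Real.log M :=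
    circleAverage_mono_on_of_le_circle ig' fun z hz => pl _ (norm_nonneg _) (hgM z (hss hz))
  have e7 : Real.log m ≤ circleAverage (fun z => Real.log ‖g z‖) c R :=
    (Real.log_le_log hm hgm).trans (log_norm_le_circleAverage hR hg hgc)
  linarith

/-- A bound for an analytic quotient `h = f / g` inside a disc. -/
theorem quotient_bound {f g h : ℂ → ℂ} {c z0 : ℂ} {R ρ M m : ℝ} (hρ : 0 < ρ)
    (hsub : closedBall z0 ρ ⊆ closedBall c R)
    (hf : AnalyticOnNhd ℂ f (closedBall c R)) (hg : AnalyticOnNhd ℂ g (closedBall c R))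
    (hh : AnalyticOnNhd ℂ h (closedBall c R)) (hfgh : ∀ z ∈ closedBall c R, f z = h z * g z)
    (hM : 1 ≤ M) (hfM : ∀ z ∈ closedBall c R, ‖f z‖ ≤ M) (hgM : ∀ z ∈ closedBall c R, ‖g z‖ ≤ M)
    (hm : 0 < m) (hgm : m ≤ ‖g c‖) :
    ‖h z0‖ ≤ Real.exp ((R / ρ) ^ 2 * (2 * Real.log M - Real.log m)) := by
  have hz0 : z0 ∈ closedBall c R := hsub (mem_closedBall_self hρ.le)
  have hR : 0 < R := by
    by_contra hR
    have hsub' : closedBall z0 ρ ⊆ {c} := by
      refine hsub.trans (fun z hz => ?_)
      rw [mem_closedBall] at hz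
      rw [mem_singleton_iff]
      exact dist_le_zero.1 (hz.trans (not_lt.1 hR))
    have h1 : z0 = c := hsub' (mem_closedBall_self hρ.le)
    have h2 : z0 + ρ = c := hsub' (by simp [abs_of_pos hρ])
    rw [h1] at h2
    have : (ρ : ℂ) = 0 := by linear_combination h2
    exact hρ.ne' (by exact_mod_cast this)
  set L := 2 * Real.log M - Real.log m with hL
  have hcM : ‖g c‖ ≤ M := hgM c (mem_closedBall_self hR.le)
  have hL0 : 0 ≤ L := by
    have h1 : 0 ≤ Real.log M := Real.log_nonneg hM
    have h2 : Real.log m ≤ Real.log M := Real.log_le_log hm (hgm.trans hcM)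
    linarith
  by_cases h1 : ‖h z0‖ ≤ 1
  · refine h1.trans (Real.one_le_exp (by positivity))
  push Not at h1
  have hz00 : h z0 ≠ 0 := by
    intro h0; rw [h0, norm_zero] at h1; linarith
  set ℓ := Real.log ‖h z0‖ with hℓ
  have hℓ0 : 0 < ℓ := Real.log_pos h1
  set F : ℂ → ℝ := fun z => Real.posLog ‖h z‖ with hF
  have hFc : ContinuousOn F (closedBall c R) :=
    Real.continuous_posLog.comp_continuousOn hh.continuousOn.norm
  have hF0 : ∀ z, 0 ≤ F z := fun z => Real.posLog_nonneg
  have up : ∫⁻ z in ball c R, ENNReal.ofReal (F z) ≤ ENNReal.ofReal (2 * π * L * R ^ 2 / 2) := by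
    rw [lint_ball F c R hFc hF0, ← lint_lin _ _ (by positivity) hR.le]
    refine setLIntegral_mono (by fun_prop) fun r hr => ENNReal.ofReal_le_ofReal ?_
    have hsb : closedBall c r ⊆ closedBall c R := closedBall_subset_closedBall hr.2.le
    have := circleAverage_quot hr.1 (hf.mono hsb) (hg.mono hsb) (hh.mono hsb)
      (fun z hz => hfgh z (hsb hz)) hM (fun z hz => hfM z (hsb hz)) (fun z hz => hgM z (hsb hz))
      hm hgm
    have hr0 : 0 ≤ r := hr.1.le
    gcongr
  have lo : ENNReal.ofReal (2 * π * ℓ * ρ ^ 2 / 2) ≤ ∫⁻ z in ball z0 ρ, ENNReal.ofReal (F z) := by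
    rw [lint_ball F z0 ρ (hFc.mono hsub) hF0, ← lint_lin _ _ (by positivity) hρ.le]
    refine setLIntegral_mono' measurableSet_Ioo fun r hr => ENNReal.ofReal_le_ofReal ?_
    have hsb : closedBall z0 r ⊆ closedBall c R :=
      (closedBall_subset_closedBall hr.2.le).trans hsub
    have h3 := log_norm_le_circleAverage hr.1 (hh.mono hsb) hz00
    have hss : sphere z0 |r| ⊆ closedBall c R := by
      rw [abs_of_pos hr.1]; exact sphere_subset_closedBall.trans hsb
    have h4 : circleAverage (Real.log ‖h ·‖) z0 r ≤ circleAverage F z0 r := by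
      refine circleAverage_mono (hh.mono hss).meromorphicOn.circleIntegrable_log_norm
        (hh.mono hss).meromorphicOn.circleIntegrable_posLog_norm fun z hz => ?_
      exact le_max_right _ _
    have hr0 : 0 ≤ r := hr.1.le
    have : ℓ ≤ circleAverage F z0 r := h3.trans h4
    gcongr
  have hbb : ball z0 ρ ⊆ ball c R := by
    have : interior (closedBall z0 ρ) ⊆ interior (closedBall c R) := interior_mono hsub
    rwa [interior_closedBall _ hρ.ne', interior_closedBall _ hR.ne'] at this
  have h5 := lo.trans ((lintegral_mono_set hbb).trans up)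
  rw [ENNReal.ofReal_le_ofReal_iff (by positivity)] at h5
  have h6 : ℓ * ρ ^ 2 ≤ L * R ^ 2 := by
    have := Real.pi_pos
    have h7 : π * (ℓ * ρ ^ 2) ≤ π * (L * R ^ 2) := by linarith
    exact le_of_mul_le_mul_left h7 this
  have h8 : ℓ ≤ (R / ρ) ^ 2 * L := by
    rw [div_pow, div_mul_eq_mul_div, le_div_iff₀ (by positivity)]
    linarith
  calc ‖h z0‖ = Real.exp ℓ := (Real.exp_log (by positivity)).symm
    _ ≤ _ := Real.exp_le_exp.2 h8

end Pool.Agent.helper70
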