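import Mathlib

open Complex Metric Set MeasureTheory Real Filter Topology

namespace Pool.Agent.helper70

/-- existence of the analytic quotient -/
lemma quot_exists {U : Set ℂ} {f g : ℂ → ℂ} (hf : AnalyticOnNhd ℂ f U)
    (hg : AnalyticOnNhd ℂ g U) (hg0 : ∀ z ∈ U, meromorphicOrderAt g z ≠ ⊤)
    (hord : ∀ z ∈ U, meromorphicOrderAt g z ≤ meromorphicOrderAt f z) :
    ∃ h : ℂ → ℂ, AnalyticOnNhd ℂ h U ∧ ∀ z ∈ U, f z = h z * g z := by
  have hfm : MeromorphicOn f U := hf.meromorphicOn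
  have hgm : MeromorphicOn g U := hg.meromorphicOn
  have hq : MeromorphicOn (f / g) U := hfm.div hgm
  set h := toMeromorphicNFOn (f / g) U with hh
  have hNF : MeromorphicNFOn h U := meromorphicNFOn_toMeromorphicNFOn _ _
  have hne : ∀ z ∈ U, h =ᶠ[𝓝[≠] z] f / g := fun z hz => hq.toMeromorphicNFOn_eq_self_on_nhdsNE hz
  have han : AnalyticOnNhd ℂ h U := by
    intro z hz
    rw [← (hNF hz).meromorphicOrderAt_nonneg_iff_analyticAt, meromorphicOrderAt_congr (hne z hz),
      meromorphicOrderAt_div (hfm z hz) (hgm z hz)]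
    have h1 := hord z hz
    have h2 := hg0 z hz
    lift meromorphicOrderAt g z to ℤ using h2 with n hn
    rcases eq_or_ne (meromorphicOrderAt f z) ⊤ with h3 | h3
    · rw [h3]; simp
    · lift meromorphicOrderAt f z to ℤ using h3 with k hk
      have : n ≤ k := by exact_mod_cast h1
      rw [← WithTop.LinearOrderedAddCommGroup.coe_sub]
      exact_mod_cast (by omega : 0 ≤ k - n)
  refine ⟨h, han, fun z hz => ?_⟩
  have h1 : Tendsto f (𝓝[≠] z) (𝓝 (f z)) := (hf z hz).continuousAt.tendsto.mono_left nhdsWithin_le_nhds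
  have h2 : Tendsto (fun w => h w * g w) (𝓝[≠] z) (𝓝 (h z * g z)) :=
    ((han z hz).continuousAt.mul (hg z hz).continuousAt).tendsto.mono_left nhdsWithin_le_nhds
  have h3 : ∀ᶠ w in 𝓝[≠] z, g w ≠ 0 :=
    (meromorphicOrderAt_ne_top_iff_eventually_ne_zero (hgm z hz)).1 (hg0 z hz)
  refine tendsto_nhds_unique (h1.congr' ?_) h2
  filter_upwards [h3, hne z hz] with w hw1 hw2
  rw [hw2, Pi.div_apply, div_mul_cancel₀ _ hw1]

end Pool.Agent.helper70
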