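import Mathlib
import Pool.Agent.helper70.ZetaLines

open Complex Metric Set MeasureTheory Real Filter Topology

namespace Pool.Agent.helper70

/-- Phragmén–Lindelöf principle in a vertical half strip, for functions of at most exponential
growth. -/
theorem half_strip_PL {H : ℂ → ℂ} {a b T A B C : ℝ} (hab : a < b)
    (hH : DifferentiableOn ℂ H {s | T < s.im}) (hHc : ContinuousOn H {s | T ≤ s.im})
    (hgrow : ∀ s : ℂ, a ≤ s.re → s.re ≤ b → T ≤ s.im → ‖H s‖ ≤ A * Real.exp (B * s.im))
    (hC : 0 ≤ C)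
    (hl : ∀ s : ℂ, s.re = a → T ≤ s.im → ‖H s‖ ≤ C)
    (hr : ∀ s : ℂ, s.re = b → T ≤ s.im → ‖H s‖ ≤ C)
    (hb : ∀ s : ℂ, a ≤ s.re → s.re ≤ b → s.im = T → ‖H s‖ ≤ C) :
    ∀ s : ℂ, a ≤ s.re → s.re ≤ b → T ≤ s.im → ‖H s‖ ≤ C := by
  intro s0 h1 h2 h3
  set K : ℝ := max (a ^ 2) (b ^ 2) with hK
  have hKre : ∀ x : ℝ, a ≤ x → x ≤ b → x ^ 2 ≤ K := by
    intro x hx1 hx2
    rcases le_total 0 x with h | h
    · exact (by nlinarith : x ^ 2 ≤ b ^ 2).trans (le_max_right _ _)
    · exact (by nlinarith : x ^ 2 ≤ a ^ 2).trans (le_max_left _ _)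
  have hK0 : 0 ≤ K := (sq_nonneg a).trans (le_max_left _ _)
  -- the key estimate for each ε
  have key : ∀ ε : ℝ, 0 < ε → ‖H s0‖ * Real.exp (ε * (s0.re ^ 2 - s0.im ^ 2)) ≤
      (C + ε) * Real.exp (ε * K) := by
    intro ε hε
    set Hε : ℂ → ℂ := fun s => H s * Complex.exp (ε * s ^ 2) with hHε
    have hn : ∀ s : ℂ, ‖Hε s‖ = ‖H s‖ * Real.exp (ε * (s.re ^ 2 - s.im ^ 2)) := by
      intro s
      rw [hHε]
      simp only
      rw [norm_mul, Complex.norm_exp]
      congr 2
      simp [pow_two]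
    -- choose R large
    have hlim : Tendsto (fun y : ℝ => A * Real.exp (B * y) * Real.exp (ε * (K - y ^ 2)))
        atTop (𝓝 0) := by
      have h5 : (fun y : ℝ => A * Real.exp (B * y) * Real.exp (ε * (K - y ^ 2))) =
          fun y : ℝ => (A * Real.exp (ε * K)) * Real.exp (-(ε * y ^ 2 - B * y)) := by
        ext y
        rw [mul_assoc, ← Real.exp_add, mul_assoc, ← Real.exp_add]
        congr 2
        ring
      rw [h5]
      have h6 : Tendsto (fun y : ℝ => ε * y ^ 2 - B * y) atTop atTop := by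
        have h7 : (fun y : ℝ => ε * y ^ 2 - B * y) = fun y : ℝ => y * (ε * y - B) := by
          ext y; ring
        rw [h7]
        refine tendsto_id.atTop_mul_atTop₀ ?_
        exact tendsto_atTop_add_const_right _ _ (tendsto_id.const_mul_atTop hε)
      have := (Real.tendsto_exp_neg_atTop_nhds_zero.comp h6).const_mul (A * Real.exp (ε * K))
      simpa using this
    have hev : ∀ᶠ y : ℝ in atTop, A * Real.exp (B * y) * Real.exp (ε * (K - y ^ 2)) < C + ε :=
      hlim.eventually_lt_const (by linarith)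
    obtain ⟨R, hR1, hR2⟩ := (hev.and (eventually_gt_atTop (max (max s0.im T) 0))).exists
    have hR3 : s0.im < R := lt_of_le_of_lt ((le_max_left _ _).trans (le_max_left _ _)) hR2
    have hR4 : T < R := lt_of_le_of_lt ((le_max_right _ _).trans (le_max_left _ _)) hR2
    -- maximum principle on the rectangle
    set U : Set ℂ := Ioo a b ×ℂ Ioo T R with hU
    have hUb : Bornology.IsBounded U := (isBounded_Ioo a b).reProdIm (isBounded_Ioo T R)
    have hcl : closure U = Icc a b ×ℂ Icc T R := by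
      rw [hU, Complex.closure_reProdIm, closure_Ioo hab.ne, closure_Ioo hR4.ne]
    have hfr : ∀ z ∈ frontier U, ‖Hε z‖ ≤ (C + ε) * Real.exp (ε * K) := by
      intro z hz
      have hz1 : z ∈ closure U := frontier_subset_closure hz
      have hz2 : z ∉ U := by
        rw [frontier, (isOpen_Ioo.reProdIm isOpen_Ioo).interior_eq] at hz
        exact hz.2
      rw [hcl] at hz1
      have z1 : a ≤ z.re := hz1.1.1
      have z2 : z.re ≤ b := hz1.1.2
      have z3 : T ≤ z.im := hz1.2.1
      have z4 : z.im ≤ R := hz1.2.2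
      rw [hn z]
      have e1 : Real.exp (ε * (z.re ^ 2 - z.im ^ 2)) ≤ Real.exp (ε * K) := by
        refine Real.exp_le_exp.2 (mul_le_mul_of_nonneg_left ?_ hε.le)
        have := hKre z.re z1 z2
        nlinarith [sq_nonneg z.im]
      have side : ‖H z‖ ≤ C → ‖H z‖ * Real.exp (ε * (z.re ^ 2 - z.im ^ 2)) ≤
          (C + ε) * Real.exp (ε * K) := by
        intro hh
        exact mul_le_mul (hh.trans (by linarith)) e1 (Real.exp_pos _).le (by linarith)
      rcases eq_or_lt_of_le z1 with h | h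
      · exact side (hl z h.symm z3)
      rcases eq_or_lt_of_le z2 with h' | h'
      · exact side (hr z h' z3)
      rcases eq_or_lt_of_le z3 with h'' | h''
      · exact side (hb z z1 z2 h''.symm)
      rcases eq_or_lt_of_le z4 with h4 | h4
      · have g1 := hgrow z z1 z2 z3
        have hA : 0 ≤ A * Real.exp (B * z.im) := (norm_nonneg _).trans g1
        have g2 : Real.exp (ε * (z.re ^ 2 - z.im ^ 2)) ≤ Real.exp (ε * (K - R ^ 2)) := by
          refine Real.exp_le_exp.2 (mul_le_mul_of_nonneg_left ?_ hε.le)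
          have := hKre z.re z1 z2
          rw [h4]; linarith
        have g3 := mul_le_mul g1 g2 (Real.exp_pos _).le hA
        rw [h4] at g3
        have g4 : (1:ℝ) ≤ Real.exp (ε * K) := Real.one_le_exp (by positivity)
        rw [h4]
        calc _ ≤ _ := g3
          _ ≤ C + ε := hR1.le
          _ ≤ (C + ε) * Real.exp (ε * K) := le_mul_of_one_le_right (by linarith) g4
      · exact absurd ⟨⟨h, h'⟩, ⟨h'', h4⟩⟩ hz2
    have hdiff : DiffContOnCl ℂ Hε U := by
      refine ⟨?_, ?_⟩
      · refine DifferentiableOn.mul (hH.mono fun z hz => hz.2.1) ?_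
        fun_prop
      · rw [hcl]
        refine ContinuousOn.mul (hHc.mono fun z hz => hz.2.1) ?_
        fun_prop
    have hs0 : s0 ∈ closure U := by
      rw [hcl]; exact ⟨⟨h1, h2⟩, ⟨h3, hR3.le⟩⟩
    have := Complex.norm_le_of_forall_mem_frontier_norm_le hUb hdiff hfr hs0
    rwa [hn s0] at this
  -- let ε → 0
  have l1 : Tendsto (fun ε : ℝ => ‖H s0‖ * Real.exp (ε * (s0.re ^ 2 - s0.im ^ 2)))
      (𝓝[>] 0) (𝓝 (‖H s0‖ * Real.exp (0 * (s0.re ^ 2 - s0.im ^ 2)))) := by
    refine Tendsto.mono_left ?_ nhdsWithin_le_nhds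
    exact Continuous.tendsto (by fun_prop) 0
  have l2 : Tendsto (fun ε : ℝ => (C + ε) * Real.exp (ε * K)) (𝓝[>] 0)
      (𝓝 ((C + 0) * Real.exp (0 * K))) := by
    refine Tendsto.mono_left ?_ nhdsWithin_le_nhds
    exact Continuous.tendsto (by fun_prop) 0
  have := le_of_tendsto_of_tendsto l1 l2 (by
    filter_upwards [self_mem_nhdsWithin] with ε hε using key ε hε)
  simpa using this

end Pool.Agent.helper70
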