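import Mathlib
import Pool.Agent.helper70.HalfStrip
import Pool.Agent.helper70.Cahen

open Complex Metric Set MeasureTheory Real Filter Topology

namespace Pool.Agent.helper70

/-- moving a half line of integration -/
lemma shift_line {Φ : ℂ → ℂ} {a b T : ℝ} (hab : a ≤ b)
    (hd : DifferentiableOn ℂ Φ {s | T - 1 < s.im})
    (ia : IntegrableOn (fun y : ℝ => Φ (a + y * I)) (Ioi T))
    (ib : IntegrableOn (fun y : ℝ => Φ (b + y * I)) (Ioi T))
    {g : ℝ → ℝ} (hg : Tendsto g atTop (𝓝 0))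
    (hgb : ∀ R : ℝ, T ≤ R → ∀ x : ℝ, a ≤ x → x ≤ b → ‖Φ (x + R * I)‖ ≤ g R) :
    I * ∫ y in Ioi T, Φ (b + y * I) =
      I * (∫ y in Ioi T, Φ (a + y * I)) - ∫ x in a..b, Φ (x + T * I) := by
  have hrect : ∀ R : ℝ, T ≤ R → (∫ x : ℝ in a..b, Φ (x + T * I)) - (∫ x : ℝ in a..b, Φ (x + R * I)) +
      I * (∫ y : ℝ in T..R, Φ (b + y * I)) - I * (∫ y : ℝ in T..R, Φ (a + y * I)) = 0 := by
    intro R hR
    have := Complex.integral_boundary_rect_eq_zero_of_differentiableOn Φ (a + T * I) (b + R * I) (by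
      refine hd.mono fun z hz => ?_
      have h2 := hz.2
      simp only [add_im, ofReal_im, mul_im, ofReal_re, I_im, mul_one, I_re, mul_zero, add_zero,
        zero_add, mem_preimage] at h2
      rw [uIcc_of_le hR] at h2
      show T - 1 < z.im
      linarith [h2.1])
    simpa using this
  have h1 := (intervalIntegral_tendsto_integral_Ioi T ia tendsto_id).const_mul I
  have h2 := (intervalIntegral_tendsto_integral_Ioi T ib tendsto_id).const_mul I
  have h3 : Tendsto (fun R : ℝ => ∫ x : ℝ in a..b, Φ (x + R * I)) atTop (𝓝 0) := by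
    refine squeeze_zero_norm' ?_ (by simpa using hg.mul_const |b - a|)
    filter_upwards [eventually_ge_atTop T] with R hR
    refine intervalIntegral.norm_integral_le_of_norm_le_const fun x hx => ?_
    rw [uIoc_of_le hab] at hx
    exact hgb R hR x hx.1.le hx.2
  have h4 : Tendsto (fun R : ℝ => (∫ x : ℝ in a..b, Φ (x + T * I)) -
      (∫ x : ℝ in a..b, Φ (x + R * I)) +
      I * (∫ y : ℝ in T..(id R), Φ (b + y * I)) - I * (∫ y : ℝ in T..(id R), Φ (a + y * I)))
      atTop (𝓝 ((∫ x : ℝ in a..b, Φ (x + T * I)) - 0 +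
      I * (∫ y in Ioi T, Φ (b + y * I)) - I * (∫ y in Ioi T, Φ (a + y * I)))) :=
    ((tendsto_const_nhds.sub h3).add h2).sub h1
  have h5 : Tendsto (fun R : ℝ => (∫ x : ℝ in a..b, Φ (x + T * I)) -
      (∫ x : ℝ in a..b, Φ (x + R * I)) +
      I * (∫ y : ℝ in T..(id R), Φ (b + y * I)) - I * (∫ y : ℝ in T..(id R), Φ (a + y * I)))
      atTop (𝓝 0) := by
    refine tendsto_const_nhds.congr' ?_
    filter_upwards [eventually_ge_atTop T] with R hR
    exact (hrect R hR).symm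
  have h6 := tendsto_nhds_unique h4 h5
  linear_combination h6

/-- The data of a Dirichlet series `∑ b_j λ_j^{-s}` with continuation `h` to the left in the
upper half plane `Im s > T - 1`. -/
structure Cont {ι : Type*} (b : ι → ℂ) (lam : ι → ℝ) (h : ℂ → ℂ) (T : ℝ) (N : ℕ) : Prop where
  hlam : ∀ j, 1 ≤ lam j
  hsum : Summable fun j => ‖b j‖ * lam j ^ (-(3 / 2) : ℝ)
  hT : 2 ≤ T
  hN : 1 ≤ N
  hd : DifferentiableOn ℂ h {s | T - 1 < s.im}
  hser : ∀ t : ℝ, T ≤ t → h (3 / 2 + t * I) = ∑' j, b j * pw (lam j) (3 / 2 + t * I)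
  hgrow : ∃ A B : ℝ, ∀ s : ℂ, 1 / 2 - N ≤ s.re → s.re ≤ 3 / 2 → T ≤ s.im →
    ‖h s‖ ≤ A * Real.exp (B * s.im)

section
variable {ι : Type*} {b : ι → ℂ} {lam : ι → ℝ} {h : ℂ → ℂ} {T : ℝ} {N : ℕ}

lemma norm_term (hc : Cont b lam h T N) (j : ι) (t : ℝ) :
    ‖b j * pw (lam j) (3 / 2 + t * I)‖ = ‖b j‖ * lam j ^ (-(3 / 2) : ℝ) := by
  have h1 : 0 < lam j := by linarith [hc.hlam j]
  have h2 := norm_pw (lam j) (3 / 2) t
  push_cast at h2
  rw [norm_mul, h2, Complex.norm_real, Real.norm_of_nonneg h1.le, Complex.arg_ofReal_of_nonneg h1.le,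
    mul_zero, Real.exp_zero, mul_one, Real.rpow_def_of_pos h1]
  congr 2
  ring

/-- the absolute value sum -/
noncomputable def D0 (b : ι → ℂ) (lam : ι → ℝ) : ℝ := ∑' j, ‖b j‖ * lam j ^ (-(3 / 2) : ℝ)

noncomputable def DD (b : ι → ℂ) (lam : ι → ℝ) (t : ℝ) : ℂ :=
  ∑' j, b j * pw (lam j) (3 / 2 + t * I)

lemma norm_DD_le (hc : Cont b lam h T N) (t : ℝ) : ‖DD b lam t‖ ≤ D0 b lam := by
  refine tsum_of_norm_bounded hc.hsum.hasSum fun j => (norm_term hc j t).le

lemma D0_nonneg (hc : Cont b lam h T N) : 0 ≤ D0 b lam := by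
  refine tsum_nonneg fun j => ?_
  have : 0 < lam j := by linarith [hc.hlam j]
  positivity

lemma continuous_DD (hc : Cont b lam h T N) : Continuous (DD b lam) := by
  refine continuous_tsum (fun j => ?_) hc.hsum (fun j t => (norm_term hc j t).le)
  exact continuous_const.mul ((continuous_pw _).comp (by fun_prop))

/-- `λ e^{-λx}` as a Mellin–Barnes integral -/
lemma lam_exp {l : ℝ} (hl : 0 < l) {x : ℂ} (hx : 0 < x.re) :
    (l : ℂ) * Complex.exp (-(l : ℂ) * x) = (2 * (π : ℂ))⁻¹ *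
      ∫ t : ℝ, Complex.Gamma ((2 : ℕ) + 1 / 2 + t * I) * pw x ((2 : ℕ) + 1 / 2 + t * I) *
        pw l (3 / 2 + t * I) := by
  have hx0 : x ≠ 0 := by
    intro h; rw [h] at hx; simp at hx
  have hlx : 0 < ((l : ℂ) * x).re := by simpa using mul_pos hl hx
  have h1 := CM_eq 2 hlx
  have h2 : ∀ t : ℝ, (l : ℂ) * (Complex.Gamma ((2 : ℕ) + 1 / 2 + t * I) *
      pw ((l : ℂ) * x) ((2 : ℕ) + 1 / 2 + t * I)) =
      Complex.Gamma ((2 : ℕ) + 1 / 2 + t * I) * pw x ((2 : ℕ) + 1 / 2 + t * I) *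
        pw l (3 / 2 + t * I) := by
    intro t
    have e1 : Complex.log ((l : ℂ) * x) = Real.log l + Complex.log x :=
      Complex.log_ofReal_mul hl hx0
    have e2 : Complex.log (l : ℂ) = Real.log l := (Complex.ofReal_log hl.le).symm
    have e3 : (l : ℂ) = Complex.exp (Real.log l) := by
      rw [← Complex.ofReal_exp, Real.exp_log hl]
    rw [pw, pw, pw, e1, e2]
    have e4 : (l : ℂ) * Complex.exp (-((2 : ℕ) + 1 / 2 + t * I) * (Real.log l + Complex.log x)) =
        Complex.exp (-((2 : ℕ) + 1 / 2 + t * I) * Complex.log x) *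
        Complex.exp (-(3 / 2 + t * I) * Real.log l) := by
      rw [← Complex.exp_add]
      conv_lhs => rw [e3]
      rw [← Complex.exp_add]
      congr 1
      push_cast
      ring
    linear_combination (Complex.Gamma ((2 : ℕ) + 1 / 2 + t * I)) * e4
  simp_rw [← h2]
  rw [integral_const_mul]
  have h3 : ∫ t : ℝ, Complex.Gamma ((2 : ℕ) + 1 / 2 + t * I) *
      pw ((l : ℂ) * x) ((2 : ℕ) + 1 / 2 + t * I) = CM 2 ((l : ℂ) * x) := rfl
  rw [h3, h1]
  have hpi : (2 * (π : ℂ)) ≠ 0 := by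
    exact_mod_cast (by positivity : (2 * π : ℝ) ≠ 0)
  field_simp
  try ring_nf

/-- series of exponentials as a Mellin–Barnes integral -/
lemma series_rep [Countable ι] (hc : Cont b lam h T N) {x : ℂ} (hx : 0 < x.re) :
    HasSum (fun j => b j * (lam j * Complex.exp (-(lam j : ℂ) * x)))
      ((2 * (π : ℂ))⁻¹ * ∫ t : ℝ, Complex.Gamma ((2 : ℕ) + 1 / 2 + t * I) *
        pw x ((2 : ℕ) + 1 / 2 + t * I) * DD b lam t) := by
  have hint := integrable_Gamma_pw 2 hx
  set G : ℝ → ℂ := fun t => Complex.Gamma ((2 : ℕ) + 1 / 2 + t * I) *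
        pw x ((2 : ℕ) + 1 / 2 + t * I) with hG
  have hF : ∀ j, Integrable (fun t : ℝ => G t * (b j * pw (lam j) (3 / 2 + t * I))) := by
    intro j
    refine Integrable.mul_bdd (c := ‖b j‖ * lam j ^ (-(3 / 2) : ℝ)) hint ?_ ?_
    · exact (continuous_const.mul ((continuous_pw _).comp (by fun_prop))).aestronglyMeasurable
    · exact Eventually.of_forall fun t => (norm_term hc j t).le
  have hS : Summable fun j => ∫ t : ℝ, ‖G t * (b j * pw (lam j) (3 / 2 + t * I))‖ := by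
    have : ∀ j, ∫ t : ℝ, ‖G t * (b j * pw (lam j) (3 / 2 + t * I))‖ =
        (∫ t : ℝ, ‖G t‖) * (‖b j‖ * lam j ^ (-(3 / 2) : ℝ)) := by
      intro j
      rw [← integral_mul_const]
      refine integral_congr_ae (Eventually.of_forall fun t => ?_)
      simp only
      rw [norm_mul, norm_term hc j t]
    simp_rw [this]
    exact hc.hsum.mul_left _
  have h1 := hasSum_integral_of_summable_integral_norm hF hS
  have h2 := h1.mul_left ((2 * (π : ℂ))⁻¹)
  have h3 : ∀ t : ℝ, ∑' j, G t * (b j * pw (lam j) (3 / 2 + t * I)) = G t * DD b lam t := by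
    intro t
    rw [tsum_mul_left]; rfl
  simp_rw [h3] at h2
  refine h2.congr_fun ?_
  intro j
  rw [lam_exp (by linarith [hc.hlam j]) hx]
  have h4 : ∫ t : ℝ, G t * (b j * pw (lam j) (3 / 2 + t * I)) =
      b j * ∫ t : ℝ, Complex.Gamma ((2 : ℕ) + 1 / 2 + t * I) * pw x ((2 : ℕ) + 1 / 2 + t * I) *
        pw (lam j) (3 / 2 + t * I) := by
    rw [← integral_const_mul]
    refine integral_congr_ae (Eventually.of_forall fun t => ?_)
    simp only [hG]
    ring
  rw [h4]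
  ring

end

end Pool.Agent.helper70
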