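import Mathlib
import Pool.Agent.helper70.Shift

open Complex Metric Set MeasureTheory Real Filter Topology

namespace Pool.Agent.helper70

/-- the function `Γ(w) h(w-1)` -/
noncomputable def Psi (h : ℂ → ℂ) (w : ℂ) : ℂ := Complex.Gamma w * h (w - 1)

/-- polynomial growth of `h` on the left line -/
def LeftPoly (h : ℂ → ℂ) (T : ℝ) (N m : ℕ) : Prop :=
  ∃ C : ℝ, 0 ≤ C ∧ ∀ t : ℝ, T ≤ t → ‖h (1 / 2 - N + t * I)‖ ≤ C * (1 + t) ^ m

section
variable {ι : Type*} {b : ι → ℂ} {lam : ι → ℝ} {h : ℂ → ℂ} {T : ℝ} {N m : ℕ}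

lemma Psi_diff (hc : Cont b lam h T N) : DifferentiableOn ℂ (Psi h) {s | T - 1 < s.im} := by
  refine DifferentiableOn.mul ?_ ?_
  · intro w hw
    refine (Complex.differentiableAt_Gamma _ fun k hk => ?_).differentiableWithinAt
    have h1 : T - 1 < w.im := hw
    have h2 := congrArg Complex.im hk
    simp at h2
    linarith [hc.hT]
  · refine hc.hd.comp (by fun_prop) fun w hw => ?_
    simpa using hw

lemma Psi_left (hc : Cont b lam h T N) (hl : LeftPoly h T N m) : ∃ C : ℝ, 0 ≤ C ∧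
    ∀ t : ℝ, T ≤ t → ‖Psi h (3 / 2 - N + t * I)‖ ≤ C * ((1 + t) ^ m * Real.exp (-(π * t / 2))) := by
  obtain ⟨C, hC0, hC⟩ := hl
  refine ⟨√(2 * π) * C, by positivity, fun t ht => ?_⟩
  have ht0 : 0 < t := by linarith [hc.hT]
  have ht1 : 1 ≤ t := by linarith [hc.hT]
  obtain ⟨k, hk⟩ : ∃ k, N = k + 1 := ⟨N - 1, by have := hc.hN; omega⟩
  have e1 : (3 : ℂ) / 2 - N + t * I = 1 / 2 - (k : ℂ) + t * I := by
    rw [hk]; push_cast; ring
  have e2 : (1 : ℂ) / 2 - (k : ℂ) + t * I - 1 = 1 / 2 - N + t * I := by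
    rw [hk]; push_cast; ring
  rw [Psi, e1, norm_mul, e2]
  have h1 := norm_Gamma_left_le k t ht0.ne'
  rw [abs_of_pos ht0] at h1
  have h2 : √(2 * π) * Real.exp (-(π * t / 2)) / t ^ k ≤ √(2 * π) * Real.exp (-(π * t / 2)) :=
    div_le_self (by positivity) (one_le_pow₀ ht1)
  calc _ ≤ (√(2 * π) * Real.exp (-(π * t / 2))) * (C * (1 + t) ^ m) :=
        mul_le_mul (h1.trans h2) (hC t ht) (norm_nonneg _) (by positivity)
    _ = _ := by ring

lemma Psi_right (hc : Cont b lam h T N) (t : ℝ) (ht : T ≤ t) :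
    ‖Psi h (5 / 2 + t * I)‖ ≤
      (CG 2 * D0 b lam) * ((1 + t) ^ 2 * Real.exp (-(π * t / 2))) := by
  have ht0 : 0 < t := by linarith [hc.hT]
  have e1 : (5 : ℂ) / 2 + t * I = (2 : ℕ) + 1 / 2 + t * I := by push_cast; ring
  have e2 : (5 : ℂ) / 2 + t * I - 1 = 3 / 2 + t * I := by ring
  rw [Psi, norm_mul, e2, e1]
  have h1 := norm_Gamma_line 2 t
  rw [abs_of_pos ht0] at h1
  have h2 : ‖h (3 / 2 + t * I)‖ ≤ D0 b lam := by
    rw [hc.hser t ht]; exact norm_DD_le hc t
  have := CG_nonneg 2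
  calc _ ≤ (CG 2 * ((1 + t) ^ 2 * Real.exp (-(π * t / 2)))) * D0 b lam :=
        mul_le_mul h1 h2 (norm_nonneg _) (by positivity)
    _ = _ := by ring

lemma Psi_decay (hc : Cont b lam h T N) (hl : LeftPoly h T N m) {φ : ℝ}
    (hφ : φ < π / 2) : ∃ C : ℝ, 0 ≤ C ∧ ∀ w : ℂ, 3 / 2 - N ≤ w.re → w.re ≤ 5 / 2 → T ≤ w.im →
    ‖Psi h w‖ ≤ C * Real.exp (-φ * w.im) := by
  have hT := hc.hT
  have hN : (1:ℝ) ≤ N := by exact_mod_cast hc.hN
  obtain ⟨C1, hC10, hC1⟩ := Psi_left hc hl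
  obtain ⟨A, B, hAB⟩ := hc.hgrow
  obtain ⟨C3, hC30, hC3⟩ := Gamma_bounded (N + 3)
  set ε := π / 2 - φ with hε
  have hε0 : 0 < ε := by linarith
  -- bound of (1+t)^n e^{-πt/2} e^{φ t}
  have hpe : ∀ n : ℕ, ∀ t : ℝ, 0 ≤ t → (1 + t) ^ n * Real.exp (-(π * t / 2)) * Real.exp (φ * t) ≤
      n.factorial / ε ^ n * Real.exp ε := by
    intro n t ht
    have h1 := poly_exp_bound n hε0 ht
    rw [mul_assoc, ← Real.exp_add]
    have h2 : -(π * t / 2) + φ * t = -(ε * t) := by rw [hε]; ring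
    rw [h2, Real.exp_neg, ← div_eq_mul_inv, div_le_iff₀ (Real.exp_pos _)]
    exact h1
  set H : ℂ → ℂ := fun w => Psi h w * Complex.exp (-I * φ * w) with hH
  have hHn : ∀ w : ℂ, ‖H w‖ = ‖Psi h w‖ * Real.exp (φ * w.im) := by
    intro w
    simp only [hH]
    rw [norm_mul, Complex.norm_exp]
    congr 2
    simp
  have hHd : DifferentiableOn ℂ H {s | T - 1 < s.im} := by
    refine (Psi_diff hc).mul ?_
    fun_prop
  -- bottom
  have hbot : ∃ C4 : ℝ, ∀ w : ℂ, 3 / 2 - N ≤ w.re → w.re ≤ 5 / 2 → w.im = T → ‖H w‖ ≤ C4 := by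
    have hcomp : IsCompact (Icc (3 / 2 - (N : ℝ)) (5 / 2) ×ℂ {T}) :=
      isCompact_Icc.reProdIm isCompact_singleton
    have hco : ContinuousOn H (Icc (3 / 2 - (N : ℝ)) (5 / 2) ×ℂ {T}) := by
      refine hHd.continuousOn.mono fun w hw => ?_
      have : w.im = T := hw.2
      show T - 1 < w.im
      linarith
    obtain ⟨C4, hC4⟩ := hcomp.exists_bound_of_continuousOn hco
    exact ⟨C4, fun w h1 h2 h3 => hC4 w ⟨⟨h1, h2⟩, h3⟩⟩
  obtain ⟨C4, hC4⟩ := hbot
  set C : ℝ := max (max (C1 * (m.factorial / ε ^ m * Real.exp ε))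
    (CG 2 * D0 b lam * ((2:ℕ).factorial / ε ^ 2 * Real.exp ε))) C4 with hC
  have hCC : 0 ≤ C := by
    refine le_trans ?_ ((le_max_left _ _).trans (le_max_left _ _))
    positivity
  refine ⟨C, hCC, fun w h1 h2 h3 => ?_⟩
  have key := half_strip_PL (H := H) (a := 3 / 2 - N) (b := 5 / 2) (T := T)
    (A := C3 * A) (B := B + φ) (C := C) (by linarith)
    (hHd.mono fun s hs => by
      have h4 : T < s.im := hs
      show T - 1 < s.im
      linarith)
    (hHd.continuousOn.mono fun s hs => by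
      have h4 : T ≤ s.im := hs
      show T - 1 < s.im
      linarith) ?_ hCC ?_ ?_ ?_ w h1 h2 h3
  · rw [hHn] at key
    rw [neg_mul, Real.exp_neg, ← div_eq_mul_inv, le_div_iff₀ (Real.exp_pos _)]
    exact key
  · intro s hs1 hs2 hs3
    rw [hHn, Psi, norm_mul]
    have g1 : ‖Complex.Gamma s‖ ≤ C3 := by
      refine hC3 s ?_ ?_
      · rw [abs_le]; constructor <;> linarith
      · rw [abs_of_nonneg (by linarith)]; linarith
    have g2 : ‖h (s - 1)‖ ≤ A * Real.exp (B * s.im) := by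
      have := hAB (s - 1) (by simp; linarith) (by simp; linarith) (by simpa using hs3)
      simpa using this
    calc _ ≤ (C3 * (A * Real.exp (B * s.im))) * Real.exp (φ * s.im) := by
          refine mul_le_mul_of_nonneg_right ?_ (Real.exp_pos _).le
          exact mul_le_mul g1 g2 (norm_nonneg _) hC30
      _ = C3 * A * Real.exp ((B + φ) * s.im) := by
          rw [add_mul, Real.exp_add]; ring
  · intro s hs1 hs2
    have ht0 : 0 ≤ s.im := by linarith
    have e1 : s = 3 / 2 - N + s.im * I := by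
      apply Complex.ext
      · simp [hs1]
      · simp
    rw [hHn]
    have g1 := hC1 s.im hs2
    rw [← e1] at g1
    refine le_trans ?_ ((le_max_left _ _).trans (le_max_left _ _))
    calc _ ≤ (C1 * ((1 + s.im) ^ m * Real.exp (-(π * s.im / 2)))) * Real.exp (φ * s.im) := by
          gcongr
      _ = C1 * ((1 + s.im) ^ m * Real.exp (-(π * s.im / 2)) * Real.exp (φ * s.im)) := by ring
      _ ≤ _ := mul_le_mul_of_nonneg_left (hpe m _ ht0) hC10
  · intro s hs1 hs2
    have ht0 : 0 ≤ s.im := by linarith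
    have e1 : s = 5 / 2 + s.im * I := by
      apply Complex.ext
      · simp [hs1]
      · simp
    rw [hHn]
    have g1 := Psi_right hc s.im hs2
    rw [← e1] at g1
    have g2 : 0 ≤ CG 2 * D0 b lam := mul_nonneg (CG_nonneg 2) (D0_nonneg hc)
    refine le_trans ?_ ((le_max_right _ _).trans (le_max_left _ _))
    calc _ ≤ ((CG 2 * D0 b lam) * ((1 + s.im) ^ 2 * Real.exp (-(π * s.im / 2)))) *
            Real.exp (φ * s.im) := by gcongr
      _ = (CG 2 * D0 b lam) * ((1 + s.im) ^ 2 * Real.exp (-(π * s.im / 2)) *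
            Real.exp (φ * s.im)) := by ring
      _ ≤ _ := mul_le_mul_of_nonneg_left (hpe 2 _ ht0) g2
  · intro s hs1 hs2 hs3
    exact (hC4 s hs1 hs2 hs3).trans (le_max_right _ _)

lemma Psi_cont_line (hc : Cont b lam h T N) (a : ℝ) :
    ContinuousOn (fun t : ℝ => Psi h (a + t * I)) (Ici T) := by
  refine (Psi_diff hc).continuousOn.comp (by fun_prop) fun t ht => ?_
  have : T ≤ t := ht
  show T - 1 < _
  simp
  linarith

/-- integrability of `Ψ(a+it) x^{-(a+it)}` on a half line -/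
lemma integrable_line (hc : Cont b lam h T N) {a C : ℝ} (n : ℕ)
    (hb : ∀ t : ℝ, T ≤ t → ‖Psi h (a + t * I)‖ ≤ C * ((1 + t) ^ n * Real.exp (-(π * t / 2))))
    {x : ℂ} (hx : 0 < x.re) :
    IntegrableOn (fun t : ℝ => Psi h (a + t * I) * pw x (a + t * I)) (Ioi T) := by
  have hT := hc.hT
  have harg := abs_arg_lt hx
  have hi := (integrable_poly_exp n (ε := π / 2 - |x.arg|) (by linarith)).const_mul
    (C * Real.exp (-a * Real.log ‖x‖))
  refine Integrable.mono' hi.integrableOn ?_ ?_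
  · refine ContinuousOn.aestronglyMeasurable ?_ measurableSet_Ioi
    refine ((Psi_cont_line hc a).mono Ioi_subset_Ici_self).mul ?_
    exact ((continuous_pw x).comp (by fun_prop)).continuousOn
  · refine (ae_restrict_iff' measurableSet_Ioi).2 (Eventually.of_forall fun t ht => ?_)
    have ht' : T ≤ t := le_of_lt ht
    have ht0 : 0 ≤ t := by linarith
    rw [norm_mul, norm_pw, abs_of_nonneg ht0]
    have h1 := hb t ht'
    have h2 : Real.exp (t * x.arg) ≤ Real.exp (t * |x.arg|) := by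
      refine Real.exp_le_exp.2 (mul_le_mul_of_nonneg_left (le_abs_self _) ht0)
    calc _ ≤ (C * ((1 + t) ^ n * Real.exp (-(π * t / 2)))) *
          (Real.exp (-a * Real.log ‖x‖) * Real.exp (t * |x.arg|)) := by
          refine mul_le_mul h1 ?_ (by positivity) ((norm_nonneg _).trans h1)
          gcongr
      _ = (C * Real.exp (-a * Real.log ‖x‖)) * ((1 + t) ^ n * (Real.exp (-(π * t / 2)) *
          Real.exp (t * |x.arg|))) := by ring
      _ = _ := by
        rw [← Real.exp_add]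
        congr 4
        ring

/-- The basic representation after the shift of the contour. -/
theorem rep_shift [Countable ι] (hc : Cont b lam h T N) (hl : LeftPoly h T N m) {x : ℂ}
    (hx : 0 < x.re) :
    ∑' j, b j * (lam j * Complex.exp (-(lam j : ℂ) * x)) =
      (2 * (π : ℂ))⁻¹ * ((∫ t in Iic T, Complex.Gamma ((2 : ℕ) + 1 / 2 + t * I) *
        pw x ((2 : ℕ) + 1 / 2 + t * I) * DD b lam t) +
      (∫ t in Ioi T, Psi h ((3 / 2 - N : ℝ) + t * I) * pw x ((3 / 2 - N : ℝ) + t * I)) +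
      I * ∫ σ in (3 / 2 - N : ℝ)..(5 / 2), Psi h (σ + T * I) * pw x (σ + T * I)) := by
  have hT := hc.hT
  have hN : (1:ℝ) ≤ N := by exact_mod_cast hc.hN
  rw [(series_rep hc hx).tsum_eq]
  congr 1
  set F : ℝ → ℂ := fun t => Complex.Gamma ((2 : ℕ) + 1 / 2 + t * I) *
        pw x ((2 : ℕ) + 1 / 2 + t * I) * DD b lam t with hF
  have hFi : Integrable F := by
    refine Integrable.mul_bdd (c := D0 b lam) (integrable_Gamma_pw 2 hx) ?_ ?_
    · exact (continuous_DD hc).aestronglyMeasurable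
    · exact Eventually.of_forall fun t => norm_DD_le hc t
  have h1 : ∫ t, F t = (∫ t in Iic T, F t) + ∫ t in Ioi T, F t := by
    rw [← setIntegral_univ, ← Iic_union_Ioi (a := T)]
    exact setIntegral_union (Iic_disjoint_Ioi le_rfl) measurableSet_Ioi hFi.integrableOn
      hFi.integrableOn
  have h2 : ∫ t in Ioi T, F t =
      ∫ t in Ioi T, Psi h ((5 / 2 : ℝ) + t * I) * pw x ((5 / 2 : ℝ) + t * I) := by
    refine setIntegral_congr_fun measurableSet_Ioi fun t ht => ?_
    have ht' : T ≤ t := le_of_lt ht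
    have e1 : ((2 : ℕ) : ℂ) + 1 / 2 + t * I = (5 / 2 : ℝ) + t * I := by push_cast; ring
    have e2 : ((5 / 2 : ℝ) : ℂ) + t * I - 1 = 3 / 2 + t * I := by push_cast; ring
    simp only [hF]
    rw [e1, Psi, e2, hc.hser t ht']
    simp only [DD]
    ring
  obtain ⟨C1, hC10, hC1⟩ := Psi_left hc hl
  have hl1 : ∀ t : ℝ, T ≤ t → ‖Psi h (((3 / 2 - N : ℝ) : ℂ) + t * I)‖ ≤
      C1 * ((1 + t) ^ m * Real.exp (-(π * t / 2))) := by
    intro t ht
    have := hC1 t ht
    push_cast
    exact this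
  have hr1 : ∀ t : ℝ, T ≤ t → ‖Psi h (((5 / 2 : ℝ) : ℂ) + t * I)‖ ≤
      (CG 2 * D0 b lam) * ((1 + t) ^ 2 * Real.exp (-(π * t / 2))) := by
    intro t ht
    have := Psi_right hc t ht
    push_cast
    exact this
  have ia := integrable_line hc m hl1 hx
  have ib := integrable_line hc 2 hr1 hx
  have harg := abs_arg_lt hx
  obtain ⟨φ, hφ1, hφ2⟩ := exists_between harg
  obtain ⟨C2, hC20, hC2⟩ := Psi_decay hc hl hφ2
  -- the bound of the power of x on the strip
  set M : ℝ := max (Real.exp (-(3 / 2 - N : ℝ) * Real.log ‖x‖)) (Real.exp (-(5 / 2) * Real.log ‖x‖))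
    with hM
  have hMσ : ∀ σ : ℝ, 3 / 2 - N ≤ σ → σ ≤ 5 / 2 → Real.exp (-σ * Real.log ‖x‖) ≤ M := by
    intro σ hσ1 hσ2
    rcases le_total 0 (Real.log ‖x‖) with h0 | h0
    · refine le_trans (Real.exp_le_exp.2 ?_) (le_max_left _ _)
      nlinarith
    · refine le_trans (Real.exp_le_exp.2 ?_) (le_max_right _ _)
      nlinarith
  have hM0 : 0 ≤ M := (Real.exp_pos _).le.trans (le_max_left _ _)
  have hshift := shift_line (Φ := fun w => Psi h w * pw x w) (a := 3 / 2 - N) (b := 5 / 2) (T := T)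
    (by linarith) ?_ ia ib (g := fun R => C2 * M * Real.exp (-(φ - |x.arg|) * R)) ?_ ?_
  · have h3 : (∫ t in Ioi T, Psi h ((5 / 2 : ℝ) + t * I) * pw x ((5 / 2 : ℝ) + t * I)) =
        (∫ t in Ioi T, Psi h ((3 / 2 - N : ℝ) + t * I) * pw x ((3 / 2 - N : ℝ) + t * I)) +
        I * ∫ σ in (3 / 2 - N : ℝ)..(5 / 2), Psi h (σ + T * I) * pw x (σ + T * I) := by
      have hI : I * I = -1 := Complex.I_mul_I
      linear_combination (-I) * hshift + (∫ t in Ioi T, Psi h ((5 / 2 : ℝ) + t * I) *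
        pw x ((5 / 2 : ℝ) + t * I)) * hI - (∫ t in Ioi T, Psi h ((3 / 2 - N : ℝ) + t * I) *
        pw x ((3 / 2 - N : ℝ) + t * I)) * hI
    rw [h1, h2, h3]
    ring
  · refine (Psi_diff hc).mul ?_
    intro w _
    unfold pw
    fun_prop
  · have h5 : Tendsto (fun R : ℝ => (φ - |x.arg|) * R) atTop atTop :=
      tendsto_id.const_mul_atTop (by linarith)
    have := (Real.tendsto_exp_neg_atTop_nhds_zero.comp h5).const_mul (C2 * M)
    simp only [mul_zero] at this
    refine this.congr fun R => ?_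
    simp only [Function.comp_apply, neg_mul]
  · intro R hR σ hσ1 hσ2
    rw [norm_mul, norm_pw]
    have hR0 : 0 ≤ R := by linarith
    have g1 := hC2 (σ + R * I) (by simpa using hσ1) (by simpa using hσ2) (by simpa using hR)
    have e1 : ((σ : ℂ) + R * I).im = R := by simp
    rw [e1] at g1
    have g2 := hMσ σ hσ1 hσ2
    have g3 : Real.exp (R * x.arg) ≤ Real.exp (|x.arg| * R) := by
      refine Real.exp_le_exp.2 ?_
      rw [mul_comm]
      exact mul_le_mul_of_nonneg_right (le_abs_self _) hR0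
    calc _ ≤ (C2 * Real.exp (-φ * R)) * (M * Real.exp (|x.arg| * R)) := by
          refine mul_le_mul g1 (mul_le_mul g2 g3 (Real.exp_pos _).le hM0) (by positivity)
            (by positivity)
      _ = C2 * M * (Real.exp (-φ * R) * Real.exp (|x.arg| * R)) := by ring
      _ = _ := by
        rw [← Real.exp_add]
        congr 2
        ring

end

end Pool.Agent.helper70
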