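import Mathlib
import Pool.Agent.helper70.T1

open Complex Metric Set MeasureTheory Real Filter Topology

namespace Pool.Agent.helper70

section
variable {ι : Type*} {b : ι → ℂ} {lam : ι → ℝ} {h : ℂ → ℂ} {T : ℝ} {N m : ℕ}

/-- decay on the left line (degree < 1) -/
def LeftSmall (h : ℂ → ℂ) (T : ℝ) (N : ℕ) : Prop :=
  ∃ C : ℝ, 0 ≤ C ∧ ∀ t : ℝ, T ≤ t → ‖h (1 / 2 - N + t * I)‖ * t ^ 3 ≤ C * t ^ N

lemma LeftSmall.leftPoly (hT : 2 ≤ T) (hs : LeftSmall h T N) : LeftPoly h T N N := by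
  obtain ⟨C, hC0, hC⟩ := hs
  refine ⟨C, hC0, fun t ht => ?_⟩
  have ht0 : 0 ≤ t := by linarith
  have ht1 : 1 ≤ t := by linarith
  have h1 := hC t ht
  have h2 : (1:ℝ) ≤ t ^ 3 := one_le_pow₀ ht1
  calc ‖h (1 / 2 - N + t * I)‖ ≤ ‖h (1 / 2 - N + t * I)‖ * t ^ 3 :=
        le_mul_of_one_le_right (norm_nonneg _) h2
    _ ≤ C * t ^ N := h1
    _ ≤ C * (1 + t) ^ N := by gcongr; linarith

/-- the part of the integral over `t ≤ T` is bounded -/
lemma part_left (hc : Cont b lam h T N) : ∃ C : ℝ, 0 ≤ C ∧ ∀ x : ℂ, 0 < x.re → 0 ≤ x.im →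
    1 ≤ ‖x‖ → ‖∫ t in Iic T, Complex.Gamma ((2 : ℕ) + 1 / 2 + t * I) *
        pw x ((2 : ℕ) + 1 / 2 + t * I) * DD b lam t‖ ≤ C := by
  have hT := hc.hT
  set K : ℝ := CG 2 * Real.exp (π / 2 * T) * D0 b lam with hK
  have hK0 : 0 ≤ K := by
    have := CG_nonneg 2
    have := D0_nonneg hc
    positivity
  have hi := (integrable_poly_exp 2 (ε := π / 2) (by positivity)).const_mul K
  refine ⟨∫ t : ℝ, K * ((1 + |t|) ^ 2 * Real.exp (-(π / 2) * |t|)),
    integral_nonneg fun t => by positivity, fun x hx hxi hx1 => ?_⟩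
  have harg := abs_arg_lt hx
  have harg0 : 0 ≤ x.arg := Complex.arg_nonneg_iff.2 hxi
  rw [abs_of_nonneg harg0] at harg
  refine (norm_integral_le_integral_norm _).trans ?_
  refine le_trans (integral_mono_of_nonneg (Eventually.of_forall fun t => norm_nonneg _)
    hi.integrableOn ?_) (setIntegral_le_integral hi (Eventually.of_forall fun t => by
      show (0:ℝ) ≤ _
      positivity))
  refine (ae_restrict_iff' measurableSet_Iic).2 (Eventually.of_forall fun t ht => ?_)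
  have ht' : t ≤ T := ht
  have e1 : ((2 : ℕ) : ℂ) + 1 / 2 + t * I = (5 / 2 : ℝ) + t * I := by push_cast; ring
  have g1 := norm_Gamma_line 2 t
  have g2 := norm_DD_le hc t
  have g3 : ‖pw x ((2 : ℕ) + 1 / 2 + t * I)‖ ≤ Real.exp (π / 2 * T) := by
    rw [e1, norm_pw, ← Real.exp_add]
    refine Real.exp_le_exp.2 ?_
    have hlog : 0 ≤ Real.log ‖x‖ := Real.log_nonneg hx1
    have : t * x.arg ≤ π / 2 * T := by
      calc t * x.arg ≤ T * x.arg := mul_le_mul_of_nonneg_right ht' harg0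
        _ ≤ T * (π / 2) := mul_le_mul_of_nonneg_left harg.le (by linarith)
        _ = _ := by ring
    nlinarith
  simp only
  rw [norm_mul, norm_mul]
  have hCG := CG_nonneg 2
  calc _ ≤ ((CG 2 * ((1 + |t|) ^ 2 * Real.exp (-(π * |t| / 2)))) * Real.exp (π / 2 * T)) *
        D0 b lam := by
        refine mul_le_mul (mul_le_mul g1 g3 (norm_nonneg _) (by positivity)) g2 (norm_nonneg _)
          (by positivity)
    _ = K * ((1 + |t|) ^ 2 * Real.exp (-(π * |t| / 2))) := by rw [hK]; ring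
    _ = _ := by
      congr 3
      ring

/-- the horizontal part -/
lemma part_bottom (hc : Cont b lam h T N) : ∃ C : ℝ, 0 ≤ C ∧ ∀ x : ℂ, 0 < x.re → 0 ≤ x.im →
    1 ≤ ‖x‖ → ‖I * ∫ σ in (3 / 2 - N : ℝ)..(5 / 2), Psi h (σ + T * I) * pw x (σ + T * I)‖ ≤
      C * ‖x‖ ^ N := by
  have hT := hc.hT
  have hN : (1:ℝ) ≤ N := by exact_mod_cast hc.hN
  have hcont : ContinuousOn (fun σ : ℝ => Psi h (σ + T * I)) (Icc (3 / 2 - N) (5 / 2)) := by
    refine (Psi_diff hc).continuousOn.comp (by fun_prop) fun t _ => ?_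
    show T - 1 < _
    simp
  obtain ⟨C, hC⟩ := isCompact_Icc.exists_bound_of_continuousOn hcont
  have hC0 : 0 ≤ C := (norm_nonneg _).trans (hC (5 / 2) ⟨by linarith, le_rfl⟩)
  refine ⟨C * Real.exp (π / 2 * T) * |5 / 2 - (3 / 2 - N : ℝ)|, by positivity,
    fun x hx hxi hx1 => ?_⟩
  have harg := abs_arg_lt hx
  have harg0 : 0 ≤ x.arg := Complex.arg_nonneg_iff.2 hxi
  rw [abs_of_nonneg harg0] at harg
  rw [norm_mul, Complex.norm_I, one_mul]
  have hx0 : 0 < ‖x‖ := by linarith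
  have := intervalIntegral.norm_integral_le_of_norm_le_const (a := 3 / 2 - (N : ℝ)) (b := 5 / 2)
    (f := fun σ : ℝ => Psi h (σ + T * I) * pw x (σ + T * I))
    (C := C * (‖x‖ ^ N * Real.exp (π / 2 * T))) (fun σ hσ => by
      rw [uIoc_of_le (by linarith)] at hσ
      rw [norm_mul, norm_pw]
      have hlog : 0 ≤ Real.log ‖x‖ := Real.log_nonneg hx1
      have g1 : Real.exp (-σ * Real.log ‖x‖) ≤ ‖x‖ ^ N := by
        rw [← Real.rpow_natCast, Real.rpow_def_of_pos hx0]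
        refine Real.exp_le_exp.2 ?_
        have : -σ ≤ N := by linarith [hσ.1]
        nlinarith
      have g2 : Real.exp (T * x.arg) ≤ Real.exp (π / 2 * T) := by
        refine Real.exp_le_exp.2 ?_
        rw [mul_comm]
        exact mul_le_mul_of_nonneg_right harg.le (by linarith)
      have g3 := hC σ ⟨hσ.1.le, hσ.2⟩
      gcongr)
  refine this.trans (le_of_eq ?_)
  ring

/-- the left line, degree < 1 -/
lemma part_line (hc : Cont b lam h T N) (hs : LeftSmall h T N) :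
    ∃ C : ℝ, 0 ≤ C ∧ ∀ x : ℂ, 0 < x.re → 0 ≤ x.im → 1 ≤ ‖x‖ →
    ‖∫ t in Ioi T, Psi h ((3 / 2 - N : ℝ) + t * I) * pw x ((3 / 2 - N : ℝ) + t * I)‖ ≤
      C * ‖x‖ ^ N := by
  have hT := hc.hT
  have hT0 : 0 < T := by linarith
  have hN : (1:ℝ) ≤ N := by exact_mod_cast hc.hN
  obtain ⟨C, hC0, hC⟩ := hs
  obtain ⟨k, hk⟩ : ∃ k, N = k + 1 := ⟨N - 1, by have := hc.hN; omega⟩
  -- bound for Psi
  have hPsi : ∀ t : ℝ, T ≤ t → ‖Psi h (((3 / 2 - N : ℝ) : ℂ) + t * I)‖ ≤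
      (√(2 * π) * C) * Real.exp (-(π * t / 2)) * t ^ (-2 : ℝ) := by
    intro t ht
    have ht0 : 0 < t := by linarith
    have e1 : ((3 / 2 - N : ℝ) : ℂ) + t * I = 1 / 2 - (k : ℂ) + t * I := by
      rw [hk]; push_cast; ring
    have e2 : (1 : ℂ) / 2 - (k : ℂ) + t * I - 1 = 1 / 2 - N + t * I := by
      rw [hk]; push_cast; ring
    rw [Psi, e1, norm_mul, e2]
    have h1 := norm_Gamma_left_le k t ht0.ne'
    rw [abs_of_pos ht0] at h1
    have h2 : ‖h (1 / 2 - N + t * I)‖ ≤ C * t ^ N / t ^ 3 := by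
      rw [le_div_iff₀ (by positivity)]; exact hC t ht
    calc _ ≤ (√(2 * π) * Real.exp (-(π * t / 2)) / t ^ k) * (C * t ^ N / t ^ 3) :=
          mul_le_mul h1 h2 (norm_nonneg _) (by positivity)
      _ = (√(2 * π) * C) * Real.exp (-(π * t / 2)) * t ^ (-2 : ℝ) := by
        rw [hk, Real.rpow_neg ht0.le]
        have : t ^ (2:ℝ) = t ^ 2 := by
          rw [← Real.rpow_natCast]; norm_num
        rw [this, pow_succ]
        field_simp
  have hint : IntegrableOn (fun t : ℝ => t ^ (-2 : ℝ)) (Ioi T) :=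
    integrableOn_Ioi_rpow_of_lt (by norm_num) hT0
  refine ⟨(√(2 * π) * C) * ∫ t in Ioi T, t ^ (-2 : ℝ), ?_, fun x hx hxi hx1 => ?_⟩
  · have : 0 ≤ ∫ t in Ioi T, t ^ (-2 : ℝ) :=
      setIntegral_nonneg measurableSet_Ioi fun t ht =>
        Real.rpow_nonneg (by have : T < t := ht; linarith) _
    positivity
  have harg := abs_arg_lt hx
  have harg0 : 0 ≤ x.arg := Complex.arg_nonneg_iff.2 hxi
  rw [abs_of_nonneg harg0] at harg
  have hx0 : 0 < ‖x‖ := by linarith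
  refine (norm_integral_le_integral_norm _).trans ?_
  have e3 : (√(2 * π) * C) * (∫ t in Ioi T, t ^ (-2 : ℝ)) * ‖x‖ ^ N =
      ∫ t in Ioi T, ((√(2 * π) * C) * ‖x‖ ^ N) * t ^ (-2 : ℝ) := by
    rw [integral_const_mul]; ring
  rw [e3]
  refine integral_mono_of_nonneg (Eventually.of_forall fun t => norm_nonneg _)
    (hint.const_mul _) ?_
  refine (ae_restrict_iff' measurableSet_Ioi).2 (Eventually.of_forall fun t ht => ?_)
  have ht' : T ≤ t := le_of_lt ht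
  have ht0 : 0 < t := by linarith
  simp only
  rw [norm_mul, norm_pw]
  have hlog : 0 ≤ Real.log ‖x‖ := Real.log_nonneg hx1
  have g1 : Real.exp (-(3 / 2 - N : ℝ) * Real.log ‖x‖) ≤ ‖x‖ ^ N := by
    rw [← Real.rpow_natCast, Real.rpow_def_of_pos hx0]
    refine Real.exp_le_exp.2 ?_
    nlinarith
  have g2 : Real.exp (t * x.arg) ≤ Real.exp (π * t / 2) := by
    refine Real.exp_le_exp.2 ?_
    nlinarith
  have g3 := hPsi t ht'
  have g4 : 0 ≤ t ^ (-2 : ℝ) := Real.rpow_nonneg ht0.le _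
  calc _ ≤ ((√(2 * π) * C) * Real.exp (-(π * t / 2)) * t ^ (-2 : ℝ)) *
        (‖x‖ ^ N * Real.exp (π * t / 2)) := by gcongr
    _ = ((√(2 * π) * C) * ‖x‖ ^ N) * t ^ (-2 : ℝ) *
        (Real.exp (-(π * t / 2)) * Real.exp (π * t / 2)) := by ring
    _ = _ := by
      rw [← Real.exp_add, neg_add_cancel, Real.exp_zero, mul_one]

/-- In degree `< 1` the exponential series is polynomially bounded up to the imaginary axis. -/
theorem T1 [Countable ι] (hc : Cont b lam h T N) (hs : LeftSmall h T N) :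
    ∃ C : ℝ, 0 ≤ C ∧ ∀ x : ℂ, 0 < x.re → 0 ≤ x.im → 1 ≤ ‖x‖ →
      ‖∑' j, b j * (lam j * Complex.exp (-(lam j : ℂ) * x))‖ ≤ C * ‖x‖ ^ N := by
  obtain ⟨C1, hC10, hC1⟩ := part_left hc
  obtain ⟨C2, hC20, hC2⟩ := part_line hc hs
  obtain ⟨C3, hC30, hC3⟩ := part_bottom hc
  refine ⟨C1 + C2 + C3, by positivity, fun x hx hxi hx1 => ?_⟩
  rw [rep_shift hc (hs.leftPoly hc.hT) hx, norm_mul]
  have h0 : ‖(2 * (π : ℂ))⁻¹‖ ≤ 1 := by
    have : (2 * (π : ℂ)) = ((2 * π : ℝ) : ℂ) := by push_cast; ring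
    rw [this, norm_inv, Complex.norm_real, Real.norm_of_nonneg (by positivity)]
    refine inv_le_one_of_one_le₀ ?_
    linarith [Real.pi_gt_three]
  have h1 := hC1 x hx hxi hx1
  have h2 := hC2 x hx hxi hx1
  have h3 := hC3 x hx hxi hx1
  have h4 : 1 ≤ ‖x‖ ^ N := one_le_pow₀ hx1
  have h5 : C1 ≤ C1 * ‖x‖ ^ N := le_mul_of_one_le_right hC10 h4
  refine (mul_le_of_le_one_left (norm_nonneg _) h0).trans ?_
  refine (norm_add₃_le ..).trans ?_
  calc _ ≤ C1 * ‖x‖ ^ N + C2 * ‖x‖ ^ N + C3 * ‖x‖ ^ N := by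
        gcongr
        exact h1.trans h5
    _ = _ := by ring

end

end Pool.Agent.helper70
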