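import Mathlib
import Pool.Agent.helper70.QuotEx
import Pool.Agent.helper70.Quot
import Pool.Agent.helper70.T1b

open Complex Metric Set MeasureTheory Real Filter Topology

namespace Pool.Agent.helper70

/-- the affine map `s ↦ 1/2 + r (s - 1/2) + iα` -/
noncomputable def tau (r α : ℝ) (s : ℂ) : ℂ := 1 / 2 + r * (s - 1 / 2) + α * I

lemma tau_re (r α : ℝ) (s : ℂ) : (tau r α s).re = 1 / 2 + r * (s.re - 1 / 2) := by
  simp [tau]

lemma tau_im (r α : ℝ) (s : ℂ) : (tau r α s).im = r * s.im + α := by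
  simp [tau]

lemma analyticAt_zeta {s : ℂ} (hs : s ≠ 1) : AnalyticAt ℂ riemannZeta s :=
  analyticOn_riemannZeta s hs

lemma zeta_order_ne_top {s : ℂ} (hs : s ≠ 1) : meromorphicOrderAt riemannZeta s ≠ ⊤ := by
  have hm : MeromorphicOn riemannZeta {1}ᶜ := analyticOn_riemannZeta.meromorphicOn
  have hconn : IsPreconnected ({1}ᶜ : Set ℂ) :=
    (isConnected_compl_singleton_of_one_lt_rank (by simp) 1).isPreconnected
  refine hm.meromorphicOrderAt_ne_top_of_isPreconnected (x := 2) (y := s) hconn (by simp) hs ?_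
  have h2 : riemannZeta 2 ≠ 0 := riemannZeta_ne_zero_of_one_le_re (by simp)
  have h3 : AnalyticAt ℂ riemannZeta 2 := analyticAt_zeta (by norm_num)
  rw [meromorphicOrderAt_ne_top_iff_eventually_ne_zero h3.meromorphicAt]
  exact (h3.continuousAt.eventually_ne h2).filter_mono nhdsWithin_le_nhds

/-- coefficients of the Dirichlet series of `ζ(τ s)/ζ(s)` -/
noncomputable def bb (r α : ℝ) (j : ℕ × ℕ) : ℂ :=
  Complex.exp (-(1 / 2 - r / 2 + α * I) * Real.log (j.1 + 1)) *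
    (ArithmeticFunction.moebius (j.2 + 1) : ℂ)

/-- frequencies -/
noncomputable def ll (r : ℝ) (j : ℕ × ℕ) : ℝ := ((j.1 : ℝ) + 1) ^ r * ((j.2 : ℝ) + 1)

lemma ll_ge_one {r : ℝ} (hr : 0 ≤ r) (j : ℕ × ℕ) : 1 ≤ ll r j := by
  have h1 : (0:ℝ) ≤ j.1 := Nat.cast_nonneg _
  have h2 : (0:ℝ) ≤ j.2 := Nat.cast_nonneg _
  have h3 : (1:ℝ) ≤ ((j.1 : ℝ) + 1) ^ r := Real.one_le_rpow (by linarith) hr
  have h4 : (1:ℝ) ≤ (j.2 : ℝ) + 1 := by linarith
  unfold ll
  nlinarith

lemma norm_bb (r α : ℝ) (j : ℕ × ℕ) :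
    ‖bb r α j‖ = ((j.1 : ℝ) + 1) ^ (-(1 / 2) + r / 2 : ℝ) *
      ‖(ArithmeticFunction.moebius (j.2 + 1) : ℂ)‖ := by
  have h1 : (0:ℝ) < (j.1 : ℝ) + 1 := by positivity
  rw [bb, norm_mul, Complex.norm_exp, Real.rpow_def_of_pos h1]
  congr 2
  have : (-(1 / 2 - (r : ℂ) / 2 + α * I) * (Real.log (j.1 + 1) : ℝ)).re =
      -(1 / 2 - r / 2) * Real.log (j.1 + 1) := by
    rw [Complex.re_mul_ofReal]
    simp
  rw [this]
  ring

lemma norm_moebius_le_one (n : ℕ) : ‖(ArithmeticFunction.moebius n : ℂ)‖ ≤ 1 := by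
  have := ArithmeticFunction.abs_moebius_le_one (n := n)
  rw [Complex.norm_intCast]
  exact_mod_cast this

lemma summable_shift {c : ℝ} (hc : 1 < c) : Summable fun n : ℕ => ((n : ℝ) + 1) ^ (-c) := by
  have h1 := (Real.summable_nat_rpow (p := -c)).2 (by linarith)
  have h2 := (summable_nat_add_iff 1).2 h1
  simpa using h2

lemma summable_bb {r : ℝ} (hr : 1 ≤ r) (α : ℝ) :
    Summable fun j => ‖bb r α j‖ * ll r j ^ (-(3 / 2) : ℝ) := by
  have h1 : Summable fun m : ℕ => ((m : ℝ) + 1) ^ (-(1 / 2 + r) : ℝ) := summable_shift (by linarith)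
  have h2 : Summable fun k : ℕ => ((k : ℝ) + 1) ^ (-(3 / 2) : ℝ) := summable_shift (by norm_num)
  have h3 := h1.mul_of_nonneg h2 (fun m => by positivity) (fun k => by positivity)
  refine Summable.of_nonneg_of_le (fun j => ?_) (fun j => ?_) h3
  · have := ll_ge_one (by linarith : 0 ≤ r) j
    positivity
  · have p1 : (0:ℝ) < (j.1 : ℝ) + 1 := by positivity
    have p2 : (0:ℝ) < (j.2 : ℝ) + 1 := by positivity
    rw [norm_bb, ll, Real.mul_rpow (by positivity) (by positivity), ← Real.rpow_mul p1.le]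
    have e1 : ((j.1 : ℝ) + 1) ^ (-(1 / 2) + r / 2 : ℝ) * ‖(ArithmeticFunction.moebius (j.2 + 1) : ℂ)‖ *
        (((j.1 : ℝ) + 1) ^ (r * -(3 / 2)) * ((j.2 : ℝ) + 1) ^ (-(3 / 2) : ℝ)) =
        (((j.1 : ℝ) + 1) ^ (-(1 / 2) + r / 2 : ℝ) * ((j.1 : ℝ) + 1) ^ (r * -(3 / 2))) *
        ((j.2 : ℝ) + 1) ^ (-(3 / 2) : ℝ) * ‖(ArithmeticFunction.moebius (j.2 + 1) : ℂ)‖ := by ring
    rw [e1, ← Real.rpow_add p1]
    have e2 : -(1 / 2) + r / 2 + r * -(3 / 2) = -(1 / 2 + r) := by ring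
    rw [e2]
    exact mul_le_of_le_one_right (by positivity) (norm_moebius_le_one _)

lemma LSeries_moebius_shift (s : ℂ) (hs : 1 < s.re) :
    LSeries (fun n => (ArithmeticFunction.moebius n : ℂ)) s =
      ∑' k : ℕ, (ArithmeticFunction.moebius (k + 1) : ℂ) *
        Complex.exp (-s * Real.log ((k : ℝ) + 1)) := by
  have hsum : LSeriesSummable (fun n => (ArithmeticFunction.moebius n : ℂ)) s :=
    ArithmeticFunction.LSeriesSummable_moebius_iff.2 hs
  rw [LSeries, hsum.tsum_eq_zero_add, LSeries.term_zero, zero_add]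
  refine tsum_congr fun k => ?_
  rw [LSeries.term_of_ne_zero (Nat.succ_ne_zero k), div_eq_mul_inv, ← Complex.cpow_neg,
    Complex.cpow_def_of_ne_zero (by exact_mod_cast Nat.succ_ne_zero k)]
  congr 2
  rw [mul_comm]
  congr 1
  push_cast
  have h1 : ((k : ℂ) + 1) = (((k : ℝ) + 1 : ℝ) : ℂ) := by push_cast; ring
  rw [h1, Complex.ofReal_log (by positivity)]

lemma zeta_shift (s : ℂ) (hs : 1 < s.re) :
    riemannZeta s = ∑' m : ℕ, Complex.exp (-s * Real.log ((m : ℝ) + 1)) := by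
  rw [zeta_eq_tsum_one_div_nat_add_one_cpow hs]
  refine tsum_congr fun m => ?_
  rw [one_div, ← Complex.cpow_neg, Complex.cpow_def_of_ne_zero (by exact_mod_cast Nat.succ_ne_zero m)]
  congr 1
  rw [mul_comm]
  congr 1
  have h1 : ((m : ℂ) + 1) = (((m : ℝ) + 1 : ℝ) : ℂ) := by push_cast; ring
  rw [h1, Complex.ofReal_log (by positivity)]

/-- the Dirichlet series of the quotient on the line `Re s = 3/2` -/
lemma quot_series {r : ℝ} (hr : 1 ≤ r) (α : ℝ) (t : ℝ) :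
    riemannZeta (tau r α (3 / 2 + t * I)) *
      LSeries (fun n => (ArithmeticFunction.moebius n : ℂ)) (3 / 2 + t * I) =
      ∑' j, bb r α j * pw (ll r j) (3 / 2 + t * I) := by
  set s : ℂ := 3 / 2 + t * I with hs
  have hsre : s.re = 3 / 2 := by simp [hs]
  have hτ : (tau r α s).re = 1 / 2 + r := by
    rw [tau_re, hsre]; ring
  rw [zeta_shift _ (by rw [hτ]; linarith), LSeries_moebius_shift _ (by rw [hsre]; norm_num)]
  have n1 : ∀ m : ℕ, ‖Complex.exp (-(tau r α s) * Real.log ((m : ℝ) + 1))‖ =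
      ((m : ℝ) + 1) ^ (-(1 / 2 + r) : ℝ) := by
    intro m
    have p1 : (0:ℝ) < (m : ℝ) + 1 := by positivity
    rw [Complex.norm_exp, Complex.re_mul_ofReal, Complex.neg_re, hτ, Real.rpow_def_of_pos p1]
    congr 1
    ring
  have n2 : ∀ k : ℕ, ‖(ArithmeticFunction.moebius (k + 1) : ℂ) *
      Complex.exp (-s * Real.log ((k : ℝ) + 1))‖ ≤ ((k : ℝ) + 1) ^ (-(3 / 2) : ℝ) := by
    intro k
    have p1 : (0:ℝ) < (k : ℝ) + 1 := by positivity
    rw [norm_mul, Complex.norm_exp, Complex.re_mul_ofReal, Complex.neg_re, hsre,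
      Real.rpow_def_of_pos p1]
    have e : -(3 / 2) * Real.log ((k : ℝ) + 1) = Real.log ((k : ℝ) + 1) * -(3 / 2) := by ring
    rw [e]
    exact mul_le_of_le_one_left (Real.exp_pos _).le (norm_moebius_le_one _)
  have s1 : Summable fun m : ℕ => ‖Complex.exp (-(tau r α s) * Real.log ((m : ℝ) + 1))‖ := by
    simp_rw [n1]; exact summable_shift (by linarith)
  have s2 : Summable fun k : ℕ => ‖(ArithmeticFunction.moebius (k + 1) : ℂ) *
      Complex.exp (-s * Real.log ((k : ℝ) + 1))‖ :=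
    Summable.of_nonneg_of_le (fun _ => norm_nonneg _) n2 (summable_shift (by norm_num))
  rw [tsum_mul_tsum_of_summable_norm s1 s2]
  refine tsum_congr fun j => ?_
  have p1 : (0:ℝ) < (j.1 : ℝ) + 1 := by positivity
  have p2 : (0:ℝ) < (j.2 : ℝ) + 1 := by positivity
  have hl : Complex.log (ll r j : ℂ) = r * Real.log ((j.1 : ℝ) + 1) + Real.log ((j.2 : ℝ) + 1) := by
    rw [← Complex.ofReal_log (by unfold ll; positivity), ll, Real.log_mul (by positivity) p2.ne',
      Real.log_rpow p1]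
    push_cast
    ring
  rw [bb, pw, hl]
  have e1 : Complex.exp (-(tau r α s) * Real.log ((j.1 : ℝ) + 1)) *
      Complex.exp (-s * Real.log ((j.2 : ℝ) + 1)) =
      Complex.exp (-(1 / 2 - r / 2 + α * I) * Real.log ((j.1 : ℝ) + 1)) *
      Complex.exp (-s * (r * Real.log ((j.1 : ℝ) + 1) + Real.log ((j.2 : ℝ) + 1))) := by
    rw [← Complex.exp_add, ← Complex.exp_add]
    congr 1
    rw [tau]
    ring
  linear_combination (ArithmeticFunction.moebius (j.2 + 1) : ℂ) * e1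

end Pool.Agent.helper70
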