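import Mathlib
import Pool.Agent.helper70.ZQ

open Complex Metric Set MeasureTheory Real Filter Topology

namespace Pool.Agent.helper70

lemma zeta_ne_zero_of_one_lt {s : ℂ} (hs : 1 < s.re) : riemannZeta s ≠ 0 :=
  riemannZeta_ne_zero_of_one_le_re hs.le

/-- Construction of the continuation of the quotient `ζ(τ s)/ζ(s)`. -/
theorem exists_cont {r α : ℝ} (hr : 1 ≤ r) {T0 : ℝ} (hT0 : |α| + 4 ≤ T0)
    (hord : ∀ s : ℂ, T0 < s.im →
      meromorphicOrderAt riemannZeta s ≤ meromorphicOrderAt riemannZeta (tau r α s))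
    {N : ℕ} (hN : 1 ≤ N) :
    ∃ (h : ℂ → ℂ) (T : ℝ), T0 + 1 ≤ T ∧ Cont (bb r α) (ll r) h T N ∧
      ∀ s : ℂ, T - 1 < s.im → riemannZeta (tau r α s) = h s * riemannZeta s := by
  have hr0 : 0 < r := by linarith
  set U : Set ℂ := {s | T0 < s.im} with hU
  have hα := abs_nonneg α
  have hUim : ∀ s ∈ U, 4 ≤ s.im := fun s hs => by
    have : T0 < s.im := hs
    linarith
  have hτim : ∀ s ∈ U, 4 ≤ (tau r α s).im := by
    intro s hs
    have h1 : T0 < s.im := hs
    rw [tau_im]
    have h2 := neg_abs_le α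
    nlinarith
  have hne1 : ∀ s : ℂ, 4 ≤ s.im → s ≠ 1 := by
    intro s hs h; rw [h] at hs; norm_num at hs
  have hg : AnalyticOnNhd ℂ riemannZeta U := fun s hs => analyticAt_zeta (hne1 s (hUim s hs))
  have htau : ∀ s : ℂ, AnalyticAt ℂ (tau r α) s := by
    intro s; unfold tau; fun_prop
  have hf : AnalyticOnNhd ℂ (fun s => riemannZeta (tau r α s)) U := by
    intro s hs
    exact (analyticAt_zeta (hne1 _ (hτim s hs))).comp (htau s)
  have hderiv : ∀ s : ℂ, deriv (tau r α) s ≠ 0 := by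
    intro s
    have : deriv (tau r α) s = r := by
      have h1 : HasDerivAt (tau r α) r s := by
        unfold tau
        have h2 := (((hasDerivAt_id s).sub_const (1 / 2 : ℂ)).const_mul (r : ℂ)).const_add (1 / 2 : ℂ)
        have h3 := h2.add_const (α * I)
        simpa using h3
      exact h1.deriv
    rw [this]
    exact_mod_cast hr0.ne'
  obtain ⟨h, hh, hfgh⟩ := quot_exists (U := U) hf hg
    (fun z hz => zeta_order_ne_top (hne1 z (hUim z hz))) (by
      intro z hz
      have h1 := meromorphicOrderAt_comp_of_deriv_ne_zero (f := riemannZeta) (htau z) (hderiv z)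
      have h2 : (fun s => riemannZeta (tau r α s)) = riemannZeta ∘ tau r α := rfl
      rw [h2, h1]
      exact hord z hz)
  -- growth
  set R : ℝ := N + 4 with hR
  have hN1 : (1:ℝ) ≤ N := by exact_mod_cast hN
  have hR0 : 0 < R := by positivity
  set T : ℝ := T0 + R + 1 with hT
  set A0 : ℝ := r * (R + 3) + 1 with hA0
  obtain ⟨C, hC0, hC⟩ := zeta_growth A0
  set E : ℝ := 2 * (r * (2 * R + 1) + |α| + 1) with hE
  refine ⟨h, T, by linarith, ⟨ll_ge_one hr0.le, summable_bb hr α, by linarith, hN, ?_, ?_, ?_⟩, ?_⟩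
  · exact fun s hs => (hh s (by
      have : T - 1 < s.im := hs
      show T0 < s.im
      linarith)).differentiableAt.differentiableWithinAt
  · intro t ht
    have hs : T0 < ((3 : ℂ) / 2 + t * I).im := by simp; linarith
    rw [← quot_series hr α t, hfgh _ hs, mul_assoc,
      zeta_mul_moebius (by simp; norm_num), mul_one]
  · -- growth bound
    have hZ := ZZ_pos
    refine ⟨Real.exp ((R / (1 / 2)) ^ 2 * (2 * Real.log (max C 1) + 4 * (r * (2 * R) + |α|) +
      |Real.log (1 / ZZ)|)), (R / (1 / 2)) ^ 2 * (4 * r), fun s hs1 hs2 hs3 => ?_⟩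
    rw [← Real.exp_add]
    set y := s.im with hy
    set w0 : ℂ := 2 + y * I with hw0
    have hw0re : w0.re = 2 := by simp [hw0]
    have hw0im : w0.im = y := by simp [hw0]
    have hballim : ∀ z ∈ closedBall w0 R, |z.im - y| ≤ R := by
      intro z hz
      rw [mem_closedBall, dist_eq_norm] at hz
      have h1 := Complex.abs_im_le_norm (z - w0)
      rw [Complex.sub_im, hw0im] at h1
      linarith
    have hballre : ∀ z ∈ closedBall w0 R, |z.re - 2| ≤ R := by
      intro z hz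
      rw [mem_closedBall, dist_eq_norm] at hz
      have h1 := Complex.abs_re_le_norm (z - w0)
      rw [Complex.sub_re, hw0re] at h1
      linarith
    have hballU : closedBall w0 R ⊆ U := by
      intro z hz
      have h1 := abs_le.1 (hballim z hz)
      show T0 < z.im
      linarith [h1.1]
    set M : ℝ := max C 1 * Real.exp (2 * (r * (y + 2 * R) + |α|)) with hM
    have hMbase : 0 ≤ r * (y + 2 * R) + |α| := by
      have : 0 ≤ y := by linarith
      positivity
    have hM1 : 1 ≤ M := by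
      have h1 : 1 ≤ Real.exp (2 * (r * (y + 2 * R) + |α|)) := Real.one_le_exp (by positivity)
      have h2 : 1 ≤ max C 1 := le_max_right _ _
      nlinarith
    have hbd : ∀ w : ℂ, |w.re| ≤ A0 → 2 ≤ |w.im| → |w.im| ≤ r * (y + 2 * R) + |α| →
        ‖riemannZeta w‖ ≤ M := by
      intro w h1 h2 h3
      refine (hC w h1 h2).trans ?_
      rw [hM]
      gcongr
      exact le_max_left _ _
    have hgM : ∀ z ∈ closedBall w0 R, ‖riemannZeta z‖ ≤ M := by
      intro z hz
      have h1 := abs_le.1 (hballim z hz)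
      have h2 := abs_le.1 (hballre z hz)
      have h3 := hUim z (hballU hz)
      refine hbd z ?_ ?_ ?_
      · rw [abs_le, hA0]; constructor <;> nlinarith
      · rw [abs_of_nonneg (by linarith)]; linarith
      · rw [abs_of_nonneg (by linarith)]; nlinarith
    have hfM : ∀ z ∈ closedBall w0 R, ‖riemannZeta (tau r α z)‖ ≤ M := by
      intro z hz
      have h1 := abs_le.1 (hballim z hz)
      have h2 := abs_le.1 (hballre z hz)
      have h3 := hτim z (hballU hz)
      refine hbd _ ?_ ?_ ?_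
      · rw [tau_re, abs_le, hA0]; constructor <;> nlinarith
      · rw [abs_of_nonneg (by linarith)]; linarith
      · rw [abs_of_nonneg (by linarith), tau_im]
        have := le_abs_self α
        nlinarith
    have hsub : closedBall s (1 / 2) ⊆ closedBall w0 R := by
      refine closedBall_subset_closedBall' ?_
      have h1 : dist s w0 ≤ N + 3 / 2 := by
        rw [dist_eq_norm]
        have h2 : s - w0 = ((s.re - 2 : ℝ) : ℂ) := by
          apply Complex.ext
          · simp [hw0re]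
          · simp [hw0im, ← hy]
        rw [h2, Complex.norm_real, Real.norm_eq_abs, abs_le]
        constructor <;> linarith
      linarith
    have hqb := quotient_bound (f := fun z => riemannZeta (tau r α z)) (g := riemannZeta) (h := h)
      (c := w0) (z0 := s) (R := R) (ρ := 1 / 2) (M := M) (m := 1 / ZZ) (by norm_num) hsub
      (hf.mono hballU) (hg.mono hballU) (hh.mono hballU) (fun z hz => hfgh z (hballU hz)) hM1 hfM hgM
      (by positivity) (norm_zeta_ge (by rw [hw0re]; norm_num))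
    refine hqb.trans (Real.exp_le_exp.2 ?_)
    have hlogM : Real.log M = Real.log (max C 1) + 2 * (r * (y + 2 * R) + |α|) := by
      rw [hM, Real.log_mul (by positivity) (Real.exp_pos _).ne', Real.log_exp]
    rw [hlogM]
    have h9 : (0:ℝ) ≤ (R / (1 / 2)) ^ 2 := by positivity
    have h10 := neg_abs_le (Real.log (1 / ZZ))
    calc _ ≤ (R / (1 / 2)) ^ 2 * (2 * Real.log (max C 1) + 4 * (r * (2 * R) + |α|) +
        |Real.log (1 / ZZ)| + 4 * r * y) := by
          refine mul_le_mul_of_nonneg_left ?_ h9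
          linarith
      _ = _ := by ring
  · intro s hs
    exact hfgh s (by
      show T0 < s.im
      linarith)

/-- size of the quotient on the left line -/
theorem left_bound {p q : ℕ} (hq : 0 < q) (hqp : q ≤ p) (α : ℝ) {h : ℂ → ℂ} {T : ℝ} (hT : 2 ≤ T)
    (hTα : |α| + 4 ≤ T) (k : ℕ) (hk : 1 ≤ k)
    (hfgh : ∀ s : ℂ, T - 1 < s.im → riemannZeta (tau ((p : ℝ) / q) α s) = h s * riemannZeta s) :
    ∃ C : ℝ, 0 ≤ C ∧ ∀ t : ℝ, T ≤ t →
      ‖h (1 / 2 - ((k * q : ℕ) : ℂ) + t * I)‖ * t ^ (k * q) ≤ C * t ^ (k * p) := by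
  set r : ℝ := (p : ℝ) / q with hr
  have hq0 : (0:ℝ) < q := by exact_mod_cast hq
  have hr1 : 1 ≤ r := by rw [hr, one_le_div hq0]; exact_mod_cast hqp
  have hZ := ZZ_pos
  have hZ1 : 0 < ZZ := ZZ_pos
  set C : ℝ := ZZ * ZZ * (2 * π) ^ ((k * q : ℕ) : ℝ) * (r + 1 + (k * p : ℕ)) ^ (k * p) with hC
  refine ⟨C, by positivity, fun t ht => ?_⟩
  have ht0 : 0 < t := by linarith
  have ht1 : 1 ≤ t := by linarith
  set s : ℂ := 1 / 2 - ((k * q : ℕ) : ℂ) + t * I with hs
  have hsim : s.im = t := by simp [hs]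
  have h0 := hfgh s (by rw [hsim]; linarith)
  have hkq : (r * ((k * q : ℕ) : ℝ)) = ((k * p : ℕ) : ℝ) := by
    rw [hr]; push_cast; field_simp
  have hτ : tau r α s = 1 / 2 - ((k * p : ℕ) : ℂ) + ((r * t + α : ℝ) : ℂ) * I := by
    rw [tau, hs]
    have : (r : ℂ) * ((k * q : ℕ) : ℂ) = ((k * p : ℕ) : ℂ) := by exact_mod_cast hkq
    linear_combination (-1) * this + (by push_cast; ring :
      (1 / 2 + (r : ℂ) * (1 / 2 - ((k * q : ℕ) : ℂ) + t * I - 1 / 2) + α * I) + (r : ℂ) * ((k * q : ℕ) : ℂ)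
      = 1 / 2 + ((r * t + α : ℝ) : ℂ) * I)
  have ht' : 0 < r * t + α := by
    have := neg_abs_le α
    nlinarith
  have h1 := norm_zeta_line (k * q) ht0.ne'
  have h2 := norm_zeta_line (k * p) ht'.ne'
  rw [← hs] at h1
  rw [← hτ] at h2
  have hkp1 : (1:ℝ) ≤ ((k * p : ℕ) : ℝ) := by
    have : 1 ≤ k * p := Nat.mul_pos hk (lt_of_lt_of_le hq hqp)
    exact_mod_cast this
  have hkq1 : (1:ℝ) ≤ ((k * q : ℕ) : ℝ) := by
    have : 1 ≤ k * q := Nat.mul_pos hk hq
    exact_mod_cast this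
  -- lower bound of the denominator
  have hden : (2 * π) ^ (-((k * q : ℕ) : ℝ)) * t ^ (k * q) * (1 / ZZ) ≤ ‖riemannZeta s‖ := by
    rw [h1]
    have g1 := PP_lower (k * q) t
    rw [abs_of_pos ht0] at g1
    have g2 : 1 / ZZ ≤ ‖riemannZeta (((k * q : ℕ) : ℂ) + 1 / 2 - t * I)‖ := by
      refine norm_zeta_ge ?_
      push_cast at hkq1
      simp
      linarith
    have g3 := PP_nonneg (k * q) t
    gcongr
  -- upper bound of the numerator
  have hnum : ‖riemannZeta (tau r α s)‖ ≤ (r + 1 + (k * p : ℕ)) ^ (k * p) * t ^ (k * p) * ZZ := by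
    rw [h2]
    have g1 := PP_upper (k * p) (r * t + α)
    rw [abs_of_pos ht'] at g1
    have g2 : ‖riemannZeta (((k * p : ℕ) : ℂ) + 1 / 2 - ((r * t + α : ℝ) : ℂ) * I)‖ ≤ ZZ := by
      refine norm_zeta_le ?_
      push_cast at hkp1
      simp
      linarith
    have g3 : (2 * π) ^ (-((k * p : ℕ) : ℝ)) ≤ 1 := by
      refine Real.rpow_le_one_of_one_le_of_nonpos ?_ (by linarith)
      linarith [Real.pi_gt_three]
    have g4 : r * t + α + ((k * p : ℕ) : ℝ) ≤ (r + 1 + (k * p : ℕ)) * t := by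
      have := le_abs_self α
      nlinarith
    have g5 := PP_nonneg (k * p) (r * t + α)
    calc _ ≤ 1 * ((r + 1 + (k * p : ℕ)) * t) ^ (k * p) * ZZ := by
          refine mul_le_mul (mul_le_mul g3 (g1.trans ?_) g5 zero_le_one) g2 (norm_nonneg _)
            (by positivity)
          gcongr
      _ = _ := by rw [one_mul, mul_pow]
  rw [h0, norm_mul] at hnum
  have h5 : ‖h s‖ * ((2 * π) ^ (-((k * q : ℕ) : ℝ)) * t ^ (k * q) * (1 / ZZ)) ≤
      (r + 1 + (k * p : ℕ)) ^ (k * p) * t ^ (k * p) * ZZ :=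
    (mul_le_mul_of_nonneg_left hden (norm_nonneg _)).trans hnum
  have h6 : (0:ℝ) < (2 * π) ^ ((k * q : ℕ) : ℝ) := by positivity
  have h7 : (2 * π) ^ (-((k * q : ℕ) : ℝ)) = ((2 * π) ^ ((k * q : ℕ) : ℝ))⁻¹ :=
    Real.rpow_neg (by positivity) _
  rw [h7] at h5
  have h8 : ‖h s‖ * t ^ (k * q) = (‖h s‖ * (((2 * π) ^ ((k * q : ℕ) : ℝ))⁻¹ * t ^ (k * q) *
      (1 / ZZ))) * ((2 * π) ^ ((k * q : ℕ) : ℝ) * ZZ) := by
    field_simp
  rw [h8]
  calc _ ≤ ((r + 1 + (k * p : ℕ)) ^ (k * p) * t ^ (k * p) * ZZ) *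
        ((2 * π) ^ ((k * q : ℕ) : ℝ) * ZZ) := by gcongr
    _ = _ := by rw [hC]; ring

end Pool.Agent.helper70
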