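import Mathlib
import Pool.Agent.helper70.ZC
import Pool.Agent.helper70.T2
import Pool.Agent.helper70.Gap

open Complex Metric Set MeasureTheory Real Filter Topology

namespace Pool.Agent.helper70

/-- consequence of T1 and T2 for the zeta quotient in degree `< 1` -/
theorem no_iso {p q : ℕ} (hq : 0 < q) (hqp : q ≤ p) (hp2 : p < 2 * q) {α T0 : ℝ}
    (hT0 : |α| + 4 ≤ T0)
    (hord : ∀ s : ℂ, T0 < s.im → meromorphicOrderAt riemannZeta s ≤
      meromorphicOrderAt riemannZeta (tau ((p : ℝ) / q) α s))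
    {g c : ℝ} (hg : 0 < g) (hg1 : g ≤ 1) (hc : 0 < c) :
    ∃ K : ℝ, ∀ n : ℝ, K ≤ n → (∀ j, ll ((p : ℝ) / q) j = n ∨ g ≤ |n - ll ((p : ℝ) / q) j|) →
      ‖∑' j, (if ll ((p : ℝ) / q) j = n then bb ((p : ℝ) / q) α j else 0)‖ < c := by
  have hq0 : (0:ℝ) < q := by exact_mod_cast hq
  have hr : 1 ≤ (p : ℝ) / q := by rw [one_le_div hq0]; exact_mod_cast hqp
  obtain ⟨h, T, hT, hcont, hfgh⟩ := exists_cont hr hT0 hord (N := 3 * q) (by omega)
  have hα := abs_nonneg α
  obtain ⟨C, hC0, hC⟩ := left_bound hq hqp α (by linarith) (by linarith) 3 (by norm_num) hfgh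
  have hsmall : LeftSmall h T (3 * q) := by
    refine ⟨C, hC0, fun t ht => ?_⟩
    have ht1 : 1 ≤ t := by linarith
    have ht0 : 0 < t := by linarith
    have h1 := hC t ht
    have h2 : t ^ (3 * p) * t ^ 3 ≤ t ^ (3 * q) * t ^ (3 * q) := by
      rw [← pow_add, ← pow_add]
      exact pow_le_pow_right₀ ht1 (by omega)
    have h3 : 0 < t ^ (3 * q) := by positivity
    refine le_of_mul_le_mul_right ?_ h3
    calc ‖h (1 / 2 - ((3 * q : ℕ) : ℂ) + t * I)‖ * t ^ 3 * t ^ (3 * q)
        = (‖h (1 / 2 - ((3 * q : ℕ) : ℂ) + t * I)‖ * t ^ (3 * q)) * t ^ 3 := by ring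
      _ ≤ (C * t ^ (3 * p)) * t ^ 3 := by gcongr
      _ = C * (t ^ (3 * p) * t ^ 3) := by ring
      _ ≤ C * (t ^ (3 * q) * t ^ (3 * q)) := by gcongr
      _ = _ := by ring
  obtain ⟨C', hC'0, hC'⟩ := T1 hcont hsmall
  exact T2 hcont.hlam hcont.hsum (by omega) hC'0 hC' hg hg1 hc

theorem contra_gt_one {p q : ℕ} (hq : 0 < q) (hqp : q < p) (hp2 : p < 2 * q) {α T0 : ℝ}
    (hT0 : |α| + 4 ≤ T0)
    (hord : ∀ s : ℂ, T0 < s.im → meromorphicOrderAt riemannZeta s ≤
      meromorphicOrderAt riemannZeta (tau ((p : ℝ) / q) α s)) : False := by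
  obtain ⟨g, hg0, hg1, hg⟩ := gap hq hqp
  obtain ⟨K, hK⟩ := no_iso hq hqp.le hp2 hT0 hord hg0 (by linarith) one_pos
  obtain ⟨K', hK'⟩ := exists_nat_ge (max K 2)
  obtain ⟨n, hn, hsq, hiso⟩ := hg K'
  have hnK : K ≤ n := by
    have : (K' : ℝ) ≤ n := by exact_mod_cast hn
    exact (le_max_left _ _).trans (hK'.trans this)
  have hn2 : 1 ≤ n := by
    have : (2:ℝ) ≤ n := by
      have : (K' : ℝ) ≤ n := by exact_mod_cast hn
      exact (le_max_right _ _).trans (hK'.trans this)
    have : 2 ≤ n := by exact_mod_cast this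
    omega
  have hfar : ∀ j : ℕ × ℕ, 1 ≤ j.1 → g ≤ |(n : ℝ) - ll ((p : ℝ) / q) j| := by
    intro j hj
    have := hiso (j.1 + 1) (j.2 + 1) (by omega) (by omega)
    push_cast at this
    exact this
  have h0 : ∀ k : ℕ, ll ((p : ℝ) / q) (0, k) = k + 1 := by
    intro k
    simp [ll]
  have hh := hK n hnK (by
    rintro ⟨m, k⟩
    rcases Nat.eq_zero_or_pos m with hm | hm
    · subst hm
      by_cases hkn : k + 1 = n
      · left; rw [h0, ← hkn]; push_cast; rfl
      · right
        rw [h0]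
        have h1 : ((n : ℤ) - (k + 1 : ℕ) : ℤ) ≠ 0 := by omega
        have h2 : (1:ℝ) ≤ |(n : ℝ) - (k + 1)| := by
          have := Int.one_le_abs h1
          have h3 : (1:ℝ) ≤ ((|((n : ℤ) - (k + 1 : ℕ) : ℤ)| : ℤ) : ℝ) := by exact_mod_cast this
          push_cast at h3
          exact h3
        linarith
    · exact Or.inr (hfar _ hm))
  have hts : ∑' j, (if ll ((p : ℝ) / q) j = n then bb ((p : ℝ) / q) α j else 0) =
      bb ((p : ℝ) / q) α (0, n - 1) := by
    rw [tsum_eq_single (0, n - 1)]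
    · rw [if_pos]
      rw [h0]
      have : ((n - 1 : ℕ) : ℝ) = n - 1 := by rw [Nat.cast_sub hn2]; simp
      rw [this]; ring
    · rintro ⟨m, k⟩ hmk
      rw [if_neg]
      intro heq
      rcases Nat.eq_zero_or_pos m with hm | hm
      · subst hm
        rw [h0] at heq
        apply hmk
        have : k + 1 = n := by exact_mod_cast heq
        ext
        · rfl
        · simp only; omega
      · have := hfar (m, k) hm
        rw [heq, sub_self, abs_zero] at this
        linarith
  rw [hts] at hh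
  have hb : ‖bb ((p : ℝ) / q) α (0, n - 1)‖ = 1 := by
    rw [norm_bb]
    have h5 : n - 1 + 1 = n := by omega
    simp only [h5]
    have h6 : (ArithmeticFunction.moebius n) = 1 ∨ (ArithmeticFunction.moebius n) = -1 :=
      ArithmeticFunction.moebius_ne_zero_iff_eq_or.1
        (ArithmeticFunction.moebius_ne_zero_iff_squarefree.2 hsq)
    rcases h6 with h6 | h6 <;> rw [h6] <;> simp
  rw [hb] at hh
  exact lt_irrefl _ hh

/-- coefficients for `r = 1` at a prime power frequency -/
lemma coeff_prime_pow {P : ℕ} (hP : P.Prime) (α : ℝ) (i : ℕ) :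
    ∑' j, (if ll 1 j = ((P ^ (i + 1) : ℕ) : ℝ) then bb 1 α j else 0) =
      Complex.exp (-(α * I) * (i * Real.log P)) * (Complex.exp (-(α * I) * Real.log P) - 1) := by
  have hP1 := hP.one_lt
  have hll : ∀ j : ℕ × ℕ, ll 1 j = (((j.1 + 1) * (j.2 + 1) : ℕ) : ℝ) := by
    intro j; simp [ll]
  have hpi : ∀ a : ℕ, 1 ≤ P ^ a := fun a => Nat.one_le_pow _ _ (by omega)
  set j1 : ℕ × ℕ := (P ^ (i + 1) - 1, 0) with hj1
  set j2 : ℕ × ℕ := (P ^ i - 1, P - 1) with hj2
  have hne : j1 ≠ j2 := by
    intro h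
    have := congrArg Prod.snd h
    simp only [hj1, hj2] at this
    omega
  rw [tsum_eq_sum (s := {j1, j2})]
  · rw [Finset.sum_pair hne]
    have e1 : ll 1 j1 = ((P ^ (i + 1) : ℕ) : ℝ) := by
      rw [hll, hj1]
      congr 1
      simp only
      have := hpi (i + 1)
      rw [Nat.sub_add_cancel this]
      simp
    have e2 : ll 1 j2 = ((P ^ (i + 1) : ℕ) : ℝ) := by
      rw [hll, hj2]
      congr 1
      simp only
      rw [Nat.sub_add_cancel (hpi i), Nat.sub_add_cancel hP1.le, pow_succ]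
    rw [if_pos e1, if_pos e2, bb, bb, hj1, hj2]
    simp only
    have c1 : ((P ^ (i + 1) - 1 : ℕ) : ℝ) + 1 = (P : ℝ) ^ (i + 1) := by
      rw [Nat.cast_sub (hpi (i + 1))]; push_cast; ring
    have c2 : ((P ^ i - 1 : ℕ) : ℝ) + 1 = (P : ℝ) ^ i := by
      rw [Nat.cast_sub (hpi i)]; push_cast; ring
    have c3 : P - 1 + 1 = P := by omega
    rw [c1, c2, c3, ArithmeticFunction.moebius_apply_prime hP, Real.log_pow, Real.log_pow]
    have c4 : (ArithmeticFunction.moebius (0 + 1) : ℤ) = 1 := by simp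
    rw [c4]
    have e3 : Complex.exp (-(1 / 2 - ((1:ℝ) : ℂ) / 2 + α * I) * (((i + 1 : ℕ) * Real.log P : ℝ) : ℂ)) =
        Complex.exp (-(α * I) * (i * Real.log P)) * Complex.exp (-(α * I) * Real.log P) := by
      rw [← Complex.exp_add]
      congr 1
      push_cast
      ring
    have e4 : Complex.exp (-(1 / 2 - ((1:ℝ) : ℂ) / 2 + α * I) * (((i : ℕ) * Real.log P : ℝ) : ℂ)) =
        Complex.exp (-(α * I) * (i * Real.log P)) := by
      congr 1
      push_cast
      ring
    rw [e3, e4]
    push_cast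
    ring
  · rintro ⟨m, k⟩ hmk
    split_ifs with heq
    · rw [hll] at heq
      have heq' : (m + 1) * (k + 1) = P ^ (i + 1) := by exact_mod_cast heq
      obtain ⟨a, b, hab, ha, hb⟩ : ∃ a b : ℕ, a + b = i + 1 ∧ m + 1 = P ^ a ∧ k + 1 = P ^ b := by
        obtain ⟨a, ha1, ha2⟩ := (Nat.dvd_prime_pow hP).1 ⟨k + 1, heq'.symm⟩
        refine ⟨a, i + 1 - a, by omega, ha2, ?_⟩
        have h8 : P ^ a * (k + 1) = P ^ a * P ^ (i + 1 - a) := by
          rw [← pow_add, ← ha2, heq']
          congr 1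
          omega
        exact Nat.eq_of_mul_eq_mul_left (by positivity) h8
      rcases Nat.lt_or_ge b 2 with h2 | h2
      · exfalso
        apply hmk
        rw [Finset.mem_insert, Finset.mem_singleton]
        have : b = 0 ∨ b = 1 := by omega
        rcases this with h3 | h3
        · left
          subst h3
          rw [add_zero] at hab
          subst hab
          simp only [hj1, Prod.mk.injEq]
          simp at hb
          constructor <;> omega
        · right
          subst h3
          have : a = i := by omega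
          subst this
          simp only [hj2, Prod.mk.injEq]
          simp at hb
          constructor <;> omega
      · rw [bb]
        simp only
        rw [hb, ArithmeticFunction.moebius_apply_prime_pow hP (by omega), if_neg (by omega)]
        simp
    · rfl

theorem contra_one {α T0 : ℝ} (hα : α ≠ 0) (hT0 : |α| + 4 ≤ T0)
    (hord : ∀ s : ℂ, T0 < s.im → meromorphicOrderAt riemannZeta s ≤
      meromorphicOrderAt riemannZeta (tau 1 α s)) : False := by
  have h11 : ((1 : ℕ) : ℝ) / ((1 : ℕ) : ℝ) = 1 := by norm_num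
  -- both differences vanish
  have key : ∀ P : ℕ, P.Prime → Complex.exp (-(α * I) * Real.log P) = 1 := by
    intro P hP
    by_contra hne
    set c : ℝ := ‖Complex.exp (-(α * I) * Real.log P) - 1‖ with hc
    have hc0 : 0 < c := norm_pos_iff.2 (sub_ne_zero.2 hne)
    obtain ⟨K, hK⟩ := no_iso (p := 1) (q := 1) one_pos le_rfl (by norm_num) hT0
      (by rw [h11]; exact hord) one_pos le_rfl hc0
    rw [h11] at hK
    obtain ⟨i, hi⟩ := exists_nat_ge K
    have hP1 := hP.one_lt
    have h1 : K ≤ ((P ^ (i + 1) : ℕ) : ℝ) := by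
      refine hi.trans ?_
      have : i ≤ P ^ (i + 1) := by
        have h2 : i + 1 < P ^ (i + 1) := Nat.lt_pow_self hP1
        omega
      exact_mod_cast this
    have h2 := hK _ h1 (by
      rintro ⟨m, k⟩
      have hll : ll 1 (m, k) = (((m + 1) * (k + 1) : ℕ) : ℝ) := by simp [ll]
      rw [hll]
      by_cases h3 : (m + 1) * (k + 1) = P ^ (i + 1)
      · left; rw [h3]
      · right
        have h4 : (((P ^ (i + 1) : ℕ) : ℤ) - ((m + 1) * (k + 1) : ℕ) : ℤ) ≠ 0 := by
          intro h5
          apply h3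
          have : ((P ^ (i + 1) : ℕ) : ℤ) = (((m + 1) * (k + 1) : ℕ) : ℤ) := by linarith
          exact_mod_cast this.symm
        have h5 := Int.one_le_abs h4
        have h6 : (1:ℝ) ≤ ((|(((P ^ (i + 1) : ℕ) : ℤ) - ((m + 1) * (k + 1) : ℕ) : ℤ)| : ℤ) : ℝ) := by
          exact_mod_cast h5
        rw [Int.cast_abs, Int.cast_sub, Int.cast_natCast, Int.cast_natCast] at h6
        exact h6)
    rw [coeff_prime_pow hP, norm_mul, Complex.norm_exp] at h2
    have h3 : (-(α * I) * (i * Real.log P)).re = 0 := by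
      have : (-(α * I) * (i * Real.log P)) = ((-(α * (i * Real.log P)) : ℝ) : ℂ) * I := by
        push_cast; ring
      rw [this, Complex.re_ofReal_mul, Complex.I_re, mul_zero]
    rw [h3, Real.exp_zero, one_mul] at h2
    exact lt_irrefl _ h2
  -- now use P = 2 and P = 3
  have k2 := key 2 Nat.prime_two
  have k3 := key 3 Nat.prime_three
  rw [Complex.exp_eq_one_iff] at k2 k3
  obtain ⟨a, ha⟩ := k2
  obtain ⟨b, hb⟩ := k3
  have ha' : -(α * Real.log 2) = a * (2 * π) := by
    have := congrArg Complex.im ha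
    have e1 : (-(α * I) * (Real.log (2 : ℕ) : ℝ)) = ((-(α * Real.log 2) : ℝ) : ℂ) * I := by
      push_cast; ring
    have e2 : (a : ℂ) * (2 * π * I) = ((a * (2 * π) : ℝ) : ℂ) * I := by push_cast; ring
    rw [e1, e2, Complex.im_ofReal_mul, Complex.im_ofReal_mul, Complex.I_im, mul_one,
      mul_one] at this
    exact this
  have hb' : -(α * Real.log 3) = b * (2 * π) := by
    have := congrArg Complex.im hb
    have e1 : (-(α * I) * (Real.log (3 : ℕ) : ℝ)) = ((-(α * Real.log 3) : ℝ) : ℂ) * I := by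
      push_cast; ring
    have e2 : (b : ℂ) * (2 * π * I) = ((b * (2 * π) : ℝ) : ℂ) * I := by push_cast; ring
    rw [e1, e2, Complex.im_ofReal_mul, Complex.im_ofReal_mul, Complex.I_im, mul_one,
      mul_one] at this
    exact this
  have hl2 : 0 < Real.log 2 := Real.log_pos (by norm_num)
  have hl3 : 0 < Real.log 3 := Real.log_pos (by norm_num)
  have hpi := Real.pi_pos
  have hb0 : b ≠ 0 := by
    rintro rfl
    rw [Int.cast_zero, zero_mul, neg_eq_zero, mul_eq_zero] at hb'
    rcases hb' with h | h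
    · exact hα h
    · exact hl3.ne' h
  have hrel : (a : ℝ) * Real.log 3 = b * Real.log 2 := by
    have h1 : (2 * π) * α * (a * Real.log 3 - b * Real.log 2) = 0 := by
      have : -(α * Real.log 2) * (α * Real.log 3) = -(α * Real.log 3) * (α * Real.log 2) := by ring
      rw [ha', hb'] at this
      linear_combination this
    rcases mul_eq_zero.1 h1 with h2 | h2
    · rcases mul_eq_zero.1 h2 with h3 | h3
      · linarith
      · exact absurd h3 hα
    · linarith
  have hrel2 : (a.natAbs : ℝ) * Real.log 3 = b.natAbs * Real.log 2 := by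
    have := congrArg abs hrel
    rw [abs_mul, abs_mul, abs_of_pos hl2, abs_of_pos hl3] at this
    rw [Nat.cast_natAbs, Nat.cast_natAbs]
    push_cast
    exact this
  have hpow : (3 : ℝ) ^ a.natAbs = 2 ^ b.natAbs := by
    rw [← Real.log_pow, ← Real.log_pow] at hrel2
    exact Real.log_injOn_pos (by simp) (by simp) hrel2
  have hpow' : 3 ^ a.natAbs = 2 ^ b.natAbs := by exact_mod_cast hpow
  have h2d : 2 ∣ 3 ^ a.natAbs := by
    rw [hpow']
    exact dvd_pow_self 2 (by omega)
  have := Nat.prime_two.dvd_of_dvd_pow h2d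
  omega

end Pool.Agent.helper70
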