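import Mathlib
import Pool.Agent.helper70.ZQ

open Complex Metric Set MeasureTheory Real Filter Topology

namespace Pool.Agent.helper70

/-- one factor of the Gamma quotient -/
noncomputable def gf (c u : ℂ) : ℂ :=
  u / (u + c) * Complex.exp (c * (Complex.log (u + 1) - Complex.log u))

lemma gf_bound (c : ℂ) {u : ℂ} (hu : 0 < u.re) (hu2 : 4 * (‖c‖ + 1) ≤ ‖u‖) :
    ‖gf c u - 1‖ ≤ (2 * (4 * ‖c‖ ^ 2 + 2 * ‖c‖)) * (1 / ‖u‖ ^ 2) := by
  have hc0 := norm_nonneg c
  have hun : 0 < ‖u‖ := by linarith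
  have hu0 : u ≠ 0 := norm_pos_iff.1 hun
  set v : ℂ := u⁻¹ with hv
  have hvn : ‖v‖ = 1 / ‖u‖ := by rw [hv, norm_inv, one_div]
  have hv1 : ‖v‖ ≤ 1 / 4 := by
    rw [hvn]; exact one_div_le_one_div_of_le (by norm_num) (by linarith)
  have hv0 := norm_nonneg v
  have hcv : ‖c‖ * ‖v‖ ≤ 1 / 4 := by
    rw [hvn, mul_one_div, div_le_iff₀ hun]; linarith
  have h1v : 0 < (1 + v).re := by
    have := Complex.abs_re_le_norm v
    have h2 := (abs_le.1 this).1
    simp only [Complex.add_re, Complex.one_re]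
    linarith
  have h1v0 : 1 + v ≠ 0 := by intro h; rw [h] at h1v; simp at h1v
  have hlog : Complex.log (u + 1) - Complex.log u = Complex.log (1 + v) := by
    have e1 : u + 1 = u * (1 + v) := by rw [hv]; field_simp
    have a1 := abs_lt.1 (abs_arg_lt hu)
    have a2 := abs_lt.1 (abs_arg_lt h1v)
    rw [e1, Complex.log_mul_eq_add_log_iff hu0 h1v0 |>.2 ⟨by linarith [a1.1, a2.1], by
      linarith [a1.2, a2.2]⟩]
    ring
  set w : ℂ := c * Complex.log (1 + v) with hw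
  have hwn : ‖w‖ ≤ (3 / 2) * (‖c‖ * ‖v‖) := by
    rw [hw, norm_mul]
    have := Complex.norm_log_one_add_half_le_self (z := v) (by linarith)
    calc ‖c‖ * ‖Complex.log (1 + v)‖ ≤ ‖c‖ * ((3 / 2) * ‖v‖) := by gcongr
      _ = _ := by ring
  have h3 := Complex.norm_exp_sub_one_sub_id_le (x := w) (by linarith)
  have h4 := Complex.norm_log_one_add_sub_self_le (z := v) (by linarith)
  have h5 : ‖Complex.exp w - (1 + c * v)‖ ≤ (4 * ‖c‖ ^ 2 + 2 * ‖c‖) * ‖v‖ ^ 2 := by
    have e2 : Complex.exp w - (1 + c * v) = (Complex.exp w - 1 - w) +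
        c * (Complex.log (1 + v) - v) := by rw [hw]; ring
    rw [e2]
    refine (norm_add_le _ _).trans ?_
    rw [norm_mul]
    have h6 : (1 - ‖v‖)⁻¹ ≤ 2 := by
      rw [inv_le_comm₀ (by linarith) two_pos]; linarith
    have h7 : ‖w‖ ^ 2 ≤ ((3 / 2) * (‖c‖ * ‖v‖)) ^ 2 := pow_le_pow_left₀ (norm_nonneg _) hwn 2
    have h8 : ‖v‖ ^ 2 * (1 - ‖v‖)⁻¹ / 2 ≤ ‖v‖ ^ 2 := by
      have : ‖v‖ ^ 2 * (1 - ‖v‖)⁻¹ ≤ ‖v‖ ^ 2 * 2 := by gcongr
      linarith
    have h9 : ‖c‖ * ‖Complex.log (1 + v) - v‖ ≤ ‖c‖ * ‖v‖ ^ 2 :=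
      mul_le_mul_of_nonneg_left (h4.trans h8) hc0
    have h10 : 0 ≤ ‖c‖ * ‖v‖ ^ 2 := by positivity
    have h11 : 0 ≤ ‖c‖ ^ 2 * ‖v‖ ^ 2 := by positivity
    nlinarith
  have h6 : 1 / 2 ≤ ‖1 + c * v‖ := by
    have := norm_sub_norm_le (1:ℂ) (-(c * v))
    rw [norm_one, norm_neg, norm_mul, sub_neg_eq_add] at this
    linarith
  have h7 : (1 + c * v) ≠ 0 := norm_pos_iff.1 (by linarith)
  have h8 : gf c u - 1 = (Complex.exp w - (1 + c * v)) / (1 + c * v) := by
    have e3 : u / (u + c) = 1 / (1 + c * v) := by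
      have e4 : u + c = u * (1 + c * v) := by rw [hv]; field_simp
      rw [e4]
      field_simp
    rw [gf, hlog, e3, ← hw]
    field_simp
  rw [h8, norm_div, div_le_iff₀ (by linarith)]
  have h9 : (1 / ‖u‖ ^ 2) = ‖v‖ ^ 2 := by rw [hvn]; ring
  rw [h9]
  have h10 : 0 ≤ (4 * ‖c‖ ^ 2 + 2 * ‖c‖) * ‖v‖ ^ 2 := by positivity
  nlinarith

lemma gf_prod (c z : ℂ) (n : ℕ) :
    ∏ j ∈ Finset.range (n + 1), gf c (z + j) =
      (∏ j ∈ Finset.range (n + 1), (z + j)) / (∏ j ∈ Finset.range (n + 1), (z + c + j)) *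
        Complex.exp (c * (Complex.log (z + (n + 1 : ℕ)) - Complex.log z)) := by
  simp only [gf]
  rw [Finset.prod_mul_distrib, Finset.prod_div_distrib, ← Complex.exp_sum]
  congr 1
  · congr 1
    refine Finset.prod_congr rfl fun j _ => by ring
  · congr 1
    rw [← Finset.mul_sum]
    congr 1
    have := Finset.sum_range_sub (fun j : ℕ => Complex.log (z + j)) (n + 1)
    simp only [Nat.cast_zero, add_zero] at this
    rw [← this]
    refine Finset.sum_congr rfl fun j _ => ?_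
    congr 2
    push_cast
    ring

lemma ratio_seq (c z : ℂ) (hz : ∀ j : ℕ, z + j ≠ 0) (hzc : ∀ j : ℕ, z + c + j ≠ 0) {n : ℕ}
    (hn : n ≠ 0) :
    Complex.GammaSeq (z + c) n / (Complex.GammaSeq z n * Complex.exp (c * Complex.log z)) =
      Complex.exp (c * (Complex.log n - Complex.log (z + (n + 1 : ℕ)))) *
        ∏ j ∈ Finset.range (n + 1), gf c (z + j) := by
  have hn' : (n : ℂ) ≠ 0 := by exact_mod_cast hn
  have hf : ((n.factorial : ℕ) : ℂ) ≠ 0 := by exact_mod_cast n.factorial_ne_zero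
  have hA : ∏ j ∈ Finset.range (n + 1), (z + j) ≠ 0 := Finset.prod_ne_zero_iff.2 fun j _ => hz j
  have hB : ∏ j ∈ Finset.range (n + 1), (z + c + j) ≠ 0 :=
    Finset.prod_ne_zero_iff.2 fun j _ => hzc j
  have hnz : (n : ℂ) ^ z ≠ 0 := by
    rw [Complex.cpow_def_of_ne_zero hn']; exact Complex.exp_ne_zero _
  rw [gf_prod, Complex.GammaSeq, Complex.GammaSeq, Complex.cpow_add _ _ hn',
    Complex.cpow_def_of_ne_zero hn' c]
  have e1 : Complex.exp (c * (Complex.log n - Complex.log (z + (n + 1 : ℕ)))) *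
      Complex.exp (c * (Complex.log (z + (n + 1 : ℕ)) - Complex.log z)) *
      Complex.exp (c * Complex.log z) = Complex.exp (Complex.log n * c) := by
    rw [← Complex.exp_add, ← Complex.exp_add]
    congr 1
    ring
  rw [← e1]
  have h1 := Complex.exp_ne_zero (c * Complex.log z)
  field_simp

lemma log_shift_tendsto (z : ℂ) :
    Tendsto (fun n : ℕ => Complex.log n - Complex.log (z + (n + 1 : ℕ))) atTop (𝓝 0) := by
  have h1 : Tendsto (fun n : ℕ => 1 + (z + 1) / n) atTop (𝓝 (1 + 0)) := by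
    refine tendsto_const_nhds.add ?_
    exact tendsto_const_div_atTop_nhds_zero_nat (z + 1)
  rw [add_zero] at h1
  have h2 : Tendsto (fun n : ℕ => - Complex.log (1 + (z + 1) / n)) atTop (𝓝 0) := by
    have := (h1.clog Complex.one_mem_slitPlane).neg
    rwa [Complex.log_one, neg_zero] at this
  refine h2.congr' ?_
  have h3 : ∀ᶠ n : ℕ in atTop, 1 + (z + 1) / n ∈ slitPlane :=
    h1.eventually (Complex.isOpen_slitPlane.mem_nhds Complex.one_mem_slitPlane)
  filter_upwards [eventually_gt_atTop 0, h3] with n hn h4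
  have hn' : (0:ℝ) < n := by exact_mod_cast hn
  have hnc : (n : ℂ) ≠ 0 := by exact_mod_cast hn.ne'
  have h5 : z + (n + 1 : ℕ) = ((n : ℝ) : ℂ) * (1 + (z + 1) / n) := by
    push_cast
    field_simp
    ring
  rw [h5, Complex.log_ofReal_mul hn' (Complex.slitPlane_ne_zero h4), Complex.ofReal_log hn'.le]
  push_cast
  ring

lemma summable_gf_bound {t : ℝ} (ht : 0 < t) (n : ℕ) :
    ∑ j ∈ Finset.range n, 1 / ‖(3 / 2 - t * I + j : ℂ)‖ ^ 2 ≤
      (∑' j : ℕ, ((j : ℝ) + 1) ^ (-(3 / 2) : ℝ)) * t ^ (-(1 / 2) : ℝ) := by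
  have hs : Summable fun j : ℕ => ((j : ℝ) + 1) ^ (-(3 / 2) : ℝ) := summable_shift (by norm_num)
  have h1 : ∀ j : ℕ, 1 / ‖(3 / 2 - t * I + j : ℂ)‖ ^ 2 ≤
      ((j : ℝ) + 1) ^ (-(3 / 2) : ℝ) * t ^ (-(1 / 2) : ℝ) := by
    intro j
    have hj : (0:ℝ) < (j : ℝ) + 1 := by positivity
    have e1 : ‖(3 / 2 - t * I + j : ℂ)‖ ^ 2 = (3 / 2 + j) ^ 2 + t ^ 2 := by
      rw [← Complex.normSq_eq_norm_sq, Complex.normSq_apply]
      simp
      ring
    rw [e1, Real.rpow_neg hj.le, Real.rpow_neg ht.le, ← mul_inv, one_div]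
    refine inv_anti₀ (by positivity) ?_
    -- a^{3/2} t^{1/2} ≤ max^2
    set M := max ((j : ℝ) + 1) t with hM
    have hM0 : 0 < M := lt_max_of_lt_left hj
    have g1 : ((j : ℝ) + 1) ^ (3 / 2 : ℝ) ≤ M ^ (3 / 2 : ℝ) :=
      Real.rpow_le_rpow hj.le (le_max_left _ _) (by norm_num)
    have g2 : t ^ (1 / 2 : ℝ) ≤ M ^ (1 / 2 : ℝ) :=
      Real.rpow_le_rpow ht.le (le_max_right _ _) (by norm_num)
    have g3 : M ^ (3 / 2 : ℝ) * M ^ (1 / 2 : ℝ) = M ^ 2 := by
      rw [← Real.rpow_add hM0, ← Real.rpow_natCast]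
      norm_num
    have g4 : M ^ 2 ≤ ((j : ℝ) + 1) ^ 2 + t ^ 2 := by
      rcases le_total ((j : ℝ) + 1) t with h | h
      · rw [hM, max_eq_right h]; nlinarith
      · rw [hM, max_eq_left h]; nlinarith
    calc ((j : ℝ) + 1) ^ (3 / 2 : ℝ) * t ^ (1 / 2 : ℝ) ≤ M ^ (3 / 2 : ℝ) * M ^ (1 / 2 : ℝ) := by
          gcongr
      _ = M ^ 2 := g3
      _ ≤ ((j : ℝ) + 1) ^ 2 + t ^ 2 := g4
      _ ≤ _ := by nlinarith
  calc ∑ j ∈ Finset.range n, 1 / ‖(3 / 2 - t * I + j : ℂ)‖ ^ 2 ≤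
      ∑ j ∈ Finset.range n, ((j : ℝ) + 1) ^ (-(3 / 2) : ℝ) * t ^ (-(1 / 2) : ℝ) :=
        Finset.sum_le_sum fun j _ => h1 j
    _ = (∑ j ∈ Finset.range n, ((j : ℝ) + 1) ^ (-(3 / 2) : ℝ)) * t ^ (-(1 / 2) : ℝ) := by
        rw [Finset.sum_mul]
    _ ≤ _ := by
        refine mul_le_mul_of_nonneg_right ?_ (by positivity)
        exact hs.sum_le_tsum _ fun j _ => by positivity

theorem gamma_ratio (c : ℂ) :
    Tendsto (fun t : ℝ => Complex.Gamma (3 / 2 - t * I + c) /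
      (Complex.Gamma (3 / 2 - t * I) * Complex.exp (c * Complex.log (3 / 2 - t * I))))
      atTop (𝓝 1) := by
  set K : ℝ := 2 * (4 * ‖c‖ ^ 2 + 2 * ‖c‖) with hK
  have hK0 : 0 ≤ K := by positivity
  set SS : ℝ := ∑' j : ℕ, ((j : ℝ) + 1) ^ (-(3 / 2) : ℝ) with hSS
  have key : ∀ t : ℝ, 4 * (‖c‖ + 1) ≤ t → ‖Complex.Gamma (3 / 2 - t * I + c) /
      (Complex.Gamma (3 / 2 - t * I) * Complex.exp (c * Complex.log (3 / 2 - t * I))) - 1‖ ≤
      Real.exp (K * (SS * t ^ (-(1 / 2) : ℝ))) - 1 := by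
    intro t ht
    have hc0 := norm_nonneg c
    have ht0 : 0 < t := by linarith
    set z : ℂ := 3 / 2 - t * I with hz
    have hzim : z.im = -t := by simp [hz]
    have hzre : z.re = 3 / 2 := by simp [hz]
    have hzn : ∀ j : ℕ, t ≤ ‖z + j‖ := by
      intro j
      have := Complex.abs_im_le_norm (z + j)
      have h2 : (z + j).im = -t := by simp [hzim]
      rw [h2, abs_neg, abs_of_pos ht0] at this
      exact this
    have hz0 : ∀ j : ℕ, z + j ≠ 0 := fun j => norm_pos_iff.1 (by linarith [hzn j])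
    have hzc0 : ∀ j : ℕ, z + c + j ≠ 0 := by
      intro j h
      have h1 := congrArg Complex.im h
      have h2 := (abs_le.1 (Complex.abs_im_le_norm c)).2
      simp [hzim] at h1
      linarith
    set P : ℕ → ℂ := fun n => ∏ j ∈ Finset.range (n + 1), gf c (z + j) with hP
    have hPb : ∀ n, ‖P n - 1‖ ≤ Real.exp (K * (SS * t ^ (-(1 / 2) : ℝ))) - 1 := by
      intro n
      have h1 := Finset.norm_prod_one_add_sub_one_le (Finset.range (n + 1))
        (fun j : ℕ => gf c (z + j) - 1)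
      have h2 : ∏ j ∈ Finset.range (n + 1), (1 + (gf c (z + j) - 1)) = P n := by
        refine Finset.prod_congr rfl fun j _ => by ring
      rw [h2] at h1
      refine h1.trans ?_
      have h3 : ∑ j ∈ Finset.range (n + 1), ‖gf c (z + j) - 1‖ ≤ K * (SS * t ^ (-(1 / 2) : ℝ)) := by
        calc ∑ j ∈ Finset.range (n + 1), ‖gf c (z + j) - 1‖ ≤
            ∑ j ∈ Finset.range (n + 1), K * (1 / ‖z + j‖ ^ 2) := by
              refine Finset.sum_le_sum fun j _ => gf_bound c ?_ (ht.trans (hzn j))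
              simp only [Complex.add_re, hzre, Complex.natCast_re]
              positivity
          _ = K * ∑ j ∈ Finset.range (n + 1), 1 / ‖z + j‖ ^ 2 := by rw [Finset.mul_sum]
          _ ≤ _ := mul_le_mul_of_nonneg_left (summable_gf_bound ht0 (n + 1)) hK0
      have := Real.exp_le_exp.2 h3
      linarith
    have hG0 : Complex.Gamma z * Complex.exp (c * Complex.log z) ≠ 0 := by
      refine mul_ne_zero ?_ (Complex.exp_ne_zero _)
      refine Complex.Gamma_ne_zero fun m h => ?_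
      exact hz0 m (by rw [h]; ring)
    have hlim : Tendsto (fun n => Complex.GammaSeq (z + c) n /
        (Complex.GammaSeq z n * Complex.exp (c * Complex.log z))) atTop
        (𝓝 (Complex.Gamma (z + c) / (Complex.Gamma z * Complex.exp (c * Complex.log z)))) :=
      (Complex.GammaSeq_tendsto_Gamma _).div
        ((Complex.GammaSeq_tendsto_Gamma z).mul_const _) hG0
    have hE : Tendsto (fun n : ℕ => Complex.exp (-(c * (Complex.log n -
        Complex.log (z + (n + 1 : ℕ)))))) atTop (𝓝 1) := by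
      have := ((log_shift_tendsto z).const_mul c).neg.cexp
      simpa using this
    have hPlim := hE.mul hlim
    rw [one_mul] at hPlim
    have hPlim' : Tendsto P atTop
        (𝓝 (Complex.Gamma (z + c) / (Complex.Gamma z * Complex.exp (c * Complex.log z)))) := by
      refine hPlim.congr' ?_
      filter_upwards [eventually_ne_atTop 0] with n hn
      rw [ratio_seq c z hz0 hzc0 hn, ← mul_assoc, ← Complex.exp_add]
      rw [neg_add_cancel, Complex.exp_zero, one_mul]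
    exact le_of_tendsto ((hPlim'.sub_const 1).norm) (Eventually.of_forall hPb)
  have h1 : Tendsto (fun t : ℝ => Real.exp (K * (SS * t ^ (-(1 / 2) : ℝ))) - 1) atTop (𝓝 0) := by
    have h2 : Tendsto (fun t : ℝ => K * (SS * t ^ (-(1 / 2) : ℝ))) atTop (𝓝 (K * (SS * 0))) :=
      ((tendsto_rpow_neg_atTop (by norm_num)).const_mul _).const_mul _
    have h3 := ((Real.continuous_exp.tendsto _).comp h2).sub_const 1
    simpa [Function.comp_def] using h3
  rw [tendsto_iff_norm_sub_tendsto_zero]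
  refine squeeze_zero' (Eventually.of_forall fun t => norm_nonneg _) ?_ h1
  filter_upwards [eventually_ge_atTop (4 * (‖c‖ + 1))] with t ht
  exact key t ht

end Pool.Agent.helper70
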