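import Mathlib
import Pool.Agent.helper70.Abel
import Pool.Agent.helper70.T1b

open Complex Metric Set MeasureTheory Real Filter Topology

namespace Pool.Agent.helper70

/-- the small parameter -/
noncomputable def zz (y0 δ : ℝ) : ℂ := I * Complex.log (1 - (δ / y0 : ℝ) * I)

lemma log_x {y0 δ : ℝ} (hy : 0 < y0) :
    Complex.log (δ + y0 * I) = Real.log y0 + (π / 2 : ℝ) * I - I * zz y0 δ := by
  have hy' : (y0 : ℂ) ≠ 0 := by exact_mod_cast hy.ne'
  have h1 : (δ : ℂ) + y0 * I = ((y0 : ℂ) * I) * (1 - (δ / y0 : ℝ) * I) := by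
    push_cast
    field_simp
    ring_nf
    rw [Complex.I_sq]
    ring
  have h2 : Complex.log ((y0 : ℂ) * I) = Real.log y0 + (π / 2 : ℝ) * I := by
    rw [Complex.log_ofReal_mul hy Complex.I_ne_zero, Complex.log_I]
    push_cast
    ring
  have h3 : ((y0 : ℂ) * I).arg = π / 2 := by
    rw [Complex.arg_real_mul _ hy, Complex.arg_I]
  have hre : 0 < (1 - ((δ / y0 : ℝ) : ℂ) * I).re := by simp
  have h4 : |(1 - ((δ / y0 : ℝ) : ℂ) * I).arg| < π / 2 := abs_arg_lt hre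
  have h5 : (1 - ((δ / y0 : ℝ) : ℂ) * I) ≠ 0 := by
    intro h; rw [h] at hre; simp at hre
  have h6 : Complex.log (((y0 : ℂ) * I) * (1 - (δ / y0 : ℝ) * I)) =
      Complex.log ((y0 : ℂ) * I) + Complex.log (1 - (δ / y0 : ℝ) * I) := by
    rw [Complex.log_mul_eq_add_log_iff (by simp [hy.ne']) h5, h3]
    rw [abs_lt] at h4
    constructor <;> linarith [h4.1, h4.2, Real.pi_pos]
  rw [h1, h6, h2, zz]
  have : I * (I * Complex.log (1 - (δ / y0 : ℝ) * I)) = - Complex.log (1 - (δ / y0 : ℝ) * I) := by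
    rw [← mul_assoc, Complex.I_mul_I]; ring
  rw [this]
  ring

lemma zz_div (y0 : ℝ) :
    Tendsto (fun δ : ℝ => zz y0 δ / δ) (𝓝[>] 0) (𝓝 ((1 / y0 : ℝ) : ℂ)) := by
  have h1 : HasDerivAt (fun δ : ℝ => (1 - ((δ / y0 : ℝ) : ℂ) * I)) (-(((1 / y0 : ℝ) : ℂ) * I)) 0 := by
    have h2 : HasDerivAt (fun δ : ℝ => δ / y0) (1 / y0) 0 := (hasDerivAt_id (0:ℝ)).div_const y0
    have h3 := (h2.ofReal_comp.mul_const I).const_sub 1
    exact h3
  have h4 : HasDerivAt (fun δ : ℝ => zz y0 δ) ((1 / y0 : ℝ) : ℂ) 0 := by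
    have h5 : (1 - (((0:ℝ) / y0 : ℝ) : ℂ) * I) ∈ slitPlane := by
      simp [Complex.one_mem_slitPlane]
    have h6 := (h1.clog_real h5).const_mul I
    have h7 : I * (-(((1 / y0 : ℝ) : ℂ) * I) / (1 - (((0:ℝ) / y0 : ℝ) : ℂ) * I)) =
        ((1 / y0 : ℝ) : ℂ) := by
      simp only [zero_div, Complex.ofReal_zero, zero_mul, sub_zero, div_one]
      have := Complex.I_mul_I
      linear_combination (-((1 / y0 : ℝ) : ℂ)) * this
    rw [h7] at h6
    exact h6
  have h8 := h4.tendsto_slope_zero_right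
  refine h8.congr' ?_
  filter_upwards [self_mem_nhdsWithin] with δ hδ
  have h9 : zz y0 0 = 0 := by simp [zz]
  rw [zero_add, h9, sub_zero, Complex.real_smul]
  push_cast
  rw [div_eq_mul_inv, mul_comm]

lemma zz_facts {y0 : ℝ} (hy : 0 < y0) :
    Tendsto (fun δ : ℝ => zz y0 δ) (𝓝[>] 0) (𝓝 0) ∧
    (∀ᶠ δ in 𝓝[>] (0:ℝ), 0 < (zz y0 δ).re) ∧
    (∀ᶠ δ in 𝓝[>] (0:ℝ), ‖zz y0 δ‖ ≤ 2 * (zz y0 δ).re) ∧
    Tendsto (fun δ : ℝ => δ ^ 2 / ‖zz y0 δ‖ ^ 2) (𝓝[>] 0) (𝓝 (y0 ^ 2)) ∧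
    Tendsto (fun δ : ℝ => (zz y0 δ).arg) (𝓝[>] 0) (𝓝 0) := by
  have h1 := zz_div y0
  have hy1 : 0 < 1 / y0 := by positivity
  have hpos : ∀ᶠ δ in 𝓝[>] (0:ℝ), (0:ℝ) < δ := self_mem_nhdsWithin
  have hre : Tendsto (fun δ : ℝ => (zz y0 δ / δ).re) (𝓝[>] 0) (𝓝 (1 / y0)) := by
    have := (Complex.continuous_re.tendsto _).comp h1
    simpa [Function.comp_def] using this
  have hno : Tendsto (fun δ : ℝ => ‖zz y0 δ / δ‖) (𝓝[>] 0) (𝓝 (1 / y0)) := by
    have := h1.norm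
    rwa [Complex.norm_real, Real.norm_of_nonneg hy1.le] at this
  have hre' : ∀ δ : ℝ, 0 < δ → (zz y0 δ / δ).re = (zz y0 δ).re / δ := by
    intro δ _
    rw [Complex.div_ofReal_re]
  have hno' : ∀ δ : ℝ, 0 < δ → ‖zz y0 δ / δ‖ = ‖zz y0 δ‖ / δ := by
    intro δ hδ
    rw [norm_div, Complex.norm_real, Real.norm_of_nonneg hδ.le]
  refine ⟨?_, ?_, ?_, ?_, ?_⟩
  · have h2 : Tendsto (fun δ : ℝ => ((δ : ℝ) : ℂ)) (𝓝[>] 0) (𝓝 0) := by
      have := Complex.continuous_ofReal.tendsto (0:ℝ)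
      rw [Complex.ofReal_zero] at this
      exact this.mono_left nhdsWithin_le_nhds
    have h3 := h1.mul h2
    rw [mul_zero] at h3
    refine h3.congr' ?_
    filter_upwards [hpos] with δ hδ
    have : (δ : ℂ) ≠ 0 := by exact_mod_cast hδ.ne'
    field_simp
  · filter_upwards [hpos, hre.eventually_const_lt hy1] with δ hδ h2
    rw [hre' δ hδ] at h2
    have := mul_pos h2 hδ
    rwa [div_mul_cancel₀ _ hδ.ne'] at this
  · have h3 : ∀ᶠ δ in 𝓝[>] (0:ℝ), ‖zz y0 δ / δ‖ < (3 / 2) * (1 / y0) :=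
      hno.eventually_lt_const (by linarith)
    have h4 : ∀ᶠ δ in 𝓝[>] (0:ℝ), (3 / 4) * (1 / y0) < (zz y0 δ / δ).re :=
      hre.eventually_const_lt (by linarith)
    filter_upwards [hpos, h3, h4] with δ hδ h5 h6
    rw [hre' δ hδ] at h6
    rw [hno' δ hδ] at h5
    have h7 : ‖zz y0 δ‖ / δ ≤ 2 * ((zz y0 δ).re / δ) := by linarith
    rw [div_le_iff₀ hδ] at h7
    have h8 : 2 * ((zz y0 δ).re / δ) * δ = 2 * (zz y0 δ).re := by field_simp
    linarith
  · have h2 := (hno.pow 2).inv₀ (by positivity)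
    have h3 : ((1 / y0) ^ 2)⁻¹ = y0 ^ 2 := by field_simp
    rw [h3] at h2
    refine h2.congr' ?_
    filter_upwards [hpos] with δ hδ
    rw [hno' δ hδ, div_pow, inv_div]
  · have h2 : ((1 / y0 : ℝ) : ℂ) ∈ slitPlane := Or.inl (by rw [Complex.ofReal_re]; exact hy1)
    have h3 := (Complex.continuousAt_arg h2).tendsto.comp h1
    rw [Complex.arg_ofReal_of_nonneg hy1.le] at h3
    refine h3.congr' ?_
    filter_upwards [hpos] with δ hδ
    simp only [Function.comp_apply]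
    have : zz y0 δ / δ = ((δ⁻¹ : ℝ) : ℂ) * zz y0 δ := by push_cast; field_simp
    rw [this, Complex.arg_real_mul _ (by positivity)]

section
variable {ι ι' : Type*} {b : ι → ℂ} {lam : ι → ℝ} {b' : ι' → ℂ} {lam' : ι' → ℝ}
  {h : ℂ → ℂ} {T : ℝ} {m : ℕ}

lemma line_identity [Countable ι'] (hT : 2 ≤ T) (hlam' : ∀ j, 1 ≤ lam' j)
    (hsum' : Summable fun j => ‖b' j‖ * lam' j ^ (-(3 / 2) : ℝ))
    {G : ℝ → ℂ} {C κ : ℝ}
    (hGm : AEStronglyMeasurable G (volume.restrict (Ioi T)))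
    (hG : ∀ t, T < t → ‖G t‖ ≤ C * t)
    (hrep : ∀ t : ℝ, T < t → Psi h (1 / 2 + t * I) = Complex.exp (-(π * t / 2)) *
      Complex.exp (I * (t * Real.log κ)) * G t * ∑' j, b' j * pw (lam' j) (3 / 2 - t * I))
    {y0 δ : ℝ} (hy : 0 < y0) (hz : 0 < (zz y0 δ).re) :
    ∫ t in Ioi T, Psi h ((3 / 2 - (1 : ℕ) : ℝ) + t * I) *
      pw (δ + y0 * I) ((3 / 2 - (1 : ℕ) : ℝ) + t * I) =
    Complex.exp (-(1 / 2) * Complex.log (δ + y0 * I)) *
      ∑' j, (b' j * (lam' j ^ (-(3 / 2) : ℝ) : ℝ)) *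
        JJ G T (Real.log κ + Real.log (lam' j) - Real.log y0) (zz y0 δ) := by
  set z := zz y0 δ with hzdef
  set x : ℂ := δ + y0 * I with hx
  set K : ι' → ℂ := fun j => b' j * (lam' j ^ (-(3 / 2) : ℝ) : ℝ) with hK
  set ω : ι' → ℝ := fun j => Real.log κ + Real.log (lam' j) - Real.log y0 with hω
  have hKn : ∀ j, ‖K j‖ = ‖b' j‖ * lam' j ^ (-(3 / 2) : ℝ) := by
    intro j
    have : 0 < lam' j := by linarith [hlam' j]
    simp only [hK]
    rw [norm_mul, Complex.norm_real, Real.norm_of_nonneg (by positivity)]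
  set F : ι' → ℝ → ℂ := fun j t => K j * (G t * Complex.exp (I * (t * ω j)) *
    Complex.exp (-(z * t))) with hF
  have hFi : ∀ j, Integrable (F j) (volume.restrict (Ioi T)) := by
    intro j
    exact (JJ_integrable (by linarith) hGm hG (ω j) hz).const_mul (K j)
  have hFn : ∀ j, ∫ t in Ioi T, ‖F j t‖ =
      (‖b' j‖ * lam' j ^ (-(3 / 2) : ℝ)) * ∫ t in Ioi T, ‖G t‖ * Real.exp (-(z.re * t)) := by
    intro j
    rw [← integral_const_mul]
    refine setIntegral_congr_fun measurableSet_Ioi fun t _ => ?_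
    simp only [hF]
    rw [norm_mul, norm_JJ_integrand, hKn]
  have hS : Summable fun j => ∫ t in Ioi T, ‖F j t‖ := by
    simp_rw [hFn]
    exact hsum'.mul_right _
  have h1 := (hasSum_integral_of_summable_integral_norm hFi hS).tsum_eq
  have h2 : ∀ j, ∫ t in Ioi T, F j t = K j * JJ G T (ω j) z := by
    intro j
    rw [JJ, ← integral_const_mul]
  simp_rw [h2] at h1
  rw [h1, ← integral_const_mul]
  refine setIntegral_congr_fun measurableSet_Ioi fun t ht => ?_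
  have ht' : T < t := ht
  have e1 : (((3 / 2 - (1 : ℕ) : ℝ) : ℂ) + t * I) = 1 / 2 + t * I := by push_cast; ring
  rw [e1, hrep t ht']
  simp only [hF]
  have hlog : Complex.log x = Real.log y0 + (π / 2 : ℝ) * I - I * z := log_x hy
  have h3 : ∀ j, K j * (G t * Complex.exp (I * (t * ω j)) * Complex.exp (-(z * t))) =
      (G t * Complex.exp (I * (t * (Real.log κ - Real.log y0))) * Complex.exp (-(z * t))) *
        (b' j * pw (lam' j) (3 / 2 - t * I)) := by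
    intro j
    have hl : 0 < lam' j := by linarith [hlam' j]
    have e2 : ((lam' j ^ (-(3 / 2) : ℝ) : ℝ) : ℂ) = Complex.exp (-(3 / 2) * Real.log (lam' j)) := by
      rw [Real.rpow_def_of_pos hl]
      push_cast
      congr 1
      ring
    have e3 : Complex.exp (-(3 / 2) * Real.log (lam' j)) * Complex.exp (I * (t * ω j)) =
        Complex.exp (I * (t * (Real.log κ - Real.log y0))) * pw (lam' j) (3 / 2 - t * I) := by
      rw [pw, ← Complex.ofReal_log hl.le, ← Complex.exp_add, ← Complex.exp_add]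
      congr 1
      simp only [hω]
      push_cast
      ring
    simp only [hK]
    rw [e2]
    linear_combination (b' j * G t * Complex.exp (-(z * t))) * e3
  simp_rw [h3]
  rw [tsum_mul_left]
  have e4 : Complex.exp (-(π * t / 2)) * Complex.exp (I * (t * Real.log κ)) *
      pw x (1 / 2 + t * I) = Complex.exp (-(1 / 2) * Complex.log x) *
      (Complex.exp (I * (t * (Real.log κ - Real.log y0))) * Complex.exp (-(z * t))) := by
    rw [pw, ← Complex.exp_add, ← Complex.exp_add, ← Complex.exp_add, ← Complex.exp_add, hlog]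
    congr 1
    push_cast
    have := Complex.I_mul_I
    linear_combination (-(t : ℂ) * (π / 2) + (z * t)) * this
  linear_combination (G t * ∑' j, b' j * pw (lam' j) (3 / 2 - t * I)) * e4

/-- Boundary behaviour in degree one. -/
theorem T3 [Countable ι] [Countable ι'] (hc : Cont b lam h T 1) (hl : LeftPoly h T 1 m)
    (hlam' : ∀ j, 1 ≤ lam' j)
    (hsum' : Summable fun j => ‖b' j‖ * lam' j ^ (-(3 / 2) : ℝ))
    {G : ℝ → ℂ} {C η κ : ℝ} {Cinf : ℂ} (hC : 0 ≤ C)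
    (hGm : AEStronglyMeasurable G (volume.restrict (Ioi T)))
    (hG : ∀ t, T < t → ‖G t‖ ≤ C * t)
    (hGi : Tendsto (fun t : ℝ => G t / (t : ℂ) ^ ((2 - η * I : ℂ) - 1)) atTop (𝓝 Cinf))
    (hrep : ∀ t : ℝ, T < t → Psi h (1 / 2 + t * I) = Complex.exp (-(π * t / 2)) *
      Complex.exp (I * (t * Real.log κ)) * G t * ∑' j, b' j * pw (lam' j) (3 / 2 - t * I))
    {y0 : ℝ} (hy : 1 ≤ y0) :
    Tendsto (fun δ : ℝ => δ ^ 2 *
      ‖∑' j, b j * (lam j * Complex.exp (-(lam j : ℂ) * (δ + y0 * I)))‖) (𝓝[>] 0)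
      (𝓝 ((2 * π)⁻¹ * (y0 ^ 2 * Real.exp (-(1 / 2) * Real.log y0)) *
        ‖∑' j, (b' j * (lam' j ^ (-(3 / 2) : ℝ) : ℝ)) *
          (if Real.log κ + Real.log (lam' j) - Real.log y0 = 0 then
            Cinf * Complex.Gamma (2 - η * I) else 0)‖)) := by
  have hT := hc.hT
  have hy0 : 0 < y0 := by linarith
  obtain ⟨z1, z2, z3, z4, z5⟩ := zz_facts hy0
  have hpos : ∀ᶠ δ in 𝓝[>] (0:ℝ), (0:ℝ) < δ := self_mem_nhdsWithin
  have hle1 : ∀ᶠ δ in 𝓝[>] (0:ℝ), δ ≤ 1 := by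
    have : Ioc (0:ℝ) 1 ∈ 𝓝[>] (0:ℝ) := Ioc_mem_nhdsGT one_pos
    filter_upwards [this] with δ hδ using hδ.2
  have hδ0 : Tendsto (fun δ : ℝ => δ) (𝓝[>] 0) (𝓝 0) := tendsto_id.mono_left nhdsWithin_le_nhds
  set K : ι' → ℂ := fun j => b' j * (lam' j ^ (-(3 / 2) : ℝ) : ℝ) with hK
  set ω : ι' → ℝ := fun j => Real.log κ + Real.log (lam' j) - Real.log y0 with hω
  have hKn : ∀ j, ‖K j‖ = ‖b' j‖ * lam' j ^ (-(3 / 2) : ℝ) := by
    intro j
    have : 0 < lam' j := by linarith [hlam' j]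
    simp only [hK]
    rw [norm_mul, Complex.norm_real, Real.norm_of_nonneg (by positivity)]
  set E : ℝ → ℂ := fun δ => Complex.exp ((2 - η * I) * Complex.log (zz y0 δ)) with hE
  set Y : ℝ → ℂ := fun δ => ∑' j, K j * JJ G T (ω j) (zz y0 δ) with hY
  set Lim : ℂ := ∑' j, K j * (if ω j = 0 then Cinf * Complex.Gamma (2 - η * I) else 0) with hLim
  -- dominated convergence
  have hEY : Tendsto (fun δ => E δ * Y δ) (𝓝[>] 0) (𝓝 Lim) := by
    have h1 : Tendsto (fun δ => ∑' j, K j * (E δ * JJ G T (ω j) (zz y0 δ))) (𝓝[>] 0) (𝓝 Lim) := by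
      refine tendsto_tsum_of_dominated_convergence
        (bound := fun j => (‖b' j‖ * lam' j ^ (-(3 / 2) : ℝ)) * (4 * Real.exp (|η| * π) * C))
        (hsum'.mul_right _) (fun j => ?_) ?_
      · exact (abel (by linarith) hC hGm hG hGi z1 z2 z3 (ω j)).const_mul (K j)
      · filter_upwards [z2, z3] with δ h2 h3 j
        rw [norm_mul, hKn, norm_mul]
        have : 0 < lam' j := by linarith [hlam' j]
        refine mul_le_mul_of_nonneg_left ?_ (by positivity)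
        have h4 := norm_exp_a_le η h2 h3
        have h5 := JJ_bound (G := G) (T := T) (C := C) (D := 0) (by linarith) hC le_rfl
          (fun t ht => by rw [add_zero]; exact hG t ht) (ω j) h2
        rw [zero_div, add_zero] at h5
        calc ‖E δ‖ * ‖JJ G T (ω j) (zz y0 δ)‖ ≤
            ((4 * Real.exp (|η| * π)) * (zz y0 δ).re ^ 2) * (C / (zz y0 δ).re ^ 2) := by gcongr
          _ = _ := by field_simp
    refine h1.congr fun δ => ?_
    simp only [hY]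
    rw [← tsum_mul_left]
    refine tsum_congr fun j => ?_
    ring
  -- the size of the main term
  set L : ℝ → ℂ := fun δ => Complex.exp (-(1 / 2) * Complex.log (δ + y0 * I)) * Y δ with hL
  have hx0 : Tendsto (fun δ : ℝ => (δ : ℂ) + y0 * I) (𝓝[>] 0) (𝓝 (y0 * I)) := by
    have : Tendsto (fun δ : ℝ => (δ : ℂ) + y0 * I) (𝓝 0) (𝓝 (((0:ℝ) : ℂ) + y0 * I)) :=
      Continuous.tendsto (by fun_prop) 0
    rw [Complex.ofReal_zero, zero_add] at this
    exact this.mono_left nhdsWithin_le_nhds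
  have hxn : Tendsto (fun δ : ℝ => ‖Complex.exp (-(1 / 2) * Complex.log (δ + y0 * I))‖) (𝓝[>] 0)
      (𝓝 (Real.exp (-(1 / 2) * Real.log y0))) := by
    have h1 : (y0 : ℂ) * I ∈ slitPlane := by
      rw [Complex.mem_slitPlane_iff]; right; simp [hy0.ne']
    have h2 := ((hx0.clog h1).const_mul (-(1 / 2) : ℂ)).cexp.norm
    have h3 : ‖Complex.exp (-(1 / 2) * Complex.log (y0 * I))‖ = Real.exp (-(1 / 2) * Real.log y0) := by
      rw [Complex.norm_exp]
      congr 1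
      have : (-(1 / 2) * Complex.log (y0 * I)) = ((-(1 / 2) : ℝ) : ℂ) * Complex.log (y0 * I) := by
        push_cast; ring
      rw [this, Complex.re_ofReal_mul, Complex.log_re]
      simp [abs_of_pos hy0]
    rwa [h3] at h2
  have hLlim : Tendsto (fun δ : ℝ => δ ^ 2 * ‖L δ‖) (𝓝[>] 0)
      (𝓝 ((y0 ^ 2 * Real.exp (-(1 / 2) * Real.log y0)) * ‖Lim‖)) := by
    have h1 : Tendsto (fun δ : ℝ => Real.exp (-(η * (zz y0 δ).arg))) (𝓝[>] 0) (𝓝 1) := by
      have h2 : Tendsto (fun δ : ℝ => -(η * (zz y0 δ).arg)) (𝓝[>] 0) (𝓝 (-(η * 0))) :=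
        (z5.const_mul η).neg
      have h3 := (Real.continuous_exp.tendsto _).comp h2
      simpa [Function.comp_def] using h3
    have h2 := ((z4.mul h1).mul hxn).mul hEY.norm
    have h3 : y0 ^ 2 * 1 * Real.exp (-(1 / 2) * Real.log y0) * ‖Lim‖ =
      (y0 ^ 2 * Real.exp (-(1 / 2) * Real.log y0)) * ‖Lim‖ := by ring
    rw [h3] at h2
    refine h2.congr' ?_
    filter_upwards [z2] with δ h4
    have hz0 : zz y0 δ ≠ 0 := by intro h; rw [h] at h4; simp at h4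
    have hzn : 0 < ‖zz y0 δ‖ := norm_pos_iff.2 hz0
    have h5 : ‖E δ‖ = ‖zz y0 δ‖ ^ 2 * Real.exp (η * (zz y0 δ).arg) := norm_exp_a η hz0
    simp only [hL]
    rw [norm_mul, norm_mul, h5, Real.exp_neg]
    have h6 := Real.exp_pos (η * (zz y0 δ).arg)
    field_simp
  -- the other terms
  obtain ⟨C1, hC10, hC1⟩ := part_left hc
  obtain ⟨C3, hC30, hC3⟩ := part_bottom hc
  have hdiff : ∀ᶠ δ : ℝ in 𝓝[>] (0:ℝ),
      |δ ^ 2 * ‖∑' j, b j * (lam j * Complex.exp (-(lam j : ℂ) * (δ + y0 * I)))‖ -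
        (2 * π)⁻¹ * (δ ^ 2 * ‖L δ‖)| ≤ δ ^ 2 * (C1 + C3 * (y0 + 1)) := by
    filter_upwards [hpos, hle1, z2] with δ hδ hδ1 hz
    have hxre : 0 < ((δ : ℂ) + y0 * I).re := by simpa using hδ
    have hxim : 0 ≤ ((δ : ℂ) + y0 * I).im := by simpa using hy0.le
    have hxn1 : 1 ≤ ‖(δ : ℂ) + y0 * I‖ := by
      have := Complex.abs_im_le_norm ((δ : ℂ) + y0 * I)
      have h2 : ((δ : ℂ) + y0 * I).im = y0 := by simp
      rw [h2, abs_of_pos hy0] at this
      linarith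
    have hxn2 : ‖(δ : ℂ) + y0 * I‖ ≤ y0 + 1 := by
      have := Complex.norm_le_abs_re_add_abs_im ((δ : ℂ) + y0 * I)
      have h2 : ((δ : ℂ) + y0 * I).im = y0 := by simp
      have h3 : ((δ : ℂ) + y0 * I).re = δ := by simp
      rw [h2, h3, abs_of_pos hy0, abs_of_pos hδ] at this
      linarith
    have hrs := rep_shift hc hl hxre
    have hline := line_identity (h := h) hT hlam' hsum' hGm hG hrep hy0 hz
    rw [hrs, hline]
    have hn : ‖(2 * (π : ℂ))⁻¹‖ = (2 * π)⁻¹ := by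
      have : (2 * (π : ℂ)) = ((2 * π : ℝ) : ℂ) := by push_cast; ring
      rw [this, norm_inv, Complex.norm_real, Real.norm_of_nonneg (by positivity)]
    have hn1 : (2 * π)⁻¹ ≤ 1 := by
      refine inv_le_one_of_one_le₀ ?_
      linarith [Real.pi_gt_three]
    have hLdef : Complex.exp (-(1 / 2) * Complex.log (δ + y0 * I)) *
      ∑' j, (b' j * (lam' j ^ (-(3 / 2) : ℝ) : ℝ)) *
        JJ G T (Real.log κ + Real.log (lam' j) - Real.log y0) (zz y0 δ) = L δ := rfl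
    rw [hLdef, norm_mul, hn]
    have hb1 := hC1 _ hxre hxim hxn1
    have hb3 := hC3 _ hxre hxim hxn1
    rw [pow_one] at hb3
    have hb3' := hb3.trans (mul_le_mul_of_nonneg_left hxn2 hC30)
    set A := ∫ t in Iic T, Complex.Gamma ((2 : ℕ) + 1 / 2 + t * I) *
        pw (δ + y0 * I) ((2 : ℕ) + 1 / 2 + t * I) * DD b lam t with hA
    set B := I * ∫ σ in (3 / 2 - (1 : ℕ) : ℝ)..(5 / 2), Psi h (σ + T * I) *
      pw (δ + y0 * I) (σ + T * I) with hB
    have h9 : δ ^ 2 * ((2 * π)⁻¹ * ‖A + L δ + B‖) - (2 * π)⁻¹ * (δ ^ 2 * ‖L δ‖) =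
        δ ^ 2 * ((2 * π)⁻¹ * (‖A + L δ + B‖ - ‖L δ‖)) := by ring
    rw [h9, abs_mul, abs_mul, abs_of_nonneg (by positivity : (0:ℝ) ≤ δ ^ 2),
      abs_of_nonneg (by positivity : (0:ℝ) ≤ (2 * π)⁻¹)]
    have h10 : |‖A + L δ + B‖ - ‖L δ‖| ≤ C1 + C3 * (y0 + 1) := by
      refine (abs_norm_sub_norm_le _ _).trans ?_
      have h11 : A + L δ + B - L δ = A + B := by ring
      rw [h11]
      exact (norm_add_le _ _).trans (add_le_add hb1 hb3')
    calc δ ^ 2 * ((2 * π)⁻¹ * |‖A + L δ + B‖ - ‖L δ‖|) ≤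
        δ ^ 2 * (1 * (C1 + C3 * (y0 + 1))) := by gcongr
      _ = _ := by ring
  have hd0 : Tendsto (fun δ : ℝ => δ ^ 2 * (C1 + C3 * (y0 + 1))) (𝓝[>] 0) (𝓝 0) := by
    simpa using (hδ0.pow 2).mul_const (C1 + C3 * (y0 + 1))
  have hd1 := squeeze_zero_norm' (f := fun δ : ℝ => δ ^ 2 *
      ‖∑' j, b j * (lam j * Complex.exp (-(lam j : ℂ) * (δ + y0 * I)))‖ -
        (2 * π)⁻¹ * (δ ^ 2 * ‖L δ‖)) (by
      filter_upwards [hdiff] with δ hδ
      rw [Real.norm_eq_abs]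
      exact hδ) hd0
  have hfin := hd1.add (hLlim.const_mul (2 * π)⁻¹)
  rw [zero_add, ← mul_assoc] at hfin
  refine hfin.congr fun δ => ?_
  ring

end

end Pool.Agent.helper70
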