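import Mathlib
import Pool.Agent.helper70.GRatio
import Pool.Agent.helper70.T3
import Pool.Agent.helper70.ZC

open Complex Metric Set MeasureTheory Real Filter Topology

namespace Pool.Agent.helper70

lemma cos_asym (a : ℂ) : Tendsto (fun y : ℝ => Complex.cos (a - y * I) * Complex.exp (-y)) atTop
    (𝓝 (Complex.exp (a * I) / 2)) := by
  have h1 : Tendsto (fun y : ℝ => ((Real.exp (-(2 * y)) : ℝ) : ℂ)) atTop (𝓝 ((0:ℝ) : ℂ)) := by
    refine (Complex.continuous_ofReal.tendsto 0).comp ?_
    have h2 : Tendsto (fun y : ℝ => 2 * y) atTop atTop := tendsto_id.const_mul_atTop two_pos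
    exact Real.tendsto_exp_neg_atTop_nhds_zero.comp h2
  rw [Complex.ofReal_zero] at h1
  have h3 := ((h1.const_mul (Complex.exp (-(a * I)))).const_add (Complex.exp (a * I))).div_const 2
  rw [mul_zero, add_zero] at h3
  refine h3.congr fun y => ?_
  rw [Complex.cos]
  have e1 : (a - y * I) * I = a * I + y := by
    have := Complex.I_mul_I
    linear_combination (-(y : ℂ)) * this
  have e2 : -(a - y * I) * I = -(a * I) - y := by
    have := Complex.I_mul_I
    linear_combination (y : ℂ) * this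
  rw [e1, e2, div_mul_eq_mul_div, add_mul, ← Complex.exp_add, ← Complex.exp_add]
  have e3 : a * I + y + -y = a * I := by ring
  have e4 : -(a * I) - y + -y = -(a * I) + ((-(2 * y) : ℝ) : ℂ) := by push_cast; ring
  rw [e3, e4, Complex.exp_add (-(a * I)), Complex.ofReal_exp]

/-- `s' = 3/2 - it` -/
noncomputable def sp (t : ℝ) : ℂ := 3 / 2 - t * I
/-- `w' = 2 s' - 1/2 - iα` -/
noncomputable def wp (α t : ℝ) : ℂ := 2 * sp t - 1 / 2 - α * I

lemma sp_im (t : ℝ) : (sp t).im = -t := by simp [sp]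
lemma sp_re (t : ℝ) : (sp t).re = 3 / 2 := by simp [sp]
lemma wp_im (α t : ℝ) : (wp α t).im = -2 * t - α := by simp [wp, sp]
lemma wp_re (α t : ℝ) : (wp α t).re = 5 / 2 := by simp [wp, sp]; norm_num

/-- the gamma factor -/
noncomputable def QQ (α t : ℝ) : ℂ :=
  Complex.Gamma (2 - sp t) * (2 * π : ℂ) ^ (sp t - wp α t) * Complex.Gamma (wp α t) *
    Complex.cos (π * wp α t / 2) / (Complex.Gamma (sp t) * Complex.cos (π * sp t / 2))

/-- normalised -/
noncomputable def GG (α t : ℝ) : ℂ :=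
  Complex.exp (π * t / 2) * Complex.exp (-(I * (t * Real.log (π / 2)))) * QQ α t

lemma Gamma_sp_ne (t : ℝ) : Complex.Gamma (sp t) ≠ 0 := by
  refine Complex.Gamma_ne_zero_of_re_pos ?_
  rw [sp_re]; norm_num

lemma cos_sp_ne (t : ℝ) : Complex.cos (π * sp t / 2) ≠ 0 := by
  have h1 := norm_cos_line 1 (-t)
  have e : (π : ℂ) * (((1 : ℕ) : ℂ) + 1 / 2 + (-t : ℝ) * I) / 2 = π * sp t / 2 := by
    rw [sp]; push_cast; ring
  rw [e] at h1
  intro h
  rw [h] at h1
  have := Real.cosh_pos (π * t)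
  simp at h1
  linarith

lemma sin_sp_ne (t : ℝ) : Complex.sin (π * sp t) ≠ 0 := by
  have : Complex.sin (π * sp t) = -(Real.cosh (π * t) : ℝ) := by
    have e : (π : ℂ) * sp t = (-(π * t * I) + π / 2) + π := by rw [sp]; ring
    rw [e, Complex.sin_add_pi, Complex.sin_add_pi_div_two, Complex.cos_neg]
    have h5 : (π : ℂ) * t * I = ((π * t : ℝ) : ℂ) * I := by push_cast; ring
    rw [h5, Complex.cos_mul_I, Complex.ofReal_cosh]
  rw [this, neg_ne_zero]
  exact_mod_cast (Real.cosh_pos _).ne'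

lemma QQ_eq {α t : ℝ} (ht : 0 < t) :
    QQ α t = (1 - sp t) * (π / Complex.sin (π * sp t)) * (2 * π : ℂ) ^ (sp t - wp α t) *
      ((2:ℂ) ^ (wp α t - 1) / (√π : ℝ)) *
      (Complex.Gamma (sp t + (-1 / 4 - α * I / 2)) * Complex.Gamma (sp t + (1 / 4 - α * I / 2)) /
        (Complex.Gamma (sp t)) ^ 2) *
      (Complex.cos (π * wp α t / 2) / Complex.cos (π * sp t / 2)) := by
  have hG := Gamma_sp_ne t
  have hc := cos_sp_ne t
  have hs := sin_sp_ne t
  have h1 : (1 - sp t) ≠ 0 := by
    intro h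
    have := congrArg Complex.im h
    rw [Complex.sub_im, sp_im] at this
    simp at this
    linarith
  have e1 : Complex.Gamma (2 - sp t) = (1 - sp t) * Complex.Gamma (1 - sp t) := by
    rw [← Complex.Gamma_add_one _ h1]
    congr 1
    ring
  have e2 : Complex.Gamma (1 - sp t) = π / Complex.sin (π * sp t) / Complex.Gamma (sp t) := by
    rw [eq_div_iff hG, mul_comm]
    exact Complex.Gamma_mul_Gamma_one_sub _
  have e3 : Complex.Gamma (wp α t) = Complex.Gamma (sp t + (-1 / 4 - α * I / 2)) *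
      Complex.Gamma (sp t + (1 / 4 - α * I / 2)) * ((2:ℂ) ^ (wp α t - 1) / (√π : ℝ)) := by
    have h2 := Complex.Gamma_mul_Gamma_add_half (sp t + (-1 / 4 - α * I / 2))
    have h3 : sp t + (-1 / 4 - α * I / 2) + 1 / 2 = sp t + (1 / 4 - α * I / 2) := by ring
    have h4 : 2 * (sp t + (-1 / 4 - α * I / 2)) = wp α t := by rw [wp]; ring
    rw [h3, h4] at h2
    rw [h2]
    have h5 : ((√π : ℝ) : ℂ) ≠ 0 := by
      exact_mod_cast (Real.sqrt_pos.2 Real.pi_pos).ne'
    have h6 : (2:ℂ) ^ (1 - wp α t) * (2:ℂ) ^ (wp α t - 1) = 1 := by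
      rw [← Complex.cpow_add _ _ two_ne_zero]
      have : 1 - wp α t + (wp α t - 1) = 0 := by ring
      rw [this, Complex.cpow_zero]
    field_simp
    linear_combination (-Complex.Gamma (wp α t)) * h6
  rw [QQ, e1, e2, e3]
  field_simp

/-- the limit constant -/
theorem GG_asym (α : ℝ) : ∃ Cinf : ℂ, Cinf ≠ 0 ∧
    Tendsto (fun t : ℝ => GG α t / (t : ℂ) ^ ((2 - α * I : ℂ) - 1)) atTop (𝓝 Cinf) := by
  set c1 : ℂ := -1 / 4 - α * I / 2 with hc1
  set c2 : ℂ := 1 / 4 - α * I / 2 with hc2
  have f1 := gamma_ratio c1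
  have f2 := gamma_ratio c2
  have f3 : Tendsto (fun t : ℝ => (1 - sp t) / t) atTop (𝓝 I) := by
    have h1 : Tendsto (fun t : ℝ => (-(1 / 2) : ℂ) * ((t⁻¹ : ℝ) : ℂ) + I) atTop
        (𝓝 ((-(1 / 2) : ℂ) * ((0 : ℝ) : ℂ) + I)) :=
      (((Complex.continuous_ofReal.tendsto 0).comp tendsto_inv_atTop_zero).const_mul _).add_const I
    rw [Complex.ofReal_zero, mul_zero, zero_add] at h1
    refine h1.congr' ?_
    filter_upwards [eventually_gt_atTop 0] with t ht
    have : (t : ℂ) ≠ 0 := by exact_mod_cast ht.ne'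
    rw [sp]
    push_cast
    field_simp
    ring
  have f4' : Tendsto (fun t : ℝ => Complex.log (sp t) - Real.log t) atTop
      (𝓝 (Complex.log (-I))) := by
    have h1 : Tendsto (fun t : ℝ => (3 / 2 : ℂ) * ((t⁻¹ : ℝ) : ℂ) - I) atTop
        (𝓝 ((3 / 2 : ℂ) * ((0 : ℝ) : ℂ) - I)) :=
      (((Complex.continuous_ofReal.tendsto 0).comp tendsto_inv_atTop_zero).const_mul _).sub_const I
    rw [Complex.ofReal_zero, mul_zero, zero_sub] at h1
    have h2 : (-I) ∈ slitPlane := by rw [Complex.mem_slitPlane_iff]; right; simp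
    refine (h1.clog h2).congr' ?_
    have h3 : ∀ᶠ t : ℝ in atTop, (3 / 2 : ℂ) * ((t⁻¹ : ℝ) : ℂ) - I ∈ slitPlane :=
      h1.eventually (Complex.isOpen_slitPlane.mem_nhds h2)
    filter_upwards [eventually_gt_atTop 0, h3] with t ht h4
    have h0 : (t : ℂ) ≠ 0 := by exact_mod_cast ht.ne'
    have h5 : sp t = (t : ℂ) * ((3 / 2 : ℂ) * ((t⁻¹ : ℝ) : ℂ) - I) := by
      rw [sp]; push_cast; field_simp
    rw [h5, Complex.log_ofReal_mul ht (Complex.slitPlane_ne_zero h4)]
    ring
  have f4 : Tendsto (fun t : ℝ => Complex.exp (-(α * I) * (Complex.log (sp t) - Real.log t))) atTop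
      (𝓝 (Complex.exp (-(α * I) * Complex.log (-I)))) := (f4'.const_mul _).cexp
  -- trigonometric part
  have g1 : Tendsto (fun t : ℝ => Complex.cos (π * wp α t / 2) * Complex.exp (-(π * t))) atTop
      (𝓝 (Complex.exp ((5 * π / 4 - π * α / 2 * I) * I) / 2)) := by
    have h1 := (cos_asym (5 * π / 4 - π * α / 2 * I)).comp
      (tendsto_id.const_mul_atTop Real.pi_pos : Tendsto (fun t : ℝ => π * t) atTop atTop)
    refine h1.congr fun t => ?_
    simp only [Function.comp_apply]
    push_cast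
    congr 2
    rw [wp, sp]
    ring
  have g2 : Tendsto (fun t : ℝ => Complex.sin (π * sp t) * Complex.exp (-(π * t))) atTop
      (𝓝 (Complex.exp (π * I) / 2)) := by
    have h1 := (cos_asym (π : ℂ)).comp
      (tendsto_id.const_mul_atTop Real.pi_pos : Tendsto (fun t : ℝ => π * t) atTop atTop)
    refine h1.congr fun t => ?_
    simp only [Function.comp_apply]
    push_cast
    congr 1
    rw [← Complex.cos_sub_pi_div_two]
    congr 1
    rw [sp]
    ring
  have g3 : Tendsto (fun t : ℝ => Complex.cos (π * sp t / 2) * Complex.exp (-(π / 2 * t))) atTop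
      (𝓝 (Complex.exp ((3 * π / 4) * I) / 2)) := by
    have h1 := (cos_asym (3 * π / 4)).comp
      (tendsto_id.const_mul_atTop (by positivity : (0:ℝ) < π / 2) :
        Tendsto (fun t : ℝ => π / 2 * t) atTop atTop)
    refine h1.congr fun t => ?_
    simp only [Function.comp_apply]
    push_cast
    congr 2
    rw [sp]
    ring
  have hL2 : Complex.exp (π * I) / 2 ≠ 0 := div_ne_zero (Complex.exp_ne_zero _) two_ne_zero
  have hL3 : Complex.exp ((3 * π / 4) * I) / 2 ≠ 0 := div_ne_zero (Complex.exp_ne_zero _) two_ne_zero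
  have f5 := g1.div (g2.mul g3) (mul_ne_zero hL2 hL3)
  set C6 : ℂ := Complex.exp (Real.log (2 * π) * (-1 + α * I) + Real.log 2 * (3 / 2 - α * I)) *
    (π / (√π : ℝ)) with hC6
  have hsq : ((√π : ℝ) : ℂ) ≠ 0 := by
    exact_mod_cast (Real.sqrt_pos.2 Real.pi_pos).ne'
  have hpi : (π : ℂ) ≠ 0 := by exact_mod_cast Real.pi_ne_zero
  have hC60 : C6 ≠ 0 := mul_ne_zero (Complex.exp_ne_zero _) (div_ne_zero hpi hsq)
  have htot := ((((f1.mul f2).mul f3).mul f4).mul f5).mul_const C6
  refine ⟨_, ?_, htot.congr' ?_⟩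
  · refine mul_ne_zero (mul_ne_zero (mul_ne_zero (mul_ne_zero (by simp) Complex.I_ne_zero)
      (Complex.exp_ne_zero _)) ?_) hC60
    exact div_ne_zero (div_ne_zero (Complex.exp_ne_zero _) two_ne_zero) (mul_ne_zero hL2 hL3)
  · filter_upwards [eventually_gt_atTop 0] with t ht
    have h0 : (t : ℂ) ≠ 0 := by exact_mod_cast ht.ne'
    have hG := Gamma_sp_ne t
    have hcs := cos_sp_ne t
    have hs := sin_sp_ne t
    have hsp : (3 / 2 - (t : ℂ) * I) = sp t := rfl
    rw [hsp]
    -- the power of t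
    have p1 : (t : ℂ) ^ ((2 - α * I : ℂ) - 1) = t * Complex.exp (-(α * I) * Real.log t) := by
      have e : (2 - (α : ℂ) * I) - 1 = 1 + (-(α * I)) := by ring
      rw [e, Complex.cpow_add _ _ h0, Complex.cpow_one, Complex.cpow_def_of_ne_zero h0,
        ← Complex.ofReal_log ht.le]
      congr 2
      ring
    -- the exponentials with s'
    have p2 : Complex.exp (c1 * Complex.log (sp t)) * Complex.exp (c2 * Complex.log (sp t)) =
        Complex.exp (-(α * I) * (Complex.log (sp t) - Real.log t)) *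
          Complex.exp (-(α * I) * Real.log t) := by
      rw [← Complex.exp_add, ← Complex.exp_add]
      congr 1
      rw [hc1, hc2]
      ring
    -- constants
    have p3 : Complex.exp (-(I * (t * Real.log (π / 2)))) * (2 * π : ℂ) ^ (sp t - wp α t) *
        (2:ℂ) ^ (wp α t - 1) = Complex.exp (Real.log (2 * π) * (-1 + α * I) +
          Real.log 2 * (3 / 2 - α * I)) := by
      have q1 : (2 * (π : ℂ)) ≠ 0 := mul_ne_zero two_ne_zero hpi
      have q2 : Complex.log (2 * (π : ℂ)) = Real.log (2 * π) := by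
        have : (2 * (π : ℂ)) = ((2 * π : ℝ) : ℂ) := by push_cast; ring
        rw [this, Complex.ofReal_log (by positivity)]
      have q3 : Complex.log (2 : ℂ) = Real.log 2 := by
        have : (2 : ℂ) = ((2 : ℝ) : ℂ) := by norm_num
        rw [this, Complex.ofReal_log (by norm_num)]
      have q4 : Real.log (π / 2) = Real.log (2 * π) - 2 * Real.log 2 := by
        rw [Real.log_div Real.pi_ne_zero two_ne_zero, Real.log_mul two_ne_zero Real.pi_ne_zero]
        ring
      rw [Complex.cpow_def_of_ne_zero q1, Complex.cpow_def_of_ne_zero two_ne_zero, q2, q3, q4,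
        ← Complex.exp_add, ← Complex.exp_add]
      congr 1
      rw [wp, sp]
      push_cast
      ring
    have p4 : Complex.exp (π * t / 2) * (Complex.exp (-(π * t)) * Complex.exp (-(π / 2 * t))) =
        Complex.exp (-(π * t)) := by
      rw [← Complex.exp_add, ← Complex.exp_add]
      congr 1
      ring
    rw [GG, QQ_eq ht, p1, hC6, ← p3, ← hc1, ← hc2]
    have n1 := Complex.exp_ne_zero (c1 * Complex.log (sp t))
    have n2 := Complex.exp_ne_zero (c2 * Complex.log (sp t))
    have n3 := Complex.exp_ne_zero (-(α * I) * Real.log t)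
    have n4 := Complex.exp_ne_zero (-(π * t))
    have n5 := Complex.exp_ne_zero (-(π / 2 * t))
    have p2' : Complex.exp (-(α * I) * (Complex.log (sp t) - Real.log t)) =
        Complex.exp (c1 * Complex.log (sp t)) * Complex.exp (c2 * Complex.log (sp t)) /
          Complex.exp (-(α * I) * Real.log t) := by
      rw [p2]; field_simp
    have p4' : Complex.exp (π * t / 2) = Complex.exp (-(π * t)) /
        (Complex.exp (-(π * t)) * Complex.exp (-(π / 2 * t))) := by
      rw [eq_div_iff (mul_ne_zero n4 n5)]; exact p4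
    simp only [Pi.div_apply]
    rw [p2', p4']
    generalize Complex.exp (c1 * Complex.log (sp t)) = E1 at n1 ⊢
    generalize Complex.exp (c2 * Complex.log (sp t)) = E2 at n2 ⊢
    generalize Complex.exp (-(α * I) * Real.log t) = E3 at n3 ⊢
    generalize Complex.exp (-(π * t)) = E4 at n4 ⊢
    generalize Complex.exp (-(π / 2 * t)) = E5 at n5 ⊢
    generalize Complex.exp (-(I * (t * Real.log (π / 2)))) = E6
    generalize (2 * π : ℂ) ^ (sp t - wp α t) = E7
    generalize (2:ℂ) ^ (wp α t - 1) = E8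
    generalize Complex.cos (π * wp α t / 2) = E9
    generalize Complex.cos (π * sp t / 2) = E10 at hcs ⊢
    generalize Complex.sin (π * sp t) = E11 at hs ⊢
    generalize Complex.Gamma (sp t + c1) = E12
    generalize Complex.Gamma (sp t + c2) = E13
    generalize Complex.Gamma (sp t) = E14 at hG ⊢
    generalize ((√π : ℝ) : ℂ) = E15 at hsq ⊢
    field_simp

end Pool.Agent.helper70
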