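import Mathlib
import Pool.Agent.helper70.R2

open Complex Metric Set MeasureTheory Real Filter Topology

namespace Pool.Agent.helper70

lemma continuous_QQ (α : ℝ) : Continuous (QQ α) := by
  have hG : ∀ f : ℝ → ℂ, Continuous f → (∀ t, 0 < (f t).re) →
      Continuous fun t => Complex.Gamma (f t) := by
    intro f hf hre
    rw [continuous_iff_continuousAt]
    intro t
    have h : ContinuousAt Complex.Gamma (f t) := by
      refine (Complex.differentiableAt_Gamma _ fun m h => ?_).continuousAt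
      have h1 := congrArg Complex.re h
      have h2 := hre t
      have h3 : (0:ℝ) ≤ m := Nat.cast_nonneg m
      simp at h1
      linarith
    exact ContinuousAt.comp (f := f) (g := Complex.Gamma) h hf.continuousAt
  have hsp : Continuous sp := by unfold sp; fun_prop
  have hwp : Continuous (wp α) := by unfold wp; fun_prop
  unfold QQ
  refine Continuous.div ?_ ?_ ?_
  · refine ((Continuous.mul (hG _ (by fun_prop) fun t => ?_) ?_).mul (hG _ hwp fun t => ?_)).mul ?_
    · rw [Complex.sub_re, sp_re]; norm_num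
    · have h2 : (2 * (π : ℂ)) ≠ 0 := mul_ne_zero two_ne_zero (by exact_mod_cast Real.pi_ne_zero)
      exact Continuous.const_cpow (by fun_prop) (Or.inl h2)
    · rw [wp_re]; norm_num
    · exact Complex.continuous_cos.comp (by fun_prop)
  · exact (hG _ hsp fun t => by rw [sp_re]; norm_num).mul (Complex.continuous_cos.comp (by fun_prop))
  · exact fun t => mul_ne_zero (Gamma_sp_ne t) (cos_sp_ne t)

lemma continuous_GG (α : ℝ) : Continuous (GG α) := by
  unfold GG
  exact (by fun_prop : Continuous fun t : ℝ => Complex.exp (π * t / 2) *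
    Complex.exp (-(I * (t * Real.log (π / 2))))).mul (continuous_QQ α)

lemma GG_bound (α : ℝ) {T : ℝ} (hT : 1 ≤ T) : ∃ C : ℝ, 0 ≤ C ∧ ∀ t, T < t → ‖GG α t‖ ≤ C * t := by
  obtain ⟨Cinf, -, hC⟩ := GG_asym α
  have h1 : ∀ᶠ t : ℝ in atTop, ‖GG α t / (t : ℂ) ^ ((2 - α * I : ℂ) - 1)‖ < ‖Cinf‖ + 1 :=
    hC.norm.eventually_lt_const (by linarith)
  obtain ⟨T1, hT1⟩ := h1.exists_forall_of_atTop
  obtain ⟨M, hM⟩ := (isCompact_Icc (a := T) (b := max T T1)).exists_bound_of_continuousOn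
    (continuous_GG α).continuousOn
  have hM0 : 0 ≤ M := (norm_nonneg _).trans (hM T ⟨le_rfl, le_max_left _ _⟩)
  refine ⟨(‖Cinf‖ + 1) + M, by positivity, fun t ht => ?_⟩
  have ht0 : 0 < t := by linarith
  rcases le_total t (max T T1) with h | h
  · have h2 := hM t ⟨ht.le, h⟩
    have h3 := norm_nonneg Cinf
    nlinarith
  · have h2 := hT1 t ((le_max_right _ _).trans h)
    rw [norm_div, cpow_norm α ht0, div_lt_iff₀ ht0] at h2
    have : 0 ≤ M * t := by positivity
    nlinarith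

lemma sp_ne_neg_nat {t : ℝ} (n : ℕ) : sp t ≠ -n := by
  intro h
  have h1 := congrArg Complex.re h
  rw [sp_re] at h1
  have h3 : (0:ℝ) ≤ n := Nat.cast_nonneg n
  simp at h1
  linarith

lemma wp_ne_neg_nat {α t : ℝ} (n : ℕ) : wp α t ≠ -n := by
  intro h
  have h1 := congrArg Complex.re h
  rw [wp_re] at h1
  have h3 : (0:ℝ) ≤ n := Nat.cast_nonneg n
  simp at h1
  linarith

lemma rep_two {α T : ℝ} {h : ℂ → ℂ}
    (hfgh : ∀ s : ℂ, T - 1 < s.im → riemannZeta (tau 2 α s) = h s * riemannZeta s)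
    (t : ℝ) (ht : T < t) :
    Psi h (1 / 2 + t * I) = Complex.exp (-(π * t / 2)) *
      Complex.exp (I * (t * Real.log (π / 2))) * GG α t *
        ∑' j, bb 2 (-α) j * pw (ll 2 j) (3 / 2 - t * I) := by
  have hspre := sp_re t
  have hsp1 : sp t ≠ 1 := by
    intro h1
    rw [h1] at hspre
    norm_num at hspre
  have hwp1 : wp α t ≠ 1 := by
    intro h1
    have := wp_re α t
    rw [h1] at this
    norm_num at this
  have fe1 := riemannZeta_one_sub (s := sp t) sp_ne_neg_nat hsp1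
  have fe2 := riemannZeta_one_sub (s := wp α t) wp_ne_neg_nat hwp1
  have hL := zeta_mul_moebius (s := sp t) (by rw [hspre]; norm_num)
  set L := LSeries (fun n => (ArithmeticFunction.moebius n : ℂ)) (sp t) with hLdef
  -- the Dirichlet series
  have hq := quot_series (r := 2) (by norm_num) (-α) (-t)
  have e1 : (3 / 2 : ℂ) + ((-t : ℝ) : ℂ) * I = sp t := by rw [sp]; push_cast; ring
  have e2 : tau 2 (-α) (sp t) = wp α t := by rw [tau, wp]; push_cast; ring
  have e3 : (3 / 2 : ℂ) - t * I = sp t := rfl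
  rw [e1, e2, ← hLdef] at hq
  rw [e3, ← hq]
  -- the value of h
  have e4 : (1 / 2 + (t : ℂ) * I) - 1 = 1 - sp t := by rw [sp]; ring
  have e5 : tau 2 α (1 - sp t) = 1 - wp α t := by rw [tau, wp]; push_cast; ring
  have hh := hfgh (1 - sp t) (by rw [Complex.sub_im, sp_im]; simp; linarith)
  rw [e5, fe1, fe2] at hh
  have hG := Gamma_sp_ne t
  have hcs := cos_sp_ne t
  have hpi : (π : ℂ) ≠ 0 := by exact_mod_cast Real.pi_ne_zero
  have h2pi : (2 * (π : ℂ)) ≠ 0 := mul_ne_zero two_ne_zero hpi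
  have hval : h (1 - sp t) * (Complex.Gamma (sp t) * Complex.cos (π * sp t / 2)) =
      (2 * π : ℂ) ^ (sp t - wp α t) * Complex.Gamma (wp α t) * Complex.cos (π * wp α t / 2) *
        (riemannZeta (wp α t) * L) := by
    have hp : (2 * π : ℂ) ^ (-sp t) * (2 * π : ℂ) ^ (sp t) = 1 := by
      rw [← Complex.cpow_add _ _ h2pi, neg_add_cancel, Complex.cpow_zero]
    have hp2 : (2 * π : ℂ) ^ (sp t - wp α t) = (2 * π : ℂ) ^ (sp t) * (2 * π : ℂ) ^ (-wp α t) := by
      rw [← Complex.cpow_add _ _ h2pi]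
      congr 1
    rw [hp2]
    have hh2 := congrArg (fun x => x * ((2 * π : ℂ) ^ (sp t) * L / 2)) hh
    calc h (1 - sp t) * (Complex.Gamma (sp t) * Complex.cos (π * sp t / 2)) =
        h (1 - sp t) * (Complex.Gamma (sp t) * Complex.cos (π * sp t / 2)) *
          (((2 * π : ℂ) ^ (-sp t) * (2 * π : ℂ) ^ (sp t)) * (riemannZeta (sp t) * L)) := by
          rw [hp, hL]; ring
      _ = h (1 - sp t) * (2 * (2 * ↑π) ^ (-sp t) * Complex.Gamma (sp t) *
          Complex.cos (↑π * sp t / 2) * riemannZeta (sp t)) * ((2 * ↑π) ^ sp t * L / 2) := by ring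
      _ = _ := by rw [← hh2]; ring
  have hval2 : h (1 - sp t) = (2 * π : ℂ) ^ (sp t - wp α t) * Complex.Gamma (wp α t) *
      Complex.cos (π * wp α t / 2) * (riemannZeta (wp α t) * L) /
      (Complex.Gamma (sp t) * Complex.cos (π * sp t / 2)) := by
    rw [eq_div_iff (mul_ne_zero hG hcs), hval]
  have e6 : (1 / 2 : ℂ) + t * I = 2 - sp t := by rw [sp]; ring
  rw [Psi, e4, e6, hval2, GG, QQ]
  have x1 : Complex.exp (-(π * t / 2)) * Complex.exp (π * t / 2) = 1 := by
    rw [← Complex.exp_add, neg_add_cancel, Complex.exp_zero]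
  have x2 : Complex.exp (I * (t * Real.log (π / 2))) *
      Complex.exp (-(I * (t * Real.log (π / 2)))) = 1 := by
    rw [← Complex.exp_add, add_neg_cancel, Complex.exp_zero]
  have x3 : Complex.exp (-(π * t / 2)) * Complex.exp (I * (t * Real.log (π / 2))) *
      (Complex.exp (π * t / 2) * Complex.exp (-(I * (t * Real.log (π / 2))))) = 1 := by
    calc _ = (Complex.exp (-(π * t / 2)) * Complex.exp (π * t / 2)) *
        (Complex.exp (I * (t * Real.log (π / 2))) *
          Complex.exp (-(I * (t * Real.log (π / 2))))) := by ring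
      _ = 1 := by rw [x1, x2, one_mul]
  linear_combination (-(Complex.Gamma (2 - sp t) * (2 * π : ℂ) ^ (sp t - wp α t) *
    Complex.Gamma (wp α t) * Complex.cos (π * wp α t / 2) /
    (Complex.Gamma (sp t) * Complex.cos (π * sp t / 2))) * (riemannZeta (wp α t) * L)) * x3

lemma ll_two (j : ℕ × ℕ) : ll 2 j = (((j.1 + 1) ^ 2 * (j.2 + 1) : ℕ) : ℝ) := by
  rw [ll]
  push_cast
  congr 1
  norm_num

/-- the value of the singular sum -/
lemma sing_sum (α : ℝ) (W : ℂ) (n : ℕ) (hn : 0 < n) (j0 : ℕ × ℕ)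
    (h0 : (j0.1 + 1) ^ 2 * (j0.2 + 1) = n)
    (hu : ∀ j : ℕ × ℕ, j ≠ j0 → (j.1 + 1) ^ 2 * (j.2 + 1) = n →
      ArithmeticFunction.moebius (j.2 + 1) = 0) :
    ∑' j, (bb 2 (-α) j * (ll 2 j ^ (-(3 / 2) : ℝ) : ℝ)) *
      (if Real.log (π / 2) + Real.log (ll 2 j) - Real.log (π / 2 * n) = 0 then W else 0) =
      (bb 2 (-α) j0 * ((n : ℝ) ^ (-(3 / 2) : ℝ) : ℝ)) * W := by
  have hn' : (0:ℝ) < n := by exact_mod_cast hn
  have hcond : ∀ j : ℕ × ℕ, (Real.log (π / 2) + Real.log (ll 2 j) - Real.log (π / 2 * n) = 0) ↔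
      (j.1 + 1) ^ 2 * (j.2 + 1) = n := by
    intro j
    rw [Real.log_mul (by positivity) hn'.ne', ll_two]
    have hp : (0:ℝ) < (((j.1 + 1) ^ 2 * (j.2 + 1) : ℕ) : ℝ) := by positivity
    constructor
    · intro h
      have h1 : Real.log (((j.1 + 1) ^ 2 * (j.2 + 1) : ℕ) : ℝ) = Real.log n := by linarith
      exact_mod_cast Real.log_injOn_pos hp hn' h1
    · intro h
      rw [h]; ring
  rw [tsum_eq_single j0]
  · rw [if_pos ((hcond j0).2 h0), ll_two, h0]
  · intro j hj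
    split_ifs with h
    · have := hu j hj ((hcond j).1 h)
      rw [bb, this]
      simp
    · simp

/-- the case `r = 2` -/
theorem contra_two {α T0 : ℝ} (hT0 : |α| + 4 ≤ T0)
    (hord : ∀ s : ℂ, T0 < s.im → meromorphicOrderAt riemannZeta s ≤
      meromorphicOrderAt riemannZeta (tau 2 α s)) : False := by
  have hα := abs_nonneg α
  obtain ⟨h, T, hT, hcont, hfgh⟩ := exists_cont (r := 2) (by norm_num) hT0 hord (N := 1) le_rfl
  have h21 : ((2 : ℕ) : ℝ) / ((1 : ℕ) : ℝ) = 2 := by norm_num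
  obtain ⟨C, hC0, hC⟩ := left_bound (p := 2) (q := 1) one_pos (by norm_num) α (by linarith)
    (by linarith) 1 le_rfl (h := h) (T := T) (by rw [h21]; exact hfgh)
  have hleft : LeftPoly h T 1 1 := by
    refine ⟨C, hC0, fun t ht => ?_⟩
    have ht0 : 0 < t := by linarith
    have h1 := hC t ht
    simp only [mul_one, one_mul, pow_one] at h1
    have h2 : ‖h (1 / 2 - ((1 : ℕ) : ℂ) + t * I)‖ ≤ C * t := by
      refine le_of_mul_le_mul_right ?_ ht0
      refine h1.trans (le_of_eq ?_)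
      ring
    rw [pow_one]
    refine h2.trans ?_
    gcongr
    linarith
  obtain ⟨Cinf, hCinf, hasym⟩ := GG_asym α
  obtain ⟨C1, hC10, hC1⟩ := GG_bound α (T := T) (by linarith)
  have hll : ∀ j, 1 ≤ ll 2 j := ll_ge_one (by norm_num)
  have hpi3 := Real.pi_gt_three
  have main := fun (y0 : ℝ) (hy0 : 1 ≤ y0) => T3 (b' := bb 2 (-α)) (lam' := ll 2) (G := GG α)
    (C := C1) (η := α) (κ := π / 2) (Cinf := Cinf) hcont hleft hll (summable_bb (by norm_num) (-α))
    hC10 (continuous_GG α).aestronglyMeasurable hC1 hasym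
    (fun t ht => rep_two hfgh t ht) hy0
  set W : ℂ := Cinf * Complex.Gamma (2 - α * I) with hW
  have hW0 : W ≠ 0 := by
    refine mul_ne_zero hCinf (Complex.Gamma_ne_zero_of_re_pos ?_)
    simp
  have m1 := main (π / 2 * (1 : ℕ)) (by push_cast; linarith)
  have m9 := main (π / 2 * (9 : ℕ)) (by push_cast; linarith)
  rw [sing_sum α W 1 one_pos (0, 0) (by norm_num) (by
    rintro ⟨m, k⟩ hne heq
    exfalso
    apply hne
    have h1 : (m + 1) ^ 2 * (k + 1) = 1 := heq
    have h2 : m = 0 := by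
      by_contra hc
      have h3 : 1 ≤ m := Nat.one_le_iff_ne_zero.2 hc
      have h4 : 4 ≤ (m + 1) ^ 2 := by nlinarith
      nlinarith
    subst h2
    have h3 : k = 0 := by omega
    subst h3
    rfl)] at m1
  rw [sing_sum α W 9 (by norm_num) (2, 0) (by norm_num) (by
    rintro ⟨m, k⟩ hne heq
    have h1 : (m + 1) ^ 2 * (k + 1) = 9 := heq
    have hm : m ≤ 2 := by
      by_contra hc
      have : 16 ≤ (m + 1) ^ 2 := by nlinarith [Nat.lt_of_not_le hc]
      nlinarith
    interval_cases m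
    · have : k = 8 := by omega
      subst this
      have h9 : (8 + 1 : ℕ) = 3 ^ 2 := by norm_num
      simp only
      rw [h9, ArithmeticFunction.moebius_apply_prime_pow Nat.prime_three (by norm_num)]
      simp
    · exfalso; omega
    · exfalso
      apply hne
      have : k = 0 := by omega
      subst this
      rfl)] at m9
  -- periodicity
  have hper : ∀ δ : ℝ, ∑' j, bb 2 α j * (ll 2 j * Complex.exp (-(ll 2 j : ℂ) *
      (δ + ((π / 2 * (9 : ℕ) : ℝ) : ℂ) * I))) = ∑' j, bb 2 α j * (ll 2 j *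
      Complex.exp (-(ll 2 j : ℂ) * (δ + ((π / 2 * (1 : ℕ) : ℝ) : ℂ) * I))) := by
    intro δ
    refine tsum_congr fun j => ?_
    congr 2
    rw [Complex.exp_eq_exp_iff_exists_int]
    refine ⟨-(2 * ((j.1 + 1) ^ 2 * (j.2 + 1) : ℕ)), ?_⟩
    rw [ll_two]
    push_cast
    ring
  simp_rw [hper] at m9
  have huniq := tendsto_nhds_unique m1 m9
  have hb1 : ‖bb 2 (-α) (0, 0)‖ = 1 := by
    rw [norm_bb]
    simp
  have hb9 : ‖bb 2 (-α) (2, 0)‖ = (3:ℝ) ^ (1 / 2 : ℝ) := by
    rw [norm_bb]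
    norm_num
  have nn1 : ‖bb 2 (-α) (0, 0) * ((((1 : ℕ) : ℝ) ^ (-(3 / 2) : ℝ) : ℝ) : ℂ) * W‖ = ‖W‖ := by
    rw [norm_mul, norm_mul, hb1]
    simp
  have nn9 : ‖bb 2 (-α) (2, 0) * ((((9 : ℕ) : ℝ) ^ (-(3 / 2) : ℝ) : ℝ) : ℂ) * W‖ =
      (3:ℝ) ^ (1 / 2 : ℝ) * ((9 : ℕ) : ℝ) ^ (-(3 / 2) : ℝ) * ‖W‖ := by
    rw [norm_mul, norm_mul, hb9, Complex.norm_real, Real.norm_of_nonneg (by positivity)]
  rw [nn1, nn9] at huniq
  have hWn : 0 < ‖W‖ := norm_pos_iff.2 hW0
  have hk : (0:ℝ) < π / 2 := by positivity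
  have hlog9 : Real.exp (-(1 / 2) * Real.log (π / 2 * (9 : ℕ))) =
      Real.exp (-(1 / 2) * Real.log (π / 2 * (1 : ℕ))) * (1 / 3) := by
    have h9 : Real.log (π / 2 * (9 : ℕ)) = Real.log (π / 2 * (1 : ℕ)) + 2 * Real.log 3 := by
      rw [Real.log_mul hk.ne' (by norm_num)]
      have : Real.log ((9 : ℕ) : ℝ) = 2 * Real.log 3 := by
        have h3 : ((9 : ℕ) : ℝ) = 3 ^ 2 := by norm_num
        rw [h3, Real.log_pow]; norm_num
      rw [this]
      simp
    rw [h9]
    have : -(1 / 2) * (Real.log (π / 2 * (1 : ℕ)) + 2 * Real.log 3) =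
      -(1 / 2) * Real.log (π / 2 * (1 : ℕ)) + -Real.log 3 := by ring
    rw [this, Real.exp_add, Real.exp_neg, Real.exp_log (by norm_num)]
    norm_num
  have h27 : ((9 : ℕ) : ℝ) ^ (-(3 / 2) : ℝ) = 1 / 27 := by
    have h3 : ((9 : ℕ) : ℝ) = 3 ^ (2:ℝ) := by norm_num
    rw [h3, ← Real.rpow_mul (by norm_num)]
    have : (2:ℝ) * -(3 / 2) = -3 := by norm_num
    rw [this, Real.rpow_neg (by norm_num)]
    norm_num
  rw [hlog9, h27] at huniq
  set e := Real.exp (-(1 / 2) * Real.log (π / 2 * (1 : ℕ))) with he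
  have he0 : 0 < e := Real.exp_pos _
  have h3 : (1:ℝ) < (3:ℝ) ^ (1 / 2 : ℝ) := Real.one_lt_rpow (by norm_num) (by norm_num)
  have hfac : 0 < (2 * π)⁻¹ * (π / 2) ^ 2 * e * ‖W‖ := by positivity
  norm_num at huniq
  have h5 : (2 * π)⁻¹ * (π / 2) ^ 2 * e * ‖W‖ * ((3:ℝ) ^ (1 / 2 : ℝ) - 1) = 0 := by
    ring_nf at huniq ⊢
    linarith
  rcases mul_eq_zero.1 h5 with h6 | h6
  · exact hfac.ne' h6
  · linarith

end Pool.Agent.helper70
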