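import Mathlib
import Pool.Agent.helper70.R2b
import Pool.Agent.helper70.Lt

open Complex Metric Set MeasureTheory Real Filter Topology

namespace Pool.Agent.helper70

lemma order_le {s s' : ℂ} (hs : s ≠ 1) (hs' : s' ≠ 1)
    (h : analyticOrderNatAt riemannZeta s ≤ analyticOrderNatAt riemannZeta s') :
    meromorphicOrderAt riemannZeta s ≤ meromorphicOrderAt riemannZeta s' := by
  have key : ∀ s : ℂ, s ≠ 1 →
      meromorphicOrderAt riemannZeta s = ((analyticOrderNatAt riemannZeta s : ℤ) : WithTop ℤ) := by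
    intro s hs
    have h1 := (analyticAt_zeta hs).meromorphicOrderAt_eq
    have h2 : analyticOrderAt riemannZeta s ≠ ⊤ := by
      intro h3
      apply zeta_order_ne_top hs
      rw [h1, h3]
      rfl
    rw [h1, ← Nat.cast_analyticOrderNatAt h2]
    rfl
  rw [key s hs, key s' hs']
  exact_mod_cast h

/-- No finite exceptional set for `1 ≤ r ≤ 2`. -/
theorem dilation_infinite (r : ℚ) (hr1 : 1 ≤ r) (hr2 : r ≤ 2) (α : ℝ) (hne : ¬ (r = 1 ∧ α = 0)) :
    {ρ : ℂ | 0 < ρ.im ∧ analyticOrderNatAt riemannZeta (1 / 2 + r * (ρ - 1 / 2) + α * I) <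
      analyticOrderNatAt riemannZeta ρ}.Infinite := by
  intro hfin
  obtain ⟨M, hM⟩ := (hfin.image Complex.im).bddAbove
  set T0 : ℝ := max M (|α| + 4) with hT0
  have hα := abs_nonneg α
  have hT4 : |α| + 4 ≤ T0 := le_max_right _ _
  have hr1' : (1:ℝ) ≤ (r : ℝ) := by exact_mod_cast hr1
  have hord : ∀ s : ℂ, T0 < s.im →
      meromorphicOrderAt riemannZeta s ≤ meromorphicOrderAt riemannZeta (tau (r : ℝ) α s) := by
    intro s hs
    have h1 : s ≠ 1 := by
      intro h; rw [h] at hs; simp at hs; linarith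
    have h2 : tau (r : ℝ) α s ≠ 1 := by
      intro h
      have h3 := congrArg Complex.im h
      rw [tau_im] at h3
      have h4 := neg_abs_le α
      simp at h3
      nlinarith
    refine order_le h1 h2 ?_
    by_contra hlt
    rw [not_le] at hlt
    have h5 : s ∈ {ρ : ℂ | 0 < ρ.im ∧ analyticOrderNatAt riemannZeta
        (1 / 2 + r * (ρ - 1 / 2) + α * I) < analyticOrderNatAt riemannZeta ρ} := by
      refine ⟨by linarith, ?_⟩
      have h6 : (1 / 2 + (r : ℂ) * (s - 1 / 2) + α * I) = tau (r : ℝ) α s := by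
        rw [tau]; push_cast; rfl
      rw [h6]
      exact hlt
    have h7 := hM (Set.mem_image_of_mem Complex.im h5)
    have h8 : M ≤ T0 := le_max_left _ _
    linarith
  -- the three cases
  rcases eq_or_lt_of_le hr1 with h1 | h1
  · -- r = 1
    have hα0 : α ≠ 0 := fun h => hne ⟨h1.symm, h⟩
    rw [← h1] at hord
    exact contra_one hα0 hT4 (by simpa using hord)
  rcases eq_or_lt_of_le hr2 with h2 | h2
  · rw [h2] at hord
    exact contra_two hT4 (by simpa using hord)
  · -- 1 < r < 2
    have hden : 0 < r.den := r.den_pos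
    have hnum : 0 < r.num := by
      rw [Rat.num_pos]; linarith
    obtain ⟨p, hp⟩ : ∃ p : ℕ, r.num = p := ⟨r.num.toNat, (Int.toNat_of_nonneg hnum.le).symm⟩
    have hrpq : r = (p : ℚ) / (r.den : ℚ) := by
      conv_lhs => rw [← Rat.num_div_den r]
      rw [hp]
      push_cast
      rfl
    have hdq : (0:ℚ) < (r.den : ℚ) := by exact_mod_cast hden
    have hqp : r.den < p := by
      rw [hrpq, lt_div_iff₀ hdq, one_mul] at h1
      exact_mod_cast h1
    have hp2 : p < 2 * r.den := by
      rw [hrpq, div_lt_iff₀ hdq] at h2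
      exact_mod_cast h2
    have hrR : (r : ℝ) = (p : ℝ) / (r.den : ℝ) := by
      conv_lhs => rw [hrpq]
      push_cast
      rfl
    rw [hrR] at hord
    exact contra_gt_one hden hqp hp2 hT4 hord

end Pool.Agent.helper70
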