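import Mathlib
import Pool.Agent.helper70.Lt

open Complex Metric Set MeasureTheory Real Filter Topology

namespace Pool.Agent.helper70

/-- in every interval `[X, K X]` there is an isolated frequency with a non small coefficient -/
def GoodFreq (r α : ℝ) : Prop :=
  ∃ g c K X0 : ℝ, 0 < g ∧ g ≤ 1 ∧ 0 < c ∧ 1 ≤ K ∧ ∀ X : ℝ, X0 ≤ X → ∃ n : ℝ, X ≤ n ∧ n ≤ K * X ∧
    (∀ j, ll r j = n ∨ g ≤ |n - ll r j|) ∧ c ≤ ‖∑' j, (if ll r j = n then bb r α j else 0)‖

theorem goodFreq_gt_one {p q : ℕ} (hq : 0 < q) (hqp : q < p) (α : ℝ) :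
    GoodFreq ((p : ℝ) / q) α := by
  obtain ⟨g, hg0, hg1, K1, hg⟩ := gap_strong hq hqp
  refine ⟨g, 1, 4, (K1 : ℝ) + 1, hg0, by linarith, one_pos, by norm_num, fun X hX => ?_⟩
  have hK1 : (0:ℝ) ≤ K1 := Nat.cast_nonneg K1
  have hX0 : 0 ≤ X := by linarith
  obtain ⟨n, hn1, hn2, hsq, hiso⟩ := hg ⌈X⌉₊ (by
    have h1 := Nat.le_ceil X
    have h2 : (K1 : ℝ) ≤ (⌈X⌉₊ : ℝ) := by linarith
    exact_mod_cast h2)
  have hceil1 := Nat.le_ceil X
  have hceil2 := Nat.ceil_lt_add_one hX0
  have hn1' : ((⌈X⌉₊ : ℕ) : ℝ) < n := by exact_mod_cast hn1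
  have hn2' : (n : ℝ) ≤ 2 * ((⌈X⌉₊ : ℕ) : ℝ) := by exact_mod_cast hn2
  have hn0 : 1 ≤ n := by omega
  have hfar : ∀ j : ℕ × ℕ, 1 ≤ j.1 → g ≤ |(n : ℝ) - ll ((p : ℝ) / q) j| := by
    intro j hj
    have := hiso (j.1 + 1) (j.2 + 1) (by omega) (by omega)
    push_cast at this
    exact this
  have h0 : ∀ k : ℕ, ll ((p : ℝ) / q) (0, k) = k + 1 := by
    intro k
    simp [ll]
  refine ⟨n, by linarith, by linarith, ?_, ?_⟩
  · rintro ⟨m, k⟩
    rcases Nat.eq_zero_or_pos m with hm | hm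
    · subst hm
      by_cases hkn : k + 1 = n
      · left; rw [h0, ← hkn]; push_cast; rfl
      · right
        rw [h0]
        have h1 : ((n : ℤ) - (k + 1 : ℕ) : ℤ) ≠ 0 := by omega
        have h2 : (1:ℝ) ≤ |(n : ℝ) - (k + 1)| := by
          have := Int.one_le_abs h1
          have h3 : (1:ℝ) ≤ ((|((n : ℤ) - (k + 1 : ℕ) : ℤ)| : ℤ) : ℝ) := by exact_mod_cast this
          push_cast at h3
          exact h3
        linarith
    · exact Or.inr (hfar _ hm)
  · have hts : ∑' j, (if ll ((p : ℝ) / q) j = n then bb ((p : ℝ) / q) α j else 0) =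
        bb ((p : ℝ) / q) α (0, n - 1) := by
      rw [tsum_eq_single (0, n - 1)]
      · rw [if_pos]
        rw [h0]
        have : ((n - 1 : ℕ) : ℝ) = n - 1 := by rw [Nat.cast_sub hn0]; simp
        rw [this]; ring
      · rintro ⟨m, k⟩ hmk
        rw [if_neg]
        intro heq
        rcases Nat.eq_zero_or_pos m with hm | hm
        · subst hm
          rw [h0] at heq
          apply hmk
          have : k + 1 = n := by exact_mod_cast heq
          ext
          · rfl
          · simp only; omega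
        · have := hfar (m, k) hm
          rw [heq, sub_self, abs_zero] at this
          linarith
    rw [hts]
    have hb : ‖bb ((p : ℝ) / q) α (0, n - 1)‖ = 1 := by
      rw [norm_bb]
      have h5 : n - 1 + 1 = n := by omega
      simp only [h5]
      have h6 : (ArithmeticFunction.moebius n) = 1 ∨ (ArithmeticFunction.moebius n) = -1 :=
        ArithmeticFunction.moebius_ne_zero_iff_eq_or.1
          (ArithmeticFunction.moebius_ne_zero_iff_squarefree.2 hsq)
      rcases h6 with h6 | h6 <;> rw [h6] <;> simp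
    rw [hb]

lemma exists_prime_ne {α : ℝ} (hα : α ≠ 0) : ∃ P : ℕ, P.Prime ∧
    Complex.exp (-(α * I) * Real.log P) ≠ 1 := by
  by_contra hcon
  push Not at hcon
  have k2 := hcon 2 Nat.prime_two
  have k3 := hcon 3 Nat.prime_three
  rw [Complex.exp_eq_one_iff] at k2 k3
  obtain ⟨a, ha⟩ := k2
  obtain ⟨b, hb⟩ := k3
  have ha' : -(α * Real.log 2) = a * (2 * π) := by
    have := congrArg Complex.im ha
    have e1 : (-(α * I) * (Real.log (2 : ℕ) : ℝ)) = ((-(α * Real.log 2) : ℝ) : ℂ) * I := by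
      push_cast; ring
    have e2 : (a : ℂ) * (2 * π * I) = ((a * (2 * π) : ℝ) : ℂ) * I := by push_cast; ring
    rw [e1, e2, Complex.im_ofReal_mul, Complex.im_ofReal_mul, Complex.I_im, mul_one,
      mul_one] at this
    exact this
  have hb' : -(α * Real.log 3) = b * (2 * π) := by
    have := congrArg Complex.im hb
    have e1 : (-(α * I) * (Real.log (3 : ℕ) : ℝ)) = ((-(α * Real.log 3) : ℝ) : ℂ) * I := by
      push_cast; ring
    have e2 : (b : ℂ) * (2 * π * I) = ((b * (2 * π) : ℝ) : ℂ) * I := by push_cast; ring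
    rw [e1, e2, Complex.im_ofReal_mul, Complex.im_ofReal_mul, Complex.I_im, mul_one,
      mul_one] at this
    exact this
  have hl2 : 0 < Real.log 2 := Real.log_pos (by norm_num)
  have hl3 : 0 < Real.log 3 := Real.log_pos (by norm_num)
  have hpi := Real.pi_pos
  have hb0 : b ≠ 0 := by
    rintro rfl
    rw [Int.cast_zero, zero_mul, neg_eq_zero, mul_eq_zero] at hb'
    rcases hb' with h | h
    · exact hα h
    · exact hl3.ne' h
  have hrel : (a : ℝ) * Real.log 3 = b * Real.log 2 := by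
    have h1 : (2 * π) * α * (a * Real.log 3 - b * Real.log 2) = 0 := by
      have : -(α * Real.log 2) * (α * Real.log 3) = -(α * Real.log 3) * (α * Real.log 2) := by ring
      rw [ha', hb'] at this
      linear_combination this
    rcases mul_eq_zero.1 h1 with h2 | h2
    · rcases mul_eq_zero.1 h2 with h3 | h3
      · linarith
      · exact absurd h3 hα
    · linarith
  have hrel2 : (a.natAbs : ℝ) * Real.log 3 = b.natAbs * Real.log 2 := by
    have := congrArg abs hrel
    rw [abs_mul, abs_mul, abs_of_pos hl2, abs_of_pos hl3] at this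
    rw [Nat.cast_natAbs, Nat.cast_natAbs]
    push_cast
    exact this
  have hpow : (3 : ℝ) ^ a.natAbs = 2 ^ b.natAbs := by
    rw [← Real.log_pow, ← Real.log_pow] at hrel2
    exact Real.log_injOn_pos (by simp) (by simp) hrel2
  have hpow' : 3 ^ a.natAbs = 2 ^ b.natAbs := by exact_mod_cast hpow
  have h2d : 2 ∣ 3 ^ a.natAbs := by
    rw [hpow']
    exact dvd_pow_self 2 (by omega)
  have := Nat.prime_two.dvd_of_dvd_pow h2d
  omega

theorem goodFreq_one {α : ℝ} (hα : α ≠ 0) : GoodFreq 1 α := by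
  obtain ⟨P, hP, hPne⟩ := exists_prime_ne hα
  have hP1 := hP.one_lt
  have hP1' : (1:ℝ) < P := by exact_mod_cast hP1
  refine ⟨1, ‖Complex.exp (-(α * I) * Real.log P) - 1‖, P, 1, one_pos, le_rfl,
    norm_pos_iff.2 (sub_ne_zero.2 hPne), hP1'.le, fun X hX => ?_⟩
  obtain ⟨i, hi1, hi2⟩ := exists_nat_pow_near hX hP1'
  refine ⟨((P ^ (i + 1) : ℕ) : ℝ), ?_, ?_, ?_, ?_⟩
  · push_cast; exact hi2.le
  · push_cast
    rw [pow_succ, mul_comm]
    exact mul_le_mul_of_nonneg_left hi1 (by linarith)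
  · rintro ⟨m, k⟩
    have hll : ll 1 (m, k) = (((m + 1) * (k + 1) : ℕ) : ℝ) := by simp [ll]
    rw [hll]
    by_cases h3 : (m + 1) * (k + 1) = P ^ (i + 1)
    · left; rw [h3]
    · right
      have h4 : (((P ^ (i + 1) : ℕ) : ℤ) - ((m + 1) * (k + 1) : ℕ) : ℤ) ≠ 0 := by
        intro h5
        apply h3
        have : ((P ^ (i + 1) : ℕ) : ℤ) = (((m + 1) * (k + 1) : ℕ) : ℤ) := by linarith
        exact_mod_cast this.symm
      have h5 := Int.one_le_abs h4
      have h6 : (1:ℝ) ≤ ((|(((P ^ (i + 1) : ℕ) : ℤ) - ((m + 1) * (k + 1) : ℕ) : ℤ)| : ℤ) : ℝ) := by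
        exact_mod_cast h5
      rw [Int.cast_abs, Int.cast_sub, Int.cast_natCast, Int.cast_natCast] at h6
      exact h6
  · rw [coeff_prime_pow hP, norm_mul, Complex.norm_exp]
    have h3 : (-(α * I) * (i * Real.log P)).re = 0 := by
      have : (-(α * I) * (i * Real.log P)) = ((-(α * (i * Real.log P)) : ℝ) : ℂ) * I := by
        push_cast; ring
      rw [this, Complex.re_ofReal_mul, Complex.I_re, mul_zero]
    rw [h3, Real.exp_zero, one_mul]

end Pool.Agent.helper70
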