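import Mathlib
import Pool.Agent.helper70.Shift

open Complex Metric Set MeasureTheory Real Filter Topology

namespace Pool.Agent.helper70

/-- Gaussian weight centred at height `T` with width `Δ` -/
noncomputable def Wt (T Δ : ℝ) (s : ℂ) : ℂ := Complex.exp ((s - T * I) ^ 2 / (Δ : ℂ) ^ 2)

lemma norm_Wt (T Δ σ t : ℝ) :
    ‖Wt T Δ (σ + t * I)‖ = Real.exp ((σ ^ 2 - (t - T) ^ 2) / Δ ^ 2) := by
  rw [Wt, Complex.norm_exp]
  congr 1
  have e1 : ((σ : ℂ) + t * I - T * I) ^ 2 / (Δ : ℂ) ^ 2 =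
      (((σ ^ 2 - (t - T) ^ 2) / Δ ^ 2 : ℝ) : ℂ) + ((2 * σ * (t - T) / Δ ^ 2 : ℝ) : ℂ) * I := by
    have h2 : ((σ : ℂ) + t * I - T * I) ^ 2 =
        ((σ ^ 2 - (t - T) ^ 2 : ℝ) : ℂ) + ((2 * σ * (t - T) : ℝ) : ℂ) * I := by
      push_cast
      linear_combination (((t : ℂ) - T) ^ 2) * Complex.I_sq
    rw [h2]
    push_cast
    ring
  rw [e1, Complex.add_re, Complex.ofReal_re, Complex.re_ofReal_mul, Complex.I_re, mul_zero,
    add_zero]

lemma continuous_Wt (T Δ : ℝ) : Continuous (Wt T Δ) := by unfold Wt; fun_prop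

/-- the Gaussian integral -/
lemma gauss_term (T L : ℝ) {Δ : ℝ} (hΔ : 0 < Δ) :
    ∫ t : ℝ, Complex.exp ((3 / 2 + t * I) * L) * Wt T Δ (3 / 2 + t * I) =
      (√π * Δ : ℝ) * (Complex.exp (I * (T * L)) * (Real.exp (-(Δ ^ 2 * L ^ 2 / 4)) : ℝ)) := by
  have hΔ0 : (Δ : ℂ) ≠ 0 := by exact_mod_cast hΔ.ne'
  set b : ℂ := -(1 / (Δ : ℂ) ^ 2) with hb
  set c : ℂ := I * L + 2 * I * (3 / 2 - T * I) / (Δ : ℂ) ^ 2 with hc
  set d : ℂ := (3 / 2) * L + (3 / 2 - T * I) ^ 2 / (Δ : ℂ) ^ 2 with hd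
  have hbre : b.re < 0 := by
    have : b = ((-(1 / Δ ^ 2) : ℝ) : ℂ) := by rw [hb]; push_cast; ring
    rw [this, Complex.ofReal_re]
    have : 0 < 1 / Δ ^ 2 := by positivity
    linarith
  have h1 := integral_cexp_quadratic hbre c d
  have h2 : ∀ t : ℝ, Complex.exp ((3 / 2 + t * I) * L) * Wt T Δ (3 / 2 + t * I) =
      Complex.exp (b * t ^ 2 + c * t + d) := by
    intro t
    rw [Wt, ← Complex.exp_add]
    congr 1
    rw [hb, hc, hd]
    field_simp
    linear_combination (4 * (t : ℂ) ^ 2) * Complex.I_sq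
  simp_rw [h2]
  rw [h1]
  have h3 : ((π : ℂ) / -b) ^ (1 / 2 : ℂ) = ((√π * Δ : ℝ) : ℂ) := by
    have e1 : (π : ℂ) / -b = ((π * Δ ^ 2 : ℝ) : ℂ) := by
      rw [hb]; push_cast; field_simp
    rw [e1]
    have e2 : (1 / 2 : ℂ) = ((1 / 2 : ℝ) : ℂ) := by push_cast; ring
    rw [e2, ← Complex.ofReal_cpow (by positivity)]
    congr 1
    rw [← Real.sqrt_eq_rpow, Real.sqrt_mul Real.pi_pos.le, Real.sqrt_sq hΔ.le]
  have h4 : d - c ^ 2 / (4 * b) = I * (T * L) + ((-(Δ ^ 2 * L ^ 2 / 4) : ℝ) : ℂ) := by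
    set u : ℂ := L + 2 * (3 / 2 - T * I) / (Δ : ℂ) ^ 2 with hu
    have hc2 : c ^ 2 = -u ^ 2 := by
      have : c = I * u := by rw [hc, hu]; ring
      rw [this, mul_pow, Complex.I_sq]; ring
    rw [hc2, hb, hd, hu]
    push_cast
    field_simp
    ring
  rw [h3, h4, Complex.exp_add, Complex.ofReal_exp]

section
variable {ι : Type*} {b : ι → ℂ} {lam : ι → ℝ}

lemma norm_term' (hlam : ∀ j, 1 ≤ lam j) (j : ι) (t : ℝ) :
    ‖b j * pw (lam j) (3 / 2 + t * I)‖ = ‖b j‖ * lam j ^ (-(3 / 2) : ℝ) := by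
  have h1 : 0 < lam j := by linarith [hlam j]
  have h2 := norm_pw (lam j) (3 / 2) t
  push_cast at h2
  rw [norm_mul, h2, Complex.norm_real, Real.norm_of_nonneg h1.le, Complex.arg_ofReal_of_nonneg h1.le,
    mul_zero, Real.exp_zero, mul_one, Real.rpow_def_of_pos h1]
  congr 2
  ring

lemma norm_DD_le' (hlam : ∀ j, 1 ≤ lam j)
    (hsum : Summable fun j => ‖b j‖ * lam j ^ (-(3 / 2) : ℝ)) (t : ℝ) :
    ‖DD b lam t‖ ≤ D0 b lam :=
  tsum_of_norm_bounded hsum.hasSum fun j => (norm_term' hlam j t).le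

lemma continuous_DD' (hlam : ∀ j, 1 ≤ lam j)
    (hsum : Summable fun j => ‖b j‖ * lam j ^ (-(3 / 2) : ℝ)) : Continuous (DD b lam) := by
  refine continuous_tsum (fun j => ?_) hsum (fun j t => (norm_term' hlam j t).le)
  exact continuous_const.mul ((continuous_pw _).comp (by fun_prop))

lemma D0_nonneg' (hlam : ∀ j, 1 ≤ lam j) : 0 ≤ D0 b lam := by
  refine tsum_nonneg fun j => ?_
  have : 0 < lam j := by linarith [hlam j]
  positivity

/-- the weighted integrand on the right line -/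
noncomputable def RI (b : ι → ℂ) (lam : ι → ℝ) (n T Δ t : ℝ) : ℂ :=
  DD b lam t * (Complex.exp ((3 / 2 + t * I) * Real.log n) * Wt T Δ (3 / 2 + t * I))

lemma norm_kernel (n T : ℝ) {Δ : ℝ} (hn : 1 ≤ n) (hΔ : 1 ≤ Δ) (t : ℝ) :
    ‖Complex.exp ((3 / 2 + t * I) * Real.log n) * Wt T Δ (3 / 2 + t * I)‖ ≤
      (n ^ (3 / 2 : ℝ) * Real.exp 3) * Real.exp (-(t - T) ^ 2 / Δ ^ 2) := by
  have h1 := norm_Wt T Δ (3 / 2) t
  push_cast at h1
  have hn0 : 0 < n := by linarith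
  rw [norm_mul, h1, Complex.norm_exp]
  have h2 : ((3 / 2 + (t : ℂ) * I) * (Real.log n : ℝ)).re = Real.log n * (3 / 2) := by
    rw [Complex.re_mul_ofReal]; simp; ring
  rw [h2, ← Real.rpow_def_of_pos hn0, mul_assoc, ← Real.exp_add]
  refine mul_le_mul_of_nonneg_left (Real.exp_le_exp.2 ?_) (by positivity)
  have h3 : (3 / 2 : ℝ) ^ 2 / Δ ^ 2 ≤ 3 := by
    rw [div_le_iff₀ (by positivity)]
    nlinarith
  rw [sub_div, neg_div]
  linarith

lemma integrable_gauss (T : ℝ) {c : ℝ} (hc : 0 < c) :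
    Integrable fun t : ℝ => Real.exp (-c * (t - T) ^ 2) :=
  (integrable_exp_neg_mul_sq hc).comp_sub_right T

lemma integral_gauss_shift (T : ℝ) (c : ℝ) :
    ∫ t : ℝ, Real.exp (-c * (t - T) ^ 2) = √(π / c) := by
  rw [integral_sub_right_eq_self (fun t : ℝ => Real.exp (-c * t ^ 2)) T]
  exact integral_gaussian c

lemma integrable_kernel (n T : ℝ) {Δ : ℝ} (hn : 1 ≤ n) (hΔ : 1 ≤ Δ) :
    Integrable fun t : ℝ => Complex.exp ((3 / 2 + t * I) * Real.log n) *
      Wt T Δ (3 / 2 + t * I) := by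
  have hΔ0 : 0 < Δ := by linarith
  have h1 := (integrable_gauss T (c := 1 / Δ ^ 2) (by positivity)).const_mul
    (n ^ (3 / 2 : ℝ) * Real.exp 3)
  refine Integrable.mono' h1 ?_ (Eventually.of_forall fun t => ?_)
  · refine Continuous.aestronglyMeasurable ?_
    exact (by fun_prop : Continuous fun t : ℝ => Complex.exp ((3 / 2 + t * I) * Real.log n)).mul
      ((continuous_Wt T Δ).comp (by fun_prop))
  · refine (norm_kernel n T hn hΔ t).trans (le_of_eq ?_)
    congr 2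
    ring

/-- the extraction sum -/
lemma RI_sum [Countable ι] (hlam : ∀ j, 1 ≤ lam j)
    (hsum : Summable fun j => ‖b j‖ * lam j ^ (-(3 / 2) : ℝ)) {n T Δ : ℝ} (hn : 1 ≤ n)
    (hΔ : 1 ≤ Δ) :
    HasSum (fun j => b j * ((√π * Δ : ℝ) * (Complex.exp (I * (T * (Real.log n - Real.log (lam j)))) *
      (Real.exp (-(Δ ^ 2 * (Real.log n - Real.log (lam j)) ^ 2 / 4)) : ℝ))))
      (∫ t : ℝ, RI b lam n T Δ t) := by
  have hker := integrable_kernel n T hn hΔ
  set K : ℝ → ℂ := fun t => Complex.exp ((3 / 2 + t * I) * Real.log n) *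
      Wt T Δ (3 / 2 + t * I) with hK
  have hF : ∀ j, Integrable (fun t : ℝ => K t * (b j * pw (lam j) (3 / 2 + t * I))) := by
    intro j
    refine Integrable.mul_bdd (c := ‖b j‖ * lam j ^ (-(3 / 2) : ℝ)) hker ?_ ?_
    · exact (continuous_const.mul ((continuous_pw _).comp (by fun_prop))).aestronglyMeasurable
    · exact Eventually.of_forall fun t => (norm_term' hlam j t).le
  have hS : Summable fun j => ∫ t : ℝ, ‖K t * (b j * pw (lam j) (3 / 2 + t * I))‖ := by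
    have : ∀ j, ∫ t : ℝ, ‖K t * (b j * pw (lam j) (3 / 2 + t * I))‖ =
        (∫ t : ℝ, ‖K t‖) * (‖b j‖ * lam j ^ (-(3 / 2) : ℝ)) := by
      intro j
      rw [← integral_mul_const]
      refine integral_congr_ae (Eventually.of_forall fun t => ?_)
      simp only
      rw [norm_mul, norm_term' hlam j t]
    simp_rw [this]
    exact hsum.mul_left _
  have h1 := hasSum_integral_of_summable_integral_norm hF hS
  have h3 : ∀ t : ℝ, ∑' j, K t * (b j * pw (lam j) (3 / 2 + t * I)) = RI b lam n T Δ t := by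
    intro t
    rw [tsum_mul_left, RI, DD, mul_comm]
  simp_rw [h3] at h1
  refine h1.congr_fun ?_
  intro j
  have hl : 0 < lam j := by linarith [hlam j]
  have h4 := gauss_term T (Real.log n - Real.log (lam j)) (Δ := Δ) (by linarith)
  push_cast at h4 ⊢
  rw [← h4, ← integral_const_mul]
  refine integral_congr_ae (Eventually.of_forall fun t => ?_)
  simp only [hK]
  have e1 : Complex.exp ((3 / 2 + t * I) * (Real.log n - Real.log (lam j))) =
      Complex.exp ((3 / 2 + t * I) * Real.log n) * pw (lam j) (3 / 2 + t * I) := by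
    rw [pw, ← Complex.ofReal_log hl.le, ← Complex.exp_add]
    congr 1
    ring
  rw [e1]
  ring

lemma log_gap {n l g : ℝ} (hn : 1 ≤ n) (hl : 1 ≤ l) (hg : 0 < g) (hg1 : g ≤ 1)
    (h : g ≤ |n - l|) : g / (2 * n) ≤ |Real.log n - Real.log l| := by
  have hn0 : 0 < n := by linarith
  have hl0 : 0 < l := by linarith
  rcases le_total l n with h1 | h1
  · rw [abs_of_nonneg (by linarith)] at h
    have h2 := Real.one_sub_inv_le_log_of_pos (x := n / l) (by positivity)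
    rw [Real.log_div hn0.ne' hl0.ne', inv_div] at h2
    refine le_trans ?_ (le_abs_self _)
    refine le_trans ?_ h2
    rw [one_sub_div hn0.ne', div_le_div_iff₀ (by positivity) hn0]
    nlinarith
  · rw [abs_of_nonpos (by linarith)] at h
    have h2 := Real.one_sub_inv_le_log_of_pos (x := l / n) (by positivity)
    rw [Real.log_div hl0.ne' hn0.ne', inv_div] at h2
    rw [abs_sub_comm]
    refine le_trans ?_ (le_abs_self _)
    refine le_trans ?_ h2
    rw [one_sub_div hl0.ne', div_le_div_iff₀ (by positivity) hl0]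
    have h3 : n + g ≤ l := by linarith
    nlinarith

/-- bound for the non isolated terms -/
lemma far_term {n l g Δ : ℝ} (hn : 1 ≤ n) (hl : 1 ≤ l) (hg : 0 < g) (hg1 : g ≤ 1) (hΔ : 1 ≤ Δ)
    (h : g ≤ |n - l|) :
    Real.exp (-(Δ ^ 2 * (Real.log n - Real.log l) ^ 2 / 4)) ≤
      (Real.exp 5 * n ^ (3 / 2 : ℝ)) * Real.exp (-(Δ ^ 2 * g ^ 2 / (32 * n ^ 2))) *
        l ^ (-(3 / 2) : ℝ) := by
  have hn0 : 0 < n := by linarith
  have hl0 : 0 < l := by linarith
  set L : ℝ := |Real.log n - Real.log l| with hL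
  have hL0 : 0 ≤ L := abs_nonneg _
  have hL1 : g / (2 * n) ≤ L := log_gap hn hl hg hg1 h
  have hL2 : (Real.log n - Real.log l) ^ 2 = L ^ 2 := (sq_abs _).symm
  rw [hL2, Real.rpow_def_of_pos hn0, Real.rpow_def_of_pos hl0, ← Real.exp_add, ← Real.exp_add,
    ← Real.exp_add]
  refine Real.exp_le_exp.2 ?_
  have h3 : Δ ^ 2 * g ^ 2 / (32 * n ^ 2) ≤ Δ ^ 2 * L ^ 2 / 8 := by
    have h4 : (g / (2 * n)) ^ 2 ≤ L ^ 2 := pow_le_pow_left₀ (by positivity) hL1 2
    have h5 : Δ ^ 2 * g ^ 2 / (32 * n ^ 2) = Δ ^ 2 * (g / (2 * n)) ^ 2 / 8 := by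
      field_simp; ring
    rw [h5]
    gcongr
  have h6 : (3 / 2) * L ≤ Δ ^ 2 * L ^ 2 / 8 + 9 / 2 := by
    have h7 : L ^ 2 / 8 ≤ Δ ^ 2 * L ^ 2 / 8 := by
      have : (1:ℝ) ≤ Δ ^ 2 := one_le_pow₀ hΔ
      have : L ^ 2 ≤ Δ ^ 2 * L ^ 2 := le_mul_of_one_le_left (sq_nonneg _) this
      linarith
    nlinarith [sq_nonneg (L - 6)]
  have h8 : -L ≤ Real.log n - Real.log l := neg_abs_le _
  linarith

/-- extraction of an isolated frequency -/
theorem extract [Countable ι] (hlam : ∀ j, 1 ≤ lam j)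
    (hsum : Summable fun j => ‖b j‖ * lam j ^ (-(3 / 2) : ℝ)) {n T Δ g : ℝ} (hn : 1 ≤ n)
    (hg : 0 < g) (hg1 : g ≤ 1) (hΔ : 1 ≤ Δ) (hiso : ∀ j, lam j = n ∨ g ≤ |n - lam j|) :
    √π * Δ * ‖∑' j, (if lam j = n then b j else 0)‖ ≤ ‖∫ t : ℝ, RI b lam n T Δ t‖ +
      √π * Δ * ((Real.exp 5 * n ^ (3 / 2 : ℝ)) * Real.exp (-(Δ ^ 2 * g ^ 2 / (32 * n ^ 2))) *
        D0 b lam) := by
  have hn0 : 0 < n := by linarith
  have hΔ0 : 0 < Δ := by linarith
  have hs := RI_sum hlam hsum (T := T) hn hΔ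
  set a : ι → ℂ := fun j => b j * ((√π * Δ : ℝ) *
    (Complex.exp (I * (T * (Real.log n - Real.log (lam j)))) *
      (Real.exp (-(Δ ^ 2 * (Real.log n - Real.log (lam j)) ^ 2 / 4)) : ℝ))) with ha
  set κ : ℝ := √π * Δ * ((Real.exp 5 * n ^ (3 / 2 : ℝ)) *
    Real.exp (-(Δ ^ 2 * g ^ 2 / (32 * n ^ 2)))) with hκ
  have hκ0 : 0 ≤ κ := by positivity
  have hfar : ∀ j, ‖(if lam j = n then 0 else a j)‖ ≤ κ * (‖b j‖ * lam j ^ (-(3 / 2) : ℝ)) := by
    intro j
    have hl0 : 0 < lam j := by linarith [hlam j]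
    split_ifs with h
    · rw [norm_zero]; positivity
    · have h1 := far_term hn (hlam j) hg hg1 hΔ ((hiso j).resolve_left h)
      simp only [ha]
      have h2 : ‖Complex.exp (I * (T * (Real.log n - Real.log (lam j))))‖ = 1 := by
        rw [Complex.norm_exp]
        simp
      rw [norm_mul, norm_mul, norm_mul, h2, one_mul, Complex.norm_real, Complex.norm_real,
        Real.norm_of_nonneg (by positivity), Real.norm_of_nonneg (Real.exp_pos _).le]
      calc ‖b j‖ * (√π * Δ * Real.exp (-(Δ ^ 2 * (Real.log n - Real.log (lam j)) ^ 2 / 4))) ≤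
          ‖b j‖ * (√π * Δ * ((Real.exp 5 * n ^ (3 / 2 : ℝ)) *
            Real.exp (-(Δ ^ 2 * g ^ 2 / (32 * n ^ 2))) * lam j ^ (-(3 / 2) : ℝ))) := by gcongr
        _ = _ := by rw [hκ]; ring
  have hsfar : Summable fun j => (if lam j = n then 0 else a j) :=
    Summable.of_norm_bounded (hsum.mul_left κ) hfar
  have hsnear : Summable fun j => (if lam j = n then a j else 0) := by
    have : (fun j => (if lam j = n then a j else 0)) =
        fun j => a j - (if lam j = n then 0 else a j) := by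
      ext j; split_ifs <;> simp
    rw [this]
    exact hs.summable.sub hsfar
  have hsplit : ∑' j, a j = (∑' j, (if lam j = n then a j else 0)) +
      ∑' j, (if lam j = n then 0 else a j) := by
    rw [← hsnear.tsum_add hsfar]
    congr 1
    ext j
    split_ifs <;> simp
  have hnear : ∑' j, (if lam j = n then a j else 0) =
      ((√π * Δ : ℝ) : ℂ) * ∑' j, (if lam j = n then b j else 0) := by
    rw [← tsum_mul_left]
    congr 1
    ext j
    split_ifs with h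
    · simp only [ha]
      rw [h]
      simp
      ring
    · simp
  have hfarb : ‖∑' j, (if lam j = n then 0 else a j)‖ ≤ κ * D0 b lam := by
    have h1 := tsum_of_norm_bounded (hsum.mul_left κ).hasSum hfar
    rwa [tsum_mul_left] at h1
  have h20 : ((√π * Δ : ℝ) : ℂ) * ∑' j, (if lam j = n then b j else 0) =
      (∫ t : ℝ, RI b lam n T Δ t) - ∑' j, (if lam j = n then 0 else a j) := by
    rw [← hs.tsum_eq, hsplit, hnear]; ring
  have h21 := congrArg norm h20
  rw [norm_mul, Complex.norm_real, Real.norm_of_nonneg (by positivity)] at h21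
  rw [h21]
  refine (norm_sub_le _ _).trans ?_
  gcongr
  refine hfarb.trans (le_of_eq ?_)
  rw [hκ]
  ring

end

end Pool.Agent.helper70
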