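import Mathlib
import Pool.Agent.helper70.GRatio
import Pool.Agent.helper70.ZC

open Complex Metric Set MeasureTheory Real Filter Topology

namespace Pool.Agent.helper70

/-- size of zeta on vertical lines to the left -/
theorem zeta_left_real {c : ℝ} (hc : 1 ≤ c) : ∃ C u0 : ℝ, 0 ≤ C ∧ 2 ≤ u0 ∧ ∀ u : ℝ, u0 ≤ u →
    ‖riemannZeta (1 / 2 - c + u * I)‖ ≤ C * u ^ c := by
  have h1 := (gamma_ratio ((c - 1 : ℝ) : ℂ)).norm
  rw [norm_one] at h1
  obtain ⟨u1, hu1⟩ := (h1.eventually_lt_const (by norm_num : (1:ℝ) < 2)).exists_forall_of_atTop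
  have hCG := CG_nonneg 1
  have hZ := ZZ_pos
  refine ⟨2 * (2 * (CG 1 * 2 ^ c)) * ZZ, max u1 2, by positivity, le_max_right _ _,
    fun u hu => ?_⟩
  have hu2 : 2 ≤ u := (le_max_right _ _).trans hu
  have hu0 : 0 < u := by linarith
  have h2 := hu1 u ((le_max_left _ _).trans hu)
  set s : ℂ := 1 / 2 + c - u * I with hs
  have hsim : s.im = -u := by simp [hs]
  have hsre : s.re = 1 / 2 + c := by simp [hs]
  have hs1 : ∀ n : ℕ, s ≠ -n := by
    intro n h
    have := congrArg Complex.im h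
    rw [hsim] at this
    simp at this
    linarith
  have hs2 : s ≠ 1 := by
    intro h
    have := congrArg Complex.im h
    rw [hsim] at this
    simp at this
    linarith
  have h0 := riemannZeta_one_sub hs1 hs2
  have e1 : (1 : ℂ) - s = 1 / 2 - c + u * I := by rw [hs]; ring
  rw [← e1, h0, norm_mul, norm_mul, norm_mul, norm_mul]
  have n1 : ‖(2:ℂ)‖ = 2 := by simp
  have n2 : ‖(2 * (π : ℂ)) ^ (-s)‖ ≤ 1 := by
    have : (2 * (π : ℂ)) = ((2 * π : ℝ) : ℂ) := by push_cast; ring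
    rw [this, Complex.norm_cpow_eq_rpow_re_of_pos (by positivity)]
    refine Real.rpow_le_one_of_one_le_of_nonpos ?_ ?_
    · linarith [Real.pi_gt_three]
    · rw [Complex.neg_re, hsre]; linarith
  have n3 : ‖Complex.cos (π * s / 2)‖ ≤ Real.exp (π * u / 2) := by
    have e : (π : ℂ) * s / 2 = ((π * (1 / 2 + c) / 2 : ℝ) : ℂ) + ((-(π * u / 2) : ℝ) : ℂ) * I := by
      rw [hs]; push_cast; ring
    rw [e]
    refine (norm_cos_le _).trans (le_of_eq ?_)
    rw [Complex.add_im, Complex.ofReal_im, Complex.im_ofReal_mul, Complex.I_im, mul_one, zero_add,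
      abs_neg, abs_of_nonneg (by positivity)]
  have n4 : ‖riemannZeta s‖ ≤ ZZ := norm_zeta_le (by rw [hsre]; linarith)
  have n5 : ‖Complex.Gamma s‖ ≤ (2 * (CG 1 * 2 ^ c)) * u ^ c * Real.exp (-(π * u / 2)) := by
    have e2 : s = 3 / 2 - u * I + ((c - 1 : ℝ) : ℂ) := by rw [hs]; push_cast; ring
    rw [e2]
    have hG0 : 0 < ‖Complex.Gamma (3 / 2 - u * I)‖ := by
      refine norm_pos_iff.2 (Complex.Gamma_ne_zero_of_re_pos ?_)
      simp
    rw [norm_div, norm_mul, div_lt_iff₀ (by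
      have := Complex.exp_ne_zero (((c - 1 : ℝ) : ℂ) * Complex.log (3 / 2 - u * I))
      positivity)] at h2
    have g1 : ‖Complex.exp (((c - 1 : ℝ) : ℂ) * Complex.log (3 / 2 - u * I))‖ ≤ (2 * u) ^ (c - 1) := by
      rw [Complex.norm_exp, Complex.re_ofReal_mul, Complex.log_re]
      have hn : 0 < ‖(3 / 2 : ℂ) - u * I‖ := by
        have := Complex.abs_im_le_norm ((3 / 2 : ℂ) - u * I)
        simp at this
        have h9 := le_abs_self u
        linarith
      have hn2 : ‖(3 / 2 : ℂ) - u * I‖ ≤ 2 * u := by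
        have := Complex.norm_le_abs_re_add_abs_im ((3 / 2 : ℂ) - u * I)
        simp at this
        rw [abs_of_pos hu0] at this
        norm_num at this
        linarith
      rw [Real.rpow_def_of_pos (by positivity), mul_comm]
      refine Real.exp_le_exp.2 (mul_le_mul_of_nonneg_right ?_ (by linarith))
      exact Real.log_le_log hn hn2
    have g2 : ‖Complex.Gamma (3 / 2 - u * I)‖ ≤ CG 1 * ((1 + u) * Real.exp (-(π * u / 2))) := by
      have := norm_Gamma_line 1 (-u)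
      rw [abs_neg, abs_of_pos hu0, pow_one] at this
      have e3 : ((1 : ℕ) : ℂ) + 1 / 2 + ((-u : ℝ) : ℂ) * I = 3 / 2 - u * I := by push_cast; ring
      rwa [e3] at this
    refine h2.le.trans ?_
    have g3 : (2 * u) ^ c = (2 * u) ^ (c - 1) * (2 * u) := by
      rw [← Real.rpow_add_one (by positivity)]; congr 1; ring
    have g4 : (2 * u) ^ c = 2 ^ c * u ^ c := Real.mul_rpow (by norm_num) hu0.le
    have g5 : 0 ≤ (2 * u) ^ (c - 1) := by positivity
    calc 2 * (‖Complex.Gamma (3 / 2 - u * I)‖ *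
          ‖Complex.exp (((c - 1 : ℝ) : ℂ) * Complex.log (3 / 2 - u * I))‖) ≤
        2 * ((CG 1 * ((1 + u) * Real.exp (-(π * u / 2)))) * (2 * u) ^ (c - 1)) := by gcongr
      _ ≤ 2 * ((CG 1 * ((2 * u) * Real.exp (-(π * u / 2)))) * (2 * u) ^ (c - 1)) := by
          gcongr
          linarith
      _ = 2 * (CG 1 * ((2 * u) ^ (c - 1) * (2 * u))) * Real.exp (-(π * u / 2)) := by ring
      _ = _ := by rw [← g3, g4]; ring
  have hee : Real.exp (-(π * u / 2)) * Real.exp (π * u / 2) = 1 := by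
    rw [← Real.exp_add, neg_add_cancel, Real.exp_zero]
  have huc : 0 ≤ u ^ c := by positivity
  calc _ ≤ 2 * 1 * ((2 * (CG 1 * 2 ^ c)) * u ^ c * Real.exp (-(π * u / 2))) *
        Real.exp (π * u / 2) * ZZ := by
        rw [n1]
        gcongr
    _ = (2 * (2 * (CG 1 * 2 ^ c)) * ZZ * u ^ c) *
        (Real.exp (-(π * u / 2)) * Real.exp (π * u / 2)) := by ring
    _ = _ := by rw [hee, mul_one]

/-- pointwise bound of the quotient on the left line -/
theorem left_pt {r : ℝ} (hr : 1 ≤ r) (α : ℝ) (N : ℕ) (hN : 1 ≤ N) : ∃ C t0 : ℝ, 0 ≤ C ∧ 2 ≤ t0 ∧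
    ∀ t : ℝ, t0 ≤ t → ∀ v : ℂ, riemannZeta (tau r α (1 / 2 - N + t * I)) =
      v * riemannZeta (1 / 2 - N + t * I) → ‖v‖ ≤ C * t ^ ((r - 1) * N) := by
  have hN1 : (1:ℝ) ≤ N := by exact_mod_cast hN
  have hrN : 1 ≤ r * N := by nlinarith
  obtain ⟨C1, u0, hC10, hu0, hC1⟩ := zeta_left_real hrN
  have hZ := ZZ_pos
  have hα := abs_nonneg α
  refine ⟨C1 * (r + 1) ^ (r * N) * ((2 * π) ^ (N : ℝ) * ZZ), u0 + |α| + 2, by positivity,
    by linarith, fun t ht v hv => ?_⟩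
  have ht0 : 0 < t := by linarith
  have ht1 : 1 ≤ t := by linarith
  have hτ : tau r α (1 / 2 - N + t * I) = 1 / 2 - ((r * N : ℝ) : ℂ) +
      ((r * t + α : ℝ) : ℂ) * I := by
    rw [tau]; push_cast; ring
  have hu : u0 ≤ r * t + α := by
    have := neg_abs_le α
    nlinarith
  have h1 := hC1 (r * t + α) hu
  rw [← hτ] at h1
  have h2 := norm_zeta_line N ht0.ne'
  have hden : (2 * π) ^ (-(N : ℝ)) * t ^ N * (1 / ZZ) ≤ ‖riemannZeta (1 / 2 - N + t * I)‖ := by
    rw [h2]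
    have g1 := PP_lower N t
    rw [abs_of_pos ht0] at g1
    have g2 : 1 / ZZ ≤ ‖riemannZeta ((N : ℂ) + 1 / 2 - t * I)‖ := by
      refine norm_zeta_ge ?_
      simp
      linarith
    have g3 := PP_nonneg N t
    gcongr
  have hnum : ‖riemannZeta (tau r α (1 / 2 - N + t * I))‖ ≤
      C1 * ((r + 1) ^ (r * N) * t ^ (r * N)) := by
    refine h1.trans ?_
    rw [← Real.mul_rpow (by linarith) ht0.le]
    refine mul_le_mul_of_nonneg_left (Real.rpow_le_rpow (by linarith) ?_ (by linarith)) hC10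
    have := le_abs_self α
    nlinarith
  rw [hv, norm_mul] at hnum
  have h5 : ‖v‖ * ((2 * π) ^ (-(N : ℝ)) * t ^ N * (1 / ZZ)) ≤
      C1 * ((r + 1) ^ (r * N) * t ^ (r * N)) :=
    (mul_le_mul_of_nonneg_left hden (norm_nonneg _)).trans hnum
  have h6 : (0:ℝ) < (2 * π) ^ (N : ℝ) := by positivity
  have h7 : (2 * π) ^ (-(N : ℝ)) = ((2 * π) ^ (N : ℝ))⁻¹ := Real.rpow_neg (by positivity) _
  rw [h7] at h5
  have htN : (0:ℝ) < t ^ N := by positivity
  have h8 : t ^ (r * N) = t ^ ((r - 1) * N) * t ^ N := by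
    rw [← Real.rpow_natCast t N, ← Real.rpow_add ht0]
    congr 1
    ring
  refine le_of_mul_le_mul_right ?_ htN
  have h9 : ‖v‖ * t ^ N = (‖v‖ * (((2 * π) ^ (N : ℝ))⁻¹ * t ^ N * (1 / ZZ))) *
      ((2 * π) ^ (N : ℝ) * ZZ) := by
    field_simp
  rw [h9]
  calc _ ≤ (C1 * ((r + 1) ^ (r * N) * t ^ (r * N))) * ((2 * π) ^ (N : ℝ) * ZZ) := by gcongr
    _ = _ := by rw [h8]; ring

end Pool.Agent.helper70
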