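import Mathlib
import Pool.Agent.helper70.Gauss

open Complex Metric Set MeasureTheory Real Filter Topology

namespace Pool.Agent.helper70

section
variable {ι : Type*} {b : ι → ℂ} {lam : ι → ℝ}

lemma RI_integrable (hlam : ∀ j, 1 ≤ lam j)
    (hsum : Summable fun j => ‖b j‖ * lam j ^ (-(3 / 2) : ℝ)) {n T Δ : ℝ} (hn : 1 ≤ n)
    (hΔ : 1 ≤ Δ) : Integrable (RI b lam n T Δ) :=
  (integrable_kernel n T hn hΔ).bdd_mul (continuous_DD' hlam hsum).aestronglyMeasurable
    (Eventually.of_forall fun t => norm_DD_le' hlam hsum t)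

lemma norm_kernel2 {n T Δ σ t a : ℝ} (hn : 1 ≤ n) (hΔ : 1 ≤ Δ) (h1 : a ≤ σ) (h2 : σ ≤ 3 / 2) :
    ‖Complex.exp ((σ + t * I) * Real.log n) * Wt T Δ (σ + t * I)‖ ≤
      n ^ (3 / 2 : ℝ) * Real.exp (a ^ 2 + 3) * Real.exp (-((t - T) ^ 2 / Δ ^ 2)) := by
  have hn0 : 0 < n := by linarith
  rw [norm_mul, norm_Wt, Complex.norm_exp]
  have e2 : (((σ : ℂ) + (t : ℂ) * I) * (Real.log n : ℝ)).re = Real.log n * σ := by
    rw [Complex.re_mul_ofReal]; simp; ring
  rw [e2, ← Real.rpow_def_of_pos hn0, mul_assoc, ← Real.exp_add]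
  have h3 : n ^ σ ≤ n ^ (3 / 2 : ℝ) := Real.rpow_le_rpow_of_exponent_le hn h2
  have h4 : (σ ^ 2 - (t - T) ^ 2) / Δ ^ 2 ≤ a ^ 2 + 3 + -((t - T) ^ 2 / Δ ^ 2) := by
    rw [sub_div]
    have h5 : σ ^ 2 / Δ ^ 2 ≤ a ^ 2 + 3 := by
      rw [div_le_iff₀ (by positivity)]
      have h6 : (1:ℝ) ≤ Δ ^ 2 := one_le_pow₀ hΔ
      have h7 : σ ^ 2 ≤ a ^ 2 + 3 := by
        rcases le_total 0 σ with h | h
        · nlinarith
        · nlinarith
      nlinarith [sq_nonneg a]
    linarith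
  exact mul_le_mul h3 (Real.exp_le_exp.2 h4) (Real.exp_pos _).le (by positivity)

theorem window (hlam : ∀ j, 1 ≤ lam j)
    (hsum : Summable fun j => ‖b j‖ * lam j ^ (-(3 / 2) : ℝ)) {n T Δ a H B1 B2 : ℝ} {h : ℂ → ℂ}
    (hn : 1 ≤ n) (hΔ : 1 ≤ Δ) (ha : a ≤ 3 / 2) (hH : 0 ≤ H)
    (hd : ∀ s : ℂ, a ≤ s.re → s.re ≤ 3 / 2 → |s.im - T| ≤ H → DifferentiableAt ℂ h s)
    (hser : ∀ t : ℝ, |t - T| ≤ H → h (3 / 2 + t * I) = DD b lam t)
    (hB10 : 0 ≤ B1) (hB20 : 0 ≤ B2)
    (hB1 : ∀ t : ℝ, |t - T| ≤ H → ‖h (a + t * I)‖ ≤ B1)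
    (hB2 : ∀ σ t : ℝ, a ≤ σ → σ ≤ 3 / 2 → |t - T| = H → ‖h (σ + t * I)‖ ≤ B2) :
    ‖∫ t : ℝ, RI b lam n T Δ t‖ ≤
      B1 * (n ^ a * Real.exp (a ^ 2)) * (2 * H) +
      2 * (B2 * (n ^ (3 / 2 : ℝ) * Real.exp (a ^ 2 + 3) * Real.exp (-(H ^ 2 / Δ ^ 2))) *
        (3 / 2 - a)) +
      D0 b lam * ((n ^ (3 / 2 : ℝ) * Real.exp 3) * Real.exp (-(H ^ 2 / (2 * Δ ^ 2)))) *
        √(π / (1 / (2 * Δ ^ 2))) := by
  have hn0 : 0 < n := by linarith
  have hΔ0 : 0 < Δ := by linarith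
  set F : ℂ → ℂ := fun s => h s * (Complex.exp (s * Real.log n) * Wt T Δ s) with hF
  have hFd : ∀ s : ℂ, a ≤ s.re → s.re ≤ 3 / 2 → |s.im - T| ≤ H → DifferentiableAt ℂ F s := by
    intro s h1 h2 h3
    refine (hd s h1 h2 h3).mul ?_
    unfold Wt
    fun_prop
  -- splitting
  have hRI := RI_integrable hlam hsum (T := T) hn hΔ
  have hsplit : ∫ t : ℝ, RI b lam n T Δ t = (∫ t in (T - H)..(T + H), F ((3 / 2 : ℝ) + t * I)) +
      ∫ t in (Ioc (T - H) (T + H))ᶜ, RI b lam n T Δ t := by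
    rw [← integral_add_compl (measurableSet_Ioc (a := T - H) (b := T + H)) hRI,
      intervalIntegral.integral_of_le (by linarith)]
    congr 1
    refine setIntegral_congr_fun measurableSet_Ioc fun t ht => ?_
    have h1 : |t - T| ≤ H := by
      rw [abs_le]; constructor <;> linarith [ht.1, ht.2]
    have h2 := hser t h1
    simp only [hF]
    push_cast
    rw [h2, RI]
  -- the rectangle
  have hrect := Complex.integral_boundary_rect_eq_zero_of_differentiableOn F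
    (a + (T - H : ℝ) * I) ((3 / 2 : ℝ) + (T + H : ℝ) * I) (by
      intro z hz
      have h1 := hz.1
      have h2 := hz.2
      simp only [add_re, ofReal_re, mul_re, I_re, mul_zero, ofReal_im, I_im, mul_one, sub_self,
        add_zero, mem_preimage] at h1
      simp only [add_im, ofReal_im, mul_im, ofReal_re, I_im, mul_one, I_re, mul_zero, add_zero,
        zero_add, mem_preimage] at h2
      rw [uIcc_of_le ha] at h1
      rw [uIcc_of_le (by linarith)] at h2
      refine (hFd z h1.1 h1.2 ?_).differentiableWithinAt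
      rw [abs_le]; constructor <;> linarith [h2.1, h2.2])
  simp only [add_re, ofReal_re, mul_re, I_re, mul_zero, ofReal_im, I_im, mul_one, sub_self,
    add_zero, add_im, mul_im, zero_add, smul_eq_mul] at hrect
  have hkey : I * ∫ t in (T - H)..(T + H), F ((3 / 2 : ℝ) + t * I) =
      I * (∫ t in (T - H)..(T + H), F (a + t * I)) -
      (∫ x in a..(3 / 2), F (x + (T - H : ℝ) * I)) +
      ∫ x in a..(3 / 2), F (x + (T + H : ℝ) * I) := by
    linear_combination hrect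
  have hn1 : ‖∫ t in (T - H)..(T + H), F ((3 / 2 : ℝ) + t * I)‖ ≤
      ‖∫ t in (T - H)..(T + H), F (a + t * I)‖ +
      ‖∫ x in a..(3 / 2), F (x + (T - H : ℝ) * I)‖ +
      ‖∫ x in a..(3 / 2), F (x + (T + H : ℝ) * I)‖ := by
    have h1 := congrArg norm hkey
    rw [norm_mul, Complex.norm_I, one_mul] at h1
    rw [h1]
    refine (norm_add_le _ _).trans ?_
    gcongr
    refine (norm_sub_le _ _).trans ?_
    rw [norm_mul, Complex.norm_I, one_mul]
  -- left side
  have hleft : ‖∫ t in (T - H)..(T + H), F (a + t * I)‖ ≤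
      B1 * (n ^ a * Real.exp (a ^ 2)) * (2 * H) := by
    have := intervalIntegral.norm_integral_le_of_norm_le_const (a := T - H) (b := T + H)
      (f := fun t : ℝ => F (a + t * I)) (C := B1 * (n ^ a * Real.exp (a ^ 2))) (fun t ht => by
        rw [uIoc_of_le (by linarith)] at ht
        have h1 : |t - T| ≤ H := by
          rw [abs_le]; constructor <;> linarith [ht.1, ht.2]
        simp only [hF]
        rw [norm_mul, norm_mul, norm_Wt, Complex.norm_exp]
        have e2 : (((a : ℂ) + (t : ℂ) * I) * (Real.log n : ℝ)).re = Real.log n * a := by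
          rw [Complex.re_mul_ofReal]; simp; ring
        rw [e2, ← Real.rpow_def_of_pos hn0]
        have h4 : (a ^ 2 - (t - T) ^ 2) / Δ ^ 2 ≤ a ^ 2 := by
          rw [div_le_iff₀ (by positivity)]
          have h6 : (1:ℝ) ≤ Δ ^ 2 := one_le_pow₀ hΔ
          nlinarith [sq_nonneg a, sq_nonneg (t - T)]
        have h5 := hB1 t h1
        gcongr)
    refine this.trans (le_of_eq ?_)
    rw [abs_of_nonneg (by linarith)]
    ring
  -- horizontal sides
  have hhor : ∀ t : ℝ, |t - T| = H → ‖∫ x in a..(3 / 2), F (x + t * I)‖ ≤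
      B2 * (n ^ (3 / 2 : ℝ) * Real.exp (a ^ 2 + 3) * Real.exp (-(H ^ 2 / Δ ^ 2))) *
        (3 / 2 - a) := by
    intro t ht
    have := intervalIntegral.norm_integral_le_of_norm_le_const (a := a) (b := 3 / 2)
      (f := fun x : ℝ => F (x + t * I)) (C := B2 * (n ^ (3 / 2 : ℝ) * Real.exp (a ^ 2 + 3) *
        Real.exp (-(H ^ 2 / Δ ^ 2)))) (fun x hx => by
        rw [uIoc_of_le ha] at hx
        simp only [hF]
        rw [norm_mul]
        have h1 := hB2 x t hx.1.le hx.2 ht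
        have h2 := norm_kernel2 (T := T) (t := t) hn hΔ hx.1.le hx.2
        have h3 : (t - T) ^ 2 = H ^ 2 := by rw [← sq_abs, ht]
        rw [h3] at h2
        exact mul_le_mul h1 h2 (norm_nonneg _) hB20)
    refine this.trans (le_of_eq ?_)
    rw [abs_of_nonneg (by linarith)]
  -- tails
  have htail : ‖∫ t in (Ioc (T - H) (T + H))ᶜ, RI b lam n T Δ t‖ ≤
      D0 b lam * ((n ^ (3 / 2 : ℝ) * Real.exp 3) * Real.exp (-(H ^ 2 / (2 * Δ ^ 2)))) *
        √(π / (1 / (2 * Δ ^ 2))) := by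
    have hD := D0_nonneg' (b := b) hlam
    set K : ℝ := D0 b lam * ((n ^ (3 / 2 : ℝ) * Real.exp 3) *
      Real.exp (-(H ^ 2 / (2 * Δ ^ 2)))) with hK
    have hK0 : 0 ≤ K := by positivity
    have hg := (integrable_gauss T (c := 1 / (2 * Δ ^ 2)) (by positivity)).const_mul K
    have h1 : ‖∫ t in (Ioc (T - H) (T + H))ᶜ, RI b lam n T Δ t‖ ≤
        ∫ t in (Ioc (T - H) (T + H))ᶜ, K * Real.exp (-(1 / (2 * Δ ^ 2)) * (t - T) ^ 2) := by
      refine norm_integral_le_of_norm_le hg.integrableOn ?_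
      refine (ae_restrict_iff' measurableSet_Ioc.compl).2 (Eventually.of_forall fun t ht => ?_)
      have h2 : H ^ 2 ≤ (t - T) ^ 2 := by
        rw [mem_compl_iff, mem_Ioc, not_and_or, not_lt, not_le] at ht
        rcases ht with h | h <;> nlinarith
      rw [RI, norm_mul]
      have h3 := norm_kernel n T hn hΔ t
      have h4 := norm_DD_le' hlam hsum t
      have h5 : Real.exp (-(t - T) ^ 2 / Δ ^ 2) ≤ Real.exp (-(H ^ 2 / (2 * Δ ^ 2))) *
          Real.exp (-(1 / (2 * Δ ^ 2)) * (t - T) ^ 2) := by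
        rw [← Real.exp_add]
        refine Real.exp_le_exp.2 ?_
        have e1 : -(H ^ 2 / (2 * Δ ^ 2)) + -(1 / (2 * Δ ^ 2)) * (t - T) ^ 2 =
            (-(H ^ 2) - (t - T) ^ 2) / (2 * Δ ^ 2) := by ring
        rw [e1, div_le_div_iff₀ (by positivity) (by positivity)]
        have h6 : 0 < Δ ^ 2 := by positivity
        nlinarith
      calc _ ≤ D0 b lam * ((n ^ (3 / 2 : ℝ) * Real.exp 3) * Real.exp (-(t - T) ^ 2 / Δ ^ 2)) :=
            mul_le_mul h4 h3 (norm_nonneg _) hD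
        _ ≤ D0 b lam * ((n ^ (3 / 2 : ℝ) * Real.exp 3) * (Real.exp (-(H ^ 2 / (2 * Δ ^ 2))) *
          Real.exp (-(1 / (2 * Δ ^ 2)) * (t - T) ^ 2))) := by gcongr
        _ = _ := by rw [hK]; ring
    refine h1.trans ((setIntegral_le_integral hg (Eventually.of_forall fun t => by
      show (0:ℝ) ≤ _
      positivity)).trans (le_of_eq ?_))
    rw [integral_const_mul, integral_gauss_shift]
  rw [hsplit]
  refine (norm_add_le _ _).trans ?_
  have h1 := hhor (T - H) (by rw [sub_sub_cancel_left, abs_neg, abs_of_nonneg hH])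
  have h2 := hhor (T + H) (by rw [add_sub_cancel_left, abs_of_nonneg hH])
  linarith

end

end Pool.Agent.helper70
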