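import Mathlib
import Pool.Agent.helper70.HalfStrip
import Pool.Agent.helper70.ZC

open Complex Metric Set MeasureTheory Real Filter Topology

namespace Pool.Agent.helper70

/-- polynomial growth of zeta in vertical strips -/
theorem zeta_poly (N : ℕ) (hN : 1 ≤ N) : ∃ C : ℝ, 1 ≤ C ∧ ∀ w : ℂ, 1 / 2 - N ≤ w.re →
    w.re ≤ N + 3 / 2 → 2 ≤ w.im → ‖riemannZeta w‖ ≤ C * w.im ^ N := by
  have hN1 : (1:ℝ) ≤ N := by exact_mod_cast hN
  obtain ⟨C0, hC00, hC0⟩ := zeta_growth (N + 3 / 2)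
  have hne1 : ∀ s : ℂ, 1 ≤ s.im → s ≠ 1 := by
    intro s hs h; rw [h] at hs; norm_num at hs
  have hne0 : ∀ s : ℂ, 1 ≤ s.im → s ≠ 0 := by
    intro s hs h; rw [h] at hs; norm_num at hs
  set H : ℂ → ℂ := fun s => riemannZeta s / s ^ N with hH
  have hHd : ∀ s : ℂ, 1 ≤ s.im → DifferentiableAt ℂ H s := by
    intro s hs
    exact (differentiableAt_riemannZeta (hne1 s hs)).div (by fun_prop) (pow_ne_zero _ (hne0 s hs))
  have hsn : ∀ s : ℂ, 2 ≤ s.im → s.im ≤ ‖s‖ := fun s hs =>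
    (le_abs_self _).trans (Complex.abs_im_le_norm s)
  have hsn1 : ∀ s : ℂ, 2 ≤ s.im → 1 ≤ ‖s‖ ^ N := fun s hs =>
    one_le_pow₀ (by linarith [hsn s hs])
  have hHn : ∀ s : ℂ, ‖H s‖ = ‖riemannZeta s‖ / ‖s‖ ^ N := by
    intro s; simp only [hH]; rw [norm_div, norm_pow]
  have hHle : ∀ s : ℂ, 2 ≤ s.im → ‖H s‖ ≤ ‖riemannZeta s‖ := by
    intro s hs
    rw [hHn]
    exact div_le_self (norm_nonneg _) (hsn1 s hs)
  -- bottom
  have hbot : ∃ C4 : ℝ, ∀ w : ℂ, 1 / 2 - N ≤ w.re → w.re ≤ N + 3 / 2 → w.im = 2 → ‖H w‖ ≤ C4 := by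
    have hcomp : IsCompact (Icc (1 / 2 - (N : ℝ)) (N + 3 / 2) ×ℂ {(2:ℝ)}) :=
      isCompact_Icc.reProdIm isCompact_singleton
    have hco : ContinuousOn H (Icc (1 / 2 - (N : ℝ)) (N + 3 / 2) ×ℂ {(2:ℝ)}) := by
      intro w hw
      have h1 : w.im = 2 := hw.2
      exact (hHd w (by rw [h1]; norm_num)).continuousAt.continuousWithinAt
    obtain ⟨C4, hC4⟩ := hcomp.exists_bound_of_continuousOn hco
    exact ⟨C4, fun w h1 h2 h3 => hC4 w ⟨⟨h1, h2⟩, h3⟩⟩
  obtain ⟨C4, hC4⟩ := hbot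
  have hZ := ZZ_pos
  set C : ℝ := max (max ((1 + N) ^ N * ZZ) ZZ) (max C4 1) with hC
  have hC1 : 1 ≤ C := (le_max_right _ _).trans (le_max_right _ _)
  have key := half_strip_PL (H := H) (a := 1 / 2 - N) (b := N + 3 / 2) (T := 2) (A := C0) (B := 2)
    (C := C) (by linarith)
    (fun s hs => (hHd s (by have : (2:ℝ) < s.im := hs; linarith)).differentiableWithinAt)
    (fun s hs => (hHd s (by
      have : (2:ℝ) ≤ s.im := hs
      linarith)).continuousAt.continuousWithinAt) ?_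
    (by linarith) ?_ ?_ ?_
  · -- conclusion
    refine ⟨C * (2 * N + 2) ^ N, ?_, fun w h1 h2 h3 => ?_⟩
    · have : (1:ℝ) ≤ (2 * N + 2) ^ N := one_le_pow₀ (by linarith)
      nlinarith
    · have h4 := key w h1 h2 h3
      have hw0 : 0 < ‖w‖ ^ N := by linarith [hsn1 w h3]
      rw [hHn, div_le_iff₀ hw0] at h4
      have h5 : ‖w‖ ≤ (2 * N + 2) * w.im := by
        refine (Complex.norm_le_abs_re_add_abs_im w).trans ?_
        have h6 : |w.re| ≤ N + 3 / 2 := by
          rw [abs_le]; constructor <;> linarith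
        rw [abs_of_nonneg (by linarith : 0 ≤ w.im)]
        nlinarith
      calc ‖riemannZeta w‖ ≤ C * ‖w‖ ^ N := h4
        _ ≤ C * ((2 * N + 2) * w.im) ^ N := by gcongr
        _ = _ := by rw [mul_pow]; ring
  · intro s h1 h2 h3
    refine (hHle s h3).trans ?_
    have := hC0 s (by rw [abs_le]; constructor <;> linarith) (by rw [abs_of_nonneg (by linarith)]; exact h3)
    rwa [abs_of_nonneg (by linarith : 0 ≤ s.im)] at this
  · intro s h1 h3
    have ht0 : 0 < s.im := by linarith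
    have e1 : s = 1 / 2 - N + s.im * I := by
      apply Complex.ext
      · simp [h1]
      · simp
    have h4 := norm_zeta_line N ht0.ne'
    rw [← e1] at h4
    rw [hHn, h4]
    refine le_trans ?_ ((le_max_left _ _).trans (le_max_left _ _))
    have g1 := PP_upper N s.im
    rw [abs_of_pos ht0] at g1
    have g2 : ‖riemannZeta (((N : ℕ) : ℂ) + 1 / 2 - s.im * I)‖ ≤ ZZ := by
      refine norm_zeta_le ?_
      simp
      linarith
    have g3 : (2 * π) ^ (-(N : ℝ)) ≤ 1 := by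
      refine Real.rpow_le_one_of_one_le_of_nonpos ?_ (by linarith)
      linarith [Real.pi_gt_three]
    have g4 : (s.im + N) ^ N ≤ (1 + N) ^ N * ‖s‖ ^ N := by
      rw [← mul_pow]
      refine pow_le_pow_left₀ (by positivity) ?_ N
      have := hsn s h3
      nlinarith
    have g5 := PP_nonneg N s.im
    rw [div_le_iff₀ (by linarith [hsn1 s h3])]
    calc (2 * π) ^ (-(N : ℝ)) * PP N s.im * ‖riemannZeta (((N : ℕ) : ℂ) + 1 / 2 - s.im * I)‖ ≤
        1 * ((1 + N) ^ N * ‖s‖ ^ N) * ZZ := by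
          refine mul_le_mul (mul_le_mul g3 (g1.trans g4) g5 zero_le_one) g2 (norm_nonneg _)
            (by positivity)
      _ = _ := by ring
  · intro s h1 h3
    refine (hHle s h3).trans ?_
    refine (norm_zeta_le (by rw [h1]; linarith)).trans ?_
    exact (le_max_right _ _).trans (le_max_left _ _)
  · intro s h1 h2 h3
    exact (hC4 s h1 h2 h3).trans ((le_max_left _ _).trans (le_max_right _ _))

/-- local polynomial bound for the quotient -/
theorem local_growth {r α : ℝ} (hr : 1 ≤ r) (N : ℕ) (hN : 1 ≤ N) :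
    ∃ (C : ℝ) (P : ℕ), 0 ≤ C ∧ ∀ (h : ℂ → ℂ) (s : ℂ), |α| + N + 8 ≤ s.im →
      1 / 2 - N ≤ s.re → s.re ≤ 3 / 2 →
      AnalyticOnNhd ℂ h (closedBall (2 + s.im * I) (N + 4)) →
      (∀ z ∈ closedBall ((2 : ℂ) + s.im * I) (N + 4), riemannZeta (tau r α z) =
        h z * riemannZeta z) →
      ‖h s‖ ≤ C * s.im ^ P := by
  have hr0 : 0 < r := by linarith
  have hN1 : (1:ℝ) ≤ N := by exact_mod_cast hN
  obtain ⟨N', hN'⟩ := exists_nat_ge (r * (N + 6))
  have hN'1 : 1 ≤ N' := by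
    have : (1:ℝ) ≤ N' := by nlinarith
    exact_mod_cast this
  obtain ⟨C1, hC11, hC1⟩ := zeta_poly N' hN'1
  have hZ := ZZ_pos
  have hα := abs_nonneg α
  set Q : ℕ := (2 * (N + 4)) ^ 2 * 2 with hQ
  refine ⟨Real.exp ((2 * (N + 4)) ^ 2 * (2 * (Real.log C1 + N' * Real.log (2 * r + 1)) +
    |Real.log (1 / ZZ)|)), Q * N', (Real.exp_pos _).le, fun h s hs1 hs2 hs3 hh hfgh => ?_⟩
  set y := s.im with hy
  set w0 : ℂ := 2 + y * I with hw0
  set R : ℝ := N + 4 with hR
  have hy1 : 0 < y := by linarith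
  have hw0re : w0.re = 2 := by simp [hw0]
  have hw0im : w0.im = y := by simp [hw0]
  have hballim : ∀ z ∈ closedBall w0 R, |z.im - y| ≤ R := by
    intro z hz
    rw [mem_closedBall, dist_eq_norm] at hz
    have h1 := Complex.abs_im_le_norm (z - w0)
    rw [Complex.sub_im, hw0im] at h1
    linarith
  have hballre : ∀ z ∈ closedBall w0 R, |z.re - 2| ≤ R := by
    intro z hz
    rw [mem_closedBall, dist_eq_norm] at hz
    have h1 := Complex.abs_re_le_norm (z - w0)
    rw [Complex.sub_re, hw0re] at h1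
    linarith
  have him1 : ∀ z ∈ closedBall w0 R, |α| + 4 ≤ z.im := by
    intro z hz
    have h1 := abs_le.1 (hballim z hz)
    linarith [h1.1]
  have him2 : ∀ z ∈ closedBall w0 R, 4 ≤ (tau r α z).im := by
    intro z hz
    have h1 := him1 z hz
    rw [tau_im]
    have h2 := neg_abs_le α
    nlinarith
  have hne1 : ∀ s : ℂ, 4 ≤ s.im → s ≠ 1 := by
    intro s hs h; rw [h] at hs; norm_num at hs
  have hg : AnalyticOnNhd ℂ riemannZeta (closedBall w0 R) := fun z hz =>
    analyticAt_zeta (hne1 z (by linarith [him1 z hz]))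
  have hf : AnalyticOnNhd ℂ (fun s => riemannZeta (tau r α s)) (closedBall w0 R) := by
    intro z hz
    have htau : AnalyticAt ℂ (tau r α) z := by unfold tau; fun_prop
    exact (analyticAt_zeta (hne1 _ (him2 z hz))).comp htau
  set M : ℝ := C1 * ((2 * r + 1) * y) ^ N' with hM
  have hMy : 1 ≤ (2 * r + 1) * y := by nlinarith
  have hM1 : 1 ≤ M := by
    have h2 : 1 ≤ ((2 * r + 1) * y) ^ N' := one_le_pow₀ hMy
    rw [hM]
    nlinarith
  have hbd : ∀ w : ℂ, 1 / 2 - N' ≤ w.re → w.re ≤ N' + 3 / 2 → 2 ≤ w.im →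
      w.im ≤ (2 * r + 1) * y → ‖riemannZeta w‖ ≤ M := by
    intro w h1 h2 h3 h4
    refine (hC1 w h1 h2 h3).trans ?_
    rw [hM]
    gcongr
  have hgM : ∀ z ∈ closedBall w0 R, ‖riemannZeta z‖ ≤ M := by
    intro z hz
    have h1 := abs_le.1 (hballim z hz)
    have h2 := abs_le.1 (hballre z hz)
    have h3 := him1 z hz
    refine hbd z ?_ ?_ (by linarith) ?_ <;> nlinarith [h1.1, h1.2, h2.1, h2.2]
  have hfM : ∀ z ∈ closedBall w0 R, ‖riemannZeta (tau r α z)‖ ≤ M := by
    intro z hz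
    have h1 := abs_le.1 (hballim z hz)
    have h2 := abs_le.1 (hballre z hz)
    have h3 := him2 z hz
    refine hbd _ ?_ ?_ (by linarith) ?_
    · rw [tau_re]; nlinarith [h2.1]
    · rw [tau_re]; nlinarith [h2.2]
    · rw [tau_im]
      have := le_abs_self α
      nlinarith [h1.2]
  have hsub : closedBall s (1 / 2) ⊆ closedBall w0 R := by
    refine closedBall_subset_closedBall' ?_
    have h1 : dist s w0 ≤ N + 3 / 2 := by
      rw [dist_eq_norm]
      have h2 : s - w0 = ((s.re - 2 : ℝ) : ℂ) := by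
        apply Complex.ext
        · simp [hw0re]
        · simp [hw0im, ← hy]
      rw [h2, Complex.norm_real, Real.norm_eq_abs, abs_le]
      constructor <;> linarith
    linarith
  have hqb := quotient_bound (f := fun z => riemannZeta (tau r α z)) (g := riemannZeta) (h := h)
    (c := w0) (z0 := s) (R := R) (ρ := 1 / 2) (M := M) (m := 1 / ZZ) (by norm_num) hsub
    hf hg hh hfgh hM1 hfM hgM
    (by positivity) (norm_zeta_ge (by rw [hw0re]; norm_num))
  refine hqb.trans ?_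
  have hlogM : Real.log M = Real.log C1 + N' * Real.log (2 * r + 1) + N' * Real.log y := by
    rw [hM, Real.log_mul (by linarith) (by positivity), Real.log_pow, Real.log_mul (by linarith)
      hy1.ne']
    ring
  have hyP : y ^ (Q * N') = Real.exp ((2 * (N + 4)) ^ 2 * (2 * (N' * Real.log y))) := by
    rw [← Real.exp_log (pow_pos hy1 (Q * N')), Real.log_pow, hQ]
    congr 1
    push_cast
    ring
  rw [hyP, ← Real.exp_add, hlogM]
  refine Real.exp_le_exp.2 ?_
  have h10 := neg_abs_le (Real.log (1 / ZZ))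
  have h9 : (0:ℝ) ≤ (R / (1 / 2)) ^ 2 := by positivity
  have h11 : (R / (1 / 2)) ^ 2 = (2 * ((N : ℝ) + 4)) ^ 2 := by rw [hR]; ring
  rw [h11] at h9 ⊢
  have h12 : (2 * ((N : ℝ) + 4)) ^ 2 * (-Real.log (1 / ZZ)) ≤
      (2 * ((N : ℝ) + 4)) ^ 2 * |Real.log (1 / ZZ)| :=
    mul_le_mul_of_nonneg_left (by linarith) h9
  nlinarith

end Pool.Agent.helper70
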