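import Mathlib
import Pool.Agent.helper70.Freq
import Pool.Agent.helper70.LeftR
import Pool.Agent.helper70.ZPoly
import Pool.Agent.helper70.Win
import Pool.Agent.helper70.Fin1

open Complex Metric Set MeasureTheory Real Filter Topology

namespace Pool.Agent.helper70

/-- real variable consequence of the extraction inequality -/
lemma clean_ineq {D B1 B2 n Δ H V a g c : ℝ} (hn : 1 ≤ n) (hV : 1 ≤ V) (hΔ : Δ = n * V)
    (hH : H = Δ * V) (hD : 0 ≤ D) (hB20 : 0 ≤ B2) (hg : 0 < g) (hg1 : g ≤ 1)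
    (ha : a ≤ 3 / 2)
    (hmain : √π * Δ * c ≤ B1 * (n ^ a * Real.exp (a ^ 2)) * (2 * H) +
      2 * (B2 * (n ^ (3 / 2 : ℝ) * Real.exp (a ^ 2 + 3) * Real.exp (-(H ^ 2 / Δ ^ 2))) *
        (3 / 2 - a)) +
      D * ((n ^ (3 / 2 : ℝ) * Real.exp 3) * Real.exp (-(H ^ 2 / (2 * Δ ^ 2)))) *
        √(π / (1 / (2 * Δ ^ 2))) +
      √π * Δ * ((Real.exp 5 * n ^ (3 / 2 : ℝ)) * Real.exp (-(Δ ^ 2 * g ^ 2 / (32 * n ^ 2))) *
        D)) :
    √π * c ≤ 2 * Real.exp (a ^ 2) * (B1 * n ^ a * V) +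
      ((2 * B2 * Real.exp (a ^ 2 + 3) * (3 / 2 - a)) + D * (Real.exp 3 * √(2 * π)) +
        √π * (Real.exp 5 * D)) * (n ^ (3 / 2 : ℝ) * Real.exp (-(g ^ 2 / 32 * V ^ 2))) := by
  have hn0 : 0 < n := by linarith
  have hV0 : 0 < V := by linarith
  have hΔ0 : 0 < Δ := by rw [hΔ]; positivity
  have hΔ1 : 1 ≤ Δ := by rw [hΔ]; nlinarith
  have e1 : H ^ 2 / Δ ^ 2 = V ^ 2 := by rw [hH]; field_simp
  have e2 : H ^ 2 / (2 * Δ ^ 2) = V ^ 2 / 2 := by rw [hH]; field_simp
  have e3 : Δ ^ 2 * g ^ 2 / (32 * n ^ 2) = g ^ 2 / 32 * V ^ 2 := by rw [hΔ]; field_simp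
  have e4 : √(π / (1 / (2 * Δ ^ 2))) = √(2 * π) * Δ := by
    have : π / (1 / (2 * Δ ^ 2)) = (2 * π) * Δ ^ 2 := by field_simp
    rw [this, Real.sqrt_mul (by positivity), Real.sqrt_sq hΔ0.le]
  rw [e1, e2, e3, e4] at hmain
  have hg2 : g ^ 2 / 32 ≤ 1 / 2 := by nlinarith
  have hV2 : 0 ≤ V ^ 2 := sq_nonneg V
  set E : ℝ := Real.exp (-(g ^ 2 / 32 * V ^ 2)) with hE
  have x1 : Real.exp (-V ^ 2) ≤ E := Real.exp_le_exp.2 (by nlinarith)
  have x2 : Real.exp (-(V ^ 2 / 2)) ≤ E := Real.exp_le_exp.2 (by nlinarith)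
  have hE0 : 0 < E := Real.exp_pos _
  have hn32 : 0 < n ^ (3 / 2 : ℝ) := by positivity
  have h3a : 0 ≤ 3 / 2 - a := by linarith
  refine le_of_mul_le_mul_right ?_ hΔ0
  calc √π * c * Δ = √π * Δ * c := by ring
    _ ≤ _ := hmain
    _ ≤ B1 * (n ^ a * Real.exp (a ^ 2)) * (2 * H) +
      2 * (B2 * (n ^ (3 / 2 : ℝ) * Real.exp (a ^ 2 + 3) * E) * (3 / 2 - a)) * Δ +
      D * ((n ^ (3 / 2 : ℝ) * Real.exp 3) * E) * (√(2 * π) * Δ) +
      √π * Δ * ((Real.exp 5 * n ^ (3 / 2 : ℝ)) * E * D) := by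
        have y1 : 2 * (B2 * (n ^ (3 / 2 : ℝ) * Real.exp (a ^ 2 + 3) * Real.exp (-V ^ 2)) *
            (3 / 2 - a)) ≤ 2 * (B2 * (n ^ (3 / 2 : ℝ) * Real.exp (a ^ 2 + 3) * E) *
              (3 / 2 - a)) * Δ := by
          have z1 : 2 * (B2 * (n ^ (3 / 2 : ℝ) * Real.exp (a ^ 2 + 3) * Real.exp (-V ^ 2)) *
            (3 / 2 - a)) ≤ 2 * (B2 * (n ^ (3 / 2 : ℝ) * Real.exp (a ^ 2 + 3) * E) *
              (3 / 2 - a)) := by gcongr
          refine z1.trans (le_mul_of_one_le_right (by positivity) hΔ1)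
        have y2 : D * ((n ^ (3 / 2 : ℝ) * Real.exp 3) * Real.exp (-(V ^ 2 / 2))) *
            (√(2 * π) * Δ) ≤ D * ((n ^ (3 / 2 : ℝ) * Real.exp 3) * E) * (√(2 * π) * Δ) := by
          gcongr
        linarith
    _ = _ := by rw [hH]; ring

/-- Short intervals: the main statement, with the frequency input as a hypothesis. -/
theorem short_aux {r α : ℝ} (hr1 : 1 ≤ r) (hF : GoodFreq r α) {ε : ℝ} (hε : 0 < ε)
    (hε1 : r - 1 + ε < 1) :
    ∃ T0 : ℝ, ∀ T : ℝ, T0 ≤ T → ∃ ρ : ℂ, |ρ.im - T| ≤ T ^ (r - 1 + ε) ∧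
      analyticOrderNatAt riemannZeta (tau r α ρ) < analyticOrderNatAt riemannZeta ρ := by
  obtain ⟨g, c, K, X0, hg0, hg1, hc0, hK1, hF⟩ := hF
  set η : ℝ := ε / 8 with hη
  have hη0 : 0 < η := by positivity
  set d : ℝ := r - 1 with hd
  have hd0 : 0 ≤ d := by linarith
  have hdη : d + η < 1 := by linarith
  have hη1 : η < 1 := by linarith
  obtain ⟨N, hN⟩ := exists_nat_ge (4 / η)
  have hN4 : 4 ≤ η * N := by
    rw [div_le_iff₀ hη0] at hN
    linarith
  have hN0 : (0:ℝ) ≤ N := Nat.cast_nonneg N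
  have hN1r : (1:ℝ) ≤ N := by
    have : η * N ≤ 1 * N := mul_le_mul_of_nonneg_right hη1.le hN0
    linarith only [this, hN4]
  have hN1 : 1 ≤ N := by exact_mod_cast hN1r
  obtain ⟨CL, tL, hCL0, htL, hCL⟩ := left_pt hr1 α N hN1
  obtain ⟨Cg, P, hCg0, hCg⟩ := local_growth (α := α) hr1 N hN1
  set a : ℝ := 1 / 2 - N with ha
  set D : ℝ := D0 (bb r α) (ll r) with hD
  have hll : ∀ j, 1 ≤ ll r j := ll_ge_one (by linarith)
  have hsum := summable_bb hr1 α
  have hD0 : 0 ≤ D := D0_nonneg' hll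
  have hα := abs_nonneg α
  -- the constants
  set A1 : ℝ := 2 * Real.exp (a ^ 2) * (CL * 2 ^ (d * N)) with hA1
  set A2 : ℝ := ((2 * (Cg * 2 ^ P) * Real.exp (a ^ 2 + 3) * (3 / 2 - a)) +
    D * (Real.exp 3 * √(2 * π)) + √π * (Real.exp 5 * D)) * K ^ (3 / 2 : ℝ) with hA2
  have h3a : 0 ≤ 3 / 2 - a := by rw [ha]; linarith
  have hA20 : 0 ≤ A2 := by positivity
  -- the final limit
  have hlim : Tendsto (fun T : ℝ => A1 * T ^ (-1 : ℝ) +
      A2 * (T ^ ((P : ℝ) + 3 / 2) * Real.exp (-(g ^ 2 / 32 * (T ^ η) ^ 2)))) atTop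
      (𝓝 (A1 * 0 + A2 * 0)) := by
    refine ((tendsto_rpow_neg_atTop one_pos).const_mul A1).add (Tendsto.const_mul A2 ?_)
    have h1 := tendsto_rpow_mul_exp_neg_mul_atTop_nhds_zero (((P : ℝ) + 3 / 2) / (2 * η))
      (g ^ 2 / 32) (by positivity)
    have h2 : Tendsto (fun T : ℝ => T ^ (2 * η)) atTop atTop := tendsto_rpow_atTop (by positivity)
    refine (h1.comp h2).congr' ?_
    filter_upwards [eventually_gt_atTop 0] with T hT
    simp only [Function.comp_apply]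
    rw [← Real.rpow_mul hT.le, ← Real.rpow_natCast (T ^ η) 2, ← Real.rpow_mul hT.le]
    have e1 : 2 * η * (((P : ℝ) + 3 / 2) / (2 * η)) = (P : ℝ) + 3 / 2 := by field_simp
    have e2 : η * ((2 : ℕ) : ℝ) = 2 * η := by push_cast; ring
    rw [e1, e2, neg_mul]
  rw [mul_zero, mul_zero, add_zero] at hlim
  have hsq : 0 < √π * c := mul_pos (Real.sqrt_pos.2 Real.pi_pos) hc0
  have ev1 := hlim.eventually_lt_const hsq
  -- eventual inequalities
  have ev2 : ∀ᶠ T : ℝ in atTop, X0 ≤ T ^ (d + η) :=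
    (tendsto_rpow_atTop (by linarith)).eventually_ge_atTop X0
  have hlim3 : Tendsto (fun T : ℝ => T ^ (ε / 2)) atTop atTop := tendsto_rpow_atTop (by positivity)
  have ev3 : ∀ᶠ T : ℝ in atTop, K + N + 5 ≤ T ^ (ε / 2) := hlim3.eventually_ge_atTop _
  have hlim4 : Tendsto (fun T : ℝ => T ^ (1 - (d + ε))) atTop atTop :=
    tendsto_rpow_atTop (by linarith)
  have ev4 : ∀ᶠ T : ℝ in atTop, 2 ≤ T ^ (1 - (d + ε)) := hlim4.eventually_ge_atTop _
  obtain ⟨T0, hT0⟩ := (((ev1.and ev2).and (ev3.and ev4)).and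
    (eventually_ge_atTop (2 * (|α| + N + 8 + tL)))).exists_forall_of_atTop
  refine ⟨T0, fun T hT => ?_⟩
  obtain ⟨⟨⟨h1, h2⟩, h3, h4⟩, h5⟩ := hT0 T hT
  have hT1 : 1 ≤ T := by linarith
  have hTpos : 0 < T := by linarith
  by_contra hcon
  push Not at hcon
  -- the window
  set Hw : ℝ := T ^ (r - 1 + ε) with hHw
  have hHw2 : 2 * Hw ≤ T := by
    have e1 : T = T ^ (1 - (d + ε)) * Hw := by
      rw [hHw, ← Real.rpow_add hTpos]
      have : 1 - (d + ε) + (r - 1 + ε) = 1 := by rw [hd]; ring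
      rw [this, Real.rpow_one]
    have hHw0 : 0 < Hw := by positivity
    calc 2 * Hw ≤ T ^ (1 - (d + ε)) * Hw := by gcongr
      _ = T := e1.symm
  obtain ⟨n, hn1, hn2, hiso, hcn⟩ := hF (T ^ (d + η)) h2
  set V : ℝ := T ^ η with hV
  have hV1 : 1 ≤ V := Real.one_le_rpow hT1 hη0.le
  have hX1 : 1 ≤ T ^ (d + η) := Real.one_le_rpow hT1 (by linarith)
  have hn1' : 1 ≤ n := hX1.trans hn1
  have hn0 : 0 < n := by linarith
  set Δ : ℝ := n * V with hΔ
  set H : ℝ := Δ * V with hH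
  have hΔ1 : 1 ≤ Δ := by rw [hΔ]; exact one_le_mul_of_one_le_of_one_le hn1' hV1
  have hH0 : 0 ≤ H := by positivity
  -- H + N + 5 ≤ Hw
  have hHle : H + (N + 5) ≤ Hw := by
    have e1 : H = n * T ^ (2 * η) := by
      rw [hH, hΔ, hV, mul_assoc, ← Real.rpow_add hTpos]
      congr 2
      ring
    have e2 : H ≤ K * T ^ (d + 3 * η) := by
      rw [e1]
      calc n * T ^ (2 * η) ≤ (K * T ^ (d + η)) * T ^ (2 * η) := by gcongr
        _ = K * (T ^ (d + η) * T ^ (2 * η)) := by ring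
        _ = K * T ^ (d + 3 * η) := by
          rw [← Real.rpow_add hTpos]
          congr 2
          ring
    have e3 : T ^ (d + 3 * η) ≤ T ^ (d + 4 * η) :=
      Real.rpow_le_rpow_of_exponent_le hT1 (by linarith)
    have e4 : Hw = T ^ (d + 4 * η) * T ^ (ε / 2) := by
      rw [hHw, ← Real.rpow_add hTpos]
      congr 1
      rw [hη, hd]
      ring
    have e5 : 1 ≤ T ^ (d + 4 * η) := Real.one_le_rpow hT1 (by linarith)
    have e6 : K * T ^ (d + 3 * η) ≤ K * T ^ (d + 4 * η) := by gcongr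
    calc H + (N + 5) ≤ K * T ^ (d + 4 * η) + (N + 5) * T ^ (d + 4 * η) := by
          have : (N:ℝ) + 5 ≤ (N + 5) * T ^ (d + 4 * η) := le_mul_of_one_le_right (by positivity) e5
          linarith
      _ = T ^ (d + 4 * η) * (K + N + 5) := by ring
      _ ≤ T ^ (d + 4 * η) * T ^ (ε / 2) := by gcongr
      _ = Hw := e4.symm
  -- the open set
  set U : Set ℂ := {s | |s.im - T| < Hw} with hU
  have hUim : ∀ s ∈ U, |α| + N + 8 ≤ s.im := by
    intro s hs
    have h6 : |s.im - T| < Hw := hs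
    have h7 := (abs_lt.1 h6).1
    linarith
  have hUtau : ∀ s ∈ U, 4 ≤ (tau r α s).im := by
    intro s hs
    have h6 := hUim s hs
    rw [tau_im]
    have h7 := neg_abs_le α
    have h8 : s.im ≤ r * s.im := le_mul_of_one_le_left (by linarith only [h6, hα, hN0]) hr1
    linarith only [h6, h7, h8, hN0]
  have hne1 : ∀ s : ℂ, 4 ≤ s.im → s ≠ 1 := by
    intro s hs h; rw [h] at hs; norm_num at hs
  have hgA : AnalyticOnNhd ℂ riemannZeta U := fun s hs =>
    analyticAt_zeta (hne1 s (by linarith [hUim s hs]))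
  have htau : ∀ s : ℂ, AnalyticAt ℂ (tau r α) s := by
    intro s; unfold tau; fun_prop
  have hfA : AnalyticOnNhd ℂ (fun s => riemannZeta (tau r α s)) U := by
    intro s hs
    exact (analyticAt_zeta (hne1 _ (hUtau s hs))).comp (htau s)
  have hderiv : ∀ s : ℂ, deriv (tau r α) s ≠ 0 := by
    intro s
    have : deriv (tau r α) s = r := by
      have h1 : HasDerivAt (tau r α) r s := by
        unfold tau
        have h2 := (((hasDerivAt_id s).sub_const (1 / 2 : ℂ)).const_mul (r : ℂ)).const_add (1 / 2 : ℂ)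
        have h3 := h2.add_const (α * I)
        simpa using h3
      exact h1.deriv
    rw [this]
    exact_mod_cast (by linarith : r ≠ 0)
  obtain ⟨h, hh, hfgh⟩ := quot_exists (U := U) hfA hgA
    (fun z hz => zeta_order_ne_top (hne1 z (by linarith [hUim z hz]))) (by
      intro z hz
      have h1 := meromorphicOrderAt_comp_of_deriv_ne_zero (f := riemannZeta) (htau z) (hderiv z)
      have h2 : (fun s => riemannZeta (tau r α s)) = riemannZeta ∘ tau r α := rfl
      rw [h2, h1]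
      refine order_le (hne1 z (by linarith [hUim z hz])) (hne1 _ (hUtau z hz)) ?_
      have h6 : |z.im - T| < Hw := hz
      exact hcon z h6.le)
  -- membership facts
  have hmemU : ∀ s : ℂ, |s.im - T| ≤ H → s ∈ U := by
    intro s hs
    show |s.im - T| < Hw
    linarith
  have hIm : ∀ t : ℝ, |t - T| ≤ H → t ≤ 2 * T ∧ tL ≤ t := by
    intro t ht
    have h6 := abs_le.1 ht
    constructor <;> linarith [h6.1, h6.2]
  -- the inequality
  have hext := extract (b := bb r α) (lam := ll r) hll hsum (T := T) (Δ := Δ) hn1' hg0 hg1 hΔ1 hiso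
  have hwin := window (b := bb r α) (lam := ll r) hll hsum (T := T) (Δ := Δ) (a := a) (H := H)
    (B1 := CL * (2 * T) ^ (d * N)) (B2 := Cg * (2 * T) ^ P) (h := h) hn1' hΔ1
    (by rw [ha]; linarith) hH0 ?_ ?_ (by positivity) (by positivity) ?_ ?_
  · -- conclusion
    have hmain : √π * Δ * c ≤ _ := (mul_le_mul_of_nonneg_left hcn (by positivity)).trans
      (hext.trans (add_le_add_left hwin _))
    have hclean := clean_ineq (D := D) (B1 := CL * (2 * T) ^ (d * N)) (B2 := Cg * (2 * T) ^ P)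
      (n := n) (Δ := Δ) (H := H) (V := V) (a := a) (g := g) (c := c) hn1' hV1 hΔ hH hD0
      (by positivity) hg0 hg1 (by rw [ha]; linarith) hmain
    -- bound the two terms
    have t1 : 2 * Real.exp (a ^ 2) * (CL * (2 * T) ^ (d * N) * n ^ a * V) ≤ A1 * T ^ (-1 : ℝ) := by
      have q1 : n ^ a ≤ (T ^ (d + η)) ^ a := by
        refine Real.rpow_le_rpow_of_nonpos (by positivity) hn1 ?_
        rw [ha]; linarith
      have q2 : (2 * T) ^ (d * N) = 2 ^ (d * N) * T ^ (d * N) := Real.mul_rpow (by norm_num) hTpos.le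
      have q3 : T ^ (d * N) * (T ^ (d + η)) ^ a * T ^ η ≤ T ^ (-1 : ℝ) := by
        rw [← Real.rpow_mul hTpos.le, ← Real.rpow_add hTpos, ← Real.rpow_add hTpos]
        refine Real.rpow_le_rpow_of_exponent_le hT1 ?_
        rw [ha]
        have w1 : d * N + (d + η) * (1 / 2 - N) + η = (d + η) / 2 + η - η * N := by ring
        rw [w1]
        linarith only [hN4, hdη, hη1]
      rw [q2, hA1]
      calc 2 * Real.exp (a ^ 2) * (CL * (2 ^ (d * N) * T ^ (d * N)) * n ^ a * V) ≤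
          2 * Real.exp (a ^ 2) * (CL * (2 ^ (d * N) * T ^ (d * N)) * (T ^ (d + η)) ^ a * V) := by
            gcongr
        _ = 2 * Real.exp (a ^ 2) * (CL * 2 ^ (d * N)) *
            (T ^ (d * N) * (T ^ (d + η)) ^ a * T ^ η) := by rw [hV]; ring
        _ ≤ _ := by gcongr
    have t2 : ((2 * (Cg * (2 * T) ^ P) * Real.exp (a ^ 2 + 3) * (3 / 2 - a)) +
        D * (Real.exp 3 * √(2 * π)) + √π * (Real.exp 5 * D)) *
        (n ^ (3 / 2 : ℝ) * Real.exp (-(g ^ 2 / 32 * V ^ 2))) ≤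
        A2 * (T ^ ((P : ℝ) + 3 / 2) * Real.exp (-(g ^ 2 / 32 * V ^ 2))) := by
      have q1 : n ^ (3 / 2 : ℝ) ≤ K ^ (3 / 2 : ℝ) * T ^ (3 / 2 : ℝ) := by
        rw [← Real.mul_rpow (by linarith) hTpos.le]
        refine Real.rpow_le_rpow hn0.le ?_ (by norm_num)
        refine hn2.trans (mul_le_mul_of_nonneg_left ?_ (by linarith))
        calc T ^ (d + η) ≤ T ^ (1:ℝ) := Real.rpow_le_rpow_of_exponent_le hT1 (by linarith)
          _ = T := Real.rpow_one T
      have q2 : 1 ≤ T ^ P := one_le_pow₀ hT1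
      have q3 : T ^ ((P : ℝ) + 3 / 2) = T ^ P * T ^ (3 / 2 : ℝ) := by
        rw [Real.rpow_add hTpos, Real.rpow_natCast]
      have q4 : (2 * (Cg * (2 * T) ^ P) * Real.exp (a ^ 2 + 3) * (3 / 2 - a)) +
          D * (Real.exp 3 * √(2 * π)) + √π * (Real.exp 5 * D) ≤
          ((2 * (Cg * 2 ^ P) * Real.exp (a ^ 2 + 3) * (3 / 2 - a)) +
          D * (Real.exp 3 * √(2 * π)) + √π * (Real.exp 5 * D)) * T ^ P := by
        have w1 : 0 ≤ D * (Real.exp 3 * √(2 * π)) + √π * (Real.exp 5 * D) := by positivity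
        have w2 : D * (Real.exp 3 * √(2 * π)) + √π * (Real.exp 5 * D) ≤
            (D * (Real.exp 3 * √(2 * π)) + √π * (Real.exp 5 * D)) * T ^ P :=
          le_mul_of_one_le_right w1 q2
        have w3 : (2 * (Cg * (2 * T) ^ P) * Real.exp (a ^ 2 + 3) * (3 / 2 - a)) =
            (2 * (Cg * 2 ^ P) * Real.exp (a ^ 2 + 3) * (3 / 2 - a)) * T ^ P := by
          rw [mul_pow]; ring
        rw [w3]
        linarith
      rw [q3, hA2]
      set E := Real.exp (-(g ^ 2 / 32 * V ^ 2)) with hE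
      have hE0 : 0 < E := Real.exp_pos _
      calc _ ≤ (((2 * (Cg * 2 ^ P) * Real.exp (a ^ 2 + 3) * (3 / 2 - a)) +
          D * (Real.exp 3 * √(2 * π)) + √π * (Real.exp 5 * D)) * T ^ P) *
          ((K ^ (3 / 2 : ℝ) * T ^ (3 / 2 : ℝ)) * E) := by gcongr
        _ = _ := by ring
    linarith
  · intro s hs1 hs2 hs3
    exact (hh s (hmemU s hs3)).differentiableAt
  · intro t ht
    have hs : ((3 : ℂ) / 2 + t * I) ∈ U := hmemU _ (by simpa using ht)
    rw [DD, ← quot_series hr1 α t, hfgh _ hs, mul_assoc,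
      zeta_mul_moebius (by simp; norm_num), mul_one]
  · intro t ht
    have h6 := hIm t ht
    have e1 : ((a : ℂ) + t * I) = 1 / 2 - N + t * I := by rw [ha]; push_cast; ring
    have hs : ((1 : ℂ) / 2 - N + t * I) ∈ U := hmemU _ (by simpa using ht)
    rw [e1]
    refine (hCL t h6.2 _ (hfgh _ hs)).trans ?_
    exact mul_le_mul_of_nonneg_left (Real.rpow_le_rpow (by linarith only [h6.2, htL]) h6.1
      (by positivity)) hCL0
  · intro σ t h6 h7 h8
    have h9 := hIm t h8.le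
    have hsim : ((σ : ℂ) + t * I).im = t := by simp
    have hsre : ((σ : ℂ) + t * I).re = σ := by simp
    have hball : closedBall ((2 : ℂ) + ((σ : ℂ) + t * I).im * I) (N + 4) ⊆ U := by
      intro z hz
      rw [hsim, mem_closedBall, dist_eq_norm] at hz
      have h10 := Complex.abs_im_le_norm (z - (2 + t * I))
      have h11 : (z - (2 + t * I)).im = z.im - t := by simp
      rw [h11] at h10
      show |z.im - T| < Hw
      have h12 : |z.im - T| ≤ |z.im - t| + |t - T| := by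
        have : z.im - T = (z.im - t) + (t - T) := by ring
        rw [this]
        exact abs_add_le _ _
      linarith
    have h13 := hCg h ((σ : ℂ) + t * I) (by
        refine hUim _ (hmemU _ ?_)
        rw [hsim]; exact h8.le)
      (by rw [hsre]; exact h6) (by rw [hsre]; exact h7)
      (hh.mono hball) (fun z hz => hfgh z (hball hz))
    rw [hsim] at h13
    refine h13.trans ?_
    have h14 : 0 ≤ t := by linarith only [h9.2, htL]
    exact mul_le_mul_of_nonneg_left (pow_le_pow_left₀ h14 h9.1 P) hCg0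

end Pool.Agent.helper70
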