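import Mathlib
import Pool.Agent.helper70.Short

open Complex Metric Set MeasureTheory Real Filter Topology

namespace Pool.Agent.helper70

lemma goodFreq_rat (r : ℚ) (hr1 : 1 ≤ r) (α : ℝ) (hne : ¬ (r = 1 ∧ α = 0)) :
    GoodFreq (r : ℝ) α := by
  rcases eq_or_lt_of_le hr1 with h1 | h1
  · have hα0 : α ≠ 0 := fun h => hne ⟨h1.symm, h⟩
    rw [← h1]
    simpa using goodFreq_one hα0
  · have hden : 0 < r.den := r.den_pos
    have hnum : 0 < r.num := by
      rw [Rat.num_pos]; linarith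
    obtain ⟨p, hp⟩ : ∃ p : ℕ, r.num = p := ⟨r.num.toNat, (Int.toNat_of_nonneg hnum.le).symm⟩
    have hrpq : r = (p : ℚ) / (r.den : ℚ) := by
      conv_lhs => rw [← Rat.num_div_den r]
      rw [hp]
      push_cast
      rfl
    have hdq : (0:ℚ) < (r.den : ℚ) := by exact_mod_cast hden
    have hqp : r.den < p := by
      rw [hrpq, lt_div_iff₀ hdq, one_mul] at h1
      exact_mod_cast h1
    have hrR : (r : ℝ) = (p : ℝ) / (r.den : ℝ) := by
      conv_lhs => rw [hrpq]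
      push_cast
      rfl
    rw [hrR]
    exact goodFreq_gt_one hden hqp α

/-- Exceptional zeros in short intervals, for a rational dilation factor `1 ≤ r < 2`. -/
theorem short_rat (r : ℚ) (hr1 : 1 ≤ r) (hr2 : r < 2) (α : ℝ) (hne : ¬ (r = 1 ∧ α = 0))
    (ε : ℝ) (hε : 0 < ε) :
    ∃ T0 : ℝ, ∀ T : ℝ, T0 ≤ T → ∃ ρ : ℂ, |ρ.im - T| ≤ T ^ ((r : ℝ) - 1 + ε) ∧
      analyticOrderNatAt riemannZeta (1 / 2 + r * (ρ - 1 / 2) + α * I) <
        analyticOrderNatAt riemannZeta ρ := by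
  have hr1' : (1:ℝ) ≤ (r : ℝ) := by exact_mod_cast hr1
  have hr2' : (r : ℝ) < 2 := by exact_mod_cast hr2
  set ε' : ℝ := min ε ((2 - r) / 2) with hε'
  have h1 : 0 < ε' := lt_min hε (by linarith)
  have h2 : (r : ℝ) - 1 + ε' < 1 := by
    have := min_le_right ε ((2 - (r : ℝ)) / 2)
    linarith
  obtain ⟨T0, hT0⟩ := short_aux hr1' (goodFreq_rat r hr1 α hne) h1 h2
  refine ⟨max T0 1, fun T hT => ?_⟩
  obtain ⟨ρ, h3, h4⟩ := hT0 T ((le_max_left _ _).trans hT)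
  have hT1 : 1 ≤ T := (le_max_right _ _).trans hT
  refine ⟨ρ, h3.trans ?_, ?_⟩
  · exact Real.rpow_le_rpow_of_exponent_le hT1 (by
      have := min_le_left ε ((2 - (r : ℝ)) / 2)
      linarith)
  · have h6 : (1 / 2 + (r : ℂ) * (ρ - 1 / 2) + α * I) = tau (r : ℝ) α ρ := by
      rw [tau]; push_cast; rfl
    rw [h6]
    exact h4

end Pool.Agent.helper70
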